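import Pool.Agent.Helper59.MF.Osc

/-!
# MF: densities of degree one
-/

set_option autoImplicit false

namespace Pool.Agent.Helper59.MF

open Finset MeasureTheory Filter Topology
open Pool.Agent.Helper59.RE (e norm_e e_add conj_e continuous_e e_zero)

variable {H : ℕ} {G : ℤ → ℂ} {g : ℝ → ℝ}

theorem Dens.conj (hg : Dens H G g) {k : ℤ} (hk : k ∈ Icc (-(H : ℤ)) H) :
    G (-k) = (starRingEnd ℂ) (G k) := by
  have hk' : -k ∈ Icc (-(H : ℤ)) H := by
    rw [mem_Icc] at hk ⊢
    omega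
  have h1 : cc H G k = G (-k) := if_pos hk'
  have h2 : cc H G (-k) = G k := by
    unfold cc
    rw [neg_neg, if_pos hk]
  rw [← h1, ← h2, ← hg.coeff, ← hg.coeff, ← intervalIntegral.intervalIntegral_conj]
  refine intervalIntegral.integral_congr fun t _ => ?_
  rw [map_mul, conj_e, Complex.conj_ofReal]
  push_cast
  rw [neg_mul, neg_neg]

theorem Dens.half (hg : Dens 1 G g) {k : ℤ} (hk : k ∈ Icc (-((1 : ℕ) : ℤ)) ((1 : ℕ) : ℤ)) (hk0 : k ≠ 0) :
    ‖G k‖ ≤ 1 / 2 := by
  have h1 : G (-1) = (starRingEnd ℂ) (G 1) := hg.conj (by decide)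
  have hn : ‖G k‖ = ‖G 1‖ := by
    rw [mem_Icc] at hk
    push_cast at hk
    have h2 : k = 1 ∨ k = -1 := by omega
    rcases h2 with rfl | rfl
    · rfl
    · rw [h1, RCLike.norm_conj]
  rw [hn]
  -- the minimum
  set t : ℝ := (Real.pi - Complex.arg (G 1)) / (2 * Real.pi) with ht
  have he : G 1 * e t = -(‖G 1‖ : ℂ) := by
    have h2 : e t = -Complex.exp (-(Complex.arg (G 1) : ℂ) * Complex.I) := by
      unfold e
      have h3 : (2 * Real.pi * Complex.I * (t : ℝ) : ℂ) =
          Real.pi * Complex.I + -(Complex.arg (G 1) : ℂ) * Complex.I := by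
        have hpi : (Real.pi : ℂ) ≠ 0 := by exact_mod_cast Real.pi_ne_zero
        rw [ht]
        push_cast
        field_simp
        ring
      rw [h3, Complex.exp_add, Complex.exp_pi_mul_I]
      ring
    rw [h2]
    nth_rewrite 1 [← Complex.norm_mul_exp_arg_mul_I (G 1)]
    rw [mul_neg, mul_assoc, ← Complex.exp_add]
    have h4 : (Complex.arg (G 1) : ℂ) * Complex.I + -(Complex.arg (G 1) : ℂ) * Complex.I = 0 := by ring
    rw [h4, Complex.exp_zero, mul_one]
  have h2 := hg.eq t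
  have h3 : Icc (-((1 : ℕ) : ℤ)) ((1 : ℕ) : ℤ) = {-1, 0, 1} := by decide
  rw [h3, sum_insert (by decide), sum_insert (by decide), sum_singleton, hg.zero, h1] at h2
  push_cast at h2
  have h4 : (starRingEnd ℂ) (G 1) * e (-1 * t) = -(‖G 1‖ : ℂ) := by
    have h5 : (starRingEnd ℂ) (G 1 * e t) = -(‖G 1‖ : ℂ) := by
      rw [he, map_neg, Complex.conj_ofReal]
    rw [map_mul, conj_e] at h5
    rw [neg_one_mul]
    exact h5
  rw [h4, zero_mul, e_zero, one_mul, one_mul, he] at h2
  have h5 : g t = 1 - 2 * ‖G 1‖ := by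
    have : (g t : ℂ) = ((1 - 2 * ‖G 1‖ : ℝ) : ℂ) := by
      rw [h2]
      push_cast
      ring
    exact_mod_cast this
  have h6 := hg.pos t
  linarith

end Pool.Agent.Helper59.MF
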