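import Mathlib

/-!
# MF-FR: the theorem of Fejer and Riesz

If `P` is a complex polynomial of degree at most `2H` and
`P(z) = x z^H` with a real `x > 0` for every `|z| = 1`, there is `Q` of degree at most `H` with
`P(z) = |Q(z)|^2 z^H` for `|z| = 1`.  Induction on `H`.  `H = 0`: a constant.  Step: Let `P*` be the
polynomial with the coefficients `conj p_(2H-j)`; `P` and `P*` agree on the unit circle (infinitely many
points; `conj z = 1/z`), so `P = P*`.  If `P` has no root except zero, `P = c z^j` (split over the complex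
numbers), and then `j = H` (take two points of the circle) and `c > 0`.  Otherwise let `α ≠ 0` be a root;
`|α| ≠ 1`, and `1/conj α ≠ α` is a root as `P = P*`.  So `P = (z - α)(z - 1/conj α) P₁`, and for
`|z| = 1`: `z - 1/conj α = -(z / conj α) conj(z - α)`, hence
`P(z) = |z - α|^2 z (-P₁(z)/conj α)`; apply the induction hypothesis to `-P₁/conj α` (degree at most
`2(H-1)`, positive as `|z - α|^2 > 0`), and `Q = (z - α) Q₁`.
-/

set_option autoImplicit false

namespace Pool.Agent.Helper59.MF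

open Finset MeasureTheory Filter Topology

private theorem circle_inf99 : {z : ℂ | ‖z‖ = 1}.Infinite := by
  have h1 : Function.Injective (fun n : ℕ => Complex.exp (Complex.I / (n + 1 : ℝ))) := by
    intro a b hab
    have h2 : ∀ n : ℕ, Complex.I / ((n + 1 : ℝ) : ℂ) = (((1 / (n + 1 : ℝ)) : ℝ) : ℂ) * Complex.I := by
      intro n
      push_cast
      ring
    simp only at hab
    rw [h2, h2] at hab
    have hpi := Real.pi_gt_three
    have h3 : ∀ n : ℕ, 0 < 1 / (n + 1 : ℝ) ∧ 1 / (n + 1 : ℝ) ≤ 1 := by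
      intro n
      constructor
      · positivity
      · rw [div_le_one (by positivity)]
        linarith [(Nat.cast_nonneg n : (0:ℝ) ≤ n)]
    have h4 := congrArg Complex.arg hab
    rw [Complex.arg_exp_mul_I, Complex.arg_exp_mul_I] at h4
    rw [(toIocMod_eq_self _).2 ⟨by linarith [(h3 a).1], by linarith [(h3 a).2]⟩,
      (toIocMod_eq_self _).2 ⟨by linarith [(h3 b).1], by linarith [(h3 b).2]⟩] at h4
    rw [one_div, one_div, inv_inj] at h4
    have h5 : (a : ℝ) = b := by linarith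
    exact_mod_cast h5
  refine (Set.infinite_range_of_injective h1).mono ?_
  rintro _ ⟨n, rfl⟩
  have h2 : Complex.I / ((n + 1 : ℝ) : ℂ) = (((1 / (n + 1 : ℝ)) : ℝ) : ℂ) * Complex.I := by
    push_cast
    ring
  change ‖Complex.exp (Complex.I / ((n + 1 : ℝ) : ℂ))‖ = 1
  rw [h2, Complex.norm_exp_ofReal_mul_I]

private theorem eq_of_circle99 {P Q : Polynomial ℂ} (h : ∀ z : ℂ, ‖z‖ = 1 → P.eval z = Q.eval z) : P = Q := by
  refine Polynomial.eq_of_infinite_eval_eq P Q ?_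
  exact circle_inf99.mono fun z hz => h z hz

/-- the reflected polynomial -/
private theorem refl_eval99 (P : Polynomial ℂ) (N : ℕ) (hN : P.natDegree ≤ N) {z : ℂ} (hz : z ≠ 0) :
    (Polynomial.reflect N (P.map (starRingEnd ℂ))).eval z =
      z ^ N * (starRingEnd ℂ) (P.eval ((starRingEnd ℂ) z⁻¹)) := by
  have h1 : (P.map (starRingEnd ℂ)).natDegree ≤ N := Polynomial.natDegree_map_le.trans hN
  have h0 : z⁻¹ ≠ 0 := inv_ne_zero hz
  have : Invertible z⁻¹ := invertibleOfNonzero h0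
  have h2 := Polynomial.eval₂_reflect_mul_pow (RingHom.id ℂ) z⁻¹ N (P.map (starRingEnd ℂ)) h1
  rw [invOf_eq_inv, inv_inv] at h2
  have h3 : Polynomial.eval₂ (RingHom.id ℂ) z⁻¹ (P.map (starRingEnd ℂ)) =
      (starRingEnd ℂ) (P.eval ((starRingEnd ℂ) z⁻¹)) := by
    rw [Polynomial.eval₂_map, RingHom.id_comp]
    conv_lhs => rw [← Complex.conj_conj z⁻¹]
    exact Polynomial.eval₂_at_apply _ _
  rw [h3] at h2
  rw [← h2]
  change _ = z ^ N * (Polynomial.eval z _ * z⁻¹ ^ N)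
  rw [inv_pow]
  field_simp

private theorem self_refl99 {H : ℕ} {P : Polynomial ℂ} (hd : P.natDegree ≤ 2 * H)
    (hpos : ∀ z : ℂ, ‖z‖ = 1 → ∃ x : ℝ, 0 < x ∧ P.eval z = x * z ^ H) :
    Polynomial.reflect (2 * H) (P.map (starRingEnd ℂ)) = P := by
  refine eq_of_circle99 fun z hz => ?_
  have hz0 : z ≠ 0 := by
    rintro rfl
    simp at hz
  have h1 : (starRingEnd ℂ) z⁻¹ = z := by
    rw [Complex.inv_def, Complex.normSq_eq_norm_sq, hz]
    simp
  have h2 : (starRingEnd ℂ) z = z⁻¹ := by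
    rw [← h1, Complex.conj_conj, h1]
  obtain ⟨x, hx, hP⟩ := hpos z hz
  rw [refl_eval99 P _ hd hz0, h1, hP, map_mul, Complex.conj_ofReal, map_pow, h2, two_mul, pow_add, inv_pow]
  have h3 : z ^ H ≠ 0 := pow_ne_zero _ hz0
  field_simp

private theorem fr_step99 {H : ℕ} {P : Polynomial ℂ} (hd : P.natDegree ≤ 2 * H)
    (hpos : ∀ z : ℂ, ‖z‖ = 1 → ∃ x : ℝ, 0 < x ∧ P.eval z = x * z ^ H) {α : ℂ} (hα : α ≠ 0) (hPα : P.eval α = 0)
    (ih : ∀ P : Polynomial ℂ, P.natDegree ≤ 2 * (H - 1) →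
      (∀ z : ℂ, ‖z‖ = 1 → ∃ x : ℝ, 0 < x ∧ P.eval z = x * z ^ (H - 1)) →
      ∃ Q : Polynomial ℂ, Q.natDegree ≤ H - 1 ∧
        ∀ z : ℂ, ‖z‖ = 1 → P.eval z = ((‖Q.eval z‖ ^ 2 : ℝ) : ℂ) * z ^ (H - 1)) :
    ∃ Q : Polynomial ℂ, Q.natDegree ≤ H ∧
      ∀ z : ℂ, ‖z‖ = 1 → P.eval z = ((‖Q.eval z‖ ^ 2 : ℝ) : ℂ) * z ^ H := by
  have hP0 : P ≠ 0 := by
    rintro rfl
    obtain ⟨x, hx, h⟩ := hpos 1 norm_one
    rw [Polynomial.eval_zero, one_pow, mul_one] at h
    have : x = 0 := by exact_mod_cast h.symm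
    linarith
  have hα1 : ‖α‖ ≠ 1 := by
    intro h
    obtain ⟨x, hx, h1⟩ := hpos α h
    rw [hPα] at h1
    have h2 : (x : ℂ) ≠ 0 := by exact_mod_cast hx.ne'
    exact mul_ne_zero h2 (pow_ne_zero _ hα) h1.symm
  have hcα : (starRingEnd ℂ) α ≠ 0 := (map_ne_zero _).2 hα
  obtain ⟨β, hβ⟩ : ∃ β : ℂ, β = ((starRingEnd ℂ) α)⁻¹ := ⟨_, rfl⟩
  have hβ0 : β ≠ 0 := by rw [hβ]; exact inv_ne_zero hcα
  have hPβ : P.eval β = 0 := by
    have h1 := refl_eval99 P _ hd hβ0
    rw [self_refl99 hd hpos] at h1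
    rw [h1, hβ, inv_inv, Complex.conj_conj, hPα, map_zero, mul_zero]
  have hne : β - α ≠ 0 := by
    intro h
    apply hα1
    have h1 : β = α := sub_eq_zero.1 h
    have h2 : α * (starRingEnd ℂ) α = 1 := by
      calc α * (starRingEnd ℂ) α = β * (starRingEnd ℂ) α := by rw [h1]
        _ = 1 := by rw [hβ, inv_mul_cancel₀ hcα]
    rw [Complex.mul_conj, Complex.normSq_eq_norm_sq] at h2
    have h3 : ‖α‖ ^ 2 = 1 := by exact_mod_cast h2
    nlinarith [norm_nonneg α]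
  obtain ⟨P1, hP1⟩ := Polynomial.dvd_iff_isRoot.2 hPα
  have h1 : P1.eval β = 0 := by
    have := hPβ
    rw [hP1, Polynomial.eval_mul, Polynomial.eval_sub, Polynomial.eval_X, Polynomial.eval_C] at this
    exact (mul_eq_zero.1 this).resolve_left hne
  obtain ⟨P2, hP2⟩ := Polynomial.dvd_iff_isRoot.2 h1
  have hP10 : P1 ≠ 0 := by
    rintro rfl
    exact hP0 (by rw [hP1, mul_zero])
  have hP20 : P2 ≠ 0 := by
    rintro rfl
    exact hP10 (by rw [hP2, mul_zero])
  have hdeg : P.natDegree = P2.natDegree + 2 := by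
    rw [hP1, Polynomial.natDegree_mul (Polynomial.X_sub_C_ne_zero _) hP10, hP2,
      Polynomial.natDegree_mul (Polynomial.X_sub_C_ne_zero _) hP20, Polynomial.natDegree_X_sub_C,
      Polynomial.natDegree_X_sub_C]
    ring
  have hH : 1 ≤ H := by omega
  have key : ∀ z : ℂ, ‖z‖ = 1 → P.eval z = ((‖z - α‖ ^ 2 : ℝ) : ℂ) * z *
      (Polynomial.C (-((starRingEnd ℂ) α)⁻¹) * P2).eval z := by
    intro z hz
    have hz0 : z ≠ 0 := by
      rintro rfl
      simp at hz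
    have hcz : (starRingEnd ℂ) z = z⁻¹ := by
      rw [Complex.inv_def, Complex.normSq_eq_norm_sq, hz]
      simp
    have e1 : ((‖z - α‖ ^ 2 : ℝ) : ℂ) = (z - α) * (z⁻¹ - (starRingEnd ℂ) α) := by
      rw [← Complex.normSq_eq_norm_sq, ← Complex.mul_conj, map_sub, hcz]
    have e2 : P.eval z = (z - α) * ((z - β) * P2.eval z) := by
      conv_lhs => rw [hP1, hP2]
      simp only [Polynomial.eval_mul, Polynomial.eval_sub, Polynomial.eval_X, Polynomial.eval_C]
    rw [e2, e1, Polynomial.eval_mul, Polynomial.eval_C, hβ]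
    have e3 : z - ((starRingEnd ℂ) α)⁻¹ = (z⁻¹ - (starRingEnd ℂ) α) * z * (-((starRingEnd ℂ) α)⁻¹) := by
      have f1 : z⁻¹ * z = 1 := inv_mul_cancel₀ hz0
      have f2 : (starRingEnd ℂ) α * ((starRingEnd ℂ) α)⁻¹ = 1 := mul_inv_cancel₀ hcα
      linear_combination (((starRingEnd ℂ) α)⁻¹) * f1 - z * f2
    rw [e3]
    ring
  have hd3 : (Polynomial.C (-((starRingEnd ℂ) α)⁻¹) * P2).natDegree ≤ 2 * (H - 1) :=
    (Polynomial.natDegree_C_mul_le _ _).trans (by omega)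
  have hzα : ∀ z : ℂ, ‖z‖ = 1 → 0 < ‖z - α‖ := by
    intro z hz
    rw [norm_pos_iff, sub_ne_zero]
    rintro rfl
    exact hα1 hz
  have hpos3 : ∀ z : ℂ, ‖z‖ = 1 → ∃ x : ℝ, 0 < x ∧
      (Polynomial.C (-((starRingEnd ℂ) α)⁻¹) * P2).eval z = x * z ^ (H - 1) := by
    intro z hz
    have hz0 : z ≠ 0 := by
      rintro rfl
      simp at hz
    obtain ⟨x, hx, hPz⟩ := hpos z hz
    have h2 := hzα z hz
    refine ⟨x / ‖z - α‖ ^ 2, by positivity, ?_⟩
    have h3 := key z hz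
    rw [hPz] at h3
    have h4 : ((‖z - α‖ ^ 2 : ℝ) : ℂ) ≠ 0 := by
      have : (‖z - α‖ ^ 2 : ℝ) ≠ 0 := by positivity
      exact_mod_cast this
    have h5 : z ^ H = z * z ^ (H - 1) := by
      conv_lhs => rw [← Nat.sub_add_cancel hH]
      rw [pow_succ, mul_comm]
    rw [h5] at h3
    rw [Complex.ofReal_div]
    have h6 : ((‖z - α‖ ^ 2 : ℝ) : ℂ) * z ≠ 0 := mul_ne_zero h4 hz0
    apply mul_left_cancel₀ h6
    rw [← h3]
    field_simp
  obtain ⟨Q1, hQ1, hQ2⟩ := ih _ hd3 hpos3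
  refine ⟨(Polynomial.X - Polynomial.C α) * Q1, ?_, ?_⟩
  · refine (Polynomial.natDegree_mul_le).trans ?_
    rw [Polynomial.natDegree_X_sub_C]
    omega
  · intro z hz
    rw [key z hz, hQ2 z hz, Polynomial.eval_mul, Polynomial.eval_sub, Polynomial.eval_X, Polynomial.eval_C, norm_mul,
      mul_pow, Complex.ofReal_mul]
    have h5 : z ^ H = z * z ^ (H - 1) := by
      conv_lhs => rw [← Nat.sub_add_cancel hH]
      rw [pow_succ, mul_comm]
    rw [h5]
    ring

private theorem fr_noroot99 {H : ℕ} {P : Polynomial ℂ}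
    (hpos : ∀ z : ℂ, ‖z‖ = 1 → ∃ x : ℝ, 0 < x ∧ P.eval z = x * z ^ H) (hr : ∀ α : ℂ, α ≠ 0 → P.eval α ≠ 0) :
    ∃ Q : Polynomial ℂ, Q.natDegree ≤ H ∧
      ∀ z : ℂ, ‖z‖ = 1 → P.eval z = ((‖Q.eval z‖ ^ 2 : ℝ) : ℂ) * z ^ H := by
  have hP0 : P ≠ 0 := by
    rintro rfl
    exact hr 1 one_ne_zero (by simp)
  obtain ⟨c, j, hcj⟩ : ∃ (c : ℂ) (j : ℕ), P = Polynomial.C c * Polynomial.X ^ j := by
    have h1 := (IsAlgClosed.splits P).eq_prod_roots
    have h2 : P.roots = Multiset.replicate (Multiset.card P.roots) 0 := by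
      rw [Multiset.eq_replicate]
      refine ⟨rfl, fun b hb => ?_⟩
      by_contra hb0
      exact hr b hb0 ((Polynomial.mem_roots hP0).1 hb)
    refine ⟨P.leadingCoeff, Multiset.card P.roots, ?_⟩
    conv_lhs => rw [h1, h2]
    rw [Multiset.map_replicate, Multiset.prod_replicate, Polynomial.C_0, sub_zero]
  obtain ⟨x1, hx1, h1⟩ := hpos 1 norm_one
  rw [hcj, Polynomial.eval_mul, Polynomial.eval_C, Polynomial.eval_pow, Polynomial.eval_X, one_pow, one_pow, mul_one,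
    mul_one] at h1
  have h2 : ∀ z : ℂ, ‖z‖ = 1 → P.eval z = (x1 : ℂ) * z ^ H := by
    intro z hz
    obtain ⟨x, hx, h3⟩ := hpos z hz
    have h4 : x = x1 := by
      have h5 := congrArg norm h3
      rw [hcj, Polynomial.eval_mul, Polynomial.eval_C, Polynomial.eval_pow, Polynomial.eval_X, norm_mul, norm_mul,
        norm_pow, norm_pow, hz, one_pow, one_pow, mul_one, mul_one, h1, Complex.norm_real, Complex.norm_real,
        Real.norm_of_nonneg hx1.le, Real.norm_of_nonneg hx.le] at h5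
      exact h5.symm
    rw [h3, h4]
  refine ⟨Polynomial.C ((Real.sqrt x1 : ℝ) : ℂ), by rw [Polynomial.natDegree_C]; exact Nat.zero_le _, fun z hz => ?_⟩
  rw [h2 z hz, Polynomial.eval_C, Complex.norm_real, Real.norm_of_nonneg (Real.sqrt_nonneg _), Real.sq_sqrt hx1.le]

/-- Fejer-Riesz -/
theorem fejer_riesz (H : ℕ) (P : Polynomial ℂ) (hd : P.natDegree ≤ 2 * H)
    (hpos : ∀ z : ℂ, ‖z‖ = 1 → ∃ x : ℝ, 0 < x ∧ P.eval z = x * z ^ H) :
    ∃ Q : Polynomial ℂ, Q.natDegree ≤ H ∧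
      ∀ z : ℂ, ‖z‖ = 1 → P.eval z = ((‖Q.eval z‖ ^ 2 : ℝ) : ℂ) * z ^ H := by
  induction H using Nat.strong_induction_on generalizing P with
  | _ H ih =>
    by_cases hroot : ∃ α : ℂ, α ≠ 0 ∧ P.eval α = 0
    · obtain ⟨α, hα, hPα⟩ := hroot
      rcases Nat.eq_zero_or_pos H with h0 | h0
      · exfalso
        subst h0
        have h1 := Polynomial.eq_C_of_natDegree_le_zero (p := P) (by simpa using hd)
        rw [h1, Polynomial.eval_C] at hPα
        obtain ⟨x, hx, h2⟩ := hpos 1 norm_one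
        rw [h1, Polynomial.eval_C, hPα, pow_zero, mul_one] at h2
        have : x = 0 := by exact_mod_cast h2.symm
        linarith
      · exact fr_step99 hd hpos hα hPα fun P1 h1 h2 => ih (H - 1) (by omega) P1 h1 h2
    · push Not at hroot
      exact fr_noroot99 hpos hroot

end Pool.Agent.Helper59.MF
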