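import Mathlib
import Pool.Agent.Helper59.MF.Deg1
import Pool.Agent.Helper59.MF.FR

/-!
# MF-FW: positive weights which dominate the Fourier coefficients of a positive trigonometric polynomial

`exists_weights`: if `g > 0` is a trigonometric polynomial of degree at most `H` with the coefficients
`G`, `G 0 = 1`, there are `s 0, s 1, ... > 0` with `∑_(a ≤ H) s_a^2 = 1` and
`|G k| ≤ ∑ s_a s_b` over `a, b ≤ H` with `b - a = k`.

Proof.  (1) `g` has a minimum `> 0` (continuous `Dens.cont`, periodic `Dens.per`; or `Dens.bounds`); let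
`0 < ε < 1`, `ε < g` everywhere, and `g₁ = (g - ε)/(1 - ε)`, `G₁ 0 = 1`, `G₁ k = G k/(1-ε)` for `k ≠ 0`.
(2) `fejer_riesz` for `P(z) = ∑ G₁(k) z^(k+H)` (`P(z) = g₁(t) z^H` for `z = e(t)`; every `z` of modulus one
is some `e(t)`) gives `Q` of degree at most `H` with `P(z) = |Q(z)|^2 z^H` on the unit circle.
`P` and `Q Q*` agree on the unit circle, so they are equal, where `Q*` is the polynomial with the
coefficients `conj q_(H-j)` (`Q*(z) = z^H conj(Q(z))` for `|z| = 1`).  Comparing coefficients: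
`G₁ k = ∑ q_b conj q_a` over `b - a = k`, in particular `∑ |q_a|^2 = 1`.
(3) `s_a = sqrt ((1-ε)|q_a|^2 + ε/(H+1))`.
-/

set_option autoImplicit false

namespace Pool.Agent.Helper59.MF

open Finset MeasureTheory Filter Topology
open Pool.Agent.Helper59.RE (e norm_e e_add e_sub conj_e continuous_e e_zero)

variable {H : ℕ} {G : ℤ → ℂ} {g : ℝ → ℝ}

private lemma fw_e_nat (n : ℕ) (t : ℝ) : e t ^ n = e (((n : ℤ) : ℝ) * t) := by
  unfold e
  rw [← Complex.exp_nat_mul]
  congr 1
  push_cast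
  ring

private lemma fw_surj {z : ℂ} (hz : ‖z‖ = 1) : ∃ t : ℝ, z = e t := by
  have h1 := Complex.norm_mul_exp_arg_mul_I z
  rw [hz, Complex.ofReal_one, one_mul] at h1
  refine ⟨Complex.arg z / (2 * Real.pi), h1.symm.trans ?_⟩
  unfold e
  congr 1
  have hpi : (Real.pi : ℂ) ≠ 0 := by exact_mod_cast Real.pi_ne_zero
  push_cast
  field_simp

/-- the weights -/
theorem exists_weights (hg : Dens H G g) : ∃ s : ℕ → ℝ, (∀ a, 0 < s a) ∧
    ∑ a ∈ range (H + 1), s a ^ 2 = 1 ∧ ∀ k ∈ Icc (-(H : ℤ)) H,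
      ‖G k‖ ≤ ∑ a ∈ range (H + 1), ∑ b ∈ range (H + 1), if (b : ℤ) - a = k then s a * s b else 0 := by
  classical
  obtain ⟨M, L, hM, _, hb, _⟩ := hg.bounds
  set ε : ℝ := (2 * M)⁻¹ with hε
  have hM0 : 0 < M := by linarith
  have hε0 : 0 < ε := by positivity
  have hεM : ε < M⁻¹ := by
    rw [hε]
    exact inv_strictAnti₀ hM0 (by linarith)
  have hε1 : ε < 1 := hεM.trans_le (inv_le_one_of_one_le₀ hM)
  have hεg : ∀ t, ε < g t := fun t => hεM.trans_le (hb t).1
  have h1ε : 0 < 1 - ε := by linarith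
  have h1εc : (1 - (ε : ℂ)) ≠ 0 := by
    have : ((1 - ε : ℝ) : ℂ) ≠ 0 := by exact_mod_cast h1ε.ne'
    push_cast at this
    exact this
  let G₁ : ℤ → ℂ := fun k => (G k - if k = 0 then (ε : ℂ) else 0) / (1 - ε)
  let P : Polynomial ℂ := ∑ k ∈ Icc (-(H : ℤ)) H, Polynomial.C (G₁ k) * Polynomial.X ^ (k + H).toNat
  have hsumG : ∀ t : ℝ, ∑ k ∈ Icc (-(H : ℤ)) H, G₁ k * e (k * t) = (((g t - ε) / (1 - ε) : ℝ) : ℂ) := by
    intro t
    have h1 : ∀ k ∈ Icc (-(H : ℤ)) H, G₁ k * e (k * t) =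
        (G k * e (k * t) - if k = 0 then (ε : ℂ) else 0) / (1 - ε) := by
      intro k _
      simp only [G₁]
      by_cases hk : k = 0
      · subst hk
        simp [e_zero]
      · rw [if_neg hk]
        ring
    rw [Finset.sum_congr rfl h1, ← Finset.sum_div, Finset.sum_sub_distrib, ← hg.eq, Finset.sum_ite_eq',
      if_pos (mem_Icc0 H)]
    push_cast
    rfl
  have hPe : ∀ t : ℝ, P.eval (e t) = (((g t - ε) / (1 - ε) : ℝ) : ℂ) * e t ^ H := by
    intro t
    rw [Polynomial.eval_finsetSum, ← hsumG, Finset.sum_mul]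
    refine Finset.sum_congr rfl fun k hk => ?_
    rw [Polynomial.eval_mul, Polynomial.eval_C, Polynomial.eval_pow, Polynomial.eval_X, mul_assoc]
    congr 1
    rw [fw_e_nat, fw_e_nat, ← e_add, ← add_mul]
    congr 2
    rw [mem_Icc] at hk
    have h1 : (((k + H).toNat : ℕ) : ℤ) = k + H := Int.toNat_of_nonneg (by omega)
    rw [h1]
    push_cast
    ring
  have hPd : P.natDegree ≤ 2 * H := by
    refine Polynomial.natDegree_sum_le_of_forall_le _ _ fun k hk => ?_
    refine (Polynomial.natDegree_C_mul_X_pow_le _ _).trans ?_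
    rw [mem_Icc] at hk
    omega
  obtain ⟨Q, hQd, hQ⟩ := fejer_riesz H P hPd (fun z hz => by
    obtain ⟨t, rfl⟩ := fw_surj hz
    refine ⟨(g t - ε) / (1 - ε), div_pos (by linarith [hεg t]) h1ε, hPe t⟩)
  have he0 : ∀ t : ℝ, e t ≠ 0 := by
    intro t h
    have := norm_e t
    rw [h, norm_zero] at this
    exact zero_ne_one this
  have hQe : ∀ t : ℝ, ((‖Q.eval (e t)‖ ^ 2 : ℝ) : ℂ) = ∑ k ∈ Icc (-(H : ℤ)) H, G₁ k * e (k * t) := by
    intro t
    have h1 := hQ (e t) (norm_e t)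
    rw [hPe t] at h1
    rw [hsumG]
    exact (mul_right_cancel₀ (pow_ne_zero H (he0 t)) h1).symm
  -- expansion
  have hexp : ∀ t : ℝ, ((‖Q.eval (e t)‖ ^ 2 : ℝ) : ℂ) = ∑ a ∈ range (H + 1), ∑ b ∈ range (H + 1),
      Q.coeff b * (starRingEnd ℂ) (Q.coeff a) * e (((b - a : ℤ) : ℝ) * t) := by
    intro t
    have h1 : Q.eval (e t) = ∑ b ∈ range (H + 1), Q.coeff b * e (((b : ℤ) : ℝ) * t) := by
      rw [Polynomial.eval_eq_sum_range' (Nat.lt_succ_of_le hQd)]
      refine Finset.sum_congr rfl fun b _ => ?_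
      rw [fw_e_nat]
    have h2 : ((‖Q.eval (e t)‖ ^ 2 : ℝ) : ℂ) = Q.eval (e t) * (starRingEnd ℂ) (Q.eval (e t)) := by
      rw [Complex.mul_conj']
      push_cast
      rfl
    rw [h2, h1, map_sum, Finset.sum_mul_sum, Finset.sum_comm]
    refine Finset.sum_congr rfl fun a _ => Finset.sum_congr rfl fun b _ => ?_
    rw [map_mul]
    have h3 : (((b - a : ℤ) : ℝ) * t) = ((b : ℤ) : ℝ) * t - ((a : ℤ) : ℝ) * t := by push_cast; ring
    rw [h3, e_sub]
    ring
  have hce : ∀ l : ℤ, Continuous fun t : ℝ => e ((l : ℝ) * t) := fun l =>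
    continuous_e.comp (continuous_const.mul continuous_id)
  have hcoef : ∀ k ∈ Icc (-(H : ℤ)) H, G₁ k = ∑ a ∈ range (H + 1), ∑ b ∈ range (H + 1),
      if (b : ℤ) - a = k then Q.coeff b * (starRingEnd ℂ) (Q.coeff a) else 0 := by
    intro k hk
    have h1 : ∫ t in (0 : ℝ)..1, e (((-k : ℤ) : ℝ) * t) * ((‖Q.eval (e t)‖ ^ 2 : ℝ) : ℂ) = G₁ k := by
      have h2 : ∀ t : ℝ, e (((-k : ℤ) : ℝ) * t) * ((‖Q.eval (e t)‖ ^ 2 : ℝ) : ℂ) =
          ∑ l ∈ Icc (-(H : ℤ)) H, G₁ l * e (((-k + l : ℤ) : ℝ) * t) := by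
        intro t
        rw [hQe, Finset.mul_sum]
        refine Finset.sum_congr rfl fun l _ => ?_
        have h3 : (((-k + l : ℤ) : ℝ) * t) = ((-k : ℤ) : ℝ) * t + l * t := by push_cast; ring
        rw [h3, e_add]
        ring
      simp_rw [h2]
      rw [intervalIntegral.integral_finsetSum fun l _ => ?_]
      · simp_rw [intervalIntegral.integral_const_mul, integral_e_int]
        have h3 : ∀ l : ℤ, (-k + l = 0) ↔ (k = l) := fun l => by constructor <;> intro h <;> omega
        simp_rw [mul_ite, mul_one, mul_zero, h3]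
        rw [Finset.sum_ite_eq, if_pos hk]
      · exact (continuous_const.mul (hce _)).intervalIntegrable _ _
    rw [← h1]
    have h2 : ∀ t : ℝ, e (((-k : ℤ) : ℝ) * t) * ((‖Q.eval (e t)‖ ^ 2 : ℝ) : ℂ) =
        ∑ a ∈ range (H + 1), ∑ b ∈ range (H + 1),
          Q.coeff b * (starRingEnd ℂ) (Q.coeff a) * e (((b - a - k : ℤ) : ℝ) * t) := by
      intro t
      rw [hexp, Finset.mul_sum]
      refine Finset.sum_congr rfl fun a _ => ?_
      rw [Finset.mul_sum]
      refine Finset.sum_congr rfl fun b _ => ?_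
      have h3 : (((b - a - k : ℤ) : ℝ) * t) = ((-k : ℤ) : ℝ) * t + ((b - a : ℤ) : ℝ) * t := by push_cast; ring
      rw [h3, e_add]
      ring
    simp_rw [h2]
    rw [intervalIntegral.integral_finsetSum fun a _ => ?_]
    · refine Finset.sum_congr rfl fun a _ => ?_
      rw [intervalIntegral.integral_finsetSum fun b _ => ?_]
      · refine Finset.sum_congr rfl fun b _ => ?_
        rw [intervalIntegral.integral_const_mul, integral_e_int]
        have h3 : ((b : ℤ) - a - k = 0) ↔ ((b : ℤ) - a = k) := by constructor <;> intro h <;> omega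
        simp_rw [h3, mul_ite, mul_one, mul_zero]
      · exact (continuous_const.mul (hce _)).intervalIntegrable _ _
    · exact (continuous_finsetSum _ fun b _ => continuous_const.mul (hce _)).intervalIntegrable _ _
  -- the diagonal
  have hdiag : ∀ F : ℕ → ℕ → ℝ, ∑ a ∈ range (H + 1), ∑ b ∈ range (H + 1),
      (if (b : ℤ) - a = 0 then F a b else 0) = ∑ a ∈ range (H + 1), F a a := by
    intro F
    refine Finset.sum_congr rfl fun a ha => ?_
    rw [Finset.sum_eq_single a]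
    · simp
    · intro b _ hba
      rw [if_neg]
      intro h
      exact hba (by omega)
    · intro h
      exact absurd ha h
  have hnorm : ∑ a ∈ range (H + 1), ‖Q.coeff a‖ ^ 2 = 1 := by
    have h1 := hcoef 0 (mem_Icc0 H)
    have h2 : G₁ 0 = 1 := by
      simp only [G₁, if_true, hg.zero]
      exact div_self h1εc
    rw [h2] at h1
    have h3 : (1 : ℂ) = ((∑ a ∈ range (H + 1), ‖Q.coeff a‖ ^ 2 : ℝ) : ℂ) := by
      rw [h1, ← hdiag (fun a b => ‖Q.coeff a‖ ^ 2), Complex.ofReal_sum]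
      refine Finset.sum_congr rfl fun a _ => ?_
      rw [Complex.ofReal_sum]
      refine Finset.sum_congr rfl fun b _ => ?_
      by_cases hba : (b : ℤ) - a = 0
      · have : b = a := by omega
        subst this
        rw [if_pos hba, if_pos hba, Complex.mul_conj']
        push_cast
        rfl
      · rw [if_neg hba, if_neg hba, Complex.ofReal_zero]
    exact_mod_cast h3.symm
  have hH0 : (0 : ℝ) < H + 1 := by positivity
  let s : ℕ → ℝ := fun a => Real.sqrt ((1 - ε) * ‖Q.coeff a‖ ^ 2 + ε / (H + 1))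
  have hs0 : ∀ a, 0 < (1 - ε) * ‖Q.coeff a‖ ^ 2 + ε / (H + 1) := fun a => by positivity
  have hspos : ∀ a, 0 < s a := fun a => Real.sqrt_pos.2 (hs0 a)
  have hssq : ∀ a, s a ^ 2 = (1 - ε) * ‖Q.coeff a‖ ^ 2 + ε / (H + 1) := fun a => Real.sq_sqrt (hs0 a).le
  have hsum1 : ∑ a ∈ range (H + 1), s a ^ 2 = 1 := by
    simp_rw [hssq]
    rw [Finset.sum_add_distrib, ← Finset.mul_sum, hnorm, Finset.sum_const, card_range, nsmul_eq_mul]
    push_cast
    field_simp
    ring
  have hsle : ∀ a, Real.sqrt (1 - ε) * ‖Q.coeff a‖ ≤ s a := by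
    intro a
    apply Real.le_sqrt_of_sq_le
    rw [mul_pow, Real.sq_sqrt h1ε.le]
    have : 0 ≤ ε / (H + 1) := by positivity
    linarith
  refine ⟨s, hspos, hsum1, fun k hk => ?_⟩
  by_cases hk0 : k = 0
  · subst hk0
    rw [hdiag (fun a b => s a * s b), hg.zero, norm_one]
    have : ∑ a ∈ range (H + 1), s a * s a = 1 := by
      rw [← hsum1]
      exact Finset.sum_congr rfl fun a _ => (sq (s a)).symm
    rw [this]
  · have h1 : G k = (1 - ε) * G₁ k := by
      simp only [G₁]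
      rw [if_neg hk0, sub_zero]
      field_simp
    have h2 : ‖G k‖ = (1 - ε) * ‖G₁ k‖ := by
      rw [h1, norm_mul]
      congr 1
      have : (1 - (ε : ℂ)) = ((1 - ε : ℝ) : ℂ) := by push_cast; rfl
      rw [this, Complex.norm_real, Real.norm_eq_abs, abs_of_pos h1ε]
    rw [h2, hcoef k hk]
    refine (mul_le_mul_of_nonneg_left (norm_sum_le _ _) h1ε.le).trans ?_
    rw [Finset.mul_sum]
    refine Finset.sum_le_sum fun a _ => ?_
    refine (mul_le_mul_of_nonneg_left (norm_sum_le _ _) h1ε.le).trans ?_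
    rw [Finset.mul_sum]
    refine Finset.sum_le_sum fun b _ => ?_
    by_cases hba : (b : ℤ) - a = k
    · rw [if_pos hba, if_pos hba, norm_mul, RCLike.norm_conj]
      calc (1 - ε) * (‖Q.coeff b‖ * ‖Q.coeff a‖) =
            (Real.sqrt (1 - ε) * ‖Q.coeff a‖) * (Real.sqrt (1 - ε) * ‖Q.coeff b‖) := by
            have h3 : Real.sqrt (1 - ε) * Real.sqrt (1 - ε) = 1 - ε := Real.mul_self_sqrt h1ε.le
            linear_combination -(‖Q.coeff b‖ * ‖Q.coeff a‖) * h3
        _ ≤ s a * s b := mul_le_mul (hsle a) (hsle b) (by positivity) (hspos a).le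
    · rw [if_neg hba, if_neg hba, norm_zero, mul_zero]

end Pool.Agent.Helper59.MF
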