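import Pool.Agent.Helper59.MF.Defs

/-!
# MF: the family `ρ(x) β(x)^n`

`[p', q'] ⊂ (a,b)` slightly larger than `[p,q]`, `f n y = ρ(c y) β(c y)^(n+s'+2)`, `c y = max p' (min q' y)` (continuous
on the whole line, equal to `ρ β^(n+s'+2)` near `[p,q]`), with `ρ1 = deriv ρ`, `ρ2 = deriv (deriv ρ)`, ... and `k = n+s'+2`
`f1 n = β^(k-1) (ρ1 β + k ρ β1)`, `f2 n = β^(k-2) (ρ2 β^2 + 2 k ρ1 β1 β + k ρ β2 β + k (k-1) ρ β1^2)`.
`p0`: `ρ1 β + k ρ β1 ≥ ρ1 + ρ β1 ≥ c > 0` on `[p,q]` (`ρ β` is convex and strictly increasing, so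
`ρ1 β + ρ β1 > 0`), `s'` large.  `g1`, `g2`: term by term, `β x ≥ β p`.  `u1`, `u2`: compactness.
-/

set_option autoImplicit false

namespace Pool.Agent.Helper59.MF

open Finset MeasureTheory Filter Topology

/-- nonnegative, nondecreasing, convex functions on `(a,b)`, twice continuously differentiable -/
structure RB (a b : ℝ) (ρ β : ℝ → ℝ) : Prop where
  cρ : ContDiffOn ℝ 2 ρ (Set.Ioo a b)
  cβ : ContDiffOn ℝ 2 β (Set.Ioo a b)
  vρ : ConvexOn ℝ (Set.Ioo a b) ρ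
  vβ : ConvexOn ℝ (Set.Ioo a b) β
  mρ : MonotoneOn ρ (Set.Ioo a b)
  mβ : MonotoneOn β (Set.Ioo a b)
  nρ : ∀ x ∈ Set.Ioo a b, 0 ≤ ρ x
  sm : StrictMonoOn (fun x => ρ x * β x) (Set.Ioo a b)

private theorem d17 {a b : ℝ} {ρ : ℝ → ℝ} (h : ContDiffOn ℝ 2 ρ (Set.Ioo a b)) :
    (∀ x ∈ Set.Ioo a b, HasDerivAt ρ (deriv ρ x) x) ∧ (∀ x ∈ Set.Ioo a b, HasDerivAt (deriv ρ) (deriv (deriv ρ) x) x) ∧
      ContinuousOn (deriv ρ) (Set.Ioo a b) ∧ ContinuousOn (deriv (deriv ρ)) (Set.Ioo a b) := by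
  have h1 : ContDiffOn ℝ 1 (deriv ρ) (Set.Ioo a b) := h.deriv_of_isOpen isOpen_Ioo (by norm_num)
  have h2 : ContDiffOn ℝ 0 (deriv (deriv ρ)) (Set.Ioo a b) := h1.deriv_of_isOpen isOpen_Ioo (by norm_num)
  refine ⟨fun x hx => ?_, fun x hx => ?_, h1.continuousOn, h2.continuousOn⟩
  · exact ((h.differentiableOn (by norm_num)).differentiableAt (Ioo_mem_nhds hx.1 hx.2)).hasDerivAt
  · exact ((h1.differentiableOn (by norm_num)).differentiableAt (Ioo_mem_nhds hx.1 hx.2)).hasDerivAt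

private theorem nn17 {a b : ℝ} {ρ : ℝ → ℝ} (h : ContDiffOn ℝ 2 ρ (Set.Ioo a b)) (hv : ConvexOn ℝ (Set.Ioo a b) ρ)
    (hm : MonotoneOn ρ (Set.Ioo a b)) {x : ℝ} (hx : x ∈ Set.Ioo a b) : 0 ≤ deriv ρ x ∧ 0 ≤ deriv (deriv ρ) x := by
  obtain ⟨h1, h2, -, -⟩ := d17 h
  constructor
  · have h3 := hm.derivWithin_nonneg (x := x)
    rwa [derivWithin_of_isOpen isOpen_Ioo hx] at h3
  · have h4 : MonotoneOn (deriv ρ) (Set.Ioo a b) := hv.monotoneOn_deriv fun y hy => (h1 y hy).differentiableAt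
    have h3 := h4.derivWithin_nonneg (x := x)
    rwa [derivWithin_of_isOpen isOpen_Ioo hx] at h3

private theorem cst17 {a b : ℝ} {ρ : ℝ → ℝ} (h : ContDiffOn ℝ 2 ρ (Set.Ioo a b)) (hv : ConvexOn ℝ (Set.Ioo a b) ρ)
    (hm : MonotoneOn ρ (Set.Ioo a b)) {x y : ℝ} (hx : x ∈ Set.Ioo a b) (hy : y ∈ Set.Ioo a b) (hyx : y < x)
    (h0 : deriv ρ x = 0) : ρ y = ρ x := by
  obtain ⟨h1, -, -, -⟩ := d17 h
  have h2 := hv.slope_le_of_hasDerivAt hy hx hyx (h1 x hx)
  rw [h0, slope_def_field, div_le_iff₀ (by linarith), zero_mul] at h2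
  exact le_antisymm (hm hy hx hyx.le) (by linarith)

/-- the derivative of `ρ β` is positive where `β > 0` -/
private theorem pos17 {a b : ℝ} {ρ β : ℝ → ℝ} (h : RB a b ρ β) {x : ℝ} (hx : x ∈ Set.Ioo a b) (hβ : 0 < β x) :
    0 < deriv ρ x * β x + ρ x * deriv β x := by
  have h1 := (nn17 h.cρ h.vρ h.mρ hx).1
  have h2 := (nn17 h.cβ h.vβ h.mβ hx).1
  have h3 := h.nρ x hx
  have h4 : 0 ≤ deriv ρ x * β x := mul_nonneg h1 hβ.le
  have h5 : 0 ≤ ρ x * deriv β x := mul_nonneg h3 h2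
  rcases (add_nonneg h4 h5).lt_or_eq with h6 | h6
  · exact h6
  exfalso
  have h7 : deriv ρ x * β x = 0 := by linarith
  have h8 : ρ x * deriv β x = 0 := by linarith
  have h9 : deriv ρ x = 0 := by
    rcases mul_eq_zero.1 h7 with h | h
    · exact h
    · exact absurd h hβ.ne'
  obtain ⟨y, hy1, hy2⟩ := exists_between hx.1
  have hy : y ∈ Set.Ioo a b := ⟨hy1, hy2.trans hx.2⟩
  have h10 := cst17 h.cρ h.vρ h.mρ hx hy hy2 h9
  have h11 := h.sm hy hx hy2
  simp only at h11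
  rw [h10] at h11
  rcases mul_eq_zero.1 h8 with h12 | h12
  · rw [h12, zero_mul, zero_mul] at h11
    exact lt_irrefl _ h11
  · rw [cst17 h.cβ h.vβ h.mβ hx hy hy2 h12] at h11
    exact lt_irrefl _ h11

theorem fam_gen {a b : ℝ} {ρ β : ℝ → ℝ} (h : RB a b ρ β) {p q : ℝ} (hp : a < p) (hpq : p < q) (hq : q < b)
    (hβ : 1 < β p) :
    ∃ (s : ℕ) (C : ℝ) (f f1 f2 : ℕ → ℝ → ℝ), Fam p q (β p) (β q) C f f1 f2 ∧
      (∀ n, ∀ x ∈ Set.Icc p q, f n x = ρ x * β x ^ (n + s)) ∧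
      ∀ x ∈ Set.Icc p q, Tendsto (fun n : ℕ => f1 (n + 1) x / f1 n x) atTop (𝓝 (β x)) := by
  have hsub : Set.Icc p q ⊆ Set.Ioo a b := fun x hx => ⟨hp.trans_le hx.1, hx.2.trans_lt hq⟩
  obtain ⟨dρ, dρ1, cρ1, cρ2⟩ := d17 h.cρ
  obtain ⟨dβ, dβ1, cβ1, cβ2⟩ := d17 h.cβ
  have cρ := h.cρ.continuousOn
  have cβ := h.cβ.continuousOn
  have hpI : p ∈ Set.Ioo a b := ⟨hp, hpq.trans hq⟩
  have hqI : q ∈ Set.Ioo a b := ⟨hp.trans hpq, hq⟩
  have hβp : ∀ x ∈ Set.Icc p q, β p ≤ β x := fun x hx => h.mβ hpI (hsub hx) hx.1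
  have hβq : ∀ x ∈ Set.Icc p q, β x ≤ β q := fun x hx => h.mβ (hsub hx) hqI hx.2
  have hβ1 : ∀ x ∈ Set.Icc p q, 1 < β x := fun x hx => hβ.trans_le (hβp x hx)
  have n0 : ∀ x ∈ Set.Icc p q, 0 ≤ ρ x := fun x hx => h.nρ x (hsub hx)
  have n1 : ∀ x ∈ Set.Icc p q, 0 ≤ deriv ρ x := fun x hx => (nn17 h.cρ h.vρ h.mρ (hsub hx)).1
  have n2 : ∀ x ∈ Set.Icc p q, 0 ≤ deriv (deriv ρ) x := fun x hx => (nn17 h.cρ h.vρ h.mρ (hsub hx)).2
  have m1 : ∀ x ∈ Set.Icc p q, 0 ≤ deriv β x := fun x hx => (nn17 h.cβ h.vβ h.mβ (hsub hx)).1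
  have m2 : ∀ x ∈ Set.Icc p q, 0 ≤ deriv (deriv β) x := fun x hx => (nn17 h.cβ h.vβ h.mβ (hsub hx)).2
  -- the lower bound
  have cu : ContinuousOn (fun x => deriv ρ x * β x + ρ x * deriv β x) (Set.Icc p q) :=
    ((cρ1.mul cβ).add (cρ.mul cβ1)).mono hsub
  obtain ⟨x₀, hx₀, hmin⟩ := isCompact_Icc.exists_isMinOn (Set.nonempty_Icc.2 hpq.le) cu
  obtain ⟨c, hc⟩ : ∃ c : ℝ, c = deriv ρ x₀ * β x₀ + ρ x₀ * deriv β x₀ := ⟨_, rfl⟩
  have hc0 : 0 < c := by
    rw [hc]
    exact pos17 h (hsub hx₀) (by linarith [hβ1 x₀ hx₀])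
  have hcle : ∀ x ∈ Set.Icc p q, c ≤ deriv ρ x * β x + ρ x * deriv β x := by
    intro x hx
    rw [hc]
    exact hmin hx
  obtain ⟨s', hs'⟩ := pow_unbounded_of_one_lt (1 / c) hβ
  -- the upper bounds
  obtain ⟨M1, hM1⟩ := isCompact_Icc.exists_bound_of_continuousOn cu
  have cw : ContinuousOn (fun x => deriv (deriv ρ) x * β x ^ 2 + 2 * (deriv ρ x * deriv β x * β x) +
      ρ x * deriv (deriv β) x * β x + ρ x * deriv β x ^ 2) (Set.Icc p q) :=
    ((((cρ2.mul (cβ.pow 2)).add (continuousOn_const.mul ((cρ1.mul cβ1).mul cβ))).add ((cρ.mul cβ2).mul cβ)).add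
      (cρ.mul (cβ1.pow 2))).mono hsub
  obtain ⟨M2, hM2⟩ := isCompact_Icc.exists_bound_of_continuousOn cw
  have hM10 : 0 ≤ M1 := (norm_nonneg _).trans (hM1 p ⟨le_rfl, hpq.le⟩)
  have hM20 : 0 ≤ M2 := (norm_nonneg _).trans (hM2 p ⟨le_rfl, hpq.le⟩)
  have hβq1 : 1 < β q := hβ1 q ⟨hpq.le, le_rfl⟩
  -- the clamp
  obtain ⟨p', hp'1, hp'2⟩ := exists_between hp
  obtain ⟨q', hq'1, hq'2⟩ := exists_between hq
  obtain ⟨cl, hcl⟩ : ∃ cl : ℝ → ℝ, cl = fun y => max p' (min q' y) := ⟨_, rfl⟩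
  have hclc : Continuous cl := by rw [hcl]; fun_prop
  have hclI : ∀ y, cl y ∈ Set.Ioo a b := by
    intro y
    rw [hcl]
    refine ⟨lt_of_lt_of_le hp'1 (le_max_left _ _), max_lt (by linarith) ?_⟩
    exact lt_of_le_of_lt (min_le_left _ _) hq'2
  have hcle' : ∀ y ∈ Set.Ioo p' q', cl y = y := by
    intro y hy
    rw [hcl]
    simp only
    rw [min_eq_right hy.2.le, max_eq_right hy.1.le]
  have hnear : ∀ x ∈ Set.Icc p q, x ∈ Set.Ioo p' q' := fun x hx => ⟨by linarith [hx.1], by linarith [hx.2]⟩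
  -- the functions
  obtain ⟨u, hu⟩ : ∃ u : ℕ → ℝ → ℝ, u = fun (k : ℕ) x => deriv ρ x * β x + (k : ℝ) * (ρ x * deriv β x) := ⟨_, rfl⟩
  obtain ⟨w, hw⟩ : ∃ w : ℕ → ℝ → ℝ, w = fun (k : ℕ) x => deriv (deriv ρ) x * β x ^ 2 + 2 * (k : ℝ) * (deriv ρ x * deriv β x * β x) +
      (k : ℝ) * (ρ x * deriv (deriv β) x * β x) + (k : ℝ) * ((k : ℝ) - 1) * (ρ x * deriv β x ^ 2) := ⟨_, rfl⟩
  obtain ⟨f, hf⟩ : ∃ f : ℕ → ℝ → ℝ, f = fun n y => ρ (cl y) * β (cl y) ^ (n + (s' + 2)) := ⟨_, rfl⟩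
  obtain ⟨f1, hf1⟩ : ∃ f1 : ℕ → ℝ → ℝ, f1 = fun n x => β x ^ (n + s' + 1) * u (n + s' + 2) x := ⟨_, rfl⟩
  obtain ⟨f2, hf2⟩ : ∃ f2 : ℕ → ℝ → ℝ, f2 = fun n x => β x ^ (n + s') * w (n + s' + 2) x := ⟨_, rfl⟩
  have hu0 : ∀ k, ∀ x ∈ Set.Icc p q, 0 ≤ u k x := by
    intro k x hx
    rw [hu]
    have a1 := n0 x hx
    have a2 := n1 x hx
    have a3 := m1 x hx
    have a4 := hβ1 x hx
    positivity
  have hw0 : ∀ k, 1 ≤ k → ∀ x ∈ Set.Icc p q, 0 ≤ w k x := by
    intro k hk x hx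
    rw [hw]
    have a1 := n0 x hx
    have a2 := n1 x hx
    have a3 := m1 x hx
    have a4 := hβ1 x hx
    have a5 := n2 x hx
    have a6 := m2 x hx
    have a7 : (0 : ℝ) ≤ k - 1 := by
      have : (1 : ℝ) ≤ k := by exact_mod_cast hk
      linarith
    positivity
  have huk : ∀ k, 1 ≤ k → ∀ x ∈ Set.Icc p q, c ≤ u k x := by
    intro k hk x hx
    refine (hcle x hx).trans ?_
    rw [hu]
    have a1 := mul_nonneg (n0 x hx) (m1 x hx)
    have a7 : (1 : ℝ) ≤ k := by exact_mod_cast hk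
    simp only
    nlinarith
  have hus : ∀ k, ∀ x ∈ Set.Icc p q, u k x ≤ u (k + 1) x := by
    intro k x hx
    rw [hu]
    have a1 := mul_nonneg (n0 x hx) (m1 x hx)
    simp only
    push_cast
    nlinarith
  have hws : ∀ k, ∀ x ∈ Set.Icc p q, w k x ≤ w (k + 1) x := by
    intro k x hx
    rw [hw]
    have a0 : 0 < β x := by linarith [hβ1 x hx]
    have a1 := mul_nonneg (mul_nonneg (n1 x hx) (m1 x hx)) a0.le
    have a2 := mul_nonneg (mul_nonneg (n0 x hx) (m2 x hx)) a0.le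
    have a3 := mul_nonneg (n0 x hx) (sq_nonneg (deriv β x))
    have a4 : (0 : ℝ) ≤ k := Nat.cast_nonneg k
    have a5 := mul_nonneg a4 a3
    simp only
    push_cast
    nlinarith
  have hfx : ∀ n, ∀ x ∈ Set.Icc p q, f n =ᶠ[𝓝 x] fun y => ρ y * β y ^ (n + (s' + 2)) := by
    intro n x hx
    have h1 := hnear x hx
    filter_upwards [Ioo_mem_nhds h1.1 h1.2] with y hy
    rw [hf]
    simp only
    rw [hcle' y hy]
  refine ⟨s' + 2, (s' + 2) * M1 * β q ^ (s' + 1) + (s' + 2) ^ 2 * M2 * β q ^ s', f, f1, f2, ?_, ?_, ?_⟩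
  · refine ⟨hpq, hβ, ?_, ?_, ?_, ?_, ?_, ?_, ?_, ?_, ?_, ?_⟩
    · intro n
      rw [hf]
      exact (cρ.comp_continuous hclc hclI).mul ((cβ.comp_continuous hclc hclI).pow _)
    · intro n x hx
      refine HasDerivAt.congr_of_eventuallyEq ?_ (hfx n x hx)
      have h1 := (dρ x (hsub hx)).mul ((dβ x (hsub hx)).pow (n + (s' + 2)))
      refine h1.congr_deriv ?_
      rw [hf1, hu]
      have e1 : n + (s' + 2) - 1 = n + s' + 1 := by omega
      have e2 : β x ^ (n + (s' + 2)) = β x ^ (n + s' + 1) * β x := by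
        rw [← pow_succ]
        congr 1
      simp only [Pi.pow_apply]
      rw [e1, e2]
      push_cast
      ring
    · intro n x hx
      rw [hf1, hu]
      have h1 := ((dβ x (hsub hx)).pow (n + s' + 1)).mul (((dρ1 x (hsub hx)).mul (dβ x (hsub hx))).add
        (((dρ x (hsub hx)).mul (dβ1 x (hsub hx))).const_mul ((n + s' + 2 : ℕ) : ℝ)))
      refine h1.congr_deriv ?_
      rw [hf2, hw]
      have e1 : n + s' + 1 - 1 = n + s' := by omega
      have e2 : β x ^ (n + s' + 1) = β x ^ (n + s') * β x := pow_succ _ _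
      simp only [Pi.pow_apply, Pi.mul_apply, Pi.add_apply]
      rw [e1, e2]
      push_cast
      ring
    · intro n
      rw [hf2, hw]
      exact ((cβ.pow _).mul ((((cρ2.mul (cβ.pow 2)).add (continuousOn_const.mul ((cρ1.mul cβ1).mul cβ))).add
        (continuousOn_const.mul ((cρ.mul cβ2).mul cβ))).add (continuousOn_const.mul (cρ.mul (cβ1.pow 2))))).mono hsub
    · intro x hx
      rw [hf1]
      simp only
      have h1 := huk (0 + s' + 2) (by omega) x hx
      have h2 : β p ^ s' ≤ β x ^ (0 + s' + 1) := by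
        calc β p ^ s' ≤ β x ^ s' := pow_le_pow_left₀ (by linarith) (hβp x hx) _
          _ ≤ β x ^ (0 + s' + 1) := pow_le_pow_right₀ (hβ1 x hx).le (by omega)
      rw [div_lt_iff₀ hc0] at hs'
      calc (1 : ℝ) ≤ β p ^ s' * c := hs'.le
        _ ≤ β x ^ (0 + s' + 1) * u (0 + s' + 2) x := mul_le_mul h2 h1 hc0.le (by
          have := hβ1 x hx
          positivity)
    · intro n x hx
      rw [hf2]
      have := hβ1 x hx
      exact mul_nonneg (by positivity) (hw0 _ (by omega) x hx)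
    · intro n x hx
      rw [hf1]
      simp only
      have h1 := hus (n + s' + 2) x hx
      have h2 := hu0 (n + s' + 2) x hx
      have h3 := hβp x hx
      have h4 : 0 < β x := by linarith [hβ1 x hx]
      have e1 : n + 1 + s' + 1 = (n + s' + 1) + 1 := by omega
      have e2 : n + 1 + s' + 2 = (n + s' + 2) + 1 := by omega
      rw [e1, e2, pow_succ]
      calc β p * (β x ^ (n + s' + 1) * u (n + s' + 2) x) ≤ β x * (β x ^ (n + s' + 1) * u (n + s' + 2) x) :=
            mul_le_mul_of_nonneg_right h3 (by positivity)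
        _ = β x ^ (n + s' + 1) * β x * u (n + s' + 2) x := by ring
        _ ≤ _ := mul_le_mul_of_nonneg_left h1 (by positivity)
    · intro n x hx
      rw [hf2]
      simp only
      have h1 := hws (n + s' + 2) x hx
      have h2 := hw0 (n + s' + 2) (by omega) x hx
      have h3 := hβp x hx
      have h4 : 0 < β x := by linarith [hβ1 x hx]
      have e1 : n + 1 + s' = (n + s') + 1 := by omega
      have e2 : n + s' + 1 + 2 = (n + s' + 2) + 1 := by omega
      rw [e1, e2, pow_succ]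
      calc β p * (β x ^ (n + s') * w (n + s' + 2) x) ≤ β x * (β x ^ (n + s') * w (n + s' + 2) x) :=
            mul_le_mul_of_nonneg_right h3 (by positivity)
        _ = β x ^ (n + s') * β x * w (n + s' + 2) x := by ring
        _ ≤ _ := mul_le_mul_of_nonneg_left h1 (by positivity)
    · intro n x hx
      rw [hf1]
      simp only
      have h4 : 0 < β x := by linarith [hβ1 x hx]
      have hn0 : (0 : ℝ) ≤ n := Nat.cast_nonneg n
      have hs0 : (0 : ℝ) ≤ s' := Nat.cast_nonneg s'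
      have h1 : u (n + s' + 2) x ≤ (s' + 2) * (n + 1) * M1 := by
        have h2 := (le_abs_self _).trans (hM1 x hx)
        have h3 : u (n + s' + 2) x ≤ (n + s' + 2 : ℕ) * (deriv ρ x * β x + ρ x * deriv β x) := by
          rw [hu]
          have a1 := mul_nonneg (n1 x hx) h4.le
          have a2 : (1 : ℝ) ≤ ((n + s' + 2 : ℕ) : ℝ) := by
            push_cast
            linarith
          simp only
          nlinarith
        have h5 : ((n + s' + 2 : ℕ) : ℝ) ≤ (s' + 2) * (n + 1) := by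
          push_cast
          nlinarith [mul_nonneg hs0 hn0]
        have h6 := (hc0.trans_le (hcle x hx)).le
        calc u (n + s' + 2) x ≤ _ := h3
          _ ≤ (s' + 2) * (n + 1) * (deriv ρ x * β x + ρ x * deriv β x) := mul_le_mul_of_nonneg_right h5 h6
          _ ≤ _ := mul_le_mul_of_nonneg_left h2 (by positivity)
      have h2 : β x ^ (n + s' + 1) ≤ β q ^ n * β q ^ (s' + 1) := by
        rw [← pow_add, ← add_assoc]
        exact pow_le_pow_left₀ h4.le (hβq x hx) _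
      calc β x ^ (n + s' + 1) * u (n + s' + 2) x ≤ β q ^ n * β q ^ (s' + 1) * ((s' + 2) * (n + 1) * M1) :=
            mul_le_mul h2 h1 (hu0 _ x hx) (by positivity)
        _ = ((s' + 2) * M1 * β q ^ (s' + 1)) * (n + 1) * β q ^ n := by ring
        _ ≤ _ := by
          apply mul_le_mul_of_nonneg_right _ (by positivity)
          apply mul_le_mul_of_nonneg_right _ (by positivity)
          have : 0 ≤ (s' + 2 : ℝ) ^ 2 * M2 * β q ^ s' := by positivity
          linarith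
    · intro n x hx
      rw [hf2]
      simp only
      have h4 : 0 < β x := by linarith [hβ1 x hx]
      have hn0 : (0 : ℝ) ≤ n := Nat.cast_nonneg n
      have hs0 : (0 : ℝ) ≤ s' := Nat.cast_nonneg s'
      have h1 : w (n + s' + 2) x ≤ (s' + 2) ^ 2 * (n + 1) ^ 2 * M2 := by
        have h2 := (le_abs_self _).trans (hM2 x hx)
        obtain ⟨k, hk⟩ : ∃ k : ℝ, k = ((n + s' + 2 : ℕ) : ℝ) := ⟨_, rfl⟩
        have hk1 : 1 ≤ k := by
          rw [hk]
          push_cast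
          linarith
        have hk2 : k ≤ k ^ 2 := by nlinarith
        have hk3 : 1 ≤ k ^ 2 := by nlinarith
        have hk4 : k * (k - 1) ≤ k ^ 2 := by nlinarith
        have a1 := mul_nonneg (n2 x hx) (sq_nonneg (β x))
        have a2 := mul_nonneg (mul_nonneg (n1 x hx) (m1 x hx)) h4.le
        have a3 := mul_nonneg (mul_nonneg (n0 x hx) (m2 x hx)) h4.le
        have a4 := mul_nonneg (n0 x hx) (sq_nonneg (deriv β x))
        have h3 : w (n + s' + 2) x ≤ k ^ 2 * (deriv (deriv ρ) x * β x ^ 2 + 2 * (deriv ρ x * deriv β x * β x) +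
            ρ x * deriv (deriv β) x * β x + ρ x * deriv β x ^ 2) := by
          rw [hw]
          simp only
          rw [← hk]
          have b1 := mul_le_mul_of_nonneg_right hk3 a1
          have b2 := mul_le_mul_of_nonneg_right hk2 a2
          have b3 := mul_le_mul_of_nonneg_right hk2 a3
          have b4 := mul_le_mul_of_nonneg_right hk4 a4
          linarith
        have h5 : k ≤ (s' + 2) * (n + 1) := by
          rw [hk]
          push_cast
          nlinarith [mul_nonneg hs0 hn0]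
        have h5' : k ^ 2 ≤ (s' + 2) ^ 2 * (n + 1) ^ 2 := by
          rw [← mul_pow]
          exact pow_le_pow_left₀ (by linarith) h5 2
        have h6 : 0 ≤ deriv (deriv ρ) x * β x ^ 2 + 2 * (deriv ρ x * deriv β x * β x) +
            ρ x * deriv (deriv β) x * β x + ρ x * deriv β x ^ 2 := by linarith
        calc w (n + s' + 2) x ≤ _ := h3
          _ ≤ (s' + 2) ^ 2 * (n + 1) ^ 2 * _ := mul_le_mul_of_nonneg_right h5' h6
          _ ≤ _ := mul_le_mul_of_nonneg_left h2 (by positivity)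
      have h2 : β x ^ (n + s') ≤ β q ^ n * β q ^ s' := by
        rw [← pow_add]
        exact pow_le_pow_left₀ h4.le (hβq x hx) _
      calc β x ^ (n + s') * w (n + s' + 2) x ≤ β q ^ n * β q ^ s' * ((s' + 2) ^ 2 * (n + 1) ^ 2 * M2) :=
            mul_le_mul h2 h1 (hw0 _ (by omega) x hx) (by positivity)
        _ = ((s' + 2) ^ 2 * M2 * β q ^ s') * (n + 1) ^ 2 * β q ^ n := by ring
        _ ≤ _ := by
          apply mul_le_mul_of_nonneg_right _ (by positivity)
          apply mul_le_mul_of_nonneg_right _ (by positivity)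
          have : 0 ≤ (s' + 2 : ℝ) * M1 * β q ^ (s' + 1) := by positivity
          linarith
  · intro n x hx
    rw [hf]
    simp only
    rw [hcle' x (hnear x hx)]
  · intro x hx
    have h4 : 0 < β x := by linarith [hβ1 x hx]
    -- the ratio
    have hr : ∀ n : ℕ, f1 (n + 1) x / f1 n x = β x + β x * (ρ x * deriv β x / u (n + s' + 2) x) := by
      intro n
      have h1 : 0 < u (n + s' + 2) x := hc0.trans_le (huk _ (by omega) x hx)
      have h2 : u (n + s' + 2 + 1) x = u (n + s' + 2) x + ρ x * deriv β x := by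
        rw [hu]
        simp only
        push_cast
        ring
      rw [hf1]
      simp only
      have e1 : n + 1 + s' + 1 = (n + s' + 1) + 1 := by omega
      have e2 : n + 1 + s' + 2 = (n + s' + 2) + 1 := by omega
      rw [e1, e2, h2, pow_succ]
      field_simp
    have hz : Tendsto (fun n : ℕ => ρ x * deriv β x / u (n + s' + 2) x) atTop (𝓝 0) := by
      have h1 : Tendsto (fun n : ℕ => 1 / ((n : ℝ) + 1)) atTop (𝓝 0) := tendsto_one_div_add_atTop_nhds_zero_nat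
      refine squeeze_zero (fun n => ?_) (fun n => ?_) h1
      · exact div_nonneg (mul_nonneg (n0 x hx) (m1 x hx)) (hu0 _ x hx)
      · have h2 : 0 < u (n + s' + 2) x := hc0.trans_le (huk _ (by omega) x hx)
        have hn0 : (0 : ℝ) ≤ n := Nat.cast_nonneg n
        have hs0 : (0 : ℝ) ≤ s' := Nat.cast_nonneg s'
        rw [div_le_div_iff₀ h2 (by positivity), one_mul]
        rw [hu]
        simp only
        have a1 := mul_nonneg (n0 x hx) (m1 x hx)
        have a2 := mul_nonneg (n1 x hx) h4.le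
        push_cast
        nlinarith [mul_nonneg a1 hs0]
    have h5 := (hz.const_mul (β x)).const_add (β x)
    rw [mul_zero, add_zero] at h5
    exact h5.congr fun n => (hr n).symm

end Pool.Agent.Helper59.MF
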