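import Pool.Agent.Helper59.MF.TreeA

/-!
# MF-A: exit decomposition
-/

set_option autoImplicit false

namespace Pool.Agent.Helper59.MF

open Finset MeasureTheory Filter Topology

theorem conv_tendsto {a : ℕ → ℝ} (ha : Tendsto a atTop (𝓝 0)) (h0 : ∀ n, 0 ≤ a n) {q : ℝ} (hq : 0 ≤ q)
    (hq1 : q < 1) : Tendsto (fun m : ℕ => ∑ j ∈ range m, a j * q ^ (m - 1 - j)) atTop (𝓝 0) := by
  set b : ℕ → ℝ := fun m => ∑ j ∈ range m, a j * q ^ (m - 1 - j) with hb
  have hs : ∀ m, b (m + 1) = q * b m + a m := by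
    intro m
    simp only [hb]
    rw [sum_range_succ, mul_sum]
    congr 1
    · refine sum_congr rfl fun j hj => ?_
      rw [mem_range] at hj
      rw [show m + 1 - 1 - j = (m - 1 - j) + 1 by omega, pow_succ]
      ring
    · rw [show m + 1 - 1 - m = 0 by omega, pow_zero, mul_one]
  have hb0 : ∀ m, 0 ≤ b m := fun m =>
    sum_nonneg fun j _ => mul_nonneg (h0 j) (pow_nonneg hq _)
  rw [Metric.tendsto_atTop]
  intro ε hε
  have hd : 0 < (1 - q) * (ε / 2) := mul_pos (by linarith) (by linarith)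
  obtain ⟨M, hM⟩ := Metric.tendsto_atTop.1 ha _ hd
  have hM' : ∀ m, M ≤ m → a m ≤ (1 - q) * (ε / 2) := by
    intro m hm
    have := hM m hm
    rw [Real.dist_eq, sub_zero, abs_of_nonneg (h0 m)] at this
    exact this.le
  have hstep : ∀ k, b (M + k) ≤ q ^ k * b M + ε / 2 := by
    intro k
    induction k with
    | zero => rw [pow_zero, one_mul, add_zero]; linarith
    | succ k ih =>
      rw [← add_assoc, hs, pow_succ]
      have h1 := hM' (M + k) (by omega)
      have h2 : q * b (M + k) ≤ q * (q ^ k * b M + ε / 2) := mul_le_mul_of_nonneg_left ih hq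
      nlinarith
  have hpow : Tendsto (fun k : ℕ => q ^ k * b M) atTop (𝓝 0) := by
    have := (tendsto_pow_atTop_nhds_zero_of_lt_one hq hq1).mul_const (b M)
    rwa [zero_mul] at this
  obtain ⟨K, hK⟩ := Metric.tendsto_atTop.1 hpow (ε / 2) (by linarith)
  refine ⟨M + K, fun m hm => ?_⟩
  rw [Real.dist_eq, sub_zero, abs_of_nonneg (hb0 m)]
  have h1 := hstep (m - M)
  rw [show M + (m - M) = m by omega] at h1
  have h2 := hK (m - M) (by omega)
  rw [Real.dist_eq, sub_zero, abs_of_nonneg (mul_nonneg (pow_nonneg hq _) (hb0 M))] at h2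
  linarith

variable {H : ℕ} {W : ℤ → ℝ} {θ r c : ℝ}

theorem cap_nonneg (hc : 0 < c) (y : ℝ) : 0 ≤ cap c y :=
  div_nonneg hc.le (hc.le.trans (le_max_left _ _))

theorem cap_le_one (hc : 0 < c) (y : ℝ) : cap c y ≤ 1 := by
  unfold cap
  exact (div_le_one (lt_max_of_lt_left hc)).2 (le_max_left _ _)

theorem cap_le (hc : 0 < c) {y : ℝ} (hy : y ≠ 0) : cap c y ≤ c / |y| := by
  unfold cap
  exact div_le_div_of_nonneg_left hc.le (abs_pos.2 hy) (le_max_right _ _)

theorem La_it_nonneg (hn : ∀ k, 0 ≤ W k) {F : ℝ → ℝ} (hF : ∀ z, 0 ≤ F z) (m : ℕ) (z : ℝ) :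
    0 ≤ (La H W θ)^[m] F z := by
  induction m generalizing z with
  | zero => exact hF z
  | succ m ih =>
    rw [Function.iterate_succ_apply']
    exact La_nonneg hn ih z

/-- the total weight -/
theorem total (h0 : W 0 = 1) :
    ∑ k ∈ Icc (-(H : ℤ)) H, W k = 1 + ∑ k ∈ (Icc (-(H : ℤ)) H).erase 0, W k := by
  rw [← add_sum_erase _ _ (show (0 : ℤ) ∈ Icc (-(H : ℤ)) H by rw [mem_Icc]; omega), h0]

theorem out_le (hθ : 1 < θ) (hn : ∀ k, 0 ≤ W k) (hc : 0 < c) (m : ℕ) (z : ℝ)
    (hz : H / (θ - 1) < |z|) :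
    (La H W θ)^[m] (cap c) z ≤
      c / (|z| - H / (θ - 1)) * ((∑ k ∈ Icc (-(H : ℤ)) H, W k) / θ) ^ m := by
  set R : ℝ := H / (θ - 1) with hR
  have hR0 : 0 ≤ R := div_nonneg (Nat.cast_nonneg _) (by linarith)
  have hRe : θ * R = H + R := by
    rw [hR]; field_simp [show θ - 1 ≠ 0 by linarith]; ring
  induction m generalizing z with
  | zero =>
    rw [pow_zero, mul_one]
    refine (cap_le hc (fun h => ?_)).trans ?_
    · rw [h, abs_zero] at hz; linarith
    · exact div_le_div_of_nonneg_left hc.le (by linarith) (by linarith)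
  | succ m ih =>
    rw [Function.iterate_succ_apply']
    unfold La
    have h1 : ∀ k ∈ Icc (-(H : ℤ)) H, W k * (La H W θ)^[m] (cap c) (θ * z + k) ≤
        W k * (c / (θ * (|z| - R)) * ((∑ k ∈ Icc (-(H : ℤ)) H, W k) / θ) ^ m) := by
      intro k hk
      refine mul_le_mul_of_nonneg_left ?_ (hn k)
      rw [mem_Icc] at hk
      have hk' : |(k : ℝ)| ≤ H := by
        rw [abs_le]; constructor
        · exact_mod_cast hk.1
        · exact_mod_cast hk.2
      have h2 : θ * |z| - H ≤ |θ * z + k| := by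
        have h3 : |θ * z| = θ * |z| := by rw [abs_mul, abs_of_pos (by linarith)]
        have h4 := abs_sub_abs_le_abs_sub (θ * z) (-(k : ℝ))
        rw [sub_neg_eq_add, abs_neg, h3] at h4
        linarith
      have h5 : 0 < θ * (|z| - R) := mul_pos (by linarith) (by linarith)
      have h6 : θ * (|z| - R) ≤ |θ * z + k| - R := by nlinarith
      refine (ih (θ * z + k) (by linarith)).trans ?_
      refine mul_le_mul_of_nonneg_right ?_ (by
        apply pow_nonneg; exact div_nonneg (sum_nonneg fun k _ => hn k) (by linarith))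
      exact div_le_div_of_nonneg_left hc.le h5 h6
    refine (sum_le_sum h1).trans (le_of_eq ?_)
    rw [← sum_mul, pow_succ]
    have h7 : |z| - R ≠ 0 := by linarith
    have h8 : θ ≠ 0 := by linarith
    field_simp

theorem in_le (hθ : 1 < θ) (hn : ∀ k, 0 ≤ W k) (hc : 0 < c) (hr : H / (θ - 1) < r) (m : ℕ) (y : ℝ) :
    (La H W θ)^[m] (cap c) y ≤ sv H W θ r m y + ((∑ k ∈ Icc (-(H : ℤ)) H, W k) *
      (c / (r - H / (θ - 1)))) *
        ∑ j ∈ range m, sv H W θ r j y * ((∑ k ∈ Icc (-(H : ℤ)) H, W k) / θ) ^ (m - 1 - j) := by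
  set R : ℝ := H / (θ - 1) with hR
  set S : ℝ := ∑ k ∈ Icc (-(H : ℤ)) H, W k with hS
  set K : ℝ := c / (r - R) with hK
  have hS0 : 0 ≤ S := sum_nonneg fun k _ => hn k
  have hK0 : 0 ≤ K := div_nonneg hc.le (by linarith)
  have hq0 : 0 ≤ S / θ := div_nonneg hS0 (by linarith)
  induction m generalizing y with
  | zero =>
    simp only [Function.iterate_zero, id_eq, range_zero, sum_empty, mul_zero, add_zero, sv]
    exact cap_le_one hc y
  | succ m ih =>
    rw [Function.iterate_succ_apply']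
    have h1 : ∀ z, (La H W θ)^[m] (cap c) z ≤ (if |z| ≤ r then (sv H W θ r m z + (S * K) *
        ∑ j ∈ range m, sv H W θ r j z * (S / θ) ^ (m - 1 - j)) else 0) + K * (S / θ) ^ m := by
      intro z
      by_cases h : |z| ≤ r
      · rw [if_pos h]
        exact (ih z).trans (le_add_of_nonneg_right (by positivity))
      · rw [if_neg h, zero_add]
        push Not at h
        refine (out_le hθ hn hc m z (by rw [← hR]; linarith)).trans ?_
        refine mul_le_mul_of_nonneg_right ?_ (pow_nonneg hq0 _)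
        rw [hK, ← hR]
        exact div_le_div_of_nonneg_left hc.le (by linarith) (by linarith)
    refine (La_mono hn h1 y).trans (le_of_eq ?_)
    have h2 : La H W θ (fun z => (if |z| ≤ r then (sv H W θ r m z + (S * K) *
        ∑ j ∈ range m, sv H W θ r j z * (S / θ) ^ (m - 1 - j)) else 0) + K * (S / θ) ^ m) y =
        La H W θ (fun z => if |z| ≤ r then sv H W θ r m z else 0) y +
        (S * K) * ∑ j ∈ range m, La H W θ (fun z => if |z| ≤ r then sv H W θ r j z else 0) y *
          (S / θ) ^ (m - 1 - j) + S * (K * (S / θ) ^ m) := by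
      unfold La
      have e1 : ∀ k ∈ Icc (-(H : ℤ)) H, W k * ((if |θ * y + k| ≤ r then (sv H W θ r m (θ * y + k) +
          (S * K) * ∑ j ∈ range m, sv H W θ r j (θ * y + k) * (S / θ) ^ (m - 1 - j)) else 0) +
          K * (S / θ) ^ m) =
          W k * (if |θ * y + k| ≤ r then sv H W θ r m (θ * y + k) else 0) +
          (S * K) * ∑ j ∈ range m, (W k * (if |θ * y + k| ≤ r then sv H W θ r j (θ * y + k) else 0)) *
            (S / θ) ^ (m - 1 - j) + W k * (K * (S / θ) ^ m) := by
        intro k _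
        split_ifs
        · rw [mul_add, mul_add, mul_sum, mul_sum, mul_sum]
          congr 2
          refine sum_congr rfl fun j _ => ?_
          ring
        · simp
      rw [sum_congr rfl e1, sum_add_distrib, sum_add_distrib, ← mul_sum, sum_comm, ← sum_mul, ← hS]
      congr 2
      congr 1
      refine sum_congr rfl fun j _ => ?_
      rw [sum_mul]
    rw [h2]
    simp only [sv]
    rw [sum_range_succ']
    simp only [sv]
    have h3 : ∀ j ∈ range m, La H W θ (fun z => if |z| ≤ r then sv H W θ r j z else 0) y *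
        (S / θ) ^ (m + 1 - 1 - (j + 1)) = La H W θ (fun z => if |z| ≤ r then sv H W θ r j z else 0) y *
        (S / θ) ^ (m - 1 - j) := by
      intro j hj
      rw [mem_range] at hj
      rw [show m + 1 - 1 - (j + 1) = m - 1 - j by omega]
    rw [sum_congr rfl h3, show m + 1 - 1 - 0 = m by omega]
    ring

/-- the weighted number of near resonances tends to zero -/
theorem la_tendsto {H : ℕ} {W : ℤ → ℝ} {θ c : ℝ} (hH : H + 1 < θ) (hn : ∀ k, 0 ≤ W k) (h0 : W 0 = 1)
    (hw : 1 + ∑ k ∈ (Icc (-(H : ℤ)) H).erase 0, W k < θ) (hG : Good H W θ) (hc : 0 < c)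
    (p : Polynomial ℤ) (hp : p ≠ 0) :
    Tendsto (fun m : ℕ => (La H W θ)^[m] (cap c) (Polynomial.aeval θ p)) atTop (𝓝 0) := by
  have hH0 : (0 : ℝ) ≤ H := Nat.cast_nonneg H
  have hθ : 1 < θ := by linarith
  obtain ⟨r, hr, hG⟩ := hG
  rw [← total h0] at hw
  set S : ℝ := ∑ k ∈ Icc (-(H : ℤ)) H, W k with hS
  have hS0 : 0 ≤ S := sum_nonneg fun k _ => hn k
  have hq0 : 0 ≤ S / θ := div_nonneg hS0 (by linarith)
  have hq1 : S / θ < 1 := (div_lt_one (by linarith)).2 hw
  have hpow := tendsto_pow_atTop_nhds_zero_of_lt_one hq0 hq1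
  have hnn := fun m => La_it_nonneg (H := H) (θ := θ) hn (cap_nonneg hc) m (Polynomial.aeval θ p)
  by_cases h : |Polynomial.aeval θ p| ≤ r
  · have h1 := hG p hp h
    have h2 := conv_tendsto h1 (fun m => sv_nonneg hn m _) hq0 hq1
    have h3 := h1.add (h2.const_mul (S * (c / (r - H / (θ - 1)))))
    rw [mul_zero, add_zero] at h3
    exact squeeze_zero hnn (fun m => in_le hθ hn hc hr m _) h3
  · push Not at h
    have h3 := hpow.const_mul (c / (|Polynomial.aeval θ p| - H / (θ - 1)))
    rw [mul_zero] at h3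
    exact squeeze_zero hnn (fun m => out_le hθ hn hc m _ (by linarith)) h3

end Pool.Agent.Helper59.MF
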