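import Pool.Agent.Helper59.MF.TreeA

/-!
# MF-A: weights dominated by an autocorrelation

If `W k ≤ ∑ s_a s_b` over `a, b ≤ H`, `b - a = k`, with `s_a > 0`, `∑ s_a^2 = 1`, and `θ > H + 1` is
transcendental, there is no resonance at `θ`.  Let `X m y` be the expected number, for independent
digits `a` with the law `s_a^2`, of the digit strings `b` of length `m` for which the orbit of `y` under
`z ↦ θ z + b - a` stays in `[-r, r]`.  By the inequality of Cauchy and Schwarz `sv m y` is at most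
`sqrt (X m y * X m (-y))`.  Alive values differ by at least one, so there are at most two of them, and a
set of alive values is killed with a probability `≥ c` in `L` steps, unless it is `{y}` with a small `y`,
and then `y` moves away from zero.
-/

set_option autoImplicit false

namespace Pool.Agent.Helper59.MF.AC

open Finset MeasureTheory Filter Topology

/-- the expected number of alive strings -/
noncomputable def XX (H : ℕ) (s : ℕ → ℝ) (θ r : ℝ) : ℕ → ℝ → ℝ
  | 0, _ => 1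
  | m + 1, y => ∑ a ∈ range (H + 1), ∑ b ∈ range (H + 1),
      s a ^ 2 * (if |θ * y + b - a| ≤ r then XX H s θ r m (θ * y + b - a) else 0)

section CS
variable {H : ℕ} {W : ℤ → ℝ} {s : ℕ → ℝ} {θ r : ℝ}

theorem XX_nonneg (m : ℕ) (y : ℝ) : 0 ≤ XX H s θ r m y := by
  induction m generalizing y with
  | zero => simp [XX]
  | succ m ih =>
    simp only [XX]
    refine sum_nonneg fun a _ => sum_nonneg fun b _ => mul_nonneg (sq_nonneg _) ?_
    split_ifs
    · exact ih _
    · exact le_refl _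

theorem XX_neg (m : ℕ) (y : ℝ) : XX H s θ r (m + 1) (-y) =
    ∑ a ∈ range (H + 1), ∑ b ∈ range (H + 1),
      s b ^ 2 * (if |θ * y + b - a| ≤ r then XX H s θ r m (-(θ * y + b - a)) else 0) := by
  simp only [XX]
  rw [sum_comm]
  refine sum_congr rfl fun a _ => sum_congr rfl fun b _ => ?_
  have h1 : θ * -y + a - b = -(θ * y + b - a) := by ring
  rw [h1, abs_neg]

/-- Cauchy-Schwarz -/
theorem sv_le_XX (hs : ∀ a, 0 ≤ s a) (hn : ∀ k, 0 ≤ W k)
    (hW : ∀ k ∈ Icc (-(H : ℤ)) H, W k ≤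
      ∑ a ∈ range (H + 1), ∑ b ∈ range (H + 1), if (b : ℤ) - a = k then s a * s b else 0)
    (m : ℕ) (y : ℝ) : sv H W θ r m y ≤ √(XX H s θ r m y) * √(XX H s θ r m (-y)) := by
  induction m generalizing y with
  | zero => simp [sv, XX]
  | succ m ih =>
    set F : ℝ → ℝ := fun z => if |z| ≤ r then sv H W θ r m z else 0 with hF
    have hF0 : ∀ z, 0 ≤ F z := by
      intro z
      simp only [hF]
      split_ifs
      · exact sv_nonneg hn m z
      · exact le_refl _
    have h1 : sv H W θ r (m + 1) y ≤ ∑ a ∈ range (H + 1), ∑ b ∈ range (H + 1),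
        s a * s b * F (θ * y + b - a) := by
      have h2 : sv H W θ r (m + 1) y = ∑ k ∈ Icc (-(H : ℤ)) H, W k * F (θ * y + k) := rfl
      rw [h2]
      calc ∑ k ∈ Icc (-(H : ℤ)) H, W k * F (θ * y + k)
          ≤ ∑ k ∈ Icc (-(H : ℤ)) H, (∑ a ∈ range (H + 1), ∑ b ∈ range (H + 1),
              if (b : ℤ) - a = k then s a * s b else 0) * F (θ * y + k) :=
            sum_le_sum fun k hk => mul_le_mul_of_nonneg_right (hW k hk) (hF0 _)
        _ = ∑ k ∈ Icc (-(H : ℤ)) H, ∑ a ∈ range (H + 1), ∑ b ∈ range (H + 1),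
              if (b : ℤ) - a = k then s a * s b * F (θ * y + b - a) else 0 := by
            refine sum_congr rfl fun k _ => ?_
            rw [sum_mul]
            refine sum_congr rfl fun a _ => ?_
            rw [sum_mul]
            refine sum_congr rfl fun b _ => ?_
            split_ifs with h
            · rw [← h]; push_cast; rw [add_sub_assoc]
            · rw [zero_mul]
        _ = ∑ a ∈ range (H + 1), ∑ b ∈ range (H + 1), s a * s b * F (θ * y + b - a) := by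
            rw [sum_comm]
            refine sum_congr rfl fun a ha => ?_
            rw [sum_comm]
            refine sum_congr rfl fun b hb => ?_
            rw [mem_range] at ha hb
            rw [sum_ite_eq, if_pos (by rw [mem_Icc]; omega)]
    refine h1.trans ?_
    have h3 : ∀ a b : ℕ, s a * s b * F (θ * y + b - a) ≤
        √(s a ^ 2 * (if |θ * y + b - a| ≤ r then XX H s θ r m (θ * y + b - a) else 0)) *
        √(s b ^ 2 * (if |θ * y + b - a| ≤ r then XX H s θ r m (-(θ * y + b - a)) else 0)) := by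
      intro a b
      simp only [hF]
      split_ifs with h
      · rw [Real.sqrt_mul (sq_nonneg _), Real.sqrt_mul (sq_nonneg _), Real.sqrt_sq (hs a),
          Real.sqrt_sq (hs b)]
        have h4 := mul_le_mul_of_nonneg_left (ih (θ * y + b - a)) (mul_nonneg (hs a) (hs b))
        linarith
      · simp
    calc ∑ a ∈ range (H + 1), ∑ b ∈ range (H + 1), s a * s b * F (θ * y + b - a)
        ≤ ∑ a ∈ range (H + 1), ∑ b ∈ range (H + 1),
          √(s a ^ 2 * (if |θ * y + b - a| ≤ r then XX H s θ r m (θ * y + b - a) else 0)) *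
          √(s b ^ 2 * (if |θ * y + b - a| ≤ r then XX H s θ r m (-(θ * y + b - a)) else 0)) :=
          sum_le_sum fun a _ => sum_le_sum fun b _ => h3 a b
      _ = ∑ p ∈ range (H + 1) ×ˢ range (H + 1),
          √(s p.1 ^ 2 * (if |θ * y + p.2 - p.1| ≤ r then XX H s θ r m (θ * y + p.2 - p.1) else 0)) *
          √(s p.2 ^ 2 * (if |θ * y + p.2 - p.1| ≤ r then XX H s θ r m (-(θ * y + p.2 - p.1)) else 0)) := by
          rw [sum_product]
      _ ≤ √(∑ p ∈ range (H + 1) ×ˢ range (H + 1),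
            s p.1 ^ 2 * (if |θ * y + p.2 - p.1| ≤ r then XX H s θ r m (θ * y + p.2 - p.1) else 0)) *
          √(∑ p ∈ range (H + 1) ×ˢ range (H + 1),
            s p.2 ^ 2 * (if |θ * y + p.2 - p.1| ≤ r then XX H s θ r m (-(θ * y + p.2 - p.1)) else 0)) := by
          refine Real.sum_sqrt_mul_sqrt_le _ (fun p => mul_nonneg (sq_nonneg _) ?_)
            (fun p => mul_nonneg (sq_nonneg _) ?_)
          · split_ifs
            · exact XX_nonneg _ _
            · exact le_refl _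
          · split_ifs
            · exact XX_nonneg _ _
            · exact le_refl _
      _ = √(XX H s θ r (m + 1) y) * √(XX H s θ r (m + 1) (-y)) := by
          rw [XX_neg, sum_product, sum_product]
          simp only [XX]

end CS

section sets
variable {H : ℕ} {s : ℕ → ℝ} {θ r : ℝ}

/-- separated -/
def Sep (Y : Finset ℝ) : Prop := ∀ y ∈ Y, ∀ z ∈ Y, y ≠ z → 1 ≤ |y - z|

/-- the alive values after one step -/
noncomputable def desc (H : ℕ) (θ r : ℝ) (a : ℕ) (Y : Finset ℝ) : Finset ℝ :=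
  ((Y ×ˢ range (H + 1)).image fun p => θ * p.1 + p.2 - a).filter fun z => |z| ≤ r

theorem mem_desc {a : ℕ} {Y : Finset ℝ} {z : ℝ} : z ∈ desc H θ r a Y ↔
    ∃ y ∈ Y, ∃ b : ℕ, b ≤ H ∧ θ * y + b - a = z ∧ |z| ≤ r := by
  unfold desc
  rw [mem_filter, mem_image]
  constructor
  · rintro ⟨⟨p, hp, rfl⟩, h⟩
    rw [mem_product, mem_range] at hp
    exact ⟨p.1, hp.1, p.2, by omega, rfl, h⟩
  · rintro ⟨y, hy, b, hb, rfl, h⟩
    exact ⟨⟨(y, b), mem_product.2 ⟨hy, mem_range.2 (by omega)⟩, rfl⟩, h⟩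

theorem sep_pair (hθ : H + 1 < θ) {Y : Finset ℝ} (hY : Sep Y) (a : ℕ) {p q : ℝ × ℕ}
    (hp : p ∈ Y ×ˢ range (H + 1)) (hq : q ∈ Y ×ˢ range (H + 1)) (hpq : p ≠ q) :
    1 ≤ |(θ * p.1 + p.2 - a) - (θ * q.1 + q.2 - a)| := by
  have hH : (0 : ℝ) ≤ H := Nat.cast_nonneg H
  rw [mem_product, mem_range] at hp hq
  have e1 : (θ * p.1 + p.2 - a) - (θ * q.1 + q.2 - a) = θ * (p.1 - q.1) + ((p.2 : ℝ) - q.2) := by ring
  rw [e1]
  by_cases h1 : p.1 = q.1
  · have h2 : p.2 ≠ q.2 := fun h => hpq (Prod.ext h1 h)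
    rw [h1, sub_self, mul_zero, zero_add]
    have h3 : (1 : ℤ) ≤ |(p.2 : ℤ) - q.2| := Int.one_le_abs (by omega)
    exact_mod_cast h3
  · have h2 := hY p.1 hp.1 q.1 hq.1 h1
    have h3 : |(p.2 : ℝ) - q.2| ≤ H := by
      have h4 : (p.2 : ℝ) ≤ H := by exact_mod_cast Nat.lt_succ_iff.1 hp.2
      have h5 : (q.2 : ℝ) ≤ H := by exact_mod_cast Nat.lt_succ_iff.1 hq.2
      have h6 : (0 : ℝ) ≤ p.2 := Nat.cast_nonneg _
      have h7 : (0 : ℝ) ≤ q.2 := Nat.cast_nonneg _
      rw [abs_le]; constructor <;> linarith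
    have h4 : θ * |p.1 - q.1| - |(p.2 : ℝ) - q.2| ≤ |θ * (p.1 - q.1) + ((p.2 : ℝ) - q.2)| := by
      have h5 := abs_sub_abs_le_abs_sub (θ * (p.1 - q.1)) (-((p.2 : ℝ) - q.2))
      rw [sub_neg_eq_add, abs_neg, abs_mul, abs_of_pos (by linarith : 0 < θ)] at h5
      exact h5
    have h5 : θ * 1 ≤ θ * |p.1 - q.1| := mul_le_mul_of_nonneg_left h2 (by linarith)
    linarith

theorem sep_desc (hθ : H + 1 < θ) {Y : Finset ℝ} (hY : Sep Y) (a : ℕ) : Sep (desc H θ r a Y) := by
  intro y hy z hz hyz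
  unfold desc at hy hz
  rw [mem_filter, mem_image] at hy hz
  obtain ⟨⟨p, hp, rfl⟩, _⟩ := hy
  obtain ⟨⟨q, hq, rfl⟩, _⟩ := hz
  exact sep_pair hθ hY a hp hq (fun h => hyz (by rw [h]))

theorem XS_step (hθ : H + 1 < θ) {Y : Finset ℝ} (hY : Sep Y) (m : ℕ) :
    ∑ y ∈ Y, XX H s θ r (m + 1) y =
      ∑ a ∈ range (H + 1), s a ^ 2 * ∑ z ∈ desc H θ r a Y, XX H s θ r m z := by
  simp only [XX]
  rw [sum_comm]
  refine sum_congr rfl fun a _ => ?_
  rw [← sum_product' Y (range (H + 1)) (fun (y : ℝ) (b : ℕ) => s a ^ 2 *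
    (if |θ * y + b - a| ≤ r then XX H s θ r m (θ * y + b - a) else 0)), ← mul_sum]
  congr 1
  unfold desc
  rw [sum_filter, sum_image]
  intro p hp q hq hpq
  by_contra h
  have h1 := sep_pair hθ hY a hp hq h
  simp only at hpq
  rw [hpq, sub_self, abs_zero] at h1
  linarith

theorem card_le (hr : r < 1) {Y : Finset ℝ} (hY : Sep Y) (h : ∀ y ∈ Y, |y| ≤ r) : Y.card ≤ 2 := by
  classical
  have h1 : (Y.filter fun y => 0 ≤ y).card ≤ 1 := by
    rw [card_le_one]
    intro y hy z hz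
    rw [mem_filter] at hy hz
    by_contra hyz
    have h2 := hY y hy.1 z hz.1 hyz
    have h3 := (abs_le.1 (h y hy.1)).2
    have h4 := (abs_le.1 (h z hz.1)).2
    have h5 : |y - z| ≤ r := by rw [abs_le]; constructor <;> linarith [hy.2, hz.2]
    linarith
  have h2 : (Y.filter fun y => ¬ 0 ≤ y).card ≤ 1 := by
    rw [card_le_one]
    intro y hy z hz
    rw [mem_filter] at hy hz
    by_contra hyz
    have h2 := hY y hy.1 z hz.1 hyz
    have h3 := (abs_le.1 (h y hy.1)).1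
    have h4 := (abs_le.1 (h z hz.1)).1
    have h5 : |y - z| ≤ r := by
      have h6 := not_le.1 hy.2
      have h7 := not_le.1 hz.2
      rw [abs_le]; constructor <;> linarith
    linarith
  have h3 := card_filter_add_card_filter_not (s := Y) (fun y : ℝ => 0 ≤ y)
  omega

theorem XS_le (hθ : H + 1 < θ) (hr : r < 1) (hs : ∑ a ∈ range (H + 1), s a ^ 2 = 1) (m : ℕ) :
    ∀ Y : Finset ℝ, Sep Y → (∀ y ∈ Y, |y| ≤ r) → ∑ y ∈ Y, XX H s θ r m y ≤ 2 := by
  induction m with
  | zero =>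
    intro Y hY h
    simp only [XX, sum_const, nsmul_eq_mul, mul_one]
    exact_mod_cast card_le hr hY h
  | succ m ih =>
    intro Y hY h
    rw [XS_step hθ hY]
    calc ∑ a ∈ range (H + 1), s a ^ 2 * ∑ z ∈ desc H θ r a Y, XX H s θ r m z
        ≤ ∑ a ∈ range (H + 1), s a ^ 2 * 2 := by
          refine sum_le_sum fun a _ => mul_le_mul_of_nonneg_left (ih _ (sep_desc hθ hY a) ?_) (sq_nonneg _)
          intro z hz
          exact (mem_filter.1 hz).2
      _ = 2 := by rw [← sum_mul, hs, one_mul]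

/-- values of integer polynomials -/
def Pol (θ y : ℝ) : Prop := ∃ p : Polynomial ℤ, p ≠ 0 ∧ Polynomial.aeval θ p = y

theorem Pol.step {y : ℝ} (h : Pol θ y) (k : ℤ) : Pol θ (θ * y + k) := by
  obtain ⟨p, hp, rfl⟩ := h
  exact ⟨_, step_ne (Or.inl hp), aeval_step θ p k⟩

theorem Pol.ne {y : ℝ} (ht : Transcendental ℤ θ) (h : Pol θ y) : y ≠ 0 := by
  obtain ⟨p, hp, rfl⟩ := h
  exact aeval_ne ht hp

/-- admissible sets -/
structure Adm (θ r : ℝ) (Y : Finset ℝ) : Prop where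
  sep : Sep Y
  le : ∀ y ∈ Y, |y| ≤ r
  pol : ∀ y ∈ Y, Pol θ y

theorem Adm.desc (hθ : H + 1 < θ) {Y : Finset ℝ} (h : Adm θ r Y) (a : ℕ) :
    Adm θ r (Pool.Agent.Helper59.MF.AC.desc H θ r a Y) := by
  refine ⟨sep_desc hθ h.sep a, fun z hz => (mem_filter.1 hz).2, fun z hz => ?_⟩
  obtain ⟨y, hy, b, _, rfl, _⟩ := mem_desc.1 hz
  have h1 := (h.pol y hy).step ((b : ℤ) - a)
  push_cast at h1
  rwa [← add_sub_assoc] at h1

/-- killed by some string of length `j` -/
def KS (H : ℕ) (θ r : ℝ) : ℕ → Finset ℝ → Prop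
  | 0, Y => Y = ∅
  | j + 1, Y => ∃ a ≤ H, KS H θ r j (desc H θ r a Y)

theorem kill_step (hθ : H + 1 < θ) (hs : ∑ a ∈ range (H + 1), s a ^ 2 = 1) {c B : ℝ} (hc0 : 0 ≤ c)
    (hc : ∀ a ≤ H, c ≤ s a ^ 2) (hB : 0 ≤ B)
    (hZ : ∀ Z, Adm θ r Z → ∃ M : ℕ, ∀ m, M ≤ m → ∑ z ∈ Z, XX H s θ r m z ≤ B) (j : ℕ) :
    ∀ Y, Adm θ r Y → KS H θ r j Y →
      ∃ M : ℕ, ∀ m, M ≤ m → ∑ y ∈ Y, XX H s θ r m y ≤ B * (1 - c ^ j) := by
  induction j with
  | zero =>
    intro Y _ hK
    simp only [KS] at hK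
    refine ⟨0, fun m _ => ?_⟩
    rw [hK, sum_empty, pow_zero, sub_self, mul_zero]
  | succ j ih =>
    intro Y hY hK
    obtain ⟨a, ha, hK⟩ := hK
    obtain ⟨M₁, hM₁⟩ := ih _ (hY.desc hθ a) hK
    choose M hM using fun a' : ℕ => hZ _ (hY.desc (H := H) hθ a')
    refine ⟨max M₁ ((range (H + 1)).sup M) + 1, fun m hm => ?_⟩
    obtain ⟨m, rfl⟩ : ∃ m', m = m' + 1 := ⟨m - 1, by omega⟩
    have hm1 : M₁ ≤ m := by
      have := le_max_left M₁ ((range (H + 1)).sup M)
      omega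
    have hm2 : (range (H + 1)).sup M ≤ m := by
      have := le_max_right M₁ ((range (H + 1)).sup M)
      omega
    have har : a ∈ range (H + 1) := mem_range.2 (by omega)
    rw [XS_step hθ hY.sep, ← add_sum_erase _ _ har]
    have h1 : s a ^ 2 * ∑ z ∈ desc H θ r a Y, XX H s θ r m z ≤ s a ^ 2 * (B * (1 - c ^ j)) :=
      mul_le_mul_of_nonneg_left (hM₁ m hm1) (sq_nonneg _)
    have h2 : ∑ a' ∈ (range (H + 1)).erase a, s a' ^ 2 * ∑ z ∈ desc H θ r a' Y, XX H s θ r m z ≤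
        ∑ a' ∈ (range (H + 1)).erase a, s a' ^ 2 * B := by
      refine sum_le_sum fun a' ha' => mul_le_mul_of_nonneg_left (hM a' m ?_) (sq_nonneg _)
      exact (le_sup (f := M) (mem_of_mem_erase ha')).trans hm2
    have h3 : ∑ a' ∈ (range (H + 1)).erase a, s a' ^ 2 = 1 - s a ^ 2 := by
      rw [← hs, ← add_sum_erase _ _ har]; ring
    rw [← sum_mul, h3] at h2
    have h4 : c * c ^ j ≤ s a ^ 2 * c ^ j := mul_le_mul_of_nonneg_right (hc a ha) (pow_nonneg hc0 j)
    have h5 : B * (c * c ^ j) ≤ B * (s a ^ 2 * c ^ j) := mul_le_mul_of_nonneg_left h4 hB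
    rw [show c ^ (j + 1) = c * c ^ j by rw [pow_succ, mul_comm]]
    linarith

end sets

section kill
variable {H : ℕ} {θ r : ℝ}

/-- digits which move the gap `(l, h)` over `[-r, r]` -/
def RR (H : ℕ) (θ r : ℝ) : ℕ → ℝ → ℝ → Prop
  | 0, l, h => l - H / (θ - 1) < -r ∧ r < h
  | j + 1, l, h => ∃ a : ℕ, a ≤ H ∧ RR H θ r j (θ * l - a) (θ * h - a)

theorem dd_eq (hθ : H + 1 < θ) : θ * (H / (θ - 1)) = H + H / (θ - 1) := by
  have hH : (0 : ℝ) ≤ H := Nat.cast_nonneg H
  have h1 : θ - 1 ≠ 0 := by linarith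
  field_simp
  ring

theorem KS_of_RR (hθ : H + 1 < θ) (j : ℕ) : ∀ (l h : ℝ) (Y : Finset ℝ), RR H θ r j l h →
    (∀ y ∈ Y, |y| ≤ r) → (∀ y ∈ Y, y ≤ l - H / (θ - 1) ∨ h ≤ y) → KS H θ r j Y := by
  have hH : (0 : ℝ) ≤ H := Nat.cast_nonneg H
  have hD := dd_eq hθ
  induction j with
  | zero =>
    intro l h Y hR hY hI
    simp only [KS]
    rw [eq_empty_iff_forall_notMem]
    intro y hy
    have h1 := abs_le.1 (hY y hy)
    simp only [RR] at hR
    rcases hI y hy with h2 | h2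
    · linarith [hR.1]
    · linarith [hR.2]
  | succ j ih =>
    intro l h Y hR hY hI
    obtain ⟨a, ha, hR⟩ := hR
    refine ⟨a, ha, ih _ _ _ hR (fun z hz => (mem_filter.1 hz).2) fun z hz => ?_⟩
    obtain ⟨y, hy, b, hb, rfl, _⟩ := mem_desc.1 hz
    have hb' : (b : ℝ) ≤ H := by exact_mod_cast hb
    have hb0 : (0 : ℝ) ≤ b := Nat.cast_nonneg b
    rcases hI y hy with h2 | h2
    · left
      have h3 := mul_le_mul_of_nonneg_left h2 (by linarith : (0 : ℝ) ≤ θ)
      rw [mul_sub, hD] at h3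
      linarith
    · right
      have h3 := mul_le_mul_of_nonneg_left h2 (by linarith : (0 : ℝ) ≤ θ)
      linarith

theorem RR_zero (hθ : H + 1 < θ) (n : ℕ) : ∀ l h μ : ℝ, r < θ ^ n * μ → l ≤ -μ → μ ≤ h →
    RR H θ r n l h := by
  have hH : (0 : ℝ) ≤ H := Nat.cast_nonneg H
  have hD0 : 0 ≤ (H : ℝ) / (θ - 1) := div_nonneg hH (by linarith)
  induction n with
  | zero =>
    intro l h μ h1 h2 h3
    rw [pow_zero, one_mul] at h1
    exact ⟨by linarith, by linarith⟩
  | succ n ih =>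
    intro l h μ h1 h2 h3
    refine ⟨0, by omega, ih _ _ (θ * μ) ?_ ?_ ?_⟩
    · rw [pow_succ] at h1; linarith
    · have := mul_le_mul_of_nonneg_left h2 (by linarith : (0 : ℝ) ≤ θ)
      push_cast; linarith
    · have := mul_le_mul_of_nonneg_left h3 (by linarith : (0 : ℝ) ≤ θ)
      push_cast; linarith

theorem RR_top (hθ : H + 1 < θ) (n : ℕ) : ∀ l h μ : ℝ, r < θ ^ n * μ → l ≤ H / (θ - 1) - μ →
    H / (θ - 1) + μ ≤ h → RR H θ r n l h := by
  have hH : (0 : ℝ) ≤ H := Nat.cast_nonneg H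
  have hD := dd_eq hθ
  have hD0 : 0 ≤ (H : ℝ) / (θ - 1) := div_nonneg hH (by linarith)
  induction n with
  | zero =>
    intro l h μ h1 h2 h3
    rw [pow_zero, one_mul] at h1
    exact ⟨by linarith, by linarith⟩
  | succ n ih =>
    intro l h μ h1 h2 h3
    refine ⟨H, le_refl _, ih _ _ (θ * μ) ?_ ?_ ?_⟩
    · rw [pow_succ] at h1; linarith
    · have := mul_le_mul_of_nonneg_left h2 (by linarith : (0 : ℝ) ≤ θ)
      rw [mul_sub, hD] at this
      linarith
    · have := mul_le_mul_of_nonneg_left h3 (by linarith : (0 : ℝ) ≤ θ)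
      rw [mul_add, hD] at this
      linarith

/-- the choice of a digit -/
theorem digit (hθ : H + 1 < θ) {μ l h : ℝ} (hμ : 0 < μ) (hμ2 : 2 * μ < θ - H - 1)
    (hl : l < H / (θ - 1) - μ) (hh : μ < h) (hw : 1 - H / (θ - 1) ≤ h - l) :
    ∃ a : ℕ, a ≤ H ∧ θ * l - a < H / (θ - 1) - μ ∧ μ < θ * h - a := by
  have hH : (0 : ℝ) ≤ H := Nat.cast_nonneg H
  have hD := dd_eq hθ
  have hθ0 : 0 < θ := by linarith
  have h1 := mul_lt_mul_of_pos_left hl hθ0
  rw [mul_sub, hD] at h1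
  have h2 := mul_lt_mul_of_pos_left hh hθ0
  have h3 := mul_le_mul_of_nonneg_left hw hθ0.le
  rw [mul_sub, mul_sub, hD] at h3
  have h6 : μ < θ * μ := by nlinarith
  rcases lt_or_ge (θ * l - H / (θ - 1) + μ) 0 with h4 | h4
  · exact ⟨0, by omega, by push_cast; linarith, by push_cast; linarith⟩
  · have h5 := Nat.floor_le h4
    have h7 := Nat.lt_floor_add_one (θ * l - H / (θ - 1) + μ)
    refine ⟨⌊θ * l - H / (θ - 1) + μ⌋₊ + 1, ?_, ?_, ?_⟩
    · have h8 : (⌊θ * l - H / (θ - 1) + μ⌋₊ : ℝ) < H := by linarith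
      exact_mod_cast h8
    · push_cast; linarith
    · push_cast; linarith

theorem RR_gap (hθ : H + 1 < θ) {μ : ℝ} (hμ : 0 < μ) (hμ2 : 2 * μ < θ - H - 1) {n : ℕ}
    (hn : r < θ ^ n * μ) (j : ℕ) : ∀ l h : ℝ, l < H / (θ - 1) - μ → μ < h →
      1 - H / (θ - 1) ≤ h - l → H / (θ - 1) + 2 * μ ≤ θ ^ j * (h - l) → RR H θ r (j + n) l h := by
  have hH : (0 : ℝ) ≤ H := Nat.cast_nonneg H
  induction j with
  | zero =>
    intro l h h1 h2 _ h4
    rw [pow_zero, one_mul] at h4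
    rw [zero_add]
    rcases le_or_gt l (-μ) with h5 | h5
    · exact RR_zero hθ n l h μ hn h5 h2.le
    · exact RR_top hθ n l h μ hn h1.le (by linarith)
  | succ j ih =>
    intro l h h1 h2 h3 h4
    obtain ⟨a, ha, h5, h6⟩ := digit hθ hμ hμ2 h1 h2 h3
    rw [show j + 1 + n = (j + n) + 1 by omega]
    have hD : (H : ℝ) / (θ - 1) < 1 := by rw [div_lt_one (by linarith)]; linarith
    have e1 : θ * h - a - (θ * l - a) = θ * (h - l) := by ring
    refine ⟨a, ha, ih _ _ h5 h6 ?_ ?_⟩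
    · rw [e1]
      have h7 : 0 < h - l := by linarith
      nlinarith
    · rw [e1, ← mul_assoc, ← pow_succ]
      exact h4

/-- all sets away from zero are killed in `L` steps -/
theorem exists_kill (hθ : H + 1 < θ) (hr : r < 1) {y₁ : ℝ} (hy₁ : 0 < y₁) :
    ∃ L : ℕ, ∀ Y : Finset ℝ, Sep Y → (∀ y ∈ Y, |y| ≤ r) → (∀ y ∈ Y, y₁ ≤ |y|) → KS H θ r L Y := by
  classical
  have hH : (0 : ℝ) ≤ H := Nat.cast_nonneg H
  have hθ1 : 1 < θ := by linarith
  set D : ℝ := H / (θ - 1) with hDd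
  have hD : D < 1 := by rw [hDd, div_lt_one (by linarith)]; linarith
  have hD0 : 0 ≤ D := div_nonneg hH (by linarith)
  obtain ⟨μ, hμ, hμ1, hμ2, hμ3⟩ : ∃ μ : ℝ, 0 < μ ∧ μ < y₁ ∧ 2 * μ < θ - H - 1 ∧ μ < 1 := by
    refine ⟨min (min (y₁ / 2) ((θ - H - 1) / 4)) (1 / 2), ?_, ?_, ?_, ?_⟩
    · refine lt_min (lt_min (by linarith) (by linarith)) (by norm_num)
    · have := (min_le_left (min (y₁ / 2) ((θ - H - 1) / 4)) (1 / 2)).trans (min_le_left _ _)
      linarith
    · have := (min_le_left (min (y₁ / 2) ((θ - H - 1) / 4)) (1 / 2)).trans (min_le_right _ _)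
      linarith
    · have := min_le_right (min (y₁ / 2) ((θ - H - 1) / 4)) (1 / 2)
      linarith
  obtain ⟨n, hn⟩ := pow_unbounded_of_one_lt (r / μ) hθ1
  rw [div_lt_iff₀ hμ] at hn
  obtain ⟨j, hj⟩ := pow_unbounded_of_one_lt ((D + 2 * μ) / (1 - D)) hθ1
  rw [div_lt_iff₀ (by linarith)] at hj
  have key : ∀ l h : ℝ, l < D - μ → μ < h → 1 - D ≤ h - l → RR H θ r (j + n) l h := by
    intro l h h1 h2 h3
    refine RR_gap hθ hμ hμ2 hn j l h h1 h2 h3 ?_
    have h4 := mul_le_mul_of_nonneg_left h3 (pow_nonneg (by linarith : (0 : ℝ) ≤ θ) j)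
    linarith
  refine ⟨j + n, fun Y hS hle hge => ?_⟩
  -- at most one positive, at most one negative element
  have hpos : ∀ y ∈ Y, ∀ z ∈ Y, 0 < y → 0 < z → z = y := by
    intro y hy z hz h1 h2
    by_contra hne
    have h3 := hS y hy z hz (fun h => hne h.symm)
    have h4 := (abs_le.1 (hle y hy)).2
    have h5 := (abs_le.1 (hle z hz)).2
    have h6 : |y - z| ≤ r := by rw [abs_le]; constructor <;> linarith
    linarith
  have hneg : ∀ y ∈ Y, ∀ z ∈ Y, y < 0 → z < 0 → z = y := by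
    intro y hy z hz h1 h2
    by_contra hne
    have h3 := hS y hy z hz (fun h => hne h.symm)
    have h4 := (abs_le.1 (hle y hy)).1
    have h5 := (abs_le.1 (hle z hz)).1
    have h6 : |y - z| ≤ r := by rw [abs_le]; constructor <;> linarith
    linarith
  have hsgn : ∀ y ∈ Y, (0 < y ∧ y₁ ≤ y) ∨ (y < 0 ∧ y₁ ≤ -y) := by
    intro y hy
    have h1 := hge y hy
    rcases le_or_gt 0 y with h2 | h2
    · rw [abs_of_nonneg h2] at h1; left; exact ⟨by linarith, h1⟩
    · rw [abs_of_neg h2] at h1; right; exact ⟨h2, h1⟩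
  by_cases hp : ∃ y ∈ Y, 0 < y
  · obtain ⟨y, hy, hy0⟩ := hp
    have hy1 : y₁ ≤ y := by
      rcases hsgn y hy with h | h
      · exact h.2
      · linarith [h.1]
    by_cases hn' : ∃ z ∈ Y, z < 0
    · obtain ⟨z, hz, hz0⟩ := hn'
      have hz1 : y₁ ≤ -z := by
        rcases hsgn z hz with h | h
        · linarith [h.1]
        · exact h.2
      have h1 := hS y hy z hz (by intro h; linarith)
      rw [abs_of_pos (by linarith)] at h1
      refine KS_of_RR hθ (j + n) (z + D) y Y (key _ _ (by linarith) (by linarith) (by linarith)) hle ?_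
      intro w hw
      rcases hsgn w hw with h | h
      · right; rw [hpos y hy w hw hy0 h.1]
      · left; rw [hneg z hz w hw hz0 h.1]; linarith
    · push Not at hn'
      refine KS_of_RR hθ (j + n) (-1) y Y (key _ _ (by linarith) (by linarith) (by linarith)) hle ?_
      intro w hw
      rcases hsgn w hw with h | h
      · right; rw [hpos y hy w hw hy0 h.1]
      · linarith [hn' w hw, h.1]
  · push Not at hp
    by_cases hn' : ∃ z ∈ Y, z < 0
    · obtain ⟨z, hz, hz0⟩ := hn'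
      have hz1 : y₁ ≤ -z := by
        rcases hsgn z hz with h | h
        · linarith [h.1]
        · exact h.2
      refine KS_of_RR hθ (j + n) (z + D) (D + 1) Y (key _ _ (by linarith) (by linarith) (by linarith))
        hle ?_
      intro w hw
      rcases hsgn w hw with h | h
      · linarith [hp w hw, h.1]
      · left; rw [hneg z hz w hw hz0 h.1]; linarith
    · push Not at hn'
      refine KS_of_RR hθ (j + n) (-1) (D + 1) Y (key _ _ (by linarith) (by linarith) (by linarith)) hle ?_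
      intro w hw
      rcases hsgn w hw with h | h
      · linarith [hp w hw, h.1]
      · linarith [hn' w hw, h.1]

end kill

section main
variable {H : ℕ} {W : ℤ → ℝ} {s : ℕ → ℝ} {θ r : ℝ}

/-- near zero only the digit difference zero survives -/
theorem XX_near (hθ : H + 1 < θ) (hs : ∑ a ∈ range (H + 1), s a ^ 2 = 1) (m : ℕ) (y : ℝ)
    (hy : θ * |y| < 1 - r) :
    XX H s θ r (m + 1) y = if |θ * y| ≤ r then XX H s θ r m (θ * y) else 0 := by
  have hH : (0 : ℝ) ≤ H := Nat.cast_nonneg H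
  simp only [XX]
  have h1 : ∀ a ∈ range (H + 1), ∑ b ∈ range (H + 1),
      s a ^ 2 * (if |θ * y + b - a| ≤ r then XX H s θ r m (θ * y + b - a) else 0) =
      s a ^ 2 * (if |θ * y| ≤ r then XX H s θ r m (θ * y) else 0) := by
    intro a ha
    rw [sum_eq_single a]
    · rw [add_sub_cancel_right]
    · intro b _ hba
      rw [if_neg, mul_zero]
      intro h
      have h2 : (1 : ℤ) ≤ |(b : ℤ) - a| := Int.one_le_abs (by omega)
      have h3 : (1 : ℝ) ≤ |(b : ℝ) - a| := by exact_mod_cast h2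
      have h4 := abs_sub_abs_le_abs_sub ((b : ℝ) - a) (-(θ * y))
      rw [sub_neg_eq_add, abs_neg, abs_mul, abs_of_pos (by linarith : 0 < θ)] at h4
      have h5 : (b : ℝ) - a + θ * y = θ * y + b - a := by ring
      rw [h5] at h4
      linarith
    · intro h; exact absurd ha h
  rw [sum_congr rfl h1, ← sum_mul, hs, one_mul]

theorem dec_all (hθ : H + 1 < θ) (ht : Transcendental ℤ θ) (hr : r < 1)
    (hs : ∑ a ∈ range (H + 1), s a ^ 2 = 1) (hs0 : ∀ a, 0 < s a) :
    ∃ q : ℝ, 0 ≤ q ∧ q < 1 ∧ ∀ l : ℕ, ∀ Y, Adm θ r Y →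
      ∃ M : ℕ, ∀ m, M ≤ m → ∑ y ∈ Y, XX H s θ r m y ≤ 2 * q ^ l := by
  have hH : (0 : ℝ) ≤ H := Nat.cast_nonneg H
  have hθ0 : 0 < θ := by linarith
  set y₁ : ℝ := (1 - r) / θ with hy₁
  have hy₁0 : 0 < y₁ := div_pos (by linarith) hθ0
  have hy₁θ : θ * y₁ = 1 - r := by rw [hy₁, mul_div_cancel₀ _ hθ0.ne']
  obtain ⟨L, hL⟩ := exists_kill (H := H) hθ hr hy₁0
  -- the least probability
  obtain ⟨c, hc0, hc⟩ : ∃ c : ℝ, 0 < c ∧ ∀ a ≤ H, c ≤ s a ^ 2 := by
    obtain ⟨a₀, _, ha₀⟩ := exists_min_image (range (H + 1)) (fun a => s a ^ 2) ⟨0, mem_range.2 (by omega)⟩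
    exact ⟨s a₀ ^ 2, pow_pos (hs0 a₀) 2, fun a ha => ha₀ a (mem_range.2 (by omega))⟩
  have hc1 : c ≤ 1 := by
    refine (hc 0 (by omega)).trans ?_
    rw [← hs]
    exact single_le_sum (f := fun a => s a ^ 2) (fun a _ => sq_nonneg _) (mem_range.2 (by omega))
  refine ⟨1 - c ^ L, ?_, ?_, ?_⟩
  · have := pow_le_one₀ (n := L) hc0.le hc1
    linarith
  · have := pow_pos hc0 L
    linarith
  intro l
  have hq0 : 0 ≤ 1 - c ^ L := by
    have := pow_le_one₀ (n := L) hc0.le hc1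
    linarith
  induction l with
  | zero =>
    intro Y hY
    refine ⟨0, fun m _ => ?_⟩
    rw [pow_zero, mul_one]
    exact XS_le hθ hr hs m Y hY.sep hY.le
  | succ l ih =>
    -- far from zero
    have hfar : ∀ Y, Adm θ r Y → (∀ y ∈ Y, y₁ ≤ |y|) →
        ∃ M : ℕ, ∀ m, M ≤ m → ∑ y ∈ Y, XX H s θ r m y ≤ 2 * (1 - c ^ L) ^ (l + 1) := by
      intro Y hY hge
      obtain ⟨M, hM⟩ := kill_step hθ hs hc0.le hc (B := 2 * (1 - c ^ L) ^ l) (by positivity) ih L Y hY
        (hL Y hY.sep hY.le hge)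
      refine ⟨M, fun m hm => (hM m hm).trans (le_of_eq ?_)⟩
      rw [pow_succ]; ring
    -- one point
    have hone : ∀ n : ℕ, ∀ y : ℝ, Pol θ y → |y| ≤ r → y₁ ≤ θ ^ n * |y| →
        ∃ M : ℕ, ∀ m, M ≤ m → XX H s θ r m y ≤ 2 * (1 - c ^ L) ^ (l + 1) := by
      intro n
      have hsing : ∀ y : ℝ, Pol θ y → |y| ≤ r → y₁ ≤ |y| →
          ∃ M : ℕ, ∀ m, M ≤ m → XX H s θ r m y ≤ 2 * (1 - c ^ L) ^ (l + 1) := by
        intro y hp hy hy1
        obtain ⟨M, hM⟩ := hfar {y} ⟨fun a ha b hb hab => absurd ((mem_singleton.1 ha).trans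
          (mem_singleton.1 hb).symm) hab, fun z hz => by rw [mem_singleton.1 hz]; exact hy,
          fun z hz => by rw [mem_singleton.1 hz]; exact hp⟩ (fun z hz => by
            rw [mem_singleton.1 hz]; exact hy1)
        exact ⟨M, fun m hm => by have := hM m hm; rwa [sum_singleton] at this⟩
      induction n with
      | zero => intro y hp hy h; rw [pow_zero, one_mul] at h; exact hsing y hp hy h
      | succ n ihn =>
        intro y hp hy h
        by_cases hy1 : y₁ ≤ |y|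
        · exact hsing y hp hy hy1
        · push Not at hy1
          have h1 : θ * |y| < 1 - r := by
            have := mul_lt_mul_of_pos_left hy1 hθ0
            linarith
          have ha : |θ * y| = θ * |y| := by rw [abs_mul, abs_of_pos hθ0]
          have hp' : Pol θ (θ * y) := by
            have := hp.step 0
            rwa [Int.cast_zero, add_zero] at this
          by_cases h2 : |θ * y| ≤ r
          · obtain ⟨M, hM⟩ := ihn (θ * y) hp' h2 (by rw [ha]; rw [pow_succ] at h; linarith)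
            refine ⟨M + 1, fun m hm => ?_⟩
            obtain ⟨m, rfl⟩ : ∃ m', m = m' + 1 := ⟨m - 1, by omega⟩
            rw [XX_near hθ hs m y h1, if_pos h2]
            exact hM m (by omega)
          · refine ⟨1, fun m hm => ?_⟩
            obtain ⟨m, rfl⟩ : ∃ m', m = m' + 1 := ⟨m - 1, by omega⟩
            rw [XX_near hθ hs m y h1, if_neg h2]
            positivity
    intro Y hY
    by_cases hnear : ∃ y ∈ Y, |y| < y₁
    · obtain ⟨y, hy, hy1⟩ := hnear
      have hY1 : Y = {y} := by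
        rw [eq_singleton_iff_unique_mem]
        refine ⟨hy, fun z hz => ?_⟩
        by_contra hne
        have h1 := hY.sep z hz y hy hne
        have h2 := hY.le z hz
        have h3 : |z - y| ≤ |z| + |y| := abs_sub z y
        have h4 : y₁ ≤ 1 - r := by
          rw [hy₁, div_le_iff₀ hθ0]
          nlinarith
        linarith
      obtain ⟨n, hn⟩ := pow_unbounded_of_one_lt (y₁ / |y|) (by linarith : (1 : ℝ) < θ)
      have hy0 : 0 < |y| := abs_pos.2 ((hY.pol y hy).ne ht)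
      rw [div_lt_iff₀ hy0] at hn
      obtain ⟨M, hM⟩ := hone n y (hY.pol y hy) (hY.le y hy) hn.le
      exact ⟨M, fun m hm => by rw [hY1, sum_singleton]; exact hM m hm⟩
    · push Not at hnear
      exact hfar Y hY hnear

/-- weights dominated by an autocorrelation -/
theorem good_auto (hθ : H + 1 < θ) (ht : Transcendental ℤ θ) (hn : ∀ k, 0 ≤ W k)
    (hs0 : ∀ a, 0 < s a) (hs : ∑ a ∈ range (H + 1), s a ^ 2 = 1)
    (hW : ∀ k ∈ Icc (-(H : ℤ)) H, W k ≤
      ∑ a ∈ range (H + 1), ∑ b ∈ range (H + 1), if (b : ℤ) - a = k then s a * s b else 0) :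
    Good H W θ := by
  have hH : (0 : ℝ) ≤ H := Nat.cast_nonneg H
  have hD : (H : ℝ) / (θ - 1) < 1 := by rw [div_lt_one (by linarith)]; linarith
  set r : ℝ := ((H : ℝ) / (θ - 1) + 1) / 2 with hr
  have hr1 : r < 1 := by rw [hr]; linarith
  obtain ⟨q, hq0, hq1, hq⟩ := dec_all (r := r) hθ ht hr1 hs hs0
  refine ⟨r, by rw [hr]; linarith, fun p hp hy => ?_⟩
  rw [Metric.tendsto_atTop]
  intro ε hε
  obtain ⟨l, hl⟩ := exists_pow_lt_of_lt_one (show (0 : ℝ) < ε ^ 2 / 4 by positivity) hq1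
  set y : ℝ := Polynomial.aeval θ p with hyd
  have hsing : ∀ z : ℝ, Sep {z} := fun z a ha b hb hab =>
    absurd ((mem_singleton.1 ha).trans (mem_singleton.1 hb).symm) hab
  obtain ⟨M, hM⟩ := hq l {y} ⟨hsing y, fun z hz => by rw [mem_singleton.1 hz]; exact hy,
    fun z hz => by rw [mem_singleton.1 hz]; exact ⟨p, hp, rfl⟩⟩
  refine ⟨M, fun m hm => ?_⟩
  rw [Real.dist_eq, sub_zero, abs_of_nonneg (sv_nonneg hn _ _)]
  have h1 := hM m hm
  rw [sum_singleton] at h1
  have h2 : XX H s θ r m (-y) ≤ 2 := by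
    have := XS_le hθ hr1 hs m {-y} (hsing _) (fun z hz => by rw [mem_singleton.1 hz, abs_neg]; exact hy)
    rwa [sum_singleton] at this
  have h3 := sv_le_XX (H := H) (W := W) (s := s) (θ := θ) (r := r) (fun a => (hs0 a).le) hn hW m y
  refine h3.trans_lt ?_
  rw [← Real.sqrt_mul (XX_nonneg _ _), Real.sqrt_lt' hε]
  calc XX H s θ r m y * XX H s θ r m (-y) ≤ 2 * q ^ l * 2 :=
        mul_le_mul h1 h2 (XX_nonneg _ _) (by positivity)
    _ < ε ^ 2 := by linarith

/-- the total weight -/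
theorem total_auto (hs : ∑ a ∈ range (H + 1), s a ^ 2 = 1)
    (hW : ∀ k ∈ Icc (-(H : ℤ)) H, W k ≤
      ∑ a ∈ range (H + 1), ∑ b ∈ range (H + 1), if (b : ℤ) - a = k then s a * s b else 0) :
    ∑ k ∈ Icc (-(H : ℤ)) H, W k ≤ H + 1 := by
  calc ∑ k ∈ Icc (-(H : ℤ)) H, W k ≤ ∑ k ∈ Icc (-(H : ℤ)) H,
        ∑ a ∈ range (H + 1), ∑ b ∈ range (H + 1), (if (b : ℤ) - a = k then s a * s b else 0) :=
        sum_le_sum hW
    _ = ∑ a ∈ range (H + 1), ∑ b ∈ range (H + 1), s a * s b := by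
        rw [sum_comm]
        refine sum_congr rfl fun a ha => ?_
        rw [sum_comm]
        refine sum_congr rfl fun b hb => ?_
        rw [mem_range] at ha hb
        rw [sum_ite_eq, if_pos (by rw [mem_Icc]; omega)]
    _ = (∑ a ∈ range (H + 1), s a) ^ 2 := by
        rw [sq, sum_mul_sum]
    _ ≤ (range (H + 1)).card * ∑ a ∈ range (H + 1), s a ^ 2 := sq_sum_le_card_mul_sum_sq
    _ = H + 1 := by rw [hs, card_range]; push_cast; ring

end main

end Pool.Agent.Helper59.MF.AC
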