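import Pool.Agent.Helper59.MF.FinJ
import Pool.Agent.Helper59.MF.FamG
import Pool.Agent.Helper59.MF.FW
import Pool.Agent.Helper59.MF.TreeD
import Pool.Agent.Helper59.MF.TreeF

/-!
# MF-G: the exact dimensions
-/

set_option autoImplicit false

namespace Pool.Agent.Helper59.MF

open Finset MeasureTheory Filter Topology
open Pool.Agent.Helper59.RE (e norm_e e_add conj_e continuous_e e_zero)

/-- averages and shifts -/
theorem avg_shift {𝕜 : Type*} [RCLike 𝕜] (c : ℕ → 𝕜) (K : ℝ) (hc : ∀ n, ‖c n‖ ≤ K) (s : ℕ) (L : 𝕜) :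
    Tendsto (fun N : ℕ => (∑ n ∈ range N, c (n + s)) / (N : 𝕜)) atTop (𝓝 L) ↔
      Tendsto (fun N : ℕ => (∑ n ∈ range N, c n) / (N : 𝕜)) atTop (𝓝 L) := by
  have hK : 0 ≤ K := (norm_nonneg _).trans (hc 0)
  have hd : Tendsto (fun N : ℕ => (∑ n ∈ range N, c (n + s)) / (N : 𝕜) -
      (∑ n ∈ range N, c n) / (N : 𝕜)) atTop (𝓝 0) := by
    rw [tendsto_zero_iff_norm_tendsto_zero]
    have h1 : Tendsto (fun N : ℕ => (2 * s * K) / (N : ℝ)) atTop (𝓝 0) :=
      tendsto_const_div_atTop_nhds_zero_nat _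
    refine squeeze_zero (fun N => norm_nonneg _) (fun N => ?_) h1
    rw [← sub_div, norm_div, RCLike.norm_natCast]
    refine div_le_div_of_nonneg_right ?_ (Nat.cast_nonneg N)
    have h2 : ∑ n ∈ range N, c (n + s) - ∑ n ∈ range N, c n =
        ∑ n ∈ range s, c (N + n) - ∑ n ∈ range s, c n := by
      have h3 := sum_range_add c N s
      have h4 := sum_range_add c s N
      have h5 : ∑ n ∈ range N, c (s + n) = ∑ n ∈ range N, c (n + s) :=
        sum_congr rfl fun n _ => by rw [add_comm]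
      rw [add_comm s N, h5] at h4
      rw [h4] at h3
      linear_combination h3
    rw [h2]
    have h6 : ∀ u : ℕ → ℕ, ‖∑ n ∈ range s, c (u n)‖ ≤ s * K := by
      intro u
      refine (norm_sum_le _ _).trans ((sum_le_card_nsmul _ _ _ fun n _ => hc (u n)).trans ?_)
      rw [card_range, nsmul_eq_mul]
    refine (norm_sub_le _ _).trans ((add_le_add (h6 fun n => N + n) (h6 fun n => n)).trans ?_)
    apply le_of_eq
    ring
  constructor
  · intro h
    have := h.sub hd
    rw [sub_zero] at this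
    exact this.congr fun N => by ring
  · intro h
    have := h.add hd
    rw [add_zero] at this
    exact this.congr fun N => by ring

theorem per_bounded {F : ℝ → ℝ} (hF : Continuous F) (hp : ∀ x, F (x + 1) = F x) :
    ∃ K : ℝ, ∀ x, ‖F x‖ ≤ K := by
  obtain ⟨K, hK⟩ := (isCompact_Icc (a := (0 : ℝ)) (b := 1)).exists_bound_of_continuousOn hF.continuousOn
  refine ⟨K, fun x => ?_⟩
  have hper : Function.Periodic F 1 := hp
  have h1 : F x = F (Int.fract x) := by
    have := hper.sub_int_mul_eq (x := x) ⌊x⌋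
    rw [mul_one] at this
    rw [← this]
    rfl
  rw [h1]
  exact hK _ ⟨Int.fract_nonneg x, (Int.fract_lt_one x).le⟩

theorem law_shift (u : ℕ → ℝ) (g : ℝ → ℝ) (s : ℕ) : HasLaw (fun n => u (n + s)) g ↔ HasLaw u g := by
  unfold HasLaw
  refine forall_congr' fun F => forall_congr' fun hF => forall_congr' fun hp => ?_
  obtain ⟨K, hK⟩ := per_bounded hF hp
  exact avg_shift (fun n => F (u n)) K (fun n => hK _) s _

theorem joint_shift (u : ℕ → ℝ) (g : ℝ → ℝ) (s : ℕ) : HasJoint (fun n => u (n + s)) g ↔ HasJoint u g := by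
  unfold HasJoint
  refine forall_congr' fun h => forall_congr' fun r => ?_
  have h1 := avg_shift (fun n => e (∑ l ∈ range r, (h l : ℝ) * u (n + l))) 1 (fun n => (norm_e _).le) s
    (∏ l ∈ range r, ∫ t in (0 : ℝ)..1, e (h l * t) * g t)
  rw [← h1]
  refine Eq.to_iff (congrArg (fun f => Tendsto f atTop _) ?_)
  funext N
  congr 1
  refine sum_congr rfl fun n _ => ?_
  congr 1
  refine sum_congr rfl fun l _ => ?_
  show (h l : ℝ) * u (n + l + s) = (h l : ℝ) * u (n + s + l)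
  rw [show n + l + s = n + s + l by ring]

variable {H : ℕ} {G : ℤ → ℂ} {g : ℝ → ℝ}

/-- the condition on the base -/
def Cond (H : ℕ) (_G : ℤ → ℂ) (θ : ℝ) : Prop := H + 1 < θ

theorem Cond.base (hg : Dens H G g) {θ : ℝ} (h : Cond H G θ) : H + 1 < θ ∧ 1 + ww H G < θ := by
  refine ⟨h, ?_⟩
  obtain ⟨s, _, hs, hW⟩ := exists_weights hg
  have h1 := AC.total_auto (W := fun k => ‖G k‖) hs hW
  have h2 := total (H := H) (W := fun k => ‖G k‖) (by rw [hg.zero, norm_one])
  unfold ww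
  have h3 : (H : ℝ) + 1 < θ := h
  linarith

theorem Cond.good (hg : Dens H G g) {θ : ℝ} (h : Cond H G θ) (ht : Transcendental ℤ θ) :
    Good H (fun k => ‖G k‖) θ := by
  obtain ⟨s, hs0, hs, hW⟩ := exists_weights hg
  exact AC.good_auto h ht (fun k => norm_nonneg _) hs0 hs hW

/-- the upper bound on compact intervals -/
theorem upper_cpt (hg : Dens H G g) {a b : ℝ} {ρ β : ℝ → ℝ} (h : RB a b ρ β) {p q : ℝ} (hp : a < p)
    (hpq : p < q) (hq : q < b) (hc : Cond H G (β p)) :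
    dimH {x | x ∈ Set.Ioo p q ∧ HasLaw (fun n => ρ x * β x ^ n) g} ≤
      ENNReal.ofReal (1 - DD g / Real.log (β q)) := by
  have hH : (0 : ℝ) ≤ H := Nat.cast_nonneg H
  have hb := hc.base hg
  have hpI : p ∈ Set.Ioo a b := ⟨hp, hpq.trans hq⟩
  have hqI : q ∈ Set.Ioo a b := ⟨hp.trans hpq, hq⟩
  obtain ⟨s, C, f, f1, f2, hf, hfe, _⟩ := fam_gen h hp hpq hq (by linarith)
  obtain ⟨K, hK⟩ := mass_total hg hf hb.1 hb.2
  have hB : 1 < β q := by
    have := h.mβ hpI hqI hpq.le
    linarith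
  refine le_trans (dimH_mono ?_) (upper hg hf hB K hK)
  intro x hx
  refine ⟨hx.1, ?_⟩
  have h1 := (law_shift (fun n => ρ x * β x ^ n) g s).2 hx.2
  have h2 : (fun n => f n x) = fun n => ρ x * β x ^ (n + s) := by
    funext n
    exact hfe n x ⟨hx.1.1.le, hx.1.2.le⟩
  rw [h2]
  exact h1

/-- the lower bound on compact intervals -/
theorem lower_cpt (hg : Dens H G g) {a b : ℝ} {ρ β : ℝ → ℝ} (h : RB a b ρ β)
    (hZ : {x : ℝ | x ∈ Set.Ioo a b ∧ IsAlgebraic ℤ (β x)}.Countable) {p q : ℝ} (hp : a < p)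
    (hpq : p < q) (hq : q < b) (hc : ∀ x ∈ Set.Ico p q, Cond H G (β x)) (hB : β q < β p ^ 2) :
    ENNReal.ofReal (1 - DD g / Real.log (β p)) ≤
      dimH {x | x ∈ Set.Ioo a b ∧ HasJoint (fun n => ρ x * β x ^ n) g} := by
  have hH : (0 : ℝ) ≤ H := Nat.cast_nonneg H
  have hb := (hc p ⟨le_refl _, hpq⟩).base hg
  obtain ⟨s, C, f, f1, f2, hf, hfe, hr⟩ := fam_gen h hp hpq hq (by linarith)
  have h1 := lowerJ hg hf hb.1 hb.2 hB _ hZ (fun x hx hxZ => ⟨β x, hr x ⟨hx.1.le, hx.2.le⟩, by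
    refine (hc x ⟨hx.1.le, hx.2⟩).good hg ?_
    intro halg
    exact hxZ ⟨⟨hp.trans hx.1, hx.2.trans hq⟩, halg⟩⟩)
  refine h1.trans (dimH_mono ?_)
  intro x hx
  refine ⟨⟨hp.trans hx.1.1, hx.1.2.trans hq⟩, ?_⟩
  have h2 : (fun n => f n x) = fun n => ρ x * β x ^ (n + s) := by
    funext n
    exact hfe n x ⟨hx.1.1.le, hx.1.2.le⟩
  have h3 := hx.2
  rw [h2] at h3
  exact (joint_shift (fun n => ρ x * β x ^ n) g s).1 h3

theorem ofReal_mono_log {D x y : ℝ} (hD : 0 ≤ D) (hx : 1 < x) (hxy : x ≤ y) :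
    ENNReal.ofReal (1 - D / Real.log x) ≤ ENNReal.ofReal (1 - D / Real.log y) := by
  apply ENNReal.ofReal_le_ofReal
  have h1 : 0 < Real.log x := Real.log_pos hx
  have h2 : Real.log x ≤ Real.log y := Real.log_le_log (by linarith) hxy
  have := div_le_div_of_nonneg_left hD h1 h2
  linarith

/-- the exact dimensions -/
theorem exact (hg : Dens H G g) {a b M : ℝ} (hab : a < b) {ρ β : ℝ → ℝ} (h : RB a b ρ β)
    (hZ : {x : ℝ | x ∈ Set.Ioo a b ∧ IsAlgebraic ℤ (β x)}.Countable)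
    (hc : ∀ x ∈ Set.Ioo a b, Cond H G (β x)) (hM : IsLUB (β '' Set.Ioo a b) M) :
    dimH {x | x ∈ Set.Ioo a b ∧ HasLaw (fun n => ρ x * β x ^ n) g} =
        ENNReal.ofReal (1 - DD g / Real.log M) ∧
      dimH {x | x ∈ Set.Ioo a b ∧ HasJoint (fun n => ρ x * β x ^ n) g} =
        ENNReal.ofReal (1 - DD g / Real.log M) := by
  have hH : (0 : ℝ) ≤ H := Nat.cast_nonneg H
  have hD := DD_nonneg hg
  have hβ1 : ∀ x ∈ Set.Ioo a b, 1 < β x := fun x hx => by
    have := ((hc x hx).base hg).1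
    linarith
  have hβM : ∀ x ∈ Set.Ioo a b, β x ≤ M := fun x hx => hM.1 ⟨x, hx, rfl⟩
  have hM1 : 1 < M := by
    have hm : (a + b) / 2 ∈ Set.Ioo a b := ⟨by linarith, by linarith⟩
    exact (hβ1 _ hm).trans_le (hβM _ hm)
  -- upper bound
  have hup : dimH {x | x ∈ Set.Ioo a b ∧ HasLaw (fun n => ρ x * β x ^ n) g} ≤
      ENNReal.ofReal (1 - DD g / Real.log M) := by
    have hcov : {x | x ∈ Set.Ioo a b ∧ HasLaw (fun n => ρ x * β x ^ n) g} ⊆
        ⋃ k : ℕ, {x | x ∈ Set.Ioo (a + (b - a) / (k + 3)) (b - (b - a) / (k + 3)) ∧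
          HasLaw (fun n => ρ x * β x ^ n) g} := by
      intro x hx
      have h1 : 0 < min (x - a) (b - x) / (b - a) :=
        div_pos (lt_min (by linarith [hx.1.1]) (by linarith [hx.1.2])) (by linarith)
      obtain ⟨k, hk⟩ := exists_nat_one_div_lt h1
      have h2 : (b - a) / (k + 3) < min (x - a) (b - x) := by
        have h3 : (1 : ℝ) / (k + 3) ≤ 1 / (k + 1) :=
          one_div_le_one_div_of_le (by positivity) (by linarith)
        have h4 : 1 / ((k : ℝ) + 3) < min (x - a) (b - x) / (b - a) := h3.trans_lt hk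
        rw [lt_div_iff₀ (by linarith)] at h4
        calc (b - a) / ((k : ℝ) + 3) = 1 / ((k : ℝ) + 3) * (b - a) := by ring
          _ < _ := h4
      refine Set.mem_iUnion.2 ⟨k, ⟨?_, ?_⟩, hx.2⟩
      · have := h2.trans_le (min_le_left _ _)
        linarith
      · have := h2.trans_le (min_le_right _ _)
        linarith
    refine (dimH_mono hcov).trans ?_
    rw [dimH_iUnion]
    refine iSup_le fun k => ?_
    have hk : (0 : ℝ) < (b - a) / (k + 3) := div_pos (by linarith) (by positivity)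
    have hk2 : (b - a) / ((k : ℝ) + 3) < (b - a) / 2 :=
      div_lt_div_of_pos_left (by linarith) (by norm_num) (by
        have : (0 : ℝ) ≤ k := Nat.cast_nonneg k
        linarith)
    have hp : a + (b - a) / (k + 3) ∈ Set.Ioo a b := ⟨by linarith, by linarith⟩
    have hq : b - (b - a) / (k + 3) ∈ Set.Ioo a b := ⟨by linarith, by linarith⟩
    refine (upper_cpt hg h hp.1 (by linarith) hq.2 (hc _ hp)).trans ?_
    exact ofReal_mono_log hD (hβ1 _ hq) (hβM _ hq)
  -- lower bound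
  have hlow : ENNReal.ofReal (1 - DD g / Real.log M) ≤
      dimH {x | x ∈ Set.Ioo a b ∧ HasJoint (fun n => ρ x * β x ^ n) g} := by
    have hsq : Real.sqrt M < M := by
      rw [Real.sqrt_lt' (by linarith)]
      nlinarith
    have hs1 : 1 < Real.sqrt M := by
      rw [Real.lt_sqrt (by norm_num)]
      linarith
    have h1 : ∀ y ∈ Set.Ioo (Real.sqrt M) M, ENNReal.ofReal (1 - DD g / Real.log y) ≤
        dimH {x | x ∈ Set.Ioo a b ∧ HasJoint (fun n => ρ x * β x ^ n) g} := by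
      intro y hy
      obtain ⟨z, ⟨p, hp, rfl⟩, hz⟩ : ∃ z ∈ β '' Set.Ioo a b, y < z := by
        by_contra hcon
        push Not at hcon
        exact absurd (hM.2 (fun z hz => hcon z hz)) (not_le.2 hy.2)
      have hq : (p + b) / 2 ∈ Set.Ioo a b := ⟨by linarith [hp.1, hp.2], by linarith [hp.2]⟩
      have hpq : p < (p + b) / 2 := by linarith [hp.2]
      refine (ofReal_mono_log hD (hs1.trans hy.1) hz.le).trans ?_
      refine lower_cpt hg h hZ hp.1 hpq hq.2 (fun x hx => hc x ⟨hp.1.trans_le hx.1, hx.2.trans hq.2⟩) ?_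
      have h2 : M < β p ^ 2 := by
        have h3 : Real.sqrt M < β p := hy.1.trans hz
        have h4 : Real.sqrt M ^ 2 = M := Real.sq_sqrt (by linarith)
        nlinarith
      exact (hβM _ hq).trans_lt h2
    have h2 : Tendsto (fun y => ENNReal.ofReal (1 - DD g / Real.log y)) (𝓝[<] M)
        (𝓝 (ENNReal.ofReal (1 - DD g / Real.log M))) := by
      refine (ENNReal.continuous_ofReal.tendsto _).comp ?_
      have h3 : ContinuousAt (fun y => 1 - DD g / Real.log y) M := by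
        refine continuousAt_const.sub (continuousAt_const.div ?_ (Real.log_pos hM1).ne')
        exact Real.continuousAt_log (by linarith)
      exact h3.tendsto.mono_left nhdsWithin_le_nhds
    refine le_of_tendsto h2 ?_
    filter_upwards [Ioo_mem_nhdsLT hsq] with y hy
    exact h1 y hy
  have hsub : dimH {x | x ∈ Set.Ioo a b ∧ HasJoint (fun n => ρ x * β x ^ n) g} ≤
      dimH {x | x ∈ Set.Ioo a b ∧ HasLaw (fun n => ρ x * β x ^ n) g} :=
    dimH_mono fun x hx => ⟨hx.1, hx.2.law hg⟩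
  exact ⟨le_antisymm hup (hlow.trans hsub), le_antisymm (hsub.trans hup) hlow⟩

end Pool.Agent.Helper59.MF
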