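import Pool.Agent.Helper59.MF.FinJ
import Pool.Agent.Helper59.WD.Box

/-!
# MF-G: laws and boxes
-/

set_option autoImplicit false

namespace Pool.Agent.Helper59.MF

open Finset MeasureTheory Filter Topology
open Pool.Agent.Helper59.RE (e norm_e e_add conj_e continuous_e e_zero)

variable {H : ℕ} {G : ℤ → ℂ} {g : ℝ → ℝ}

theorem int_g (hg : Dens H G g) : ∫ t in (0 : ℝ)..1, (g t : ℂ) = 1 := by
  have h1 := hg.coeff 0
  rw [cc_zero hg] at h1
  simpa [e_zero] using h1

theorem int_gr (hg : Dens H G g) : ∫ t in (0 : ℝ)..1, g t = 1 := by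
  have h1 := int_g hg
  rw [intervalIntegral.integral_ofReal] at h1
  exact_mod_cast h1

/-- from characters to continuous functions in one slot -/
theorem slot (hg : Dens H G g) (w : ℕ → ℂ) (K : ℝ) (hw : ∀ n, ‖w n‖ ≤ K) (v : ℕ → ℝ) (c : ℂ)
    (hc : ∀ h : ℤ, Tendsto (fun N : ℕ => (∑ n ∈ range N, w n * e (h * v n)) / (N : ℂ)) atTop
      (𝓝 (c * ∫ t in (0 : ℝ)..1, e (h * t) * g t)))
    (F : ℝ → ℂ) (hF : Continuous F) (hp : ∀ t, F (t + 1) = F t) :
    Tendsto (fun N : ℕ => (∑ n ∈ range N, w n * F (v n)) / (N : ℂ)) atTop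
      (𝓝 (c * ∫ t in (0 : ℝ)..1, F t * g t)) := by
  have hfact : Fact ((0 : ℝ) < 1) := ⟨zero_lt_one⟩
  have hK : 0 ≤ K := (norm_nonneg _).trans (hw 0)
  have hgc := hg.cont
  have hfe : ∀ (n : ℤ) (x : ℝ), fourier n (x : AddCircle (1 : ℝ)) = e (n * x) := by
    intro n x
    rw [fourier_coe_apply]
    unfold e
    congr 1
    push_cast
    ring
  have hcont : ∀ φ : C(AddCircle (1 : ℝ), ℂ), Continuous fun t : ℝ => φ (t : AddCircle (1 : ℝ)) * (g t : ℂ) := by
    intro φ
    exact (φ.continuous.comp (AddCircle.continuous_mk' (1 : ℝ))).mul (Complex.continuous_ofReal.comp hgc)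
  have hspan : ∀ φ ∈ Submodule.span ℂ (Set.range (fourier (T := (1 : ℝ)))),
      Tendsto (fun N : ℕ => (∑ n ∈ range N, w n * φ (v n : AddCircle (1 : ℝ))) / (N : ℂ)) atTop
        (𝓝 (c * ∫ t in (0 : ℝ)..1, φ (t : AddCircle (1 : ℝ)) * (g t : ℂ))) := by
    intro φ hφ
    induction hφ using Submodule.span_induction with
    | mem φ hφ =>
      obtain ⟨h, rfl⟩ := hφ
      simp_rw [hfe]
      exact hc h
    | zero => simp
    | add φ₁ φ₂ h₁ h₂ ih₁ ih₂ =>
      have h3 : ∫ t in (0 : ℝ)..1, (φ₁ + φ₂) (t : AddCircle (1 : ℝ)) * (g t : ℂ) =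
          (∫ t in (0 : ℝ)..1, φ₁ (t : AddCircle (1 : ℝ)) * (g t : ℂ)) +
            ∫ t in (0 : ℝ)..1, φ₂ (t : AddCircle (1 : ℝ)) * (g t : ℂ) := by
        rw [← intervalIntegral.integral_add ((hcont φ₁).intervalIntegrable _ _) ((hcont φ₂).intervalIntegrable _ _)]
        exact intervalIntegral.integral_congr fun t _ => by
          simp only [ContinuousMap.add_apply, add_mul]
      rw [h3, mul_add]
      refine (ih₁.add ih₂).congr fun N => ?_
      simp only [ContinuousMap.add_apply, mul_add, sum_add_distrib, add_div]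
    | smul a φ hφ ih =>
      have h3 : ∫ t in (0 : ℝ)..1, (a • φ) (t : AddCircle (1 : ℝ)) * (g t : ℂ) =
          a * ∫ t in (0 : ℝ)..1, φ (t : AddCircle (1 : ℝ)) * (g t : ℂ) := by
        rw [← intervalIntegral.integral_const_mul]
        exact intervalIntegral.integral_congr fun t _ => by
          simp only [ContinuousMap.smul_apply, smul_eq_mul, mul_assoc]
      rw [h3, mul_left_comm]
      refine (ih.const_mul a).congr fun N => ?_
      simp only [ContinuousMap.smul_apply, smul_eq_mul]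
      rw [← mul_div_assoc, mul_sum]
      congr 1
      exact sum_congr rfl fun n _ => by ring
  have hall : ∀ φ : C(AddCircle (1 : ℝ), ℂ),
      Tendsto (fun N : ℕ => (∑ n ∈ range N, w n * φ (v n : AddCircle (1 : ℝ))) / (N : ℂ)) atTop
        (𝓝 (c * ∫ t in (0 : ℝ)..1, φ (t : AddCircle (1 : ℝ)) * (g t : ℂ))) := by
    intro f
    rw [Metric.tendsto_atTop]
    intro ε hε
    set A : ℝ := K + ‖c‖ + 1 with hA
    have hA0 : 0 < A := by positivity
    have hf : f ∈ (Submodule.span ℂ (Set.range (fourier (T := (1 : ℝ))))).topologicalClosure := by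
      rw [span_fourier_closure_eq_top]
      trivial
    rw [← SetLike.mem_coe, Submodule.topologicalClosure_coe, Metric.mem_closure_iff] at hf
    obtain ⟨φ, hφ, hfφ⟩ := hf (ε / (3 * A)) (by positivity)
    obtain ⟨N₀, hN₀⟩ := (Metric.tendsto_atTop.mp (hspan φ hφ)) (ε / 3) (by positivity)
    have hpt : ∀ x, ‖f x - φ x‖ ≤ ε / (3 * A) := by
      intro x
      rw [← dist_eq_norm]
      exact (ContinuousMap.dist_apply_le_dist x).trans hfφ.le
    refine ⟨N₀, fun N hN => ?_⟩
    have h1 : dist ((∑ n ∈ range N, w n * f (v n : AddCircle (1 : ℝ))) / (N : ℂ))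
        ((∑ n ∈ range N, w n * φ (v n : AddCircle (1 : ℝ))) / N) ≤ K * (ε / (3 * A)) := by
      rw [dist_eq_norm, ← sub_div, ← sum_sub_distrib, norm_div, Complex.norm_natCast]
      apply div_le_of_le_mul₀ (Nat.cast_nonneg N) (by positivity)
      calc ‖∑ n ∈ range N, (w n * f (v n : AddCircle (1 : ℝ)) - w n * φ (v n : AddCircle (1 : ℝ)))‖ ≤
          ∑ n ∈ range N, ‖w n * f (v n : AddCircle (1 : ℝ)) - w n * φ (v n : AddCircle (1 : ℝ))‖ :=
            norm_sum_le _ _
        _ ≤ ∑ n ∈ range N, K * (ε / (3 * A)) := sum_le_sum fun n _ => by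
            rw [← mul_sub, norm_mul]
            exact mul_le_mul (hw n) (hpt _) (norm_nonneg _) hK
        _ = K * (ε / (3 * A)) * N := by
          rw [sum_const, card_range, nsmul_eq_mul, mul_comm]
    have h2 : dist (c * ∫ t in (0 : ℝ)..1, φ (t : AddCircle (1 : ℝ)) * (g t : ℂ))
        (c * ∫ t in (0 : ℝ)..1, f (t : AddCircle (1 : ℝ)) * (g t : ℂ)) ≤ ‖c‖ * (ε / (3 * A)) := by
      rw [dist_comm, dist_eq_norm, ← mul_sub, norm_mul,
        ← intervalIntegral.integral_sub ((hcont f).intervalIntegrable _ _)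
        ((hcont φ).intervalIntegrable _ _)]
      refine mul_le_mul_of_nonneg_left ?_ (norm_nonneg _)
      have h3 : ‖∫ t in (0 : ℝ)..1, (f (t : AddCircle (1 : ℝ)) * (g t : ℂ) -
          φ (t : AddCircle (1 : ℝ)) * (g t : ℂ))‖ ≤ ∫ t in (0 : ℝ)..1, ε / (3 * A) * g t := by
        apply intervalIntegral.norm_integral_le_of_norm_le zero_le_one
        · refine Eventually.of_forall fun t _ => ?_
          rw [← sub_mul, norm_mul, Complex.norm_real, Real.norm_eq_abs, abs_of_pos (hg.pos t)]
          exact mul_le_mul_of_nonneg_right (hpt _) (hg.pos t).le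
        · exact (continuous_const.mul hgc).intervalIntegrable _ _
      rw [intervalIntegral.integral_const_mul, int_gr hg, mul_one] at h3
      exact h3
    have h3 := hN₀ N hN
    have h4 : K * (ε / (3 * A)) + ‖c‖ * (ε / (3 * A)) < ε / 3 + ε / 3 := by
      have h5 : K * (ε / (3 * A)) + ‖c‖ * (ε / (3 * A)) = (K + ‖c‖) / A * (ε / 3) := by
        field_simp
      rw [h5]
      have h6 : (K + ‖c‖) / A < 1 := (div_lt_one hA0).2 (by rw [hA]; linarith)
      nlinarith
    calc dist ((∑ n ∈ range N, w n * f (v n : AddCircle (1 : ℝ))) / (N : ℂ))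
          (c * ∫ t in (0 : ℝ)..1, f (t : AddCircle (1 : ℝ)) * (g t : ℂ)) ≤
        dist ((∑ n ∈ range N, w n * f (v n : AddCircle (1 : ℝ))) / (N : ℂ))
          ((∑ n ∈ range N, w n * φ (v n : AddCircle (1 : ℝ))) / N) +
        dist ((∑ n ∈ range N, w n * φ (v n : AddCircle (1 : ℝ))) / (N : ℂ))
          (c * ∫ t in (0 : ℝ)..1, φ (t : AddCircle (1 : ℝ)) * (g t : ℂ)) +
        dist (c * ∫ t in (0 : ℝ)..1, φ (t : AddCircle (1 : ℝ)) * (g t : ℂ))
          (c * ∫ t in (0 : ℝ)..1, f (t : AddCircle (1 : ℝ)) * (g t : ℂ)) := dist_triangle4 _ _ _ _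
      _ < ε := by linarith
  have hper' : Function.Periodic F 1 := hp
  let φ : C(AddCircle (1 : ℝ), ℂ) := ⟨hper'.lift, by
    refine continuous_coinduced_dom.mpr ?_
    exact hF⟩
  have hφ : ∀ x : ℝ, φ (x : AddCircle (1 : ℝ)) = F x := fun x => hper'.lift_coe x
  have h1 := hall φ
  simp_rw [hφ] at h1
  exact h1

theorem per_bdd {F : ℝ → ℂ} (hF : Continuous F) (hp : ∀ x, F (x + 1) = F x) :
    ∃ K : ℝ, ∀ x, ‖F x‖ ≤ K := by
  obtain ⟨K, hK⟩ := (isCompact_Icc (a := (0 : ℝ)) (b := 1)).exists_bound_of_continuousOn hF.continuousOn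
  refine ⟨K, fun x => ?_⟩
  have hper : Function.Periodic F 1 := hp
  have h1 : F x = F (Int.fract x) := by
    have := hper.sub_int_mul_eq (x := x) ⌊x⌋
    rw [mul_one] at this
    rw [← this]
    rfl
  rw [h1]
  exact hK _ ⟨Int.fract_nonneg x, (Int.fract_lt_one x).le⟩

/-- products of continuous functions -/
theorem joint_fun (hg : Dens H G g) {u : ℕ → ℝ} (hu : HasJoint u g) (F : ℕ → ℝ → ℂ)
    (hF : ∀ l, Continuous (F l)) (hp : ∀ l t, F l (t + 1) = F l t) (r : ℕ) :
    Tendsto (fun N : ℕ => (∑ n ∈ range N, ∏ l ∈ range r, F l (u (n + l))) / (N : ℂ)) atTop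
      (𝓝 (∏ l ∈ range r, ∫ t in (0 : ℝ)..1, F l t * g t)) := by
  choose K hK using fun l => per_bdd (hF l) (hp l)
  have key : ∀ s, s ≤ r → ∀ h : ℕ → ℤ,
      Tendsto (fun N : ℕ => (∑ n ∈ range N, (∏ l ∈ range s, F l (u (n + l))) *
        ∏ l ∈ Ico s r, e (h l * u (n + l))) / (N : ℂ)) atTop
      (𝓝 ((∏ l ∈ range s, ∫ t in (0 : ℝ)..1, F l t * g t) *
        ∏ l ∈ Ico s r, ∫ t in (0 : ℝ)..1, e (h l * t) * g t)) := by
    intro s
    induction s with
    | zero =>
      intro _ h
      simp only [range_zero, prod_empty, one_mul, Nat.Ico_zero_eq_range]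
      have h1 := hu h r
      refine h1.congr fun N => ?_
      congr 1
      exact sum_congr rfl fun n _ => e_sum _ _
    | succ s ih =>
      intro hs h
      have h1 := slot hg (fun n => (∏ l ∈ range s, F l (u (n + l))) *
        ∏ l ∈ Ico (s + 1) r, e (h l * u (n + l))) (∏ l ∈ range s, |K l|) (fun n => by
          rw [norm_mul, norm_prod, norm_prod]
          have h2 : ∏ l ∈ range s, ‖F l (u (n + l))‖ ≤ ∏ l ∈ range s, |K l| :=
            prod_le_prod (fun _ _ => norm_nonneg _) fun l _ => (hK l _).trans (le_abs_self _)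
          have h3 : ∏ l ∈ Ico (s + 1) r, ‖e (h l * u (n + l))‖ = 1 :=
            prod_eq_one fun l _ => norm_e _
          rw [h3, mul_one]
          exact h2)
        (fun n => u (n + s)) ((∏ l ∈ range s, ∫ t in (0 : ℝ)..1, F l t * g t) *
          ∏ l ∈ Ico (s + 1) r, ∫ t in (0 : ℝ)..1, e (h l * t) * g t) (fun k => by
          have h2 := ih (by omega) (Function.update h s k)
          have h3 : ∀ n, ∏ l ∈ Ico s r, e (Function.update h s k l * u (n + l)) =
              e (k * u (n + s)) * ∏ l ∈ Ico (s + 1) r, e (h l * u (n + l)) := by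
            intro n
            rw [prod_eq_prod_Ico_succ_bot (by omega)]
            rw [Function.update_self]
            congr 1
            refine prod_congr rfl fun l hl => ?_
            rw [mem_Ico] at hl
            rw [Function.update_of_ne (by omega)]
          have h4 : ∏ l ∈ Ico s r, ∫ t in (0 : ℝ)..1, e (Function.update h s k l * t) * g t =
              (∫ t in (0 : ℝ)..1, e (k * t) * g t) *
                ∏ l ∈ Ico (s + 1) r, ∫ t in (0 : ℝ)..1, e (h l * t) * g t := by
            rw [prod_eq_prod_Ico_succ_bot (by omega)]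
            rw [Function.update_self]
            congr 1
            refine prod_congr rfl fun l hl => ?_
            rw [mem_Ico] at hl
            rw [Function.update_of_ne (by omega)]
          simp only [h3, h4] at h2
          have h5 : ((∏ l ∈ range s, ∫ t in (0 : ℝ)..1, F l t * g t) *
              ∏ l ∈ Ico (s + 1) r, ∫ t in (0 : ℝ)..1, e (h l * t) * g t) *
              ∫ t in (0 : ℝ)..1, e (k * t) * g t =
              (∏ l ∈ range s, ∫ t in (0 : ℝ)..1, F l t * g t) *
              ((∫ t in (0 : ℝ)..1, e (k * t) * g t) *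
                ∏ l ∈ Ico (s + 1) r, ∫ t in (0 : ℝ)..1, e (h l * t) * g t) := by ring
          rw [h5]
          refine h2.congr fun N => ?_
          congr 1
          exact sum_congr rfl fun n _ => by ring)
        (F s) (hF s) (hp s)
      rw [prod_range_succ]
      have h6 : (∏ l ∈ range s, ∫ t in (0 : ℝ)..1, F l t * g t) * (∫ t in (0 : ℝ)..1, F s t * g t) *
          ∏ l ∈ Ico (s + 1) r, ∫ t in (0 : ℝ)..1, e (h l * t) * g t =
          ((∏ l ∈ range s, ∫ t in (0 : ℝ)..1, F l t * g t) *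
          ∏ l ∈ Ico (s + 1) r, ∫ t in (0 : ℝ)..1, e (h l * t) * g t) *
          ∫ t in (0 : ℝ)..1, F s t * g t := by ring
      rw [h6]
      refine h1.congr fun N => ?_
      congr 1
      refine sum_congr rfl fun n _ => ?_
      rw [prod_range_succ]
      ring
  have h1 := key r (le_refl _) (fun _ => 0)
  simpa using h1

/-- the distribution function -/
noncomputable def Phi (g : ℝ → ℝ) (t : ℝ) : ℝ := ∫ s in (0 : ℝ)..t, g s

theorem Phi_deriv (hg : Dens H G g) (t : ℝ) : HasDerivAt (Phi g) (g t) t :=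
  intervalIntegral.integral_hasDerivAt_right (hg.cont.intervalIntegrable _ _)
    (hg.cont.stronglyMeasurableAtFilter _ _) hg.cont.continuousAt

theorem Phi_cont (hg : Dens H G g) : Continuous (Phi g) :=
  continuous_iff_continuousAt.2 fun t => (Phi_deriv hg t).continuousAt

theorem Phi_sub (hg : Dens H G g) (s t : ℝ) : Phi g t - Phi g s = ∫ x in s..t, g x := by
  unfold Phi
  rw [intervalIntegral.integral_interval_sub_left (hg.cont.intervalIntegrable _ _)
    (hg.cont.intervalIntegrable _ _)]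

theorem Phi_mono (hg : Dens H G g) : StrictMono (Phi g) := by
  intro s t hst
  have h1 := Phi_sub hg s t
  have h2 : 0 < ∫ x in s..t, g x :=
    intervalIntegral.intervalIntegral_pos_of_pos_on (hg.cont.intervalIntegrable _ _)
      (fun x _ => hg.pos x) hst
  linarith

theorem Phi_zero (g : ℝ → ℝ) : Phi g 0 = 0 := intervalIntegral.integral_same

theorem Phi_per (hg : Dens H G g) (t : ℝ) : Phi g (t + 1) = Phi g t + 1 := by
  have h1 := Phi_sub hg t (t + 1)
  have hper : Function.Periodic g 1 := hg.per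
  rw [hper.intervalIntegral_add_eq t 0, zero_add, int_gr hg] at h1
  linarith

theorem Phi_int (hg : Dens H G g) (t : ℝ) (n : ℤ) : Phi g (t + n) = Phi g t + n := by
  induction n using Int.induction_on with
  | zero => simp
  | succ n ih =>
    push_cast at ih ⊢
    rw [← add_assoc, Phi_per hg, ih]
    ring
  | pred n ih =>
    push_cast at ih ⊢
    have h1 := Phi_per hg (t + (-(n : ℝ) - 1))
    have h2 : t + (-(n : ℝ) - 1) + 1 = t + -(n : ℝ) := by ring
    rw [h2, ih] at h1
    linarith

theorem Phi_fract (hg : Dens H G g) (x : ℝ) : Int.fract (Phi g x) = Phi g (Int.fract x) := by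
  have h1 : Phi g x = Phi g (Int.fract x) + ⌊x⌋ := by
    rw [← Phi_int hg]
    congr 1
    exact (Int.fract_add_floor x).symm
  have h2 : 0 ≤ Phi g (Int.fract x) := by
    rw [← Phi_zero g]
    exact (Phi_mono hg).monotone (Int.fract_nonneg x)
  have h3 : Phi g (Int.fract x) < 1 := by
    have h4 : Phi g 1 = 1 := by
      have := Phi_per hg 0
      rw [Phi_zero, zero_add] at this
      exact this
    rw [← h4]
    exact Phi_mono hg (Int.fract_lt_one x)
  rw [h1, Int.fract_add_intCast, Int.fract_eq_self.2 ⟨h2, h3⟩]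

theorem Phi_one (hg : Dens H G g) : Phi g 1 = 1 := by
  have := Phi_per hg 0
  rw [Phi_zero, zero_add] at this
  exact this

theorem int_Phi (hg : Dens H G g) (h : ℤ) :
    ∫ t in (0 : ℝ)..1, e (h * Phi g t) * g t = if h = 0 then 1 else 0 := by
  have h1 := intervalIntegral.integral_deriv_smul_comp (a := (0 : ℝ)) (b := 1) (f := Phi g) (f' := g)
    (g := fun s : ℝ => e (h * s)) (fun x _ => Phi_deriv hg x) hg.cont.continuousOn
    (continuous_e.comp (continuous_const.mul continuous_id))
  rw [Phi_zero, Phi_one hg, integral_e_int] at h1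
  rw [← h1]
  refine intervalIntegral.integral_congr fun t _ => ?_
  simp only [Function.comp, Complex.real_smul]
  ring

open scoped Classical in
/-- independence in terms of boxes -/
theorem joint_box (hg : Dens H G g) {u : ℕ → ℝ} (hu : HasJoint u g) (r : ℕ) (s t : Fin r → ℝ)
    (hs : ∀ i, 0 ≤ s i) (hst : ∀ i, s i ≤ t i) (ht : ∀ i, t i ≤ 1) :
    Tendsto (fun N : ℕ => (((range N).filter (fun n => ∀ i : Fin r, s i ≤ Int.fract (u (n + i)) ∧
      Int.fract (u (n + i)) < t i)).card : ℝ) / N) atTop (𝓝 (∏ i, ∫ x in (s i)..(t i), g x)) := by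
  have h1 := Pool.Agent.Helper59.WD.weyl (d := Fin r) (fun n i => Phi g (u (n + i))) (fun h hh => by
    have h2 := joint_fun hg hu (fun l x => e ((if hl : l < r then h ⟨l, hl⟩ else 0 : ℤ) * Phi g x))
      (fun l => continuous_e.comp (continuous_const.mul (Phi_cont hg))) (fun l x => by
        rw [Phi_per hg, mul_add, mul_one, e_add]
        have := Pool.Agent.Helper59.RE.e_int (if hl : l < r then h ⟨l, hl⟩ else 0)
        rw [this, mul_one]) r
    have h3 : ∏ l ∈ range r, ∫ x in (0 : ℝ)..1,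
        e ((if hl : l < r then h ⟨l, hl⟩ else 0 : ℤ) * Phi g x) * g x = 0 := by
      obtain ⟨i, hi⟩ : ∃ i, h i ≠ 0 := by
        by_contra hcon
        push Not at hcon
        exact hh (funext hcon)
      refine prod_eq_zero (mem_range.2 i.2) ?_
      rw [int_Phi hg, if_neg]
      rw [dif_pos i.2]
      exact hi
    rw [h3] at h2
    refine h2.congr fun N => ?_
    congr 1
    refine sum_congr rfl fun n _ => ?_
    rw [← e_sum, ← Fin.sum_univ_eq_sum_range (fun l =>
      ((if hl : l < r then h ⟨l, hl⟩ else 0 : ℤ) : ℝ) * Phi g (u (n + l)))]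
    congr 1
    refine sum_congr rfl fun i _ => ?_
    rw [dif_pos i.2])
    (fun i => Phi g (s i)) (fun i => Phi g (t i))
    (fun i => by rw [← Phi_zero g]; exact (Phi_mono hg).monotone (hs i))
    (fun i => (Phi_mono hg).monotone (hst i))
    (fun i => by rw [← Phi_one hg]; exact (Phi_mono hg).monotone (ht i))
  simp only [Phi_fract hg, (Phi_mono hg).le_iff_le, (Phi_mono hg).lt_iff_lt, Phi_sub hg] at h1
  exact h1

/-- from intervals to continuous functions -/
theorem law_of_intervals (hg : Dens H G g) {u : ℕ → ℝ}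
    (hu : ∀ α β : ℝ, 0 ≤ α → α ≤ β → β ≤ 1 → Tendsto (fun N : ℕ =>
      (((range N).filter (fun n => α ≤ Int.fract (u n) ∧ Int.fract (u n) < β)).card : ℝ) / N) atTop
      (𝓝 (∫ x in α..β, g x))) : HasLaw u g := by
  intro F hF hp
  have hper : Function.Periodic F 1 := hp
  have hfr : ∀ x, F x = F (Int.fract x) := by
    intro x
    have := hper.sub_int_mul_eq (x := x) ⌊x⌋
    rw [mul_one] at this
    rw [← this]
    rfl
  rw [Metric.tendsto_atTop]
  intro ε hε
  -- uniform continuity on [0,1]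
  have huc := (isCompact_Icc (a := (0 : ℝ)) (b := 1)).uniformContinuousOn_of_continuous
    hF.continuousOn
  rw [Metric.uniformContinuousOn_iff] at huc
  obtain ⟨δ, hδ, hδ2⟩ := huc (ε / 4) (by linarith)
  obtain ⟨K, hK⟩ := exists_nat_one_div_lt hδ
  set M : ℕ := K + 1 with hM
  have hMp : (0 : ℝ) < M := by rw [hM]; positivity
  have hM1 : (1 : ℝ) / M < δ := by rw [hM]; push_cast; exact hK
  -- the approximation at a point
  have happ : ∀ i < M, ∀ y : ℝ, (i : ℝ) / M ≤ y → y ≤ (i + 1) / M → |F y - F (i / M)| ≤ ε / 4 := by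
    intro i hi y h1 h2
    have hi' : (i : ℝ) + 1 ≤ M := by exact_mod_cast hi
    have h3 : (0 : ℝ) ≤ i / M := by positivity
    have h4 : ((i : ℝ) + 1) / M ≤ 1 := (div_le_one hMp).2 hi'
    have h5 : ((i : ℝ) + 1) / M = i / M + 1 / M := by ring
    have h6 := hδ2 y ⟨h3.trans h1, h2.trans h4⟩ (i / M) ⟨h3, (h1.trans h2).trans h4⟩ (by
      rw [Real.dist_eq, abs_of_nonneg (by linarith)]
      linarith)
    rw [Real.dist_eq] at h6
    exact h6.le
  -- the cells
  have hcell : ∀ n : ℕ, ∃ i < M, (i : ℝ) / M ≤ Int.fract (u n) ∧ Int.fract (u n) < (i + 1) / M := by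
    intro n
    have h1 := Int.fract_nonneg (u n)
    have h2 := Int.fract_lt_one (u n)
    refine ⟨⌊(M : ℝ) * Int.fract (u n)⌋₊, ?_, ?_, ?_⟩
    · rw [Nat.floor_lt (by positivity)]
      nlinarith
    · rw [div_le_iff₀ hMp, mul_comm]
      exact Nat.floor_le (by positivity)
    · rw [lt_div_iff₀ hMp, mul_comm]
      exact Nat.lt_floor_add_one _
  choose c hcM hc1 hc2 using hcell
  have hcu : ∀ n i, i < M → ((i : ℝ) / M ≤ Int.fract (u n) ∧ Int.fract (u n) < (i + 1) / M) → c n = i := by
    intro n i _ h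
    have h1 : (c n : ℝ) / M < (i + 1) / M := (hc1 n).trans_lt h.2
    have h2 : (i : ℝ) / M < (c n + 1) / M := h.1.trans_lt (hc2 n)
    rw [div_lt_div_iff_of_pos_right hMp] at h1 h2
    have h3 : c n < i + 1 := by exact_mod_cast h1
    have h4 : i < c n + 1 := by exact_mod_cast h2
    omega
  -- the limit of the step functions
  have hlim : Tendsto (fun N : ℕ => ∑ i ∈ range M, F (i / M) *
      ((((range N).filter (fun n => (i : ℝ) / M ≤ Int.fract (u n) ∧
        Int.fract (u n) < (i + 1) / M)).card : ℝ) / N)) atTop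
      (𝓝 (∑ i ∈ range M, F (i / M) * ∫ x in ((i : ℝ) / M)..((i + 1) / M), g x)) := by
    refine tendsto_finsetSum _ fun i hi => Tendsto.const_mul _ ?_
    rw [mem_range] at hi
    have hi' : (i : ℝ) + 1 ≤ M := by exact_mod_cast hi
    exact hu _ _ (by positivity) (by
      rw [div_le_div_iff_of_pos_right hMp]; linarith) ((div_le_one hMp).2 hi')
  have hint : |(∑ i ∈ range M, F (i / M) * ∫ x in ((i : ℝ) / M)..((i + 1) / M), g x) -
      ∫ t in (0 : ℝ)..1, F t * g t| ≤ ε / 4 := by
    have hFg : Continuous (fun t => F t * g t) := hF.mul hg.cont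
    have h1 : ∫ t in (0 : ℝ)..1, F t * g t =
        ∑ i ∈ range M, ∫ x in ((i : ℝ) / M)..((i + 1) / M), F x * g x := by
      have h2 := intervalIntegral.sum_integral_adjacent_intervals (μ := volume)
        (f := fun t => F t * g t) (a := fun i : ℕ => (i : ℝ) / M) (n := M)
        (fun k _ => hFg.intervalIntegrable _ _)
      simp only [Nat.cast_zero, zero_div, div_self hMp.ne'] at h2
      rw [← h2]
      refine sum_congr rfl fun i _ => ?_
      push_cast
      rfl
    have h3 : (1 : ℝ) = ∑ i ∈ range M, ∫ x in ((i : ℝ) / M)..((i + 1) / M), g x := by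
      have h2 := intervalIntegral.sum_integral_adjacent_intervals (μ := volume)
        (f := g) (a := fun i : ℕ => (i : ℝ) / M) (n := M)
        (fun k _ => hg.cont.intervalIntegrable _ _)
      simp only [Nat.cast_zero, zero_div, div_self hMp.ne'] at h2
      rw [int_gr hg] at h2
      refine h2.symm.trans (sum_congr rfl fun i _ => ?_)
      push_cast
      rfl
    rw [h1, ← sum_sub_distrib]
    refine (abs_sum_le_sum_abs _ _).trans ?_
    have h4 : ∀ i ∈ range M, |F (i / M) * (∫ x in ((i : ℝ) / M)..((i + 1) / M), g x) -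
        ∫ x in ((i : ℝ) / M)..((i + 1) / M), F x * g x| ≤
        ε / 4 * ∫ x in ((i : ℝ) / M)..((i + 1) / M), g x := by
      intro i hi
      rw [mem_range] at hi
      have hle : (i : ℝ) / M ≤ (i + 1) / M := by
        rw [div_le_div_iff_of_pos_right hMp]; linarith
      have e1 : F (i / M) * (∫ x in ((i : ℝ) / M)..((i + 1) / M), g x) -
          ∫ x in ((i : ℝ) / M)..((i + 1) / M), F x * g x =
          ∫ x in ((i : ℝ) / M)..((i + 1) / M), (F (i / M) * g x - F x * g x) := by
        have hc1 : Continuous (fun x => F (i / M) * g x) := continuous_const.mul hg.cont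
        rw [intervalIntegral.integral_sub (hc1.intervalIntegrable _ _)
          (hFg.intervalIntegrable _ _), intervalIntegral.integral_const_mul]
      rw [e1, ← intervalIntegral.integral_const_mul, ← Real.norm_eq_abs]
      refine intervalIntegral.norm_integral_le_of_norm_le hle ?_
        ((continuous_const.mul hg.cont).intervalIntegrable _ _)
      refine Eventually.of_forall fun x hx => ?_
      have h5 := happ i hi x hx.1.le hx.2
      rw [← sub_mul, norm_mul, Real.norm_eq_abs, Real.norm_eq_abs, abs_of_pos (hg.pos x),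
        abs_sub_comm]
      exact mul_le_mul_of_nonneg_right h5 (hg.pos x).le
    refine (sum_le_sum h4).trans (le_of_eq ?_)
    rw [← mul_sum, ← h3, mul_one]
  obtain ⟨N₀, hN₀⟩ := Metric.tendsto_atTop.1 hlim (ε / 4) (by linarith)
  refine ⟨max N₀ 1, fun N hN => ?_⟩
  have hN1 : 1 ≤ N := (le_max_right _ _).trans hN
  have hNp : (0 : ℝ) < N := by exact_mod_cast hN1
  have h1 := hN₀ N ((le_max_left _ _).trans hN)
  rw [Real.dist_eq] at h1 ⊢
  -- the sums
  have h2 : ∑ i ∈ range M, F (i / M) * ((((range N).filter (fun n => (i : ℝ) / M ≤ Int.fract (u n) ∧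
        Int.fract (u n) < (i + 1) / M)).card : ℝ) / N) = (∑ n ∈ range N, F (c n / M)) / N := by
    have h3 : ∀ n ∈ range N, F (c n / M) = ∑ i ∈ range M,
        if ((i : ℝ) / M ≤ Int.fract (u n) ∧ Int.fract (u n) < (i + 1) / M) then F (i / M) else 0 := by
      intro n _
      rw [sum_eq_single (c n)]
      · rw [if_pos ⟨hc1 n, hc2 n⟩]
      · intro i hi hne
        rw [if_neg]
        intro h
        exact hne (hcu n i (mem_range.1 hi) h).symm
      · intro h
        exact absurd (mem_range.2 (hcM n)) h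
    rw [sum_congr rfl h3, sum_comm, sum_div]
    refine sum_congr rfl fun i _ => ?_
    rw [← sum_filter, sum_const, nsmul_eq_mul]
    ring
  rw [h2] at h1
  have h3 : |(∑ n ∈ range N, F (u n)) / N - (∑ n ∈ range N, F (c n / M)) / N| ≤ ε / 4 := by
    rw [← sub_div, ← sum_sub_distrib, abs_div, abs_of_pos hNp, div_le_iff₀ hNp]
    refine (abs_sum_le_sum_abs _ _).trans ?_
    have h4 : ∀ n ∈ range N, |F (u n) - F (c n / M)| ≤ ε / 4 := by
      intro n _
      rw [hfr (u n)]
      exact happ (c n) (hcM n) _ (hc1 n) (hc2 n).le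
    refine (sum_le_card_nsmul _ _ _ h4).trans ?_
    rw [card_range, nsmul_eq_mul]
    linarith
  have h4 := abs_sub_le ((∑ n ∈ range N, F (u n)) / N) ((∑ n ∈ range N, F (c n / M)) / N)
    (∫ t in (0 : ℝ)..1, F t * g t)
  have h5 := abs_sub_le ((∑ n ∈ range N, F (c n / M)) / (N : ℝ))
    (∑ i ∈ range M, F (i / M) * ∫ x in ((i : ℝ) / M)..((i + 1) / M), g x)
    (∫ t in (0 : ℝ)..1, F t * g t)
  linarith

end Pool.Agent.Helper59.MF
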