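import Pool.Agent.Helper59.MF.Osc

/-!
# MF-G1: Weyl sums and laws
-/

set_option autoImplicit false

namespace Pool.Agent.Helper59.MF

open Finset MeasureTheory Filter Topology
open Pool.Agent.Helper59.RE (e norm_e e_add conj_e continuous_e e_zero)

variable {H : ℕ} {G : ℤ → ℂ} {g : ℝ → ℝ}

private theorem int_g17 (hg : Dens H G g) : ∫ t in (0 : ℝ)..1, (g t : ℂ) = 1 := by
  have h1 := hg.coeff 0
  have h2 : cc H G 0 = 1 := by
    unfold cc
    rw [neg_zero, if_pos (by simp), hg.zero]
  rw [h2] at h1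
  rw [← h1]
  refine intervalIntegral.integral_congr fun t _ => ?_
  simp only [Int.cast_zero, zero_mul, e_zero, one_mul]

private theorem int_g17' (hg : Dens H G g) : ∫ t in (0 : ℝ)..1, g t = 1 := by
  have h1 := int_g17 hg
  rw [intervalIntegral.integral_ofReal] at h1
  exact_mod_cast h1

theorem law_of_weyl (hg : Dens H G g) (u : ℕ → ℝ)
    (hu : ∀ h : ℤ, h ≠ 0 → Tendsto (fun N : ℕ => (∑ n ∈ range N, e (h * u n)) / N) atTop (𝓝 (cc H G h))) :
    HasLaw u g := by
  haveI : Fact ((0 : ℝ) < 1) := ⟨zero_lt_one⟩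
  have hgc := hg.cont
  have hfe : ∀ (n : ℤ) (x : ℝ), fourier n (x : AddCircle (1 : ℝ)) = e (n * x) := by
    intro n x
    rw [fourier_coe_apply]
    unfold e
    congr 1
    push_cast
    ring
  have hcont : ∀ φ : C(AddCircle (1 : ℝ), ℂ), Continuous fun t : ℝ => φ (t : AddCircle (1 : ℝ)) * (g t : ℂ) := by
    intro φ
    exact (φ.continuous.comp (AddCircle.continuous_mk' (1 : ℝ))).mul (Complex.continuous_ofReal.comp hgc)
  have hspan : ∀ φ ∈ Submodule.span ℂ (Set.range (fourier (T := (1 : ℝ)))),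
      Tendsto (fun N : ℕ => (∑ n ∈ range N, φ (u n : AddCircle (1 : ℝ))) / N) atTop
        (𝓝 (∫ t in (0 : ℝ)..1, φ (t : AddCircle (1 : ℝ)) * (g t : ℂ))) := by
    intro φ hφ
    induction hφ using Submodule.span_induction with
    | mem φ hφ =>
      obtain ⟨h, rfl⟩ := hφ
      have h1 : ∫ t in (0 : ℝ)..1, fourier h (t : AddCircle (1 : ℝ)) * (g t : ℂ) = cc H G h := by
        rw [← hg.coeff h]
        exact intervalIntegral.integral_congr fun t _ => by simp only [hfe]
      rw [h1]
      simp_rw [hfe]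
      by_cases hh : h = 0
      · subst hh
        have h2 : cc H G 0 = 1 := by
          unfold cc
          rw [neg_zero, if_pos (by simp), hg.zero]
        rw [h2]
        apply tendsto_const_nhds.congr'
        filter_upwards [eventually_gt_atTop 0] with N hN
        have : (N : ℂ) ≠ 0 := by exact_mod_cast hN.ne'
        simp [this, e_zero]
      · exact hu h hh
    | zero => simp
    | add φ₁ φ₂ h₁ h₂ ih₁ ih₂ =>
      have h3 : ∫ t in (0 : ℝ)..1, (φ₁ + φ₂) (t : AddCircle (1 : ℝ)) * (g t : ℂ) =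
          (∫ t in (0 : ℝ)..1, φ₁ (t : AddCircle (1 : ℝ)) * (g t : ℂ)) +
            ∫ t in (0 : ℝ)..1, φ₂ (t : AddCircle (1 : ℝ)) * (g t : ℂ) := by
        rw [← intervalIntegral.integral_add ((hcont φ₁).intervalIntegrable _ _) ((hcont φ₂).intervalIntegrable _ _)]
        exact intervalIntegral.integral_congr fun t _ => by
          simp only [ContinuousMap.add_apply, add_mul]
      rw [h3]
      refine (ih₁.add ih₂).congr fun N => ?_
      simp only [ContinuousMap.add_apply, sum_add_distrib, add_div]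
    | smul c φ hφ ih =>
      have h3 : ∫ t in (0 : ℝ)..1, (c • φ) (t : AddCircle (1 : ℝ)) * (g t : ℂ) =
          c * ∫ t in (0 : ℝ)..1, φ (t : AddCircle (1 : ℝ)) * (g t : ℂ) := by
        rw [← intervalIntegral.integral_const_mul]
        exact intervalIntegral.integral_congr fun t _ => by
          simp only [ContinuousMap.smul_apply, smul_eq_mul, mul_assoc]
      rw [h3]
      refine (ih.const_mul c).congr fun N => ?_
      simp only [ContinuousMap.smul_apply, smul_eq_mul, ← mul_sum]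
      ring
  have hall : ∀ φ : C(AddCircle (1 : ℝ), ℂ),
      Tendsto (fun N : ℕ => (∑ n ∈ range N, φ (u n : AddCircle (1 : ℝ))) / N) atTop
        (𝓝 (∫ t in (0 : ℝ)..1, φ (t : AddCircle (1 : ℝ)) * (g t : ℂ))) := by
    intro f
    rw [Metric.tendsto_atTop]
    intro ε hε
    have hf : f ∈ (Submodule.span ℂ (Set.range (fourier (T := (1 : ℝ))))).topologicalClosure := by
      rw [span_fourier_closure_eq_top]
      trivial
    rw [← SetLike.mem_coe, Submodule.topologicalClosure_coe, Metric.mem_closure_iff] at hf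
    obtain ⟨φ, hφ, hfφ⟩ := hf (ε / 3) (by positivity)
    obtain ⟨N₀, hN₀⟩ := (Metric.tendsto_atTop.mp (hspan φ hφ)) (ε / 3) (by positivity)
    have hpt : ∀ x, ‖f x - φ x‖ ≤ ε / 3 := by
      intro x
      rw [← dist_eq_norm]
      exact (ContinuousMap.dist_apply_le_dist x).trans hfφ.le
    refine ⟨N₀, fun N hN => ?_⟩
    have h1 : dist ((∑ n ∈ range N, f (u n : AddCircle (1 : ℝ))) / (N : ℂ))
        ((∑ n ∈ range N, φ (u n : AddCircle (1 : ℝ))) / N) ≤ ε / 3 := by
      rw [dist_eq_norm, ← sub_div, ← sum_sub_distrib, norm_div, Complex.norm_natCast]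
      apply div_le_of_le_mul₀ (Nat.cast_nonneg N) (by positivity)
      calc ‖∑ n ∈ range N, (f (u n : AddCircle (1 : ℝ)) - φ (u n : AddCircle (1 : ℝ)))‖ ≤
          ∑ n ∈ range N, ‖f (u n : AddCircle (1 : ℝ)) - φ (u n : AddCircle (1 : ℝ))‖ := norm_sum_le _ _
        _ ≤ ∑ n ∈ range N, ε / 3 := sum_le_sum fun n _ => hpt _
        _ = ε / 3 * N := by
          rw [sum_const, card_range, nsmul_eq_mul, mul_comm]
    have h2 : dist (∫ t in (0 : ℝ)..1, φ (t : AddCircle (1 : ℝ)) * (g t : ℂ))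
        (∫ t in (0 : ℝ)..1, f (t : AddCircle (1 : ℝ)) * (g t : ℂ)) ≤ ε / 3 := by
      rw [dist_comm, dist_eq_norm, ← intervalIntegral.integral_sub ((hcont f).intervalIntegrable _ _)
        ((hcont φ).intervalIntegrable _ _)]
      have h3 : ‖∫ t in (0 : ℝ)..1, (f (t : AddCircle (1 : ℝ)) * (g t : ℂ) -
          φ (t : AddCircle (1 : ℝ)) * (g t : ℂ))‖ ≤ ∫ t in (0 : ℝ)..1, ε / 3 * g t := by
        apply intervalIntegral.norm_integral_le_of_norm_le zero_le_one
        · refine Eventually.of_forall fun t _ => ?_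
          rw [← sub_mul, norm_mul, Complex.norm_real, Real.norm_eq_abs, abs_of_pos (hg.pos t)]
          exact mul_le_mul_of_nonneg_right (hpt _) (hg.pos t).le
        · exact (continuous_const.mul hgc).intervalIntegrable _ _
      rw [intervalIntegral.integral_const_mul, int_g17' hg, mul_one] at h3
      exact h3
    have h3 := hN₀ N hN
    calc dist ((∑ n ∈ range N, f (u n : AddCircle (1 : ℝ))) / (N : ℂ))
          (∫ t in (0 : ℝ)..1, f (t : AddCircle (1 : ℝ)) * (g t : ℂ)) ≤
        dist ((∑ n ∈ range N, f (u n : AddCircle (1 : ℝ))) / (N : ℂ))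
          ((∑ n ∈ range N, φ (u n : AddCircle (1 : ℝ))) / N) +
        dist ((∑ n ∈ range N, φ (u n : AddCircle (1 : ℝ))) / (N : ℂ))
          (∫ t in (0 : ℝ)..1, φ (t : AddCircle (1 : ℝ)) * (g t : ℂ)) +
        dist (∫ t in (0 : ℝ)..1, φ (t : AddCircle (1 : ℝ)) * (g t : ℂ))
          (∫ t in (0 : ℝ)..1, f (t : AddCircle (1 : ℝ)) * (g t : ℂ)) := dist_triangle4 _ _ _ _
      _ < ε / 3 + ε / 3 + ε / 3 := by linarith
      _ = ε := by ring
  intro F hF hper
  have hper' : Function.Periodic (fun x : ℝ => (F x : ℂ)) 1 := fun x => by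
    show ((F (x + 1) : ℝ) : ℂ) = F x
    rw [hper]
  have hFc : Continuous (fun x : ℝ => (F x : ℂ)) := Complex.continuous_ofReal.comp hF
  let φ : C(AddCircle (1 : ℝ), ℂ) := ⟨hper'.lift, by
    refine continuous_coinduced_dom.mpr ?_
    exact hFc⟩
  have hφ : ∀ x : ℝ, φ (x : AddCircle (1 : ℝ)) = (F x : ℂ) := fun x => hper'.lift_coe x
  have h1 := hall φ
  simp_rw [hφ] at h1
  have h2 : ∫ t in (0 : ℝ)..1, (F t : ℂ) * (g t : ℂ) = ((∫ t in (0 : ℝ)..1, F t * g t : ℝ) : ℂ) := by
    rw [← intervalIntegral.integral_ofReal]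
    exact intervalIntegral.integral_congr fun t _ => by push_cast; rfl
  rw [h2] at h1
  have h3 := (Complex.continuous_re.tendsto _).comp h1
  rw [Complex.ofReal_re] at h3
  refine h3.congr fun N => ?_
  show ((∑ n ∈ range N, (F (u n) : ℂ)) / (N : ℂ)).re = (∑ n ∈ range N, F (u n)) / N
  have h4 : (∑ n ∈ range N, (F (u n) : ℂ)) / (N : ℂ) = (((∑ n ∈ range N, F (u n)) / N : ℝ) : ℂ) := by
    push_cast
    rfl
  rw [h4, Complex.ofReal_re]

theorem log_of_law (hg : Dens H G g) (u : ℕ → ℝ) (hu : HasLaw u g) :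
    Tendsto (fun N : ℕ => (∑ n ∈ range N, Real.log (g (u n))) / N) atTop (𝓝 (DD g)) := by
  have h1 := hu (fun t => Real.log (g t)) (hg.cont.log fun t => (hg.pos t).ne') (fun t => by
    simp only [hg.per])
  have h2 : ∫ t in (0 : ℝ)..1, Real.log (g t) * g t = DD g := by
    unfold DD
    exact intervalIntegral.integral_congr fun t _ => mul_comm _ _
  rwa [h2] at h1

theorem DD_nonneg (hg : Dens H G g) : 0 ≤ DD g := by
  have hgc := hg.cont
  have h1 : ∫ t in (0 : ℝ)..1, (g t - 1) ≤ ∫ t in (0 : ℝ)..1, g t * Real.log (g t) := by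
    apply intervalIntegral.integral_mono_on zero_le_one
    · exact (hgc.sub continuous_const).intervalIntegrable _ _
    · exact (hgc.mul (hgc.log fun t => (hg.pos t).ne')).intervalIntegrable _ _
    · intro t _
      have h2 := Real.one_sub_inv_le_log_of_pos (hg.pos t)
      have h3 := mul_le_mul_of_nonneg_left h2 (hg.pos t).le
      have h4 : g t * (1 - (g t)⁻¹) = g t - 1 := by
        rw [mul_sub, mul_one, mul_inv_cancel₀ (hg.pos t).ne']
      rwa [h4] at h3
  have h2 : ∫ t in (0 : ℝ)..1, (g t - 1) = 0 := by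
    rw [intervalIntegral.integral_sub (hgc.intervalIntegrable _ _) (by simp), int_g17' hg]
    simp
  rw [h2] at h1
  exact h1

end Pool.Agent.Helper59.MF
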