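import Mathlib
import Pool.Agent.Helper59.RE.Defs

/-!
# Project MF (MP_9056e9_nt): exact dimension of the sets with a prescribed limit law.  Definitions

`g` is a positive trigonometric polynomial of degree at most `H` and mean one, `f 0, f 1, ...` is a
family of increasing convex functions on `[a,b]` whose derivatives grow at least by the factor `θ₀`
from step to step (`f n x = x^(n+1)` or `f n x = x θ^(n+1)`).
-/

set_option autoImplicit false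

namespace Pool.Agent.Helper59.MF

open Finset MeasureTheory Filter Topology
open Pool.Agent.Helper59.RE (e)

/-- `g` is a positive trigonometric polynomial of degree at most `H`, with coefficients `G`, mean 1 -/
structure Dens (H : ℕ) (G : ℤ → ℂ) (g : ℝ → ℝ) : Prop where
  eq : ∀ t : ℝ, (g t : ℂ) = ∑ k ∈ Icc (-(H : ℤ)) H, G k * e (k * t)
  zero : G 0 = 1
  pos : ∀ t : ℝ, 0 < g t

/-- the sum of the absolute values of the nonconstant coefficients -/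
noncomputable def ww (H : ℕ) (G : ℤ → ℂ) : ℝ := ∑ k ∈ (Icc (-(H : ℤ)) H).erase 0, ‖G k‖

/-- the entropy of `g` -/
noncomputable def DD (g : ℝ → ℝ) : ℝ := ∫ t in (0 : ℝ)..1, g t * Real.log (g t)

/-- the family of functions: `f1`, `f2` are the first two derivatives -/
structure Fam (a b θ₀ B C : ℝ) (f f1 f2 : ℕ → ℝ → ℝ) : Prop where
  hab : a < b
  hθ : 1 < θ₀
  cf : ∀ n, Continuous (f n)
  d1 : ∀ n, ∀ x ∈ Set.Icc a b, HasDerivAt (f n) (f1 n x) x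
  d2 : ∀ n, ∀ x ∈ Set.Icc a b, HasDerivAt (f1 n) (f2 n x) x
  c2 : ∀ n, ContinuousOn (f2 n) (Set.Icc a b)
  p0 : ∀ x ∈ Set.Icc a b, 1 ≤ f1 0 x
  p2 : ∀ n, ∀ x ∈ Set.Icc a b, 0 ≤ f2 n x
  g1 : ∀ n, ∀ x ∈ Set.Icc a b, θ₀ * f1 n x ≤ f1 (n + 1) x
  g2 : ∀ n, ∀ x ∈ Set.Icc a b, θ₀ * f2 n x ≤ f2 (n + 1) x
  u1 : ∀ n, ∀ x ∈ Set.Icc a b, f1 n x ≤ C * (n + 1) * B ^ n
  u2 : ∀ n, ∀ x ∈ Set.Icc a b, f2 n x ≤ C * (n + 1) ^ 2 * B ^ n

/-- the Riesz product over `j ≤ n < N` -/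
noncomputable def Rp (g : ℝ → ℝ) (f : ℕ → ℝ → ℝ) (j N : ℕ) (x : ℝ) : ℝ := ∏ n ∈ Ico j N, g (f n x)

/-- one step: `F y` is replaced by the weighted sum of `F (θ y + k)` over the digits `k` -/
noncomputable def La (H : ℕ) (W : ℤ → ℝ) (θ : ℝ) (F : ℝ → ℝ) (y : ℝ) : ℝ :=
  ∑ k ∈ Icc (-(H : ℤ)) H, W k * F (θ * y + k)

/-- the survival weight: total weight of the digit strings of length `m` which keep the orbit of `y`
under `y ↦ θ y + k` in `[-r, r]` -/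
noncomputable def sv (H : ℕ) (W : ℤ → ℝ) (θ r : ℝ) : ℕ → ℝ → ℝ
  | 0, _ => 1
  | m + 1, y => La H W θ (fun z => if |z| ≤ r then sv H W θ r m z else 0) y

/-- no resonance at `θ` -/
def Good (H : ℕ) (W : ℤ → ℝ) (θ : ℝ) : Prop :=
  ∃ r : ℝ, H / (θ - 1) < r ∧ ∀ p : Polynomial ℤ, p ≠ 0 → |Polynomial.aeval θ p| ≤ r →
    Tendsto (fun m => sv H W θ r m (Polynomial.aeval θ p)) atTop (𝓝 0)

/-- `min (1, c / |y|)` -/
noncomputable def cap (c y : ℝ) : ℝ := c / max c |y|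

/-- the Fourier coefficient `∫ e(h t) g(t) dt` -/
noncomputable def cc (H : ℕ) (G : ℤ → ℂ) (h : ℤ) : ℂ := if -h ∈ Icc (-(H : ℤ)) H then G (-h) else 0

/-- the limit measure of the Riesz products -/
structure Mu (a b : ℝ) (g : ℝ → ℝ) (f : ℕ → ℝ → ℝ) (μ : Measure ℝ) : Prop where
  prob : IsProbabilityMeasure μ
  supp : μ (Set.Ico a b)ᶜ = 0
  lim : ∃ l : Filter ℕ, l.NeBot ∧ l ≤ atTop ∧ ∃ Z : ℕ → ℝ, ∃ c : ℝ, 0 < c ∧ (∀ N, c ≤ Z N ∧ Z N ≤ c⁻¹) ∧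
    ∀ φ : ℝ → ℂ, Continuous φ → ∀ p q : ℝ, a ≤ p → p ≤ q → q ≤ b →
      Tendsto (fun N => (∫ y in p..q, (Rp g f 0 N y : ℂ) * φ y) / Z N) l (𝓝 (∫ y in Set.Ico p q, φ y ∂μ))

/-- the law of the sequence `u` modulo one is `g(t) dt` -/
def HasLaw (u : ℕ → ℝ) (g : ℝ → ℝ) : Prop :=
  ∀ F : ℝ → ℝ, Continuous F → (∀ x, F (x + 1) = F x) →
    Tendsto (fun N : ℕ => (∑ n ∈ range N, F (u n)) / N) atTop (𝓝 (∫ t in (0 : ℝ)..1, F t * g t))

end Pool.Agent.Helper59.MF
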