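import Pool.Agent.Helper59.MF.Lim
import Pool.Agent.Helper59.BE.Cover
import Pool.Agent.Helper59.BE.Upper

/-!
# MF-E, F: dimensions

`dim_lower`: `M_k = {x : Rp 0 n x ≤ exp(n (D+ε)) for n ≥ k}` has positive mass for some `k`; for a set `U` of
diameter `r` meeting `M_k` choose `j` with `r f1 j x ≤ 1/4 < r f1 (j+1) x`. On the interval `[p,q]` of the points at distance `≤ r` from `x`
the product `Rp 0 (j+1)` is constant up to a factor, `f1 (j+1) p ≥ 1/(8r)` (both from `f2 n ≤ C (n+1)^2 B^n` and `B < θ₀^2`), so by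
`tail` (from level `j+1` on) `μ U ≤ C' exp(j (D+ε)) r ≤ C' r^(1-(D+ε)/log θ₀)` since `f1 j ≥ θ₀^j`; `le_hausdorffMeasure`.
`dim_upper`: the covering lemma `cover` (Helper59/BE/Cover.lean) with `F N = Rp 0 N`, `q N = ⌈B^N (N+1)^2⌉`.
-/

set_option autoImplicit false

namespace Pool.Agent.Helper59.MF

open Finset MeasureTheory Filter Topology
open Pool.Agent.Helper59.RE (e norm_e e_add conj_e continuous_e e_zero)

variable {H : ℕ} {G : ℤ → ℂ} {g : ℝ → ℝ} {a b θ₀ B C : ℝ} {f f1 f2 : ℕ → ℝ → ℝ}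

section fam

private theorem pos17 (hf : Fam a b θ₀ B C f f1 f2) {x : ℝ} (hx : x ∈ Set.Icc a b) (n : ℕ) : θ₀ ^ n ≤ f1 n x := by
  have hθ : 0 < θ₀ := zero_lt_one.trans hf.hθ
  induction n with
  | zero => rw [pow_zero]; exact hf.p0 x hx
  | succ n ih =>
    rw [pow_succ, mul_comm]
    exact (mul_le_mul_of_nonneg_left ih hθ.le).trans (hf.g1 n x hx)

private theorem pos17' (hf : Fam a b θ₀ B C f f1 f2) {x : ℝ} (hx : x ∈ Set.Icc a b) (n : ℕ) : 0 < f1 n x :=
  (pow_pos (zero_lt_one.trans hf.hθ) n).trans_le (pos17 hf hx n)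

private theorem grow17 (hf : Fam a b θ₀ B C f f1 f2) {x : ℝ} (hx : x ∈ Set.Icc a b) (n m : ℕ) :
    θ₀ ^ m * f1 n x ≤ f1 (n + m) x := by
  have hθ : 0 < θ₀ := zero_lt_one.trans hf.hθ
  induction m with
  | zero => simp
  | succ m ih =>
    have h1 := hf.g1 (n + m) x hx
    have h2 := mul_le_mul_of_nonneg_left ih hθ.le
    calc θ₀ ^ (m + 1) * f1 n x = θ₀ * (θ₀ ^ m * f1 n x) := by ring
      _ ≤ θ₀ * f1 (n + m) x := h2
      _ ≤ f1 (n + m + 1) x := h1

private theorem C17 (hf : Fam a b θ₀ B C f f1 f2) : 1 ≤ C := by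
  have ha : a ∈ Set.Icc a b := ⟨le_rfl, hf.hab.le⟩
  have h1 := hf.p0 a ha
  have h2 := hf.u1 0 a ha
  simp only [Nat.cast_zero, zero_add, mul_one, pow_zero] at h2
  linarith

private theorem B17 (hf : Fam a b θ₀ B C f f1 f2) : 0 < B := by
  have ha : a ∈ Set.Icc a b := ⟨le_rfl, hf.hab.le⟩
  have h1 := hf.u1 1 a ha
  have h2 := pos17' hf ha 1
  have h3 := C17 hf
  rw [pow_one] at h1
  by_contra hB
  push Not at hB
  have h4 : C * ((1 : ℕ) + 1 : ℝ) * B ≤ 0 := mul_nonpos_of_nonneg_of_nonpos (by positivity) hB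
  linarith

/-- the derivatives are increasing -/
private theorem mono17 (hf : Fam a b θ₀ B C f f1 f2) (n : ℕ) {x y : ℝ} (hx : x ∈ Set.Icc a b)
    (hy : y ∈ Set.Icc a b) (hxy : x ≤ y) : f1 n x ≤ f1 n y := by
  rcases hxy.eq_or_lt with rfl | hlt
  · exact le_rfl
  have hsub : Set.Icc x y ⊆ Set.Icc a b := Set.Icc_subset_Icc hx.1 hy.2
  obtain ⟨c, hc, hc'⟩ := exists_hasDerivAt_eq_slope (f1 n) (f2 n) hlt
    (fun z hz => (hf.d2 n z (hsub hz)).continuousAt.continuousWithinAt)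
    (fun z hz => hf.d2 n z (hsub ⟨hz.1.le, hz.2.le⟩))
  have h1 := hf.p2 n c (hsub ⟨hc.1.le, hc.2.le⟩)
  rw [hc', le_div_iff₀ (by linarith)] at h1
  linarith

private theorem dist17 (hf : Fam a b θ₀ B C f f1 f2) (n : ℕ) {x y : ℝ} (hx : x ∈ Set.Icc a b)
    (hy : y ∈ Set.Icc a b) (hxy : x ≤ y) : f1 n y ≤ f1 n x + (y - x) * (C * (n + 1) ^ 2 * B ^ n) := by
  rcases hxy.eq_or_lt with rfl | hlt
  · simp
  have hsub : Set.Icc x y ⊆ Set.Icc a b := Set.Icc_subset_Icc hx.1 hy.2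
  obtain ⟨c, hc, hc'⟩ := exists_hasDerivAt_eq_slope (f1 n) (f2 n) hlt
    (fun z hz => (hf.d2 n z (hsub hz)).continuousAt.continuousWithinAt)
    (fun z hz => hf.d2 n z (hsub ⟨hz.1.le, hz.2.le⟩))
  have h1 := hf.u2 n c (hsub ⟨hc.1.le, hc.2.le⟩)
  rw [hc', div_le_iff₀ (by linarith)] at h1
  linarith

private theorem var17' (hf : Fam a b θ₀ B C f f1 f2) (n : ℕ) {x y : ℝ} (hx : x ∈ Set.Icc a b)
    (hy : y ∈ Set.Icc a b) (hxy : x ≤ y) : |f n x - f n y| ≤ (y - x) * f1 n y := by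
  rcases hxy.eq_or_lt with rfl | hlt
  · simp
  have hsub : Set.Icc x y ⊆ Set.Icc a b := Set.Icc_subset_Icc hx.1 hy.2
  obtain ⟨c, hc, hc'⟩ := exists_hasDerivAt_eq_slope (f n) (f1 n) hlt
    (fun z hz => (hf.d1 n z (hsub hz)).continuousAt.continuousWithinAt)
    (fun z hz => hf.d1 n z (hsub ⟨hz.1.le, hz.2.le⟩))
  have hcI := hsub ⟨hc.1.le, hc.2.le⟩
  have h1 := mono17 hf n hcI hy hc.2.le
  have h2 := pos17' hf hcI n
  have h3 : f n y - f n x = f1 n c * (y - x) := by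
    rw [hc']
    field_simp [(by linarith : y - x ≠ 0)]
  have h4 : 0 < y - x := by linarith
  rw [abs_sub_comm, h3, abs_of_pos (mul_pos h2 h4), mul_comm]
  exact mul_le_mul_of_nonneg_left h1 h4.le

/-- with `q` an upper bound of the two points -/
private theorem var17 (hf : Fam a b θ₀ B C f f1 f2) (n : ℕ) {x y q : ℝ} (hx : x ∈ Set.Icc a b)
    (hy : y ∈ Set.Icc a b) (hq : q ∈ Set.Icc a b) (hxq : x ≤ q) (hyq : y ≤ q) :
    |f n x - f n y| ≤ |x - y| * f1 n q := by
  rcases le_total x y with h | h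
  · have h1 := var17' hf n hx hy h
    have h2 := mono17 hf n hy hq hyq
    rw [abs_sub_comm x y, abs_of_nonneg (by linarith : 0 ≤ y - x)]
    exact h1.trans (mul_le_mul_of_nonneg_left h2 (by linarith))
  · have h1 := var17' hf n hy hx h
    have h2 := mono17 hf n hx hq hxq
    rw [abs_of_nonneg (by linarith : 0 ≤ x - y), abs_sub_comm]
    exact h1.trans (mul_le_mul_of_nonneg_left h2 (by linarith))

private theorem cont17 (hg : Dens H G g) (hf : Fam a b θ₀ B C f f1 f2) (j N : ℕ) : Continuous (Rp g f j N) := by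
  unfold Rp
  exact continuous_finsetProd _ fun n _ => hg.cont.comp (hf.cf n)

private theorem Rp_pos17 (hg : Dens H G g) (j N : ℕ) (x : ℝ) : 0 < Rp g f j N x :=
  prod_pos fun n _ => hg.pos _

/-- variation of the products -/
private theorem Rp_var17 {L : ℝ} (hL : ∀ s t, g s ≤ Real.exp (L * |s - t|) * g t) (hg : Dens H G g)
    (N : ℕ) (x y : ℝ) : Rp g f 0 N x ≤ Real.exp (L * ∑ n ∈ range N, |f n x - f n y|) * Rp g f 0 N y := by
  have h1 : Rp g f 0 N x ≤ ∏ n ∈ Ico 0 N, (Real.exp (L * |f n x - f n y|) * g (f n y)) := by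
    unfold Rp
    exact prod_le_prod (fun n _ => (hg.pos _).le) fun n _ => hL _ _
  refine h1.trans (le_of_eq ?_)
  rw [prod_mul_distrib, ← Real.exp_sum, ← mul_sum, ← range_eq_Ico]
  unfold Rp
  rw [← range_eq_Ico]

end fam

theorem dim_upper (hg : Dens H G g) (hf : Fam a b θ₀ B C f f1 f2) (hB : 1 < B) (K : ℝ)
    (hK : ∀ N, ∫ x in a..b, Rp g f 0 N x ≤ K) (D : ℝ) :
    dimH {x | x ∈ Set.Icc a b ∧
      Tendsto (fun N : ℕ => (∑ n ∈ range N, Real.log (g (f n x))) / N) atTop (𝓝 D)} ≤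
      ENNReal.ofReal (1 - D / Real.log B) := by
  have hlb : 0 < Real.log B := Real.log_pos hB
  have hab := hf.hab
  have hC1 := C17 hf
  obtain ⟨M, L, hM1, hL0, hM, hL⟩ := hg.bounds
  set S := {x | x ∈ Set.Icc a b ∧
      Tendsto (fun N : ℕ => (∑ n ∈ range N, Real.log (g (f n x))) / N) atTop (𝓝 D)} with hS
  apply ENNReal.le_of_forall_pos_le_add
  intro ε hε _
  set d : ℝ := max (1 - D / Real.log B) 0 + ε with hd
  have hεr : (0 : ℝ) < ε := by exact_mod_cast hε
  have hd0 : 0 < d := by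
    have := le_max_right (1 - D / Real.log B) 0
    linarith
  have hdE : ENNReal.ofReal (1 - D / Real.log B) + ε = ENNReal.ofReal d := by
    rw [hd, ENNReal.ofReal_add (le_max_right _ _) hεr.le, ENNReal.ofReal_coe_nnreal]
    congr 1
    rcases le_total (1 - D / Real.log B) 0 with h | h
    · rw [max_eq_right h, ENNReal.ofReal_of_nonpos h, ENNReal.ofReal_zero]
    · rw [max_eq_left h]
  rw [hdE]
  rcases le_or_gt 1 d with h1 | h1
  · have h2 : dimH S ≤ 1 := by
      calc dimH S ≤ dimH (Set.univ : Set ℝ) := dimH_mono (Set.subset_univ _)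
        _ = 1 := Real.dimH_univ
    refine h2.trans ?_
    rw [← ENNReal.ofReal_one]
    exact ENNReal.ofReal_le_ofReal h1
  · have h3 : (1 - d) * Real.log B < D := by
      have h4 : 1 - D / Real.log B < d := by
        have := le_max_left (1 - D / Real.log B) 0
        linarith
      have h5 : 1 - d < D / Real.log B := by linarith
      exact (lt_div_iff₀ hlb).mp h5
    obtain ⟨D', hD1, hD2⟩ := exists_between h3
    have h6 : μH[d] {x | x ∈ Set.Icc a b ∧ ∀ᶠ N : ℕ in atTop, Real.exp (N * D') ≤ Rp g f 0 N x} = 0 := by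
      refine Pool.Agent.Helper59.BE.cover hab (fun N => cont17 hg hf 0 N) (fun N x => (Rp_pos17 hg 0 N x).le) hK
        (C := Real.exp (L * (C * (b - a)))) (Real.exp_pos _)
        (q := fun N => ⌈B ^ N * ((N : ℝ) + 1) ^ 2⌉₊) (fun N => ?_) (fun N x hx y hy hxy => ?_)
        hd0 (Pool.Agent.Helper59.BE.lim_aux hB hd0 h1 hD1) ?_
      · apply Nat.ceil_pos.mpr
        positivity
      · refine (Rp_var17 hL hg N x y).trans ?_
        refine mul_le_mul_of_nonneg_right (Real.exp_le_exp.mpr (mul_le_mul_of_nonneg_left ?_ hL0))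
          (Rp_pos17 hg 0 N y).le
        have hBN : 0 < B ^ N * ((N : ℝ) + 1) ^ 2 := by positivity
        have hxy' : |x - y| ≤ (b - a) / (B ^ N * ((N : ℝ) + 1) ^ 2) := by
          refine hxy.trans ?_
          apply div_le_div_of_nonneg_left (by linarith) hBN (Nat.le_ceil _)
        have hb : b ∈ Set.Icc a b := ⟨hab.le, le_rfl⟩
        have h7 : ∑ n ∈ range N, |f n x - f n y| ≤ ∑ n ∈ range N, |x - y| * (C * (N + 1) * B ^ N) := by
          refine sum_le_sum fun n hn => ?_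
          refine (var17 hf n hx hy hb hx.2 hy.2).trans (mul_le_mul_of_nonneg_left ?_ (abs_nonneg _))
          refine (hf.u1 n b hb).trans ?_
          have hn' := (mem_range.mp hn).le
          have h8 : (n : ℝ) + 1 ≤ N + 1 := by
            have : (n : ℝ) ≤ N := by exact_mod_cast hn'
            linarith
          have h9 : B ^ n ≤ B ^ N := pow_le_pow_right₀ hB.le hn'
          gcongr
        refine h7.trans ?_
        rw [sum_const, card_range, nsmul_eq_mul]
        calc (N : ℝ) * (|x - y| * (C * (N + 1) * B ^ N)) ≤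
            (N + 1) * ((b - a) / (B ^ N * ((N : ℝ) + 1) ^ 2) * (C * (N + 1) * B ^ N)) := by
              gcongr
              linarith
          _ = C * (b - a) := by
              field_simp
      · apply tendsto_atTop_mono (fun N => Nat.le_ceil _)
        apply tendsto_atTop_mono (f := fun N : ℕ => (N : ℝ))
        · intro N
          have h1 : 1 ≤ B ^ N := one_le_pow₀ hB.le
          have h2 : (0 : ℝ) ≤ N := Nat.cast_nonneg N
          have h3 : (N : ℝ) ≤ ((N : ℝ) + 1) ^ 2 := by nlinarith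
          have h4 : (0 : ℝ) ≤ ((N : ℝ) + 1) ^ 2 := by positivity
          nlinarith
        · exact tendsto_natCast_atTop_atTop
    have h7 : S ⊆ {x | x ∈ Set.Icc a b ∧ ∀ᶠ N : ℕ in atTop, Real.exp (N * D') ≤ Rp g f 0 N x} := by
      rintro x ⟨hx, hlim⟩
      refine ⟨hx, ?_⟩
      filter_upwards [hlim.eventually (lt_mem_nhds hD2), eventually_gt_atTop 0] with N hN hN0
      have hN' : (0 : ℝ) < N := by exact_mod_cast hN0
      rw [lt_div_iff₀ hN'] at hN
      have h8 : Rp g f 0 N x = Real.exp (∑ n ∈ range N, Real.log (g (f n x))) := by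
        rw [Real.exp_sum]
        unfold Rp
        rw [← range_eq_Ico]
        exact prod_congr rfl fun n _ => (Real.exp_log (hg.pos _)).symm
      rw [h8, Real.exp_le_exp]
      linarith
    have h10 : dimH S ≤ ((Real.toNNReal d : NNReal) : ENNReal) := by
      refine (dimH_mono h7).trans ?_
      apply dimH_le_of_hausdorffMeasure_ne_top
      rw [Real.coe_toNNReal d hd0.le, h6]
      exact ENNReal.zero_ne_top
    exact h10

/-- the mass of the tail products -/
private theorem tail17 (hg : Dens H G g) (hf : Fam a b θ₀ B C f f1 f2) (hH : H + 1 < θ₀) (hw : 1 + ww H G < θ₀) :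
    ∃ K : ℝ, 0 < K ∧ ∀ p q : ℝ, a ≤ p → p ≤ q → q ≤ b → ∀ j N : ℕ, j ≤ N →
      ∫ x in p..q, Rp g f j N x ≤ (q - p) + K / f1 j p := by
  obtain ⟨K, t, hK, htail⟩ := tail hg hf hH hw 0
  refine ⟨K, hK, fun p q hp hpq hq j N hjN => ?_⟩
  have h1 := htail p q hp hpq hq j 0 j N le_rfl hjN (fun h => absurd rfl h)
  have h2 : ∀ N, ∫ x in p..q, (Rp g f j N x : ℂ) * e (((0 : ℤ) : ℝ) * f 0 x) =
      ((∫ x in p..q, Rp g f j N x : ℝ) : ℂ) := by
    intro N
    rw [← intervalIntegral.integral_ofReal]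
    exact intervalIntegral.integral_congr fun x _ => by
      simp only [Int.cast_zero, zero_mul, e_zero, mul_one]
  rw [h2, h2] at h1
  have h3 : ∫ x in p..q, Rp g f j j x = q - p := by
    have : ∀ x, Rp g f j j x = 1 := fun x => by simp [Rp]
    simp [this]
  rw [h3, ← Complex.ofReal_sub, Complex.norm_real, Real.norm_eq_abs, Nat.sub_self, pow_zero, mul_one] at h1
  have h4 := le_abs_self ((∫ x in p..q, Rp g f j N x) - (q - p))
  linarith

/-- the sum of the derivatives -/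
private theorem geo17 (hf : Fam a b θ₀ B C f f1 f2) {x : ℝ} (hx : x ∈ Set.Icc a b) (j : ℕ) :
    (θ₀ - 1) * ∑ n ∈ range (j + 1), f1 n x ≤ θ₀ * f1 j x := by
  induction j with
  | zero =>
    have := pos17' hf hx 0
    rw [sum_range_one]
    nlinarith
  | succ j ih =>
    rw [sum_range_succ]
    have h1 := hf.g1 j x hx
    nlinarith

/-- the mass of the points near `x` -/
private theorem mass17 (hg : Dens H G g) (hf : Fam a b θ₀ B C f f1 f2) (hH : H + 1 < θ₀)
    (hw : 1 + ww H G < θ₀) (hB : B < θ₀ ^ 2) {μ : Measure ℝ} (hμ : Mu a b g f μ) :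
    ∃ (Q : ℝ) (k₀ : ℕ), 0 < Q ∧ ∀ k, k₀ ≤ k → ∃ r₀ : ℝ, 0 < r₀ ∧ ∀ x ∈ Set.Icc a b, ∀ r : ℝ, 0 < r → r ≤ r₀ →
      ∃ j, k ≤ j ∧ r * θ₀ ^ j ≤ 1 ∧
        μ.real (Set.Ico (max a (x - r)) (min b (x + r))) ≤ Q * Rp g f 0 (j + 1) x * r := by
  have hθ := hf.hθ
  have hθ0 : 0 < θ₀ := by linarith
  have hB0 := B17 hf
  have hC1 := C17 hf
  have hab := hf.hab
  haveI := hμ.prob
  obtain ⟨M, L, hM1, hL0, hM, hL⟩ := hg.bounds
  obtain ⟨K, hK, htail⟩ := tail17 hg hf hH hw
  obtain ⟨l, hlne, hlat, Z, c, hc, hZ, hlim⟩ := hμ.lim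
  -- the sequence `(j + 2)^2 ρ^j`
  set ρ : ℝ := B / θ₀ ^ 2 with hρ
  have hρ0 : 0 < ρ := by positivity
  have hρ1 : ρ < 1 := by rw [hρ, div_lt_one (by positivity)]; exact hB
  have hseq : Tendsto (fun j : ℕ => C * B * (((j + 2 : ℕ) : ℝ) ^ 2 * ρ ^ j)) atTop (𝓝 0) := by
    have h1 : Tendsto (fun N : ℕ => (N : ℝ) ^ 2 * ρ ^ N) atTop (𝓝 0) :=
      tendsto_pow_const_mul_const_pow_of_abs_lt_one 2 (by rw [abs_of_pos hρ0]; exact hρ1)
    have h2 := (h1.comp (tendsto_add_atTop_nat 2)).const_mul (C * B * (ρ ^ 2)⁻¹)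
    rw [mul_zero] at h2
    refine h2.congr fun j => ?_
    simp only [Function.comp_apply]
    rw [pow_add]
    field_simp
  obtain ⟨κ, hκ⟩ : ∃ κ : ℝ, ∀ j : ℕ, C * B * (((j + 2 : ℕ) : ℝ) ^ 2 * ρ ^ j) ≤ κ := by
    obtain ⟨κ, hκ⟩ := hseq.bddAbove_range
    exact ⟨κ, fun j => hκ ⟨j, rfl⟩⟩
  obtain ⟨k₀, hk₀⟩ := eventually_atTop.1 (hseq.eventually (gt_mem_nhds (show (0 : ℝ) < 2 by norm_num)))
  have hκ0 : 0 ≤ κ := by
    refine le_trans ?_ (hκ 0)
    positivity
  set κ' : ℝ := 1 / 4 + κ / (16 * B) with hκ'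
  have hκ'0 : 0 ≤ κ' := by positivity
  set Q₁ : ℝ := Real.exp (L * (κ' * (θ₀ / (θ₀ - 1)))) with hQ₁
  have hQ₁0 : 0 < Q₁ := Real.exp_pos _
  refine ⟨Q₁ * (2 + 8 * K) / c, k₀, by positivity, fun k hk => ?_⟩
  refine ⟨min (1 / (4 * C)) (1 / (4 * C * (k + 1) * B ^ k)), lt_min (by positivity) (by positivity),
    fun x hx r hr hrr => ?_⟩
  have hr1 : r ≤ 1 / (4 * C) := hrr.trans (min_le_left _ _)
  have hr2 : r ≤ 1 / (4 * C * (k + 1) * B ^ k) := hrr.trans (min_le_right _ _)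
  -- the level
  have hex : ∃ j : ℕ, 1 / 4 < r * f1 j x := by
    obtain ⟨j, hj⟩ := pow_unbounded_of_one_lt (1 / (4 * r)) hθ
    refine ⟨j, ?_⟩
    have h1 := hj.trans_le (pos17 hf hx j)
    rw [div_lt_iff₀ (by positivity)] at h1
    linarith
  classical
  obtain ⟨j, hj1, hj2⟩ : ∃ j : ℕ, r * f1 j x ≤ 1 / 4 ∧ 1 / 4 < r * f1 (j + 1) x := by
    have h1 := Nat.find_spec hex
    have h0 : Nat.find hex ≠ 0 := by
      intro h0
      rw [h0] at h1
      have h2 := hf.u1 0 x hx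
      simp only [Nat.cast_zero, zero_add, mul_one, pow_zero] at h2
      have h3 : r * f1 0 x ≤ 1 / (4 * C) * C := mul_le_mul hr1 h2 (pos17' hf hx 0).le (by positivity)
      have h4 : 1 / (4 * C) * C = 1 / 4 := by field_simp
      linarith
    obtain ⟨j, hj⟩ := Nat.exists_eq_succ_of_ne_zero h0
    refine ⟨j, ?_, ?_⟩
    · have h2 := Nat.find_min hex (m := j) (by omega)
      exact not_lt.1 h2
    · rw [hj] at h1
      exact h1
  have hkj : k ≤ j := by
    by_contra hlt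
    push Not at hlt
    have h1 : f1 (j + 1) x ≤ f1 k x := by
      obtain ⟨m, rfl⟩ := Nat.exists_eq_add_of_le (show j + 1 ≤ k by omega)
      have h2 := grow17 hf hx (j + 1) m
      have h3 : 1 ≤ θ₀ ^ m := one_le_pow₀ hθ.le
      have h4 := pos17' hf hx (j + 1)
      nlinarith
    have h2 := hf.u1 k x hx
    have h3 : r * f1 (j + 1) x ≤ 1 / (4 * C * (k + 1) * B ^ k) * (C * (k + 1) * B ^ k) :=
      mul_le_mul hr2 (h1.trans h2) (pos17' hf hx _).le (by positivity)
    have h4 : 1 / (4 * C * (k + 1) * B ^ k) * (C * (k + 1) * B ^ k) = 1 / 4 := by field_simp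
    linarith
  have hrθ : r * θ₀ ^ j ≤ 1 / 4 := (mul_le_mul_of_nonneg_left (pos17 hf hx j) hr.le).trans hj1
  refine ⟨j, hkj, by linarith, ?_⟩
  -- `r^2 B^j`
  have hr2B : r ^ 2 * B ^ j ≤ ρ ^ j / 16 := by
    have h1 : (r * θ₀ ^ j) ^ 2 ≤ (1 / 4) ^ 2 := pow_le_pow_left₀ (by positivity) hrθ 2
    have h2 : B ^ j = ρ ^ j * (θ₀ ^ j) ^ 2 := by
      rw [hρ, div_pow, ← pow_mul, ← pow_mul, mul_comm 2 j]
      field_simp
    rw [h2]
    have h3 : 0 < ρ ^ j := by positivity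
    calc r ^ 2 * (ρ ^ j * (θ₀ ^ j) ^ 2) = ρ ^ j * (r * θ₀ ^ j) ^ 2 := by ring
      _ ≤ ρ ^ j * (1 / 4) ^ 2 := mul_le_mul_of_nonneg_left h1 h3.le
      _ = _ := by ring
  set p : ℝ := max a (x - r) with hp
  set q : ℝ := min b (x + r) with hq
  have hpx : p ≤ x := max_le hx.1 (by linarith)
  have hxq : x ≤ q := le_min hx.2 (by linarith)
  have hap : a ≤ p := le_max_left _ _
  have hqb : q ≤ b := min_le_left _ _
  have hxp : x - p ≤ r := by
    have := le_max_right a (x - r)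
    linarith
  have hqx : q - x ≤ r := by
    have := min_le_right b (x + r)
    linarith
  have hpI : p ∈ Set.Icc a b := ⟨hap, hpx.trans hx.2⟩
  have hqI : q ∈ Set.Icc a b := ⟨hx.1.trans hxq, hqb⟩
  have hj0 : (0 : ℝ) ≤ j := Nat.cast_nonneg j
  have hCB := hκ j
  -- (i)
  have hi : r * f1 j q ≤ κ' := by
    have h1 := dist17 hf j hx hqI hxq
    have h2 : (q - x) * (C * (j + 1) ^ 2 * B ^ j) ≤ r * (C * (j + 1) ^ 2 * B ^ j) :=
      mul_le_mul_of_nonneg_right hqx (by positivity)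
    have h3 : r * f1 j q ≤ r * f1 j x + C * (j + 1) ^ 2 * (r ^ 2 * B ^ j) := by
      have := mul_le_mul_of_nonneg_left (h1.trans (add_le_add_right h2 _)) hr.le
      linarith
    have h4 : C * ((j : ℝ) + 1) ^ 2 * (r ^ 2 * B ^ j) ≤ C * ((j : ℝ) + 2) ^ 2 * (ρ ^ j / 16) := by
      have h5 : ((j : ℝ) + 1) ^ 2 ≤ ((j : ℝ) + 2) ^ 2 := by nlinarith
      exact mul_le_mul (mul_le_mul_of_nonneg_left h5 (by linarith)) hr2B (by positivity) (by positivity)
    have h6 : C * ((j : ℝ) + 2) ^ 2 * (ρ ^ j / 16) ≤ κ / (16 * B) := by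
      rw [le_div_iff₀ (by positivity)]
      push_cast at hCB
      linarith
    rw [hκ']
    linarith
  -- (ii)
  have hii : 1 / 8 ≤ r * f1 (j + 1) p := by
    have h1 := dist17 hf (j + 1) hpI hx hpx
    have h2 : (x - p) * (C * (((j + 1 : ℕ) : ℝ) + 1) ^ 2 * B ^ (j + 1)) ≤
        r * (C * (((j + 1 : ℕ) : ℝ) + 1) ^ 2 * B ^ (j + 1)) :=
      mul_le_mul_of_nonneg_right hxp (by positivity)
    have h3 := mul_le_mul_of_nonneg_left (h1.trans (add_le_add_right h2 _)) hr.le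
    have h4 : r * (r * (C * (((j + 1 : ℕ) : ℝ) + 1) ^ 2 * B ^ (j + 1))) ≤ 1 / 8 := by
      have h5 := (hk₀ j (hk.trans hkj)).le
      have h6 : r * (r * (C * (((j + 1 : ℕ) : ℝ) + 1) ^ 2 * B ^ (j + 1))) =
          C * B * ((j : ℝ) + 2) ^ 2 * (r ^ 2 * B ^ j) := by
        push_cast
        ring
      rw [h6]
      have h7 : C * B * ((j : ℝ) + 2) ^ 2 * (r ^ 2 * B ^ j) ≤ C * B * ((j : ℝ) + 2) ^ 2 * (ρ ^ j / 16) :=
        mul_le_mul_of_nonneg_left hr2B (by positivity)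
      push_cast at h5
      linarith
    linarith
  have hfp := pos17' hf hpI (j + 1)
  have hKf : K / f1 (j + 1) p ≤ 8 * K * r := by
    rw [div_le_iff₀ hfp]
    nlinarith
  -- (iii)
  have hvar : ∀ y ∈ Set.Icc p q, Rp g f 0 (j + 1) y ≤ Q₁ * Rp g f 0 (j + 1) x := by
    intro y hy
    have hyI : y ∈ Set.Icc a b := ⟨hap.trans hy.1, hy.2.trans hqb⟩
    refine (Rp_var17 hL hg (j + 1) y x).trans ?_
    refine mul_le_mul_of_nonneg_right (Real.exp_le_exp.mpr (mul_le_mul_of_nonneg_left ?_ hL0)) (Rp_pos17 hg 0 _ x).le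
    have hyx : |y - x| ≤ r := by
      rw [abs_le]
      constructor
      · linarith [hy.1]
      · linarith [hy.2]
    have h1 : ∑ n ∈ range (j + 1), |f n y - f n x| ≤ ∑ n ∈ range (j + 1), r * f1 n q := by
      refine sum_le_sum fun n _ => ?_
      exact (var17 hf n hyI hx hqI hy.2 hxq).trans (mul_le_mul_of_nonneg_right hyx (pos17' hf hqI n).le)
    rw [← mul_sum] at h1
    have h2 := geo17 hf hqI j
    have h3 : ∑ n ∈ range (j + 1), f1 n q ≤ θ₀ / (θ₀ - 1) * f1 j q := by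
      rw [div_mul_eq_mul_div, le_div_iff₀ (by linarith)]
      linarith
    have h4 : 0 ≤ θ₀ / (θ₀ - 1) := div_nonneg hθ0.le (by linarith)
    calc ∑ n ∈ range (j + 1), |f n y - f n x| ≤ r * ∑ n ∈ range (j + 1), f1 n q := h1
      _ ≤ r * (θ₀ / (θ₀ - 1) * f1 j q) := mul_le_mul_of_nonneg_left h3 hr.le
      _ = r * f1 j q * (θ₀ / (θ₀ - 1)) := by ring
      _ ≤ κ' * (θ₀ / (θ₀ - 1)) := mul_le_mul_of_nonneg_right hi h4
  have hRx := Rp_pos17 (f := f) hg 0 (j + 1) x
  have hint : ∀ N, j + 1 ≤ N → ∫ y in p..q, Rp g f 0 N y ≤ Q₁ * (2 + 8 * K) * Rp g f 0 (j + 1) x * r := by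
    intro N hN
    have h1 : ∫ y in p..q, Rp g f 0 N y ≤ ∫ y in p..q, Q₁ * Rp g f 0 (j + 1) x * Rp g f (j + 1) N y := by
      apply intervalIntegral.integral_mono_on (hpx.trans hxq) ((cont17 hg hf 0 N).intervalIntegrable _ _)
        ((continuous_const.mul (cont17 hg hf (j + 1) N)).intervalIntegrable _ _)
      intro y hy
      have h2 : Rp g f 0 N y = Rp g f 0 (j + 1) y * Rp g f (j + 1) N y := by
        unfold Rp
        exact (prod_Ico_consecutive _ (Nat.zero_le _) hN).symm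
      rw [h2]
      exact mul_le_mul_of_nonneg_right (hvar y hy) (Rp_pos17 hg (j + 1) N y).le
    rw [intervalIntegral.integral_const_mul] at h1
    have h2 := htail p q hap (hpx.trans hxq) hqb (j + 1) N hN
    have h3 : (q - p) + K / f1 (j + 1) p ≤ (2 + 8 * K) * r := by linarith
    have h4 : 0 ≤ Q₁ * Rp g f 0 (j + 1) x := by positivity
    calc ∫ y in p..q, Rp g f 0 N y ≤ Q₁ * Rp g f 0 (j + 1) x * ∫ y in p..q, Rp g f (j + 1) N y := h1
      _ ≤ Q₁ * Rp g f 0 (j + 1) x * ((2 + 8 * K) * r) := mul_le_mul_of_nonneg_left (h2.trans h3) h4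
      _ = _ := by ring
  -- (iv)
  have h1 := hlim (fun _ => 1) continuous_const p q hap (hpx.trans hxq) hqb
  have h2 := (Complex.continuous_re.tendsto _).comp h1
  have h3 : (∫ y in Set.Ico p q, (1 : ℂ) ∂μ).re = μ.real (Set.Ico p q) := by
    simp [integral_const, Measure.real]
  rw [h3] at h2
  refine le_of_tendsto h2 ?_
  have h4 : ∀ᶠ N in l, j + 1 ≤ N := hlat (eventually_ge_atTop (j + 1))
  filter_upwards [h4] with N hN
  have h5 : ∫ y in p..q, (Rp g f 0 N y : ℂ) * 1 = ((∫ y in p..q, Rp g f 0 N y : ℝ) : ℂ) := by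
    rw [← intervalIntegral.integral_ofReal]
    exact intervalIntegral.integral_congr fun x _ => by simp only [mul_one]
  have h6 : ((∫ y in p..q, (Rp g f 0 N y : ℂ) * 1) / (Z N : ℂ)).re = (∫ y in p..q, Rp g f 0 N y) / Z N := by
    rw [h5, ← Complex.ofReal_div, Complex.ofReal_re]
  have h7 := hint N hN
  have h8 : 0 ≤ ∫ y in p..q, Rp g f 0 N y :=
    intervalIntegral.integral_nonneg (hpx.trans hxq) fun y _ => (Rp_pos17 hg 0 N y).le
  show ((∫ y in p..q, (Rp g f 0 N y : ℂ) * 1) / (Z N : ℂ)).re ≤ _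
  rw [h6]
  calc (∫ y in p..q, Rp g f 0 N y) / Z N ≤ (∫ y in p..q, Rp g f 0 N y) / c :=
        div_le_div_of_nonneg_left h8 hc (hZ N).1
    _ ≤ (Q₁ * (2 + 8 * K) * Rp g f 0 (j + 1) x * r) / c := div_le_div_of_nonneg_right h7 hc.le
    _ = _ := by ring

theorem dim_lower (hg : Dens H G g) (hf : Fam a b θ₀ B C f f1 f2) (hH : H + 1 < θ₀) (hw : 1 + ww H G < θ₀)
    (hB : B < θ₀ ^ 2)
    {μ : Measure ℝ} (hμ : Mu a b g f μ) (E : Set ℝ) (hE : ∀ᵐ x ∂μ, x ∈ E) (D : ℝ)
    (hD : 0 ≤ D)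
    (hlog : ∀ x ∈ E, Tendsto (fun N : ℕ => (∑ n ∈ range N, Real.log (g (f n x))) / N) atTop (𝓝 D)) :
    ENNReal.ofReal (1 - D / Real.log θ₀) ≤ dimH E := by
  have hθ := hf.hθ
  have hθ0 : 0 < θ₀ := by linarith
  have hlθ : 0 < Real.log θ₀ := Real.log_pos hθ
  haveI := hμ.prob
  by_contra hcon
  push Not at hcon
  obtain ⟨s, hs1, hs2⟩ := ENNReal.lt_iff_exists_nnreal_btwn.1 hcon
  have hs0 : (0 : ℝ) < s := by
    have h : (0 : ENNReal) < s := lt_of_le_of_lt zero_le hs1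
    exact_mod_cast h
  have hs : (s : ℝ) < 1 - D / Real.log θ₀ := by
    rw [← ENNReal.ofReal_coe_nnreal] at hs2
    exact (ENNReal.ofReal_lt_ofReal_iff_of_nonneg s.2).1 hs2
  have hs1' : (s : ℝ) < 1 := by
    have := div_nonneg hD hlθ.le
    linarith
  have hHs : Measure.hausdorffMeasure (s : ℝ) E = 0 := hausdorffMeasure_of_dimH_lt hs1
  set D' : ℝ := (1 - s) * Real.log θ₀ with hD'
  have hDD : D < D' := by
    have h1 : D / Real.log θ₀ < 1 - s := by linarith
    exact (div_lt_iff₀ hlθ).1 h1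
  have hD'0 : 0 < D' := mul_pos (by linarith) hlθ
  -- the sets
  let M : ℕ → Set ℝ := fun k => {x | x ∈ Set.Icc a b ∧ ∀ n, k ≤ n → Rp g f 0 n x ≤ Real.exp (n * D')}
  have hMm : ∀ k, MeasurableSet (M k) := by
    intro k
    have h1 : M k = Set.Icc a b ∩ ⋂ n, ⋂ (_ : k ≤ n), {x | Rp g f 0 n x ≤ Real.exp (n * D')} := by
      ext x
      simp only [M, Set.mem_ofPred_eq, Set.mem_inter_iff, Set.mem_iInter]
    rw [h1]
    refine measurableSet_Icc.inter (MeasurableSet.iInter fun n => MeasurableSet.iInter fun _ => ?_)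
    exact (isClosed_le (cont17 hg hf 0 n) continuous_const).measurableSet
  have hMmono : ∀ k k', k ≤ k' → M k ⊆ M k' := fun k k' hkk x hx => ⟨hx.1, fun n hn => hx.2 n (hkk.trans hn)⟩
  have hsupp : μ (Set.Icc a b)ᶜ = 0 := measure_mono_null (Set.compl_subset_compl.mpr (by
    first
    | exact subset_rfl
    | exact Set.Ico_subset_Icc_self)) hμ.supp
  have hIcc : ∀ᵐ x ∂μ, x ∈ Set.Icc a b := by
    rw [ae_iff]
    exact hsupp
  have hcov : ∀ᵐ x ∂μ, x ∈ ⋃ k, M k := by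
    filter_upwards [hE, hIcc] with x hx hxI
    obtain ⟨k, hk⟩ := eventually_atTop.1 ((hlog x hx).eventually (gt_mem_nhds hDD))
    refine Set.mem_iUnion.2 ⟨max k 1, hxI, fun n hn => ?_⟩
    have h1 := hk n ((le_max_left _ _).trans hn)
    have hn0 : (0 : ℝ) < n := by
      have : 0 < n := (le_max_right k 1).trans hn
      exact_mod_cast this
    rw [div_lt_iff₀ hn0] at h1
    have h8 : Rp g f 0 n x = Real.exp (∑ i ∈ range n, Real.log (g (f i x))) := by
      rw [Real.exp_sum]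
      unfold Rp
      rw [← range_eq_Ico]
      exact prod_congr rfl fun i _ => (Real.exp_log (hg.pos _)).symm
    rw [h8, Real.exp_le_exp]
    linarith
  obtain ⟨Q, k₀, hQ, hmass⟩ := mass17 hg hf hH hw hB hμ
  obtain ⟨k, hk, hMk⟩ : ∃ k, k₀ ≤ k ∧ μ (M k) ≠ 0 := by
    by_contra hno
    push Not at hno
    have h1 : μ (⋃ k, M k) = 0 := measure_iUnion_null fun k =>
      measure_mono_null (hMmono k (max k k₀) (le_max_left _ _)) (hno _ (le_max_right _ _))
    have h2 : μ Set.univ = 0 := by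
      have h3 : μ (⋃ k, M k)ᶜ = 0 := by
        rw [ae_iff] at hcov
        exact hcov
      rw [← Set.union_compl_self (⋃ k, M k)]
      exact measure_union_null h1 h3
    rw [measure_univ] at h2
    exact one_ne_zero h2
  obtain ⟨r₀, hr₀, hball⟩ := hmass k hk
  set c : ENNReal := ENNReal.ofReal (Q * Real.exp D') with hc
  have hc0 : c ≠ 0 := by
    rw [hc, Ne, ENNReal.ofReal_eq_zero, not_le]
    positivity
  have hct : c ≠ ⊤ := ENNReal.ofReal_ne_top
  have hle : c⁻¹ • μ.restrict (M k) ≤ Measure.hausdorffMeasure (s : ℝ) := by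
    refine Measure.le_hausdorffMeasure _ _ (ENNReal.ofReal r₀) (ENNReal.ofReal_pos.2 hr₀) fun t ht => ?_
    rw [Measure.smul_apply, smul_eq_mul, Measure.restrict_apply' (hMm k)]
    rw [ENNReal.inv_mul_le_iff hc0 hct]
    rcases (t ∩ M k).eq_empty_or_nonempty with he | ⟨x, hxt, hxM⟩
    · rw [he, measure_empty]
      exact zero_le
    have htop : Metric.ediam t ≠ ⊤ := ne_top_of_le_ne_top ENNReal.ofReal_ne_top ht
    have hbd : Bornology.IsBounded t := Metric.isBounded_iff_ediam_ne_top.2 htop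
    set δ : ℝ := Metric.diam t with hδ
    have hδe : Metric.ediam t = ENNReal.ofReal δ := (ENNReal.ofReal_toReal htop).symm
    have hδ0 : 0 ≤ δ := Metric.diam_nonneg
    have hδ1 : δ ≤ r₀ := by
      rw [hδe] at ht
      exact (ENNReal.ofReal_le_ofReal_iff hr₀.le).1 ht
    have hdist : ∀ y ∈ t, |y - x| ≤ δ := by
      intro y hy
      rw [← Real.dist_eq]
      exact Metric.dist_le_diam_of_mem hbd hy hxt
    rcases hδ0.eq_or_lt with h0 | hpos
    · have h1 : t ∩ M k ⊆ {x} := by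
        intro y hy
        have h2 := hdist y hy.1
        rw [← h0] at h2
        have h3 := abs_nonpos_iff.1 h2
        rw [Set.mem_singleton_iff]
        linarith
      rw [measure_mono_null h1 (Mu.noAtoms hg hf hH hw hμ x)]
      exact zero_le
    · obtain ⟨j, hkj, hrθ, hm⟩ := hball x hxM.1 δ hpos hδ1
      set p : ℝ := max a (x - δ) with hp
      set q : ℝ := min b (x + δ) with hq
      have h1 : t ∩ M k ⊆ Set.Ico p q ∪ {q} := by
        intro y hy
        have h2 := abs_le.1 (hdist y hy.1)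
        have h3 : y ∈ Set.Icc p q := ⟨max_le hy.2.1.1 (by linarith), le_min hy.2.1.2 (by linarith)⟩
        rcases h3.2.lt_or_eq with h4 | h4
        · exact Or.inl ⟨h3.1, h4⟩
        · exact Or.inr h4
      have h2 : μ (t ∩ M k) ≤ μ (Set.Ico p q) := by
        refine (measure_mono h1).trans ((measure_union_le _ _).trans ?_)
        rw [Mu.noAtoms hg hf hH hw hμ q, add_zero]
      have h3 : μ (Set.Ico p q) = ENNReal.ofReal (μ.real (Set.Ico p q)) :=
        (ENNReal.ofReal_toReal (measure_ne_top _ _)).symm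
      rw [h3] at h2
      refine h2.trans ?_
      rw [hδe, ENNReal.ofReal_rpow_of_pos hpos, hc, ← ENNReal.ofReal_mul (by positivity)]
      apply ENNReal.ofReal_le_ofReal
      refine hm.trans ?_
      have h4 : Rp g f 0 (j + 1) x ≤ Real.exp D' * Real.exp (j * D') := by
        refine (hxM.2 (j + 1) (by omega)).trans (le_of_eq ?_)
        rw [← Real.exp_add]
        congr 1
        push_cast
        ring
      have h5 : Real.exp (j * D') * δ ≤ δ ^ (s : ℝ) := by
        have h6 : Real.exp (j * D') = (θ₀ ^ j) ^ (1 - (s : ℝ)) := by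
          rw [Real.rpow_def_of_pos (pow_pos hθ0 j), Real.log_pow, hD']
          congr 1
          ring
        have h7 : θ₀ ^ j ≤ δ⁻¹ := by
          rw [le_inv_comm₀ (by positivity) hpos, ← one_div, le_div_iff₀ (by positivity)]
          exact hrθ
        have h8 : (θ₀ ^ j) ^ (1 - (s : ℝ)) ≤ (δ⁻¹) ^ (1 - (s : ℝ)) :=
          Real.rpow_le_rpow (by positivity) h7 (by linarith)
        rw [h6]
        calc (θ₀ ^ j) ^ (1 - (s : ℝ)) * δ ≤ (δ⁻¹) ^ (1 - (s : ℝ)) * δ := mul_le_mul_of_nonneg_right h8 hδ0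
          _ = δ ^ (s : ℝ) := by
            rw [Real.inv_rpow hδ0, ← Real.rpow_neg hδ0]
            nth_rewrite 2 [← Real.rpow_one δ]
            rw [← Real.rpow_add hpos]
            congr 1
            ring
      calc Q * Rp g f 0 (j + 1) x * δ ≤ Q * (Real.exp D' * Real.exp (j * D')) * δ := by
            gcongr
        _ = Q * Real.exp D' * (Real.exp (j * D') * δ) := by ring
        _ ≤ Q * Real.exp D' * δ ^ (s : ℝ) := mul_le_mul_of_nonneg_left h5 (by positivity)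
  have h1 := hle E
  rw [hHs, Measure.smul_apply, smul_eq_mul, Measure.restrict_apply' (hMm k)] at h1
  have h2 : c⁻¹ * μ (E ∩ M k) = 0 := le_antisymm h1 zero_le
  rcases mul_eq_zero.1 h2 with h | h
  · exact absurd h (ENNReal.inv_ne_zero.2 hct)
  · apply hMk
    have h3 : M k ⊆ (E ∩ M k) ∪ {x | x ∉ E} := by
      intro x hx
      by_cases hxE : x ∈ E
      · exact Or.inl ⟨hxE, hx⟩
      · exact Or.inr hxE
    refine measure_mono_null h3 (measure_union_null h ?_)
    rw [ae_iff] at hE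
    exact hE

end Pool.Agent.Helper59.MF
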