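import Pool.Agent.Helper59.MF.Defs
import Pool.Agent.Helper46.HQ.AS
import Pool.Agent.Helper46.MF.LlnP

/-!
# MF-C: the law of large numbers

Dyadic cells: the cell of level `n` of `x` is the dyadic interval `[k/2^j, (k+1)/2^j)` of `x` with the
least `j` such that `f1 n (min b ((k+1)/2^j)) / 2^j ≤ η`; the cells of level `n+1` refine those of level `n`.
`d n = e(h f_(n+m)) - E(e(h f_(n+m)) | cells of level n)` satisfies `|E d n conj (d l)| ≤ C θ₀^(-(n-m-l))` for `l < n - m`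
(`|f_l(y) - f_l(x)| ≤ η θ₀^(-(n-l))` on a cell of level `n`); `second`, `as_small` of Helper46/HQ/AS.lean.
For large `n` the cell satisfies `η/4 ≤ (q-p) f1 n p` since `B < θ₀^2`.
-/

set_option autoImplicit false

namespace Pool.Agent.Helper59.MF

open Finset MeasureTheory Filter Topology
open Pool.Agent.Helper59.RE (e norm_e e_add conj_e continuous_e e_zero)

variable {a b θ₀ B C : ℝ} {f f1 f2 : ℕ → ℝ → ℝ}

theorem lln (hf : Fam a b θ₀ B C f f1 f2) (hB : B < θ₀ ^ 2) (μ : Measure ℝ) [IsProbabilityMeasure μ]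
    (hμ : μ (Set.Icc a b)ᶜ = 0) (η : ℝ) (hη : 0 < η) (hη1 : η ≤ 1) (m : ℕ) (h : ℤ) (c : ℂ) :
    ∀ᵐ x ∂μ, x ∈ Set.Ioo a b → ∀ ε : ℝ, 0 < ε →
      (∀ᶠ n : ℕ in atTop, ∀ p q : ℝ, a ≤ p → p ≤ x → x < q → q ≤ b →
        η / 4 ≤ (q - p) * f1 n p → (q - p) * f1 n q ≤ η →
          ‖∫ y in Set.Ico p q, (e (h * f (n + m) y) - c) ∂μ‖ ≤ ε * μ.real (Set.Ico p q)) →
      ∀ᶠ N : ℕ in atTop, ‖∑ n ∈ range N, (e (h * f n x) - c)‖ ≤ 2 * ε * N := by
  exact Pool.Agent.Helper46.MF.lln_proof hf hB μ hμ η hη hη1 m h c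

end Pool.Agent.Helper59.MF
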