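import Pool.Agent.Helper59.MF.Local
import Pool.Agent.Helper59.MF.Lln
import Pool.Agent.Helper59.MF.Dim
import Pool.Agent.Helper59.MF.Law

/-!
# MF-G: the lower bound for a family of functions
-/

set_option autoImplicit false

namespace Pool.Agent.Helper59.MF

open Finset MeasureTheory Filter Topology
open Pool.Agent.Helper59.RE (e norm_e e_add conj_e continuous_e e_zero)

variable {H : ℕ} {G : ℤ → ℂ} {g : ℝ → ℝ} {a b θ₀ B C : ℝ} {f f1 f2 : ℕ → ℝ → ℝ}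

/-- the local averages for the limit measure -/
theorem Mu.avg {μ : Measure ℝ} (hμ : Mu a b g f μ) {p q ε : ℝ} (hap : a ≤ p) (hpq : p ≤ q) (hqb : q ≤ b)
    (hpos : ∀ N y, 0 ≤ Rp g f 0 N y) (φ : ℝ → ℂ) (hφ : Continuous φ)
    (h : ∀ᶠ N : ℕ in atTop, ‖∫ y in p..q, (Rp g f 0 N y : ℂ) * φ y‖ ≤ ε * ∫ y in p..q, Rp g f 0 N y) :
    ‖∫ y in Set.Ico p q, φ y ∂μ‖ ≤ ε * μ.real (Set.Ico p q) := by
  have _i1 := hμ.prob
  obtain ⟨l, hl, hlt, Z, c, hc, hZ, hlim⟩ := hμ.lim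
  have _i2 := hl
  have h1 := (hlim φ hφ p q hap hpq hqb).norm
  have h2 := ((hlim (fun _ => 1) continuous_const p q hap hpq hqb).norm).const_mul ε
  have h3 : ‖∫ y in Set.Ico p q, (1 : ℂ) ∂μ‖ = μ.real (Set.Ico p q) := by
    rw [setIntegral_const, norm_smul, Real.norm_eq_abs, abs_of_nonneg measureReal_nonneg]
    simp
  rw [h3] at h2
  refine le_of_tendsto_of_tendsto h1 h2 ?_
  filter_upwards [hlt h] with N hN
  have hZp : 0 < Z N := hc.trans_le (hZ N).1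
  have e1 : (∫ y in p..q, (Rp g f 0 N y : ℂ) * 1) = ((∫ y in p..q, Rp g f 0 N y : ℝ) : ℂ) := by
    simp only [mul_one]
    exact intervalIntegral.integral_ofReal
  have hI : 0 ≤ ∫ y in p..q, Rp g f 0 N y :=
    intervalIntegral.integral_nonneg hpq fun y _ => hpos N y
  rw [norm_div, norm_div, e1, Complex.norm_real, Complex.norm_real, Real.norm_eq_abs, Real.norm_eq_abs,
    abs_of_pos hZp, abs_of_nonneg hI, ← mul_div_assoc]
  exact div_le_div_of_nonneg_right hN hZp.le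

theorem lower (hg : Dens H G g) (hf : Fam a b θ₀ B C f f1 f2) (hH : H + 1 < θ₀) (hw : 1 + ww H G < θ₀)
    (hB : B < θ₀ ^ 2) (Z : Set ℝ) (hZ : Z.Countable)
    (hgood : ∀ x ∈ Set.Ioo a b, x ∉ Z → ∃ θ : ℝ,
      Tendsto (fun n : ℕ => f1 (n + 1) x / f1 n x) atTop (𝓝 θ) ∧ Good H (fun k => ‖G k‖) θ) :
    ENNReal.ofReal (1 - DD g / Real.log θ₀) ≤
      dimH {x | x ∈ Set.Ioo a b ∧ HasLaw (fun n => f n x) g} := by
  obtain ⟨μ, hμ⟩ := exists_mu hg hf hH hw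
  have _i1 := hμ.prob
  have _i3 : NullSingletonClass μ := ⟨fun x => hμ.noAtoms hg hf hH hw x⟩
  have hk : ∀ k : ℕ, (0 : ℝ) < 1 / (k + 1) := fun k => by positivity
  choose η hη using fun k : ℕ => local_avg hg hf hH hw hB (1 / (k + 1)) (hk k)
  have hsupp : μ (Set.Icc a b)ᶜ = 0 :=
    measure_mono_null (Set.compl_subset_compl.2 Set.Ico_subset_Icc_self) hμ.supp
  have hIoo : ∀ᵐ x ∂μ, x ∈ Set.Ioo a b := by
    have h1 : ∀ᵐ x ∂μ, x ∈ Set.Ico a b := hμ.supp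
    have h2 : ∀ᵐ x ∂μ, x ≠ a := by
      rw [ae_iff]
      have : {x : ℝ | ¬ x ≠ a} = {a} := by
        ext x
        simp
      rw [this]
      exact hμ.noAtoms hg hf hH hw a
    filter_upwards [h1, h2] with x h1 h2
    exact ⟨lt_of_le_of_ne h1.1 (Ne.symm h2), h1.2⟩
  have hZ' : ∀ᵐ x ∂μ, x ∉ Z := by
    rw [ae_iff]
    have : {x : ℝ | ¬ x ∉ Z} = Z := by
      ext x
      simp
    rw [this]
    exact hZ.measure_zero μ
  have hlln : ∀ᵐ x ∂μ, ∀ k : ℕ, ∀ m : ℕ, ∀ h : ℤ, x ∈ Set.Ioo a b → ∀ ε : ℝ, 0 < ε →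
      (∀ᶠ n : ℕ in atTop, ∀ p q : ℝ, a ≤ p → p ≤ x → x < q → q ≤ b →
        η k / 4 ≤ (q - p) * f1 n p → (q - p) * f1 n q ≤ η k →
          ‖∫ y in Set.Ico p q, (e (h * f (n + m) y) - cc H G h) ∂μ‖ ≤ ε * μ.real (Set.Ico p q)) →
      ∀ᶠ N : ℕ in atTop, ‖∑ n ∈ range N, (e (h * f n x) - cc H G h)‖ ≤ 2 * ε * N := by
    rw [ae_all_iff]
    intro k
    rw [ae_all_iff]
    intro m
    rw [ae_all_iff]
    intro h
    exact lln hf hB μ hsupp (η k) (hη k).1 (hη k).2.1 m h (cc H G h)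
  have hmem : ∀ᵐ x ∂μ, x ∈ {x | x ∈ Set.Ioo a b ∧ HasLaw (fun n => f n x) g} := by
    filter_upwards [hIoo, hZ', hlln] with x hx hxZ hl
    refine ⟨hx, law_of_weyl hg _ fun h hh => ?_⟩
    obtain ⟨θ, hr, hG⟩ := hgood x hx hxZ
    have key : ∀ k : ℕ, ∀ᶠ N : ℕ in atTop, ‖∑ n ∈ range N, (e (h * f n x) - cc H G h)‖ ≤
        2 * (1 / (k + 1)) * N := by
      intro k
      obtain ⟨m, hm⟩ := (hη k).2.2 h hh x hx θ hr hG
      refine hl k m h hx _ (hk k) ?_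
      filter_upwards [hm] with n hn p q hap hpx hxq hqb hlo hhi
      refine hμ.avg hap (hpx.trans hxq.le) hqb (fun N y => (Rp_pos hg f 0 N y).le) _ ?_
        (hn p q hap hpx hxq.le hqb hlo hhi)
      exact (continuous_e.comp (continuous_const.mul (hf.cf _))).sub continuous_const
    rw [Metric.tendsto_atTop]
    intro ε hε
    obtain ⟨k, hk2⟩ := exists_nat_one_div_lt (show (0 : ℝ) < ε / 2 by linarith)
    obtain ⟨N0, hN0⟩ := eventually_atTop.1 (key k)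
    refine ⟨max N0 1, fun N hN => ?_⟩
    have hN1 : 1 ≤ N := (le_max_right _ _).trans hN
    have hNp : (0 : ℝ) < N := by exact_mod_cast hN1
    have h1 := hN0 N ((le_max_left _ _).trans hN)
    have e1 : (∑ n ∈ range N, e (h * f n x)) / (N : ℂ) - cc H G h =
        (∑ n ∈ range N, (e (h * f n x) - cc H G h)) / (N : ℂ) := by
      rw [sum_sub_distrib, sum_const, card_range, nsmul_eq_mul]
      have : (N : ℂ) ≠ 0 := by exact_mod_cast hNp.ne'
      field_simp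
    rw [dist_eq_norm, e1, norm_div, Complex.norm_natCast, div_lt_iff₀ hNp]
    nlinarith
  exact dim_lower hg hf hH hw hB hμ _ hmem (DD g) (DD_nonneg hg) fun x hx => log_of_law hg _ hx.2

/-- the upper bound -/
theorem upper (hg : Dens H G g) (hf : Fam a b θ₀ B C f f1 f2) (hB : 1 < B) (K : ℝ)
    (hK : ∀ N, ∫ x in a..b, Rp g f 0 N x ≤ K) :
    dimH {x | x ∈ Set.Ioo a b ∧ HasLaw (fun n => f n x) g} ≤
      ENNReal.ofReal (1 - DD g / Real.log B) := by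
  refine le_trans (dimH_mono ?_) (dim_upper hg hf hB K hK (DD g))
  intro x hx
  exact ⟨⟨hx.1.1.le, hx.1.2.le⟩, log_of_law hg _ hx.2⟩

/-- the total mass -/
theorem mass_total (hg : Dens H G g) (hf : Fam a b θ₀ B C f f1 f2) (hH : H + 1 < θ₀) (hw : 1 + ww H G < θ₀) :
    ∃ K : ℝ, ∀ N, ∫ x in a..b, Rp g f 0 N x ≤ K := by
  obtain ⟨K, t, hK, h⟩ := tail hg hf hH hw 0
  refine ⟨(b - a) + K / f1 0 a, fun N => ?_⟩
  have h1 := h a b (le_refl _) hf.hab.le (le_refl _) 0 0 0 N (le_refl _) (Nat.zero_le _)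
    (fun h => absurd rfl h)
  have hz : ∀ y : ℝ, e (((0 : ℤ) : ℝ) * y) = 1 := by
    intro y
    push_cast
    rw [zero_mul, e_zero]
  have h2 : ∀ y, Rp g f 0 0 y = 1 := fun y => by simp [Rp]
  simp only [hz, mul_one, h2, Nat.sub_self, pow_zero, Complex.ofReal_one] at h1
  rw [intervalIntegral.integral_const, intervalIntegral.integral_ofReal] at h1
  have h3 : ((∫ x in a..b, Rp g f 0 N x : ℝ) : ℂ) - (b - a) • (1 : ℂ) =
      (((∫ x in a..b, Rp g f 0 N x) - (b - a) : ℝ) : ℂ) := by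
    push_cast
    simp
  rw [h3, Complex.norm_real, Real.norm_eq_abs] at h1
  linarith [(abs_le.1 h1).2]

end Pool.Agent.Helper59.MF
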