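import Pool.Agent.Helper59.MF.Defs

/-!
# MF: the two families
-/

set_option autoImplicit false

namespace Pool.Agent.Helper59.MF

open Finset MeasureTheory Filter Topology

/-- powers -/
theorem fam_pow {a b : ℝ} (ha : 1 < a) (hab : a < b) : Fam a b a b 1 (fun n x => x ^ (n + 1))
    (fun n x => ((n : ℝ) + 1) * x ^ n) (fun n x => ((n : ℝ) + 1) * n * x ^ (n - 1)) where
  hab := hab
  hθ := ha
  cf n := by fun_prop
  d1 n x _ := by
    have h := hasDerivAt_pow (n + 1) x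
    simpa using h
  d2 n x _ := by
    have h := (hasDerivAt_pow n x).const_mul ((n : ℝ) + 1)
    exact h.congr_deriv (by ring)
  c2 n := by fun_prop
  p0 x _ := by simp
  p2 n x hx := by
    have hx0 : 0 ≤ x := by linarith [hx.1]
    positivity
  g1 n x hx := by
    have hx0 : 0 ≤ x := by linarith [hx.1]
    have h1 : a * x ^ n ≤ x ^ (n + 1) := by
      rw [pow_succ']
      exact mul_le_mul_of_nonneg_right hx.1 (by positivity)
    calc a * (((n : ℝ) + 1) * x ^ n) = ((n : ℝ) + 1) * (a * x ^ n) := by ring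
      _ ≤ ((n : ℝ) + 1) * x ^ (n + 1) := mul_le_mul_of_nonneg_left h1 (by positivity)
      _ ≤ (((n + 1 : ℕ) : ℝ) + 1) * x ^ (n + 1) := by
        refine mul_le_mul_of_nonneg_right ?_ (by positivity)
        push_cast
        linarith
  g2 n x hx := by
    have hx0 : 0 ≤ x := by linarith [hx.1]
    rcases n with _ | n
    · simp
    · have h1 : a * x ^ (n + 1 - 1) ≤ x ^ (n + 1 + 1 - 1) := by
        simp only [Nat.add_sub_cancel]
        rw [pow_succ']
        exact mul_le_mul_of_nonneg_right hx.1 (by positivity)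
      calc a * ((((n + 1 : ℕ) : ℝ) + 1) * ((n + 1 : ℕ) : ℝ) * x ^ (n + 1 - 1)) =
          (((n + 1 : ℕ) : ℝ) + 1) * ((n + 1 : ℕ) : ℝ) * (a * x ^ (n + 1 - 1)) := by ring
        _ ≤ (((n + 1 : ℕ) : ℝ) + 1) * ((n + 1 : ℕ) : ℝ) * x ^ (n + 1 + 1 - 1) :=
          mul_le_mul_of_nonneg_left h1 (by positivity)
        _ ≤ (((n + 1 + 1 : ℕ) : ℝ) + 1) * ((n + 1 + 1 : ℕ) : ℝ) * x ^ (n + 1 + 1 - 1) := by
          refine mul_le_mul_of_nonneg_right ?_ (by positivity)
          push_cast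
          nlinarith [(Nat.cast_nonneg n : (0 : ℝ) ≤ n)]
  u1 n x hx := by
    have hx0 : 0 ≤ x := by linarith [hx.1]
    rw [one_mul]
    exact mul_le_mul_of_nonneg_left (pow_le_pow_left₀ hx0 hx.2 n) (by positivity)
  u2 n x hx := by
    have hx0 : 0 ≤ x := by linarith [hx.1]
    have hx1 : 1 ≤ x := by linarith [hx.1]
    have h1 : x ^ (n - 1) ≤ b ^ n :=
      (pow_le_pow_right₀ hx1 (Nat.sub_le n 1)).trans (pow_le_pow_left₀ hx0 hx.2 n)
    rw [one_mul]
    calc ((n : ℝ) + 1) * n * x ^ (n - 1) ≤ ((n : ℝ) + 1) * n * b ^ n :=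
          mul_le_mul_of_nonneg_left h1 (by positivity)
      _ ≤ ((n : ℝ) + 1) ^ 2 * b ^ n := by
        refine mul_le_mul_of_nonneg_right ?_ (by
          have : 0 < b := by linarith
          positivity)
        nlinarith [(Nat.cast_nonneg n : (0 : ℝ) ≤ n)]

theorem ratio_pow {x : ℝ} (hx : 0 < x) : Tendsto (fun n : ℕ =>
    (fun (n : ℕ) (x : ℝ) => ((n : ℝ) + 1) * x ^ n) (n + 1) x / (fun (n : ℕ) (x : ℝ) => ((n : ℝ) + 1) * x ^ n) n x)
    atTop (𝓝 x) := by
  have h1 : Tendsto (fun n : ℕ => x + x * (1 / ((n : ℝ) + 1))) atTop (𝓝 (x + x * 0)) :=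
    tendsto_const_nhds.add (tendsto_one_div_add_atTop_nhds_zero_nat.const_mul x)
  rw [mul_zero, add_zero] at h1
  refine h1.congr fun n => ?_
  have h2 : (n : ℝ) + 1 ≠ 0 := by positivity
  push_cast
  field_simp
  ring

/-- multiples -/
theorem fam_mul {c d θ : ℝ} (hθ : 1 < θ) (hcd : c < d) : Fam c d θ θ θ (fun n x => x * θ ^ (n + 1))
    (fun n _ => θ ^ (n + 1)) (fun _ _ => 0) where
  hab := hcd
  hθ := hθ
  cf n := by fun_prop
  d1 n x _ := by simpa using (hasDerivAt_id x).mul_const (θ ^ (n + 1))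
  d2 n x _ := hasDerivAt_const x _
  c2 n := continuousOn_const
  p0 x _ := by simpa using hθ.le
  p2 n x _ := le_rfl
  g1 n x _ := by rw [← pow_succ']
  g2 n x _ := by simp
  u1 n x _ := by
    have h0 : 0 < θ := by linarith
    calc θ ^ (n + 1) = θ * 1 * θ ^ n := by ring
      _ ≤ θ * ((n : ℝ) + 1) * θ ^ n := by
        refine mul_le_mul_of_nonneg_right (mul_le_mul_of_nonneg_left ?_ h0.le) (by positivity)
        linarith [(Nat.cast_nonneg n : (0 : ℝ) ≤ n)]
  u2 n x _ := by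
    have h0 : 0 < θ := by linarith
    positivity

theorem ratio_mul {θ : ℝ} (hθ : 1 < θ) (x : ℝ) : Tendsto (fun n : ℕ =>
    (fun (n : ℕ) (_ : ℝ) => θ ^ (n + 1)) (n + 1) x / (fun (n : ℕ) (_ : ℝ) => θ ^ (n + 1)) n x)
    atTop (𝓝 θ) := by
  refine tendsto_const_nhds.congr fun n => ?_
  have h0 : θ ^ (n + 1) ≠ 0 := by positivity
  simp only
  rw [pow_succ θ (n + 1)]
  field_simp

end Pool.Agent.Helper59.MF
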