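import Pool.Agent.Helper59.MF.Osc

/-!
# MF: the tail lemma for joint frequencies
-/

set_option autoImplicit false

namespace Pool.Agent.Helper59.MF

open Finset MeasureTheory Filter Topology
open Pool.Agent.Helper59.RE (e norm_e e_add conj_e continuous_e e_zero)

variable {H : ℕ} {G : ℤ → ℂ} {g : ℝ → ℝ} {a b θ₀ B C : ℝ} {f f1 f2 : ℕ → ℝ → ℝ}

/-- the joint phase -/
noncomputable def jph (f : ℕ → ℝ → ℝ) (h : ℕ → ℤ) (r n : ℕ) (x : ℝ) : ℝ :=
  ∑ l ∈ range r, (h l : ℝ) * f (n + l) x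

theorem jph_cont (hf : Fam a b θ₀ B C f f1 f2) (h : ℕ → ℤ) (r n : ℕ) : Continuous (jph f h r n) := by
  unfold jph
  exact continuous_finsetSum _ fun l _ => continuous_const.mul (hf.cf _)

theorem jph_deriv {F F1 : ℕ → ℝ → ℝ} {x : ℝ} (hd : ∀ n, HasDerivAt (F n) (F1 n x) x) (h : ℕ → ℤ)
    (r n : ℕ) : HasDerivAt (jph F h r n) (jph F1 h r n x) x := by
  unfold jph
  exact HasDerivAt.fun_sum fun l _ => (hd _).const_mul _

theorem jph_neg (f : ℕ → ℝ → ℝ) (h : ℕ → ℤ) (r n : ℕ) (x : ℝ) :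
    jph f (fun l => -h l) r n x = -jph f h r n x := by
  unfold jph
  rw [← sum_neg_distrib]
  refine sum_congr rfl fun l _ => ?_
  push_cast
  ring

/-- a resonance-free frequency -/
theorem osc_farJ (hg : Dens H G g) (hf : Fam a b θ₀ B C f f1 f2) {κ : ℝ} (hκ : 0 < κ)
    (hκ2 : 2 * κ + H / (θ₀ - 1) ≤ 1) {p q : ℝ} (hp : a ≤ p) (hpq : p ≤ q) (hq : q ≤ b) (j i n t : ℕ)
    (h : ℕ → ℤ) (r : ℕ) (k : ℤ) (hk : 1 ≤ k) (ht : ∑ l ∈ range r, |(h l : ℝ)| ≤ κ * θ₀ ^ t)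
    (hn : n + r + t ≤ i) :
    ‖∫ x in p..q, (Rp g f j i x : ℂ) * e (k * f i x + jph f h r n x)‖ ≤
      (1 + ww H G) ^ (i - j) / (κ * f1 i p) := by
  have hI : ∀ x ∈ Set.Icc p q, x ∈ Set.Icc a b := fun x hx => ⟨hp.trans hx.1, hx.2.trans hq⟩
  have hpI : p ∈ Set.Icc a b := hI p ⟨le_rfl, hpq⟩
  have hθ1 : 0 < θ₀ - 1 := sub_pos.2 hf.hθ
  have hθ0 : 0 < θ₀ := by linarith
  have hk' : (1 : ℝ) ≤ k := by exact_mod_cast hk
  have key : ∀ (F : ℕ → ℝ), (0 ≤ F i) → (∀ l m : ℕ, θ₀ ^ m * F l ≤ F (l + m)) → (∀ l, 0 ≤ F l) →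
      (θ₀ - 1) * ∑ l ∈ Ico j i, F l ≤ F i →
      κ * F i + H * ∑ l ∈ Ico j i, F l ≤ k * F i + ∑ l ∈ range r, (h l : ℝ) * F (n + l) := by
    intro F hFi hgr hF0 hs
    have e1 : H * ∑ l ∈ Ico j i, F l ≤ H / (θ₀ - 1) * F i := by
      rw [div_mul_eq_mul_div, le_div_iff₀ hθ1]
      have := mul_le_mul_of_nonneg_left hs (Nat.cast_nonneg H : (0 : ℝ) ≤ H)
      linarith
    have e0 : ∀ l ∈ range r, θ₀ ^ t * F (n + l) ≤ F i := by
      intro l hl
      rw [mem_range] at hl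
      have h2 := hgr (n + l) (i - (n + l))
      rw [Nat.add_sub_cancel' (by omega)] at h2
      have h3 : θ₀ ^ t ≤ θ₀ ^ (i - (n + l)) := pow_le_pow_right₀ hf.hθ.le (by omega)
      exact (mul_le_mul_of_nonneg_right h3 (hF0 _)).trans h2
    have e2 : ∑ l ∈ range r, |(h l : ℝ)| * F (n + l) ≤ κ * F i := by
      have h4 : ∑ l ∈ range r, |(h l : ℝ)| * (θ₀ ^ t * F (n + l)) ≤
          ∑ l ∈ range r, |(h l : ℝ)| * F i :=
        sum_le_sum fun l hl => mul_le_mul_of_nonneg_left (e0 l hl) (abs_nonneg _)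
      rw [← sum_mul] at h4
      have h5 : ∑ l ∈ range r, |(h l : ℝ)| * (θ₀ ^ t * F (n + l)) =
          θ₀ ^ t * ∑ l ∈ range r, |(h l : ℝ)| * F (n + l) := by
        rw [mul_sum]
        exact sum_congr rfl fun l _ => by ring
      rw [h5] at h4
      have h6 : (∑ l ∈ range r, |(h l : ℝ)|) * F i ≤ κ * θ₀ ^ t * F i :=
        mul_le_mul_of_nonneg_right ht hFi
      have h7 : θ₀ ^ t * ∑ l ∈ range r, |(h l : ℝ)| * F (n + l) ≤ θ₀ ^ t * (κ * F i) := by
        calc _ ≤ _ := h4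
          _ ≤ _ := h6
          _ = _ := by ring
      exact le_of_mul_le_mul_left h7 (by positivity)
    have e3 : -(∑ l ∈ range r, |(h l : ℝ)| * F (n + l)) ≤ ∑ l ∈ range r, (h l : ℝ) * F (n + l) := by
      rw [← sum_neg_distrib]
      refine sum_le_sum fun l _ => ?_
      have := mul_le_mul_of_nonneg_right (neg_abs_le (h l : ℝ)) (hF0 (n + l))
      linarith
    have e4 : (2 * κ + H / (θ₀ - 1)) * F i ≤ 1 * F i := mul_le_mul_of_nonneg_right hκ2 hFi
    have e5 : 1 * F i ≤ k * F i := mul_le_mul_of_nonneg_right hk' hFi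
    nlinarith
  refine osc hg hf hp hpq hq j i (fun x => k * f i x + jph f h r n x)
    (fun x => k * f1 i x + jph f1 h r n x) (fun x => k * f2 i x + jph f2 h r n x)
    (fun x hx => ((hf.d1 i x (hI x hx)).const_mul _).add (jph_deriv (fun m => hf.d1 m x (hI x hx)) h r n))
    (fun x hx => ((hf.d2 i x (hI x hx)).const_mul _).add (jph_deriv (fun m => hf.d2 m x (hI x hx)) h r n))
    ?_ (κ * f1 i p) (mul_pos hκ (hf.pos hpI i)) (fun x hx => ?_) (fun x hx => ?_)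
  · refine (continuousOn_const.mul ((hf.c2 i).mono (fun x hx => hI x hx))).add ?_
    unfold jph
    exact continuousOn_finsetSum _ fun l _ => continuousOn_const.mul ((hf.c2 _).mono (fun x hx => hI x hx))
  · have h1 := key (fun l => f1 l x) (hf.pos (hI x hx) i).le (fun l m => hf.growth (hI x hx) l m)
      (fun l => (hf.pos (hI x hx) l).le) (hf.sum1 (hI x hx) j i)
    have h2 := mul_le_mul_of_nonneg_left (hf.mono i hpI (hI x hx) hx.1) hκ.le
    unfold jph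
    linarith
  · have h1 := key (fun l => f2 l x) (hf.p2 i x (hI x hx)) (fun l m => hf.growth2 (hI x hx) l m)
      (fun l => hf.p2 l x (hI x hx)) (hf.sum2 (hI x hx) j i)
    have h2 := mul_nonneg hκ.le (hf.p2 i x (hI x hx))
    unfold jph
    linarith

/-- one factor -/
theorem tail_oneJ (hg : Dens H G g) (hf : Fam a b θ₀ B C f f1 f2) {κ : ℝ} (hκ : 0 < κ)
    (hκ2 : 2 * κ + H / (θ₀ - 1) ≤ 1) {p q : ℝ} (hp : a ≤ p) (hpq : p ≤ q) (hq : q ≤ b) (j i n t : ℕ)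
    (hji : j ≤ i) (h : ℕ → ℤ) (r : ℕ) (ht : ∑ l ∈ range r, |(h l : ℝ)| ≤ κ * θ₀ ^ t)
    (hn : n + r + t ≤ i) :
    ‖(∫ x in p..q, (Rp g f j (i + 1) x : ℂ) * e (jph f h r n x)) -
      ∫ x in p..q, (Rp g f j i x : ℂ) * e (jph f h r n x)‖ ≤
      ww H G * ((1 + ww H G) ^ (i - j) / (κ * f1 i p)) := by
  have hce : ∀ (u : ℝ → ℝ), Continuous u → IntervalIntegrable
      (fun x => (Rp g f j i x : ℂ) * e (u x)) volume p q := fun u hu =>
    ((Complex.continuous_ofReal.comp (Rp_cont hg hf j i)).mul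
      (continuous_e.comp hu)).intervalIntegrable _ _
  have hce' : IntervalIntegrable
      (fun x => (Rp g f j (i + 1) x : ℂ) * e (jph f h r n x)) volume p q :=
    ((Complex.continuous_ofReal.comp (Rp_cont hg hf j (i + 1))).mul
      (continuous_e.comp (jph_cont hf h r n))).intervalIntegrable _ _
  rw [← intervalIntegral.integral_sub hce' (hce (fun x => jph f h r n x) (jph_cont hf h r n))]
  have hsplit : ∀ x : ℝ, (Rp g f j (i + 1) x : ℂ) * e (jph f h r n x) -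
      (Rp g f j i x : ℂ) * e (jph f h r n x) = ∑ k ∈ (Icc (-(H : ℤ)) H).erase 0,
        G k * ((Rp g f j i x : ℂ) * e (k * f i x + jph f h r n x)) := by
    intro x
    rw [Rp_succ g f hji, Complex.ofReal_mul, hg.split, mul_add, mul_one, add_mul, add_sub_cancel_left,
      Finset.mul_sum, Finset.sum_mul]
    refine Finset.sum_congr rfl fun k _ => ?_
    rw [e_add]
    ring
  simp_rw [hsplit]
  have hint : ∀ k : ℤ, IntervalIntegrable
      (fun x => G k * ((Rp g f j i x : ℂ) * e (k * f i x + jph f h r n x))) volume p q := fun k =>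
    (hce (fun x => k * f i x + jph f h r n x)
      ((continuous_const.mul (hf.cf i)).add (jph_cont hf h r n))).const_mul _
  rw [intervalIntegral.integral_finsetSum fun k _ => hint k]
  unfold ww
  rw [Finset.sum_mul]
  refine (norm_sum_le _ _).trans (Finset.sum_le_sum fun k hk => ?_)
  rw [intervalIntegral.integral_const_mul, norm_mul]
  refine mul_le_mul_of_nonneg_left ?_ (norm_nonneg _)
  have hk0 : k ≠ 0 := (Finset.mem_erase.1 hk).1
  rcases lt_or_gt_of_ne hk0 with hk1 | hk1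
  · rw [norm_conj_int]
    have h1 := osc_farJ hg hf hκ hκ2 hp hpq hq j i n t (fun l => -h l) r (-k) (by omega)
      (by simpa using ht) hn
    have h2 : ∀ x, -((k : ℝ) * f i x + jph f h r n x) =
        ((-k : ℤ) : ℝ) * f i x + jph f (fun l => -h l) r n x := by
      intro x
      rw [jph_neg]
      push_cast
      ring
    simp_rw [h2]
    exact h1
  · exact osc_farJ hg hf hκ hκ2 hp hpq hq j i n t h r k (by omega) ht hn

/-- the factors from `n₁` on do not matter -/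
theorem tailJ (hg : Dens H G g) (hf : Fam a b θ₀ B C f f1 f2) (hH : H + 1 < θ₀) (hw : 1 + ww H G < θ₀)
    (h : ℕ → ℤ) (r : ℕ) : ∃ (K : ℝ) (t : ℕ), 0 < K ∧ ∀ (p q : ℝ), a ≤ p → p ≤ q → q ≤ b →
      ∀ (j n n₁ N : ℕ), j ≤ n₁ → n₁ ≤ N → n + t ≤ n₁ →
      ‖(∫ x in p..q, (Rp g f j N x : ℂ) * e (jph f h r n x)) -
        ∫ x in p..q, (Rp g f j n₁ x : ℂ) * e (jph f h r n x)‖ ≤
      K * (1 + ww H G) ^ (n₁ - j) / f1 n₁ p := by
  have hθ1 : 0 < θ₀ - 1 := sub_pos.2 hf.hθ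
  have hθ0 : 0 < θ₀ := by linarith
  have hw0 : 0 ≤ ww H G := ww_nonneg H G
  have hHd : (H : ℝ) / (θ₀ - 1) < 1 := by
    rw [div_lt_one hθ1]
    linarith
  set κ : ℝ := (1 - H / (θ₀ - 1)) / 2 with hκd
  have hκ : 0 < κ := by
    rw [hκd]
    linarith
  have hκ2 : 2 * κ + H / (θ₀ - 1) ≤ 1 := by
    rw [hκd]
    linarith
  obtain ⟨t, ht⟩ := pow_unbounded_of_one_lt ((∑ l ∈ range r, |(h l : ℝ)|) / κ) hf.hθ
  have ht' : ∑ l ∈ range r, |(h l : ℝ)| ≤ κ * θ₀ ^ t := by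
    rw [div_lt_iff₀ hκ] at ht
    linarith
  set ρ : ℝ := (1 + ww H G) / θ₀ with hρ
  have hρ0 : 0 ≤ ρ := by positivity
  have hρ1 : ρ < 1 := by
    rw [hρ, div_lt_one hθ0]
    exact hw
  have hρ2 : 0 < 1 - ρ := by linarith
  refine ⟨ww H G / (κ * (1 - ρ)) + 1, r + t, by positivity, ?_⟩
  intro p q hp hpq hq j n n₁ N hj hN hn
  have hpI : p ∈ Set.Icc a b := ⟨hp, hpq.trans hq⟩
  have hf1 := hf.pos hpI n₁
  set A : ℝ := (1 + ww H G) ^ (n₁ - j) / f1 n₁ p with hA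
  have hA0 : 0 ≤ A := by positivity
  have main : ∀ s : ℕ, ‖(∫ x in p..q, (Rp g f j (n₁ + s) x : ℂ) * e (jph f h r n x)) -
      ∫ x in p..q, (Rp g f j n₁ x : ℂ) * e (jph f h r n x)‖ ≤
      ww H G / κ * A * ∑ r ∈ range s, ρ ^ r := by
    intro s
    induction s with
    | zero => simp
    | succ s ih =>
      have h1 := tail_oneJ hg hf hκ hκ2 hp hpq hq j (n₁ + s) n t (by omega) h r ht' (by omega)
      have h2 : (1 + ww H G) ^ (n₁ + s - j) / (κ * f1 (n₁ + s) p) ≤ A * ρ ^ s / κ := by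
        have h3 := hf.growth hpI n₁ s
        have h4 : n₁ + s - j = (n₁ - j) + s := by omega
        rw [h4, pow_add, hA, hρ, div_pow]
        have h5 : 0 < θ₀ ^ s * f1 n₁ p := by positivity
        calc (1 + ww H G) ^ (n₁ - j) * (1 + ww H G) ^ s / (κ * f1 (n₁ + s) p)
            ≤ (1 + ww H G) ^ (n₁ - j) * (1 + ww H G) ^ s / (κ * (θ₀ ^ s * f1 n₁ p)) := by
              gcongr
          _ = _ := by field_simp
      rw [Finset.sum_range_succ, mul_add]
      have h3 := norm_sub_le_norm_sub_add_norm_sub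
        (∫ x in p..q, (Rp g f j (n₁ + s + 1) x : ℂ) * e (jph f h r n x))
        (∫ x in p..q, (Rp g f j (n₁ + s) x : ℂ) * e (jph f h r n x))
        (∫ x in p..q, (Rp g f j n₁ x : ℂ) * e (jph f h r n x))
      rw [← add_assoc]
      refine h3.trans ?_
      have h4 := mul_le_mul_of_nonneg_left h2 hw0
      have h5 : ww H G * (A * ρ ^ s / κ) = ww H G / κ * A * ρ ^ s := by ring
      linarith
  obtain ⟨s, rfl⟩ := Nat.exists_eq_add_of_le hN
  refine (main s).trans ?_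
  have hgeo : ∑ r ∈ range s, ρ ^ r ≤ (1 - ρ)⁻¹ := by
    rw [← tsum_geometric_of_lt_one hρ0 hρ1]
    exact (summable_geometric_of_lt_one hρ0 hρ1).sum_le_tsum _ (fun n _ => by positivity)
  calc ww H G / κ * A * ∑ r ∈ range s, ρ ^ r ≤ ww H G / κ * A * (1 - ρ)⁻¹ := by gcongr
    _ = ww H G / (κ * (1 - ρ)) * A := by
      field_simp
    _ ≤ (ww H G / (κ * (1 - ρ)) + 1) * A := by
      apply mul_le_mul_of_nonneg_right _ hA0
      linarith
    _ = _ := by rw [hA]; ring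

end Pool.Agent.Helper59.MF
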