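import Pool.Agent.Helper46.MF.LlnP
import Pool.Agent.Helper59.MF.TailJ

/-!
# MF: the law of large numbers for joint phases

(the proofs of Helper46/MF/LlnP.lean)
-/

set_option autoImplicit false

namespace Pool.Agent.Helper59.MF

open Finset MeasureTheory Filter Topology
open Pool.Agent.Helper46
open Pool.Agent.Helper46.MF
open Pool.Agent.Helper59.RE (e norm_e e_add e_sub conj_e continuous_e e_zero norm_e_sub)

variable {a b θ₀ B C : ℝ} {f f1 f2 : ℕ → ℝ → ℝ}

/-- the sum of the deviations from the averages over the cells is small almost everywhere -/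
theorem dev_smallJ (hf : Fam a b θ₀ B C f f1 f2) (μ : Measure ℝ) [IsProbabilityMeasure μ]
    (hμ : μ (Set.Icc a b)ᶜ = 0) {η : ℝ} (hη : 0 < η) (hη1 : η ≤ 1) (m : ℕ) (h : ℕ → ℤ) (r : ℕ) :
    ∀ᵐ x ∂μ, ∀ ε : ℝ, 0 < ε → ∀ᶠ N : ℕ in atTop,
      ‖∑ n ∈ range N, (e (jph f h r (n + m) x) - avg μ (cell hf hη n) (fun y => e (jph f h r (n + m) y)) x)‖ ≤ ε * N := by
  have hconj : Measurable (starRingEnd ℂ) := Complex.continuous_conj.measurable
  have hθ : 0 < θ₀ := zero_lt_one.trans hf.hθ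
  obtain ⟨g, hg⟩ : ∃ g : ℕ → ℝ → ℂ, g = fun n x => e (jph f h r (n + m) x) := ⟨_, rfl⟩
  have hgm : ∀ n, Measurable (g n) := fun n => by
    rw [hg]
    exact (continuous_e.comp (jph_cont hf h r (n + m))).measurable
  have hg1 : ∀ n x, ‖g n x‖ ≤ 1 := fun n x => by
    rw [hg]
    exact (norm_e _).le
  obtain ⟨A, hA⟩ : ∃ A : ℕ → ℕ → ℝ → ℂ, A = fun n l x => avg μ (cell hf hη n) (g l) x := ⟨_, rfl⟩
  have hAm : ∀ n l, Measurable (A n l) := fun n l => by
    rw [hA]
    exact avg_meas _ (cell_meas hf hη n) _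
  have hA1 : ∀ n l x, ‖A n l x‖ ≤ 1 := fun n l x => by
    rw [hA]
    exact avg_norm _ _ zero_le_one (hg1 l) x
  obtain ⟨d, hd⟩ : ∃ d : ℕ → ℝ → ℂ, d = fun n x => g n x - A n n x := ⟨_, rfl⟩
  have hdm : ∀ n, Measurable (d n) := fun n => by
    rw [hd]
    exact (hgm n).sub (hAm n n)
  have hd2 : ∀ n x, ‖d n x‖ ≤ 2 := fun n x => by
    rw [hd]
    refine (norm_sub_le _ _).trans ?_
    linarith [hg1 n x, hA1 n n x]
  have hAE : ∀ᵐ x ∂μ, x ∈ Set.Icc a b := by
    rw [ae_iff]
    exact hμ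
  have hρ0 : 0 ≤ θ₀⁻¹ := by positivity
  have hρ1 : θ₀⁻¹ < 1 := inv_lt_one_of_one_lt₀ hf.hθ
  obtain ⟨K, hK⟩ : ∃ K : ℝ, K = (4 + 4 * Real.pi * (∑ l ∈ range r, |(h l : ℝ)|)) * θ₀ ^ (m + r) := ⟨_, rfl⟩
  have hK0 : 0 ≤ K := by
    rw [hK]
    positivity
  have hcor : ∀ j n, j < n → ‖∫ x, d n x * (starRingEnd ℂ) (d j x) ∂μ‖ ≤ K * (θ₀⁻¹) ^ (n - j) := by
    intro j n hjn
    rcases le_or_gt (j + (m + r)) n with hc | hc
    · -- the orthogonal part
      have i1 : Integrable (fun x => d n x * (starRingEnd ℂ) (g j x - A n j x)) μ := by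
        refine (integrable_const (4 : ℝ)).mono' ((hdm n).mul (hconj.comp ((hgm j).sub (hAm n j)))).aestronglyMeasurable
          (Eventually.of_forall fun x => ?_)
        show ‖d n x * (starRingEnd ℂ) (g j x - A n j x)‖ ≤ 4
        rw [norm_mul, RCLike.norm_conj]
        have h1 := hd2 n x
        have h2 : ‖g j x - A n j x‖ ≤ 2 := (norm_sub_le _ _).trans (by linarith [hg1 j x, hA1 n j x])
        calc ‖d n x‖ * ‖g j x - A n j x‖ ≤ 2 * 2 := mul_le_mul h1 h2 (norm_nonneg _) zero_le_two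
          _ = 4 := by norm_num
      have i2 : Integrable (fun x => d n x * (starRingEnd ℂ) (A n j x - A j j x)) μ := by
        refine (integrable_const (4 : ℝ)).mono' ((hdm n).mul (hconj.comp ((hAm n j).sub (hAm j j)))).aestronglyMeasurable
          (Eventually.of_forall fun x => ?_)
        show ‖d n x * (starRingEnd ℂ) (A n j x - A j j x)‖ ≤ 4
        rw [norm_mul, RCLike.norm_conj]
        have h1 := hd2 n x
        have h2 : ‖A n j x - A j j x‖ ≤ 2 := (norm_sub_le _ _).trans (by linarith [hA1 j j x, hA1 n j x])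
        calc ‖d n x‖ * ‖A n j x - A j j x‖ ≤ 2 * 2 := mul_le_mul h1 h2 (norm_nonneg _) zero_le_two
          _ = 4 := by norm_num
      have h1 : ∫ x, d n x * (starRingEnd ℂ) (d j x) ∂μ = ∫ x, d n x * (starRingEnd ℂ) (g j x - A n j x) ∂μ := by
        have h2 : ∀ x, d n x * (starRingEnd ℂ) (d j x) = d n x * (starRingEnd ℂ) (g j x - A n j x) +
            d n x * (starRingEnd ℂ) (A n j x - A j j x) := fun x => by
          rw [← mul_add, ← map_add]
          congr 2
          rw [hd]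
          ring
        rw [integral_congr_ae (Eventually.of_forall h2), integral_add i1 i2]
        have h3 : ∫ x, d n x * (starRingEnd ℂ) (A n j x - A j j x) ∂μ = 0 := by
          rw [hd, hA]
          refine avg_orth (cell hf hη n) (cell_meas hf hη n) (hgm n) (hg1 n)
            (ψ := fun x => (starRingEnd ℂ) (avg μ (cell hf hη n) (g j) x - avg μ (cell hf hη j) (g j) x)) ?_ (C' := 2) ?_ ?_
          · have := hconj.comp ((hAm n j).sub (hAm j j))
            rw [hA] at this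
            exact this
          · intro x
            rw [RCLike.norm_conj]
            have h4 := hA1 n j x
            have h5 := hA1 j j x
            rw [hA] at h4 h5
            exact (norm_sub_le _ _).trans (by linarith)
          · intro x y hxy
            rw [avg_const _ _ hxy, avg_const _ _ (cell_nest hf hη hjn.le hxy)]
        rw [h3, add_zero]
      rw [h1]
      have hosc : ∀ᵐ x ∂μ, ‖g j x - A n j x‖ ≤ 2 * Real.pi * (∑ l ∈ range r, |(h l : ℝ)|) * (θ₀⁻¹) ^ (n - j - (m + r)) := by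
        rw [hA]
        refine avg_osc (cell hf hη n) (cell_meas hf hη n) (hgm j) (hg1 j) hAE ?_
        intro x hx y hy hxy
        rw [hg]
        refine (norm_e_sub _ _).trans ?_
        rw [mul_assoc (2 * Real.pi)]
        apply mul_le_mul_of_nonneg_left _ (by positivity)
        have e1 : jph f h r (j + m) x - jph f h r (j + m) y =
            ∑ l ∈ range r, (h l : ℝ) * (f (j + m + l) x - f (j + m + l) y) := by
          unfold jph
          rw [← sum_sub_distrib]
          exact sum_congr rfl fun l _ => by ring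
        rw [e1]
        refine (abs_sum_le_sum_abs _ _).trans ?_
        rw [sum_mul]
        refine sum_le_sum fun l hl => ?_
        rw [mem_range] at hl
        rw [abs_mul]
        apply mul_le_mul_of_nonneg_left _ (abs_nonneg _)
        have h2 : j + m + l + (n - (j + m + l)) = n := by omega
        have h3 := cell_osc hf hη (j + m + l) (n - (j + m + l)) hx hy (by rw [h2]; exact hxy)
        refine h3.trans ((mul_le_of_le_one_left (by positivity) hη1).trans ?_)
        exact pow_le_pow_of_le_one hρ0 hρ1.le (by omega)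
      refine (norm_integral_le_of_norm_le_const (C := K * (θ₀⁻¹) ^ (n - j)) ?_).trans ?_
      · filter_upwards [hosc] with x hx
        rw [norm_mul, RCLike.norm_conj]
        refine (mul_le_mul (hd2 n x) hx (norm_nonneg _) zero_le_two).trans ?_
        have h2 : (θ₀⁻¹) ^ (n - j) = (θ₀⁻¹) ^ (n - j - (m + r)) * (θ₀⁻¹) ^ (m + r) := by
          rw [← pow_add]
          congr 1
          omega
        have h3 : θ₀ ^ (m + r) * (θ₀⁻¹) ^ (m + r) = 1 := by
          rw [← mul_pow, mul_inv_cancel₀ hθ.ne', one_pow]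
        have h4 : K * (θ₀⁻¹) ^ (n - j) = (4 + 4 * Real.pi * (∑ l ∈ range r, |(h l : ℝ)|)) * (θ₀⁻¹) ^ (n - j - (m + r)) := by
          rw [hK, h2]
          calc (4 + 4 * Real.pi * (∑ l ∈ range r, |(h l : ℝ)|)) * θ₀ ^ (m + r) * ((θ₀⁻¹) ^ (n - j - (m + r)) * (θ₀⁻¹) ^ (m + r)) =
              (4 + 4 * Real.pi * (∑ l ∈ range r, |(h l : ℝ)|)) * (θ₀⁻¹) ^ (n - j - (m + r)) * (θ₀ ^ (m + r) * (θ₀⁻¹) ^ (m + r)) := by ring
            _ = _ := by rw [h3, mul_one]
        rw [h4]
        have h5 : 0 ≤ (θ₀⁻¹) ^ (n - j - (m + r)) := by positivity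
        nlinarith
      · rw [probReal_univ, mul_one]
    · -- the trivial bound
      have h1 : ‖∫ x, d n x * (starRingEnd ℂ) (d j x) ∂μ‖ ≤ 4 * μ.real Set.univ := by
        refine norm_integral_le_of_norm_le_const (Eventually.of_forall fun x => ?_)
        rw [norm_mul, RCLike.norm_conj]
        calc ‖d n x‖ * ‖d j x‖ ≤ 2 * 2 := mul_le_mul (hd2 n x) (hd2 j x) (norm_nonneg _) zero_le_two
          _ = 4 := by norm_num
      rw [probReal_univ, mul_one] at h1
      refine h1.trans ?_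
      have h2 : (θ₀⁻¹) ^ (m + r) ≤ (θ₀⁻¹) ^ (n - j) := pow_le_pow_of_le_one hρ0 hρ1.le (by omega)
      have h3 : θ₀ ^ (m + r) * (θ₀⁻¹) ^ (m + r) = 1 := by
        rw [← mul_pow, mul_inv_cancel₀ hθ.ne', one_pow]
      calc (4 : ℝ) ≤ (4 + 4 * Real.pi * (∑ l ∈ range r, |(h l : ℝ)|)) * 1 := by
            have : 0 ≤ 4 * Real.pi * (∑ l ∈ range r, |(h l : ℝ)|) := by positivity
            linarith
        _ = K * (θ₀⁻¹) ^ (m + r) := by
          rw [hK]
          linear_combination (-(4 + 4 * Real.pi * (∑ l ∈ range r, |(h l : ℝ)|))) * h3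
        _ ≤ K * (θ₀⁻¹) ^ (n - j) := mul_le_mul_of_nonneg_left h2 hK0
  have h2 := HQ.as_small d hdm hd2 _ (HQ.second d hdm hd2 K (θ₀⁻¹) hK0 hρ0 hρ1 hcor)
  rw [hd, hA, hg] at h2
  exact h2

theorem llnJ (hf : Fam a b θ₀ B C f f1 f2) (hB : B < θ₀ ^ 2) (μ : Measure ℝ) [IsProbabilityMeasure μ]
    (hμ : μ (Set.Icc a b)ᶜ = 0) (η : ℝ) (hη : 0 < η) (hη1 : η ≤ 1) (m : ℕ) (h : ℕ → ℤ) (r : ℕ) (c : ℂ) :
    ∀ᵐ x ∂μ, x ∈ Set.Ioo a b → ∀ ε : ℝ, 0 < ε →
      (∀ᶠ n : ℕ in atTop, ∀ p q : ℝ, a ≤ p → p ≤ x → x < q → q ≤ b →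
        η / 4 ≤ (q - p) * f1 n p → (q - p) * f1 n q ≤ η →
          ‖∫ y in Set.Ico p q, (e (jph f h r (n + m) y) - c) ∂μ‖ ≤ ε * μ.real (Set.Ico p q)) →
      ∀ᶠ N : ℕ in atTop, ‖∑ n ∈ range N, (e (jph f h r n x) - c)‖ ≤ 2 * ε * N := by
  have hpos : ∀ᵐ x ∂μ, ∀ n : ℕ, 0 < μ.real (cell hf hη n ⁻¹' {cell hf hη n x}) :=
    ae_all_iff.2 fun n => ae_pos (cell hf hη n)
  filter_upwards [dev_smallJ hf μ hμ hη hη1 m h r, hpos] with x hdev hx hxab ε hε hav
  -- the averages are close to `c`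
  have h1 : ∀ᶠ n : ℕ in atTop, ‖avg μ (cell hf hη n) (fun y => e (jph f h r (n + m) y)) x - c‖ ≤ ε := by
    filter_upwards [hav, cell_geo hf hB hη hxab] with n hn ⟨p, q, h1, h2, h3, h4, h5, h6, h7⟩
    have h8 := hn p q h1 h2 h3 h4 h5 h6
    have h9 := hx n
    have h10 : avg μ (cell hf hη n) (fun y => e (jph f h r (n + m) y)) x - c =
        ((μ.real (Set.Ico p q))⁻¹ : ℝ) • ∫ y in Set.Ico p q, (e (jph f h r (n + m) y) - c) ∂μ := by
      have hgi : Integrable (fun y => e (jph f h r (n + m) y)) μ := (integrable_const (1 : ℝ)).mono'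
        (continuous_e.comp (jph_cont hf h r (n + m))).measurable.aestronglyMeasurable
        (Eventually.of_forall fun y => (norm_e _).le)
      rw [h7] at h9
      rw [integral_sub hgi.integrableOn (integrable_const _).integrableOn, setIntegral_const, smul_sub, smul_smul,
        inv_mul_cancel₀ h9.ne', one_smul]
      unfold avg
      rw [h7]
    rw [h10, norm_smul, Real.norm_eq_abs, abs_of_nonneg (inv_nonneg.2 measureReal_nonneg)]
    rw [h7] at h9
    rw [inv_mul_le_iff₀ h9, mul_comm]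
    exact h8
  obtain ⟨n₀, hn₀⟩ := eventually_atTop.1 h1
  -- bounded errors
  have hc1 : ∀ n, ‖e (jph f h r n x) - c‖ ≤ 1 + ‖c‖ := fun n => (norm_sub_le _ _).trans (by rw [norm_e])
  have hc2 : ∀ n, ‖avg μ (cell hf hη n) (fun y => e (jph f h r (n + m) y)) x - c‖ ≤ 1 + ‖c‖ := fun n =>
    (norm_sub_le _ _).trans (by
      have := avg_norm (μ := μ) (cell hf hη n) (fun y => e (jph f h r (n + m) y)) zero_le_one (fun y => (norm_e _).le) x
      linarith)
  obtain ⟨K, hK⟩ : ∃ K : ℝ, K = (n₀ + 2 * m) * (1 + ‖c‖) := ⟨_, rfl⟩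
  filter_upwards [hdev (ε / 4) (by positivity), eventually_ge_atTop ⌈4 / ε * K⌉₊] with N hN hN'
  have h2 : ∑ n ∈ range N, (e (jph f h r n x) - c) = ∑ n ∈ range N, (e (jph f h r (n + m) x) - c) +
      (∑ n ∈ range m, (e (jph f h r n x) - c) - ∑ n ∈ range m, (e (jph f h r (N + n) x) - c)) := by
    have h3 := sum_range_add (fun n => e (jph f h r n x) - c) N m
    have h4 := sum_range_add (fun n => e (jph f h r n x) - c) m N
    have h5 : ∑ n ∈ range N, (e (jph f h r (m + n) x) - c) = ∑ n ∈ range N, (e (jph f h r (n + m) x) - c) :=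
      sum_congr rfl fun n _ => by rw [add_comm]
    rw [add_comm m N, h5] at h4
    linear_combination h4 - h3
  have h3 : ∑ n ∈ range N, (e (jph f h r (n + m) x) - c) = ∑ n ∈ range N, (e (jph f h r (n + m) x) -
      avg μ (cell hf hη n) (fun y => e (jph f h r (n + m) y)) x) + ∑ n ∈ range N,
      (avg μ (cell hf hη n) (fun y => e (jph f h r (n + m) y)) x - c) := by
    rw [← sum_add_distrib]
    exact sum_congr rfl fun n _ => by ring
  have h4 : ‖∑ n ∈ range N, (avg μ (cell hf hη n) (fun y => e (jph f h r (n + m) y)) x - c)‖ ≤ n₀ * (1 + ‖c‖) + ε * N := by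
    refine (norm_sum_le _ _).trans ?_
    have h5 : ∀ n ∈ range N, ‖avg μ (cell hf hη n) (fun y => e (jph f h r (n + m) y)) x - c‖ ≤
        (if n < n₀ then (1 + ‖c‖) else 0) + ε := by
      intro n _
      split_ifs with h6
      · linarith [hc2 n]
      · rw [zero_add]
        exact hn₀ n (not_lt.1 h6)
    refine (sum_le_sum h5).trans ?_
    rw [sum_add_distrib, sum_const, card_range, nsmul_eq_mul, mul_comm (N : ℝ) ε]
    apply add_le_add_left
    rw [← sum_filter, sum_const, nsmul_eq_mul]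
    apply mul_le_mul_of_nonneg_right _ (by positivity)
    have h6 : ((range N).filter fun n => n < n₀) ⊆ range n₀ := by
      intro n hn
      rw [mem_filter] at hn
      exact mem_range.2 hn.2
    have h7 := card_le_card h6
    rw [card_range] at h7
    exact_mod_cast h7
  have h5 : ∀ u : ℕ → ℕ, ‖∑ n ∈ range m, (e (jph f h r (u n) x) - c)‖ ≤ m * (1 + ‖c‖) := by
    intro u
    refine (norm_sum_le _ _).trans ((sum_le_card_nsmul _ _ _ fun n _ => hc1 (u n)).trans ?_)
    rw [card_range, nsmul_eq_mul]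
  have h6 : K ≤ ε / 4 * N := by
    have h7 := Nat.ceil_le.1 hN'
    rw [div_mul_eq_mul_div, div_le_iff₀ hε] at h7
    linarith
  have h7 : ‖∑ n ∈ range N, (e (jph f h r n x) - c)‖ ≤ (ε / 4 * N + (n₀ * (1 + ‖c‖) + ε * N)) +
      (m * (1 + ‖c‖) + m * (1 + ‖c‖)) := by
    rw [h2, h3]
    refine (norm_add_le _ _).trans (add_le_add ((norm_add_le _ _).trans (add_le_add hN h4)) ?_)
    exact (norm_sub_le _ _).trans (add_le_add (h5 fun n => n) (h5 fun n => N + n))
  have h8 : n₀ * (1 + ‖c‖) + (m * (1 + ‖c‖) + m * (1 + ‖c‖)) = K := by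
    rw [hK]
    ring
  have h9 : 0 ≤ ε * N := by positivity
  linarith

end Pool.Agent.Helper59.MF
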