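import Pool.Agent.Helper59.MF.LocC
import Pool.Agent.Helper59.MF.TailJ

/-!
# MF-D: joint frequencies
-/

set_option autoImplicit false

namespace Pool.Agent.Helper59.MF

open Finset MeasureTheory Filter Topology
open Pool.Agent.Helper59.RE (e norm_e e_add conj_e continuous_e e_zero norm_e_sub)

variable {H : ℕ} {G : ℤ → ℂ} {g : ℝ → ℝ} {a b θ₀ B C : ℝ} {f f1 f2 : ℕ → ℝ → ℝ}

/-- one step with a shifted frequency -/
noncomputable def Lh (H : ℕ) (W : ℤ → ℝ) (θ : ℝ) (h : ℤ) (F : ℝ → ℝ) (y : ℝ) : ℝ :=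
  ∑ k ∈ Icc (-(H : ℤ)) H, W k * F (θ * y + (k + h : ℤ))

/-- several steps with shifted frequencies -/
noncomputable def LL (H : ℕ) (W : ℤ → ℝ) (θ : ℝ) (h : ℕ → ℤ) (F : ℝ → ℝ) : ℕ → ℝ → ℝ
  | 0 => F
  | t + 1 => Lh H W θ (h t) (LL H W θ h F t)

theorem LL_tendsto {W : ℤ → ℝ} {θ : ℝ} (Φ : ℕ → ℝ → ℝ)
    (hΦ : ∀ Q : Polynomial ℤ, Tendsto (fun m => Φ m (Polynomial.aeval θ Q)) atTop (𝓝 0))
    (h : ℕ → ℤ) (t : ℕ) : ∀ Q : Polynomial ℤ,
      Tendsto (fun m => LL H W θ h (Φ m) t (Polynomial.aeval θ Q)) atTop (𝓝 0) := by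
  induction t with
  | zero => exact hΦ
  | succ t ih =>
    intro Q
    have h1 : ∀ m, LL H W θ h (Φ m) (t + 1) (Polynomial.aeval θ Q) =
        ∑ k ∈ Icc (-(H : ℤ)) H, W k * LL H W θ h (Φ m) t
          (Polynomial.aeval θ (Polynomial.X * Q + Polynomial.C (k + h t))) := by
      intro m
      simp only [LL]
      unfold Lh
      exact sum_congr rfl fun k _ => by rw [aeval_step]
    simp only [h1]
    have h2 : Tendsto (fun m => ∑ k ∈ Icc (-(H : ℤ)) H, W k * LL H W θ h (Φ m) t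
        (Polynomial.aeval θ (Polynomial.X * Q + Polynomial.C (k + h t)))) atTop
        (𝓝 (∑ k ∈ Icc (-(H : ℤ)) H, W k * 0)) :=
      tendsto_finsetSum _ fun k _ => (ih _).const_mul _
    simpa using h2

theorem jph_succ (f : ℕ → ℝ → ℝ) (h : ℕ → ℤ) (r n : ℕ) (x : ℝ) :
    jph f h (r + 1) n x = jph f h r n x + h r * f (n + r) x := by
  unfold jph
  rw [sum_range_succ]

theorem BD.shift (hg : Dens H G g) (hf : Fam a b θ₀ B C f f1 f2) {η x θ : ℝ} {s : ℕ} {Ψ : ℕ → ℝ → ℂ}
    {F : ℝ → ℝ} (hb : BD f f1 a b η x θ s Ψ F) (h : ℕ → ℤ) (t : ℕ) :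
    BD f f1 a b η x θ (s + t)
      (fun n y => Ψ n y * ((Rp g f (n + s) (n + s + t) y : ℂ) * e (jph f h t (n + s) y)))
      (LL H (fun k => ‖G k‖) θ h F t) := by
  induction t with
  | zero =>
    have e1 : (fun (n : ℕ) (y : ℝ) => Ψ n y * ((Rp g f (n + s) (n + s + 0) y : ℂ) *
        e (jph f h 0 (n + s) y))) = Ψ := by
      funext n y
      simp [Rp, jph, e_zero]
    rw [e1]
    exact hb
  | succ t ih =>
    have h1 := ih.step hf (Icc (-(H : ℤ)) H) (fun k => k + h t) G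
    have e1 : (fun (n : ℕ) (y : ℝ) => Ψ n y * ((Rp g f (n + s) (n + s + t) y : ℂ) *
        e (jph f h t (n + s) y)) *
        ∑ i ∈ Icc (-(H : ℤ)) H, G i * e ((i + h t : ℤ) * f (n + (s + t)) y)) =
        (fun (n : ℕ) (y : ℝ) => Ψ n y * ((Rp g f (n + s) (n + s + (t + 1)) y : ℂ) *
          e (jph f h (t + 1) (n + s) y))) := by
      funext n y
      have e2 : Rp g f (n + s) (n + s + (t + 1)) y =
          Rp g f (n + s) (n + s + t) y * g (f (n + (s + t)) y) := by
        unfold Rp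
        rw [← add_assoc, prod_Ico_succ_top (by omega), add_assoc n s t]
      have e3 : ∑ i ∈ Icc (-(H : ℤ)) H, G i * e ((i + h t : ℤ) * f (n + (s + t)) y) =
          (g (f (n + (s + t)) y) : ℂ) * e (h t * f (n + s + t) y) := by
        rw [hg.eq, sum_mul]
        refine sum_congr rfl fun i _ => ?_
        push_cast
        rw [add_mul, e_add, add_assoc n s t]
        ring
      rw [e2, e3, jph_succ, e_add]
      push_cast
      ring
    rw [e1] at h1
    exact h1

/-- the averages of the product of finitely many factors, one term of the telescoping sum -/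
theorem coreJ (hg : Dens H G g) (hf : Fam a b θ₀ B C f f1 f2) (hB : B < θ₀ ^ 2) {x : ℝ}
    (hx : x ∈ Set.Icc a b) {θ : ℝ} (hr : Tendsto (fun n : ℕ => f1 (n + 1) x / f1 n x) atTop (𝓝 θ))
    (hH : H + 1 < θ) (hw : 1 + ww H G < θ) (hG : Good H (fun k => ‖G k‖) θ) {η : ℝ}
    (hη : 0 < η) (hη1 : η ≤ 1) (h0 : ℤ) (h : ℕ → ℤ) (t : ℕ) (ε : ℝ) (hε : 0 < ε) :
    ∀ᶠ m : ℕ in atTop, ∀ᶠ n : ℕ in atTop, ∀ p q : ℝ, Cell f1 a b η x n p q →
        ‖∫ y in p..q, (Rp g f (n + 1) (n + (1 + m) + 1 + t) y : ℂ) *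
          ((e (h0 * f (n + (1 + m)) y) - cc H G h0) * e (jph f h t (n + (1 + m + 1)) y))‖ ≤
            (q - p) * ε := by
  have hθ : 0 < θ := by
    have : (0 : ℝ) ≤ H := Nat.cast_nonneg H
    linarith
  have hcap : (0 : ℝ) < 4 / η := by positivity
  have h1 := LL_tendsto (H := H) (W := fun k => ‖G k‖) (θ := θ) (Ph H G θ (4 / η) h0)
    (Ph_tendsto hH hg.zero hw hG hcap h0) h t 0
  filter_upwards [h1.eventually (gt_mem_nhds (show (0 : ℝ) < ε / 2 by linarith))] with m hm
  have b0 : BD f f1 a b η x θ 1 (fun _ _ => 1) (cap (4 / η)) := by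
    refine ⟨fun n => continuous_const, fun Q δ hδ => ?_⟩
    filter_upwards [base hf hB hx hr hθ hη hη1 Q δ hδ] with n hn p q hc
    simp only [one_mul]
    exact hn p q hc
  have b1 := b0.iter hg hf m
  have b2 := b1.step hf (SS H h0) (kk h0) (co G (cc H G h0))
  have b3 := b2.shift hg hf h t
  filter_upwards [b3.bd 0 (ε / 2) (by linarith)] with n hn p q hc
  have hpq : p ≤ q := hc.px.trans hc.xq
  have h2 := hn p q hc
  have e1 : ∀ y, 1 * (Rp g f (n + 1) (n + 1 + m) y : ℂ) *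
      (∑ i ∈ SS H h0, co G (cc H G h0) i * e (kk h0 i * f (n + (1 + m)) y)) *
      ((Rp g f (n + (1 + m + 1)) (n + (1 + m + 1) + t) y : ℂ) *
        e (jph f h t (n + (1 + m + 1)) y)) *
        e (ph f (n + (1 + m + 1 + t)) 0 y) =
      (Rp g f (n + 1) (n + (1 + m) + 1 + t) y : ℂ) *
        ((e (h0 * f (n + (1 + m)) y) - cc H G h0) * e (jph f h t (n + (1 + m + 1)) y)) := by
    intro y
    rw [ph_zero, e_zero, ← mid_eq hg]
    have e2 : Rp g f (n + 1) (n + (1 + m) + 1 + t) y = Rp g f (n + 1) (n + 1 + m) y *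
        (g (f (n + (1 + m)) y) * Rp g f (n + (1 + m + 1)) (n + (1 + m + 1) + t) y) := by
      unfold Rp
      rw [← prod_Ico_consecutive (fun i => g (f i y)) (show n + 1 ≤ n + 1 + m by omega)
        (show n + 1 + m ≤ n + (1 + m) + 1 + t by omega)]
      congr 1
      rw [prod_eq_prod_Ico_succ_bot (by omega)]
      rw [show n + 1 + m = n + (1 + m) by ring, show n + (1 + m) + 1 = n + (1 + m + 1) by ring]
    rw [e2]
    push_cast
    ring
  simp only [e1] at h2
  refine h2.trans (mul_le_mul_of_nonneg_left ?_ (by linarith))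
  have h3 : LL H (fun k => ‖G k‖) θ h (fun y => ∑ i ∈ SS H h0, ‖co G (cc H G h0) i‖ *
      (La H (fun k => ‖G k‖) θ)^[m] (cap (4 / η)) (θ * y + kk h0 i)) t (Polynomial.aeval θ 0) < ε / 2 := hm
  linarith

/-- the telescoping sum -/
theorem tele (c u : ℕ → ℂ) (r : ℕ) : (∏ l ∈ range r, u l) - ∏ l ∈ range r, c l =
    ∑ i ∈ range r, (∏ l ∈ range i, c l) * ((u i - c i) * ∏ l ∈ Ico (i + 1) r, u l) := by
  induction r with
  | zero => simp
  | succ r ih =>
    rw [sum_range_succ, prod_range_succ, prod_range_succ, Ico_self, prod_empty, mul_one]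
    have h1 : ∀ i ∈ range r, (∏ l ∈ range i, c l) * ((u i - c i) * ∏ l ∈ Ico (i + 1) (r + 1), u l) =
        ((∏ l ∈ range i, c l) * ((u i - c i) * ∏ l ∈ Ico (i + 1) r, u l)) * u r := by
      intro i hi
      rw [mem_range] at hi
      rw [prod_Ico_succ_top (by omega)]
      ring
    rw [sum_congr rfl h1, ← sum_mul, ← ih]
    ring

theorem e_sum (S : Finset ℕ) (u : ℕ → ℝ) : e (∑ l ∈ S, u l) = ∏ l ∈ S, e (u l) := by
  classical
  induction S using Finset.induction_on with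
  | empty => simp [e_zero]
  | insert i S hi ih => rw [sum_insert hi, prod_insert hi, e_add, ih]

theorem cc_zero (hg : Dens H G g) : cc H G 0 = 1 := by
  unfold cc
  rw [neg_zero, if_pos (by rw [mem_Icc]; omega), hg.zero]

theorem cc_le1 (hg : Dens H G g) (h : ℤ) : ‖cc H G h‖ ≤ 1 := by
  by_cases hh : h = 0
  · rw [hh, cc_zero hg, norm_one]
  · unfold cc
    split_ifs with h1
    · exact (hg.norm_lt (mem_erase.2 ⟨neg_ne_zero.2 hh, h1⟩)).le
    · simp

theorem prod_cc_le (hg : Dens H G g) (h : ℕ → ℤ) (S : Finset ℕ) : ‖∏ l ∈ S, cc H G (h l)‖ ≤ 1 := by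
  rw [norm_prod]
  exact prod_le_one (fun _ _ => norm_nonneg _) fun l _ => cc_le1 hg _

/-- the joint averages of finitely many factors -/
theorem core_joint (hg : Dens H G g) (hf : Fam a b θ₀ B C f f1 f2) (hB : B < θ₀ ^ 2) {x : ℝ}
    (hx : x ∈ Set.Icc a b) {θ : ℝ} (hr : Tendsto (fun n : ℕ => f1 (n + 1) x / f1 n x) atTop (𝓝 θ))
    (hH : H + 1 < θ) (hw : 1 + ww H G < θ) (hG : Good H (fun k => ‖G k‖) θ) {η : ℝ}
    (hη : 0 < η) (hη1 : η ≤ 1) (h : ℕ → ℤ) (r t : ℕ) (hrt : r ≤ t) (ε : ℝ) (hε : 0 < ε) :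
    ∀ᶠ m : ℕ in atTop, ∀ᶠ n : ℕ in atTop, ∀ p q : ℝ, Cell f1 a b η x n p q →
        ‖∫ y in p..q, (Rp g f (n + 1) (n + (1 + m) + 1 + t) y : ℂ) *
          (e (jph f h r (n + (1 + m)) y) - ∏ l ∈ range r, cc H G (h l))‖ ≤ (q - p) * ε := by
  -- the terms
  have hterm : ∀ i ∈ range r, ∀ᶠ m : ℕ in atTop, ∀ᶠ n : ℕ in atTop, ∀ p q : ℝ,
      Cell f1 a b η x n p q →
      ‖∫ y in p..q, (Rp g f (n + 1) (n + (1 + m) + 1 + t) y : ℂ) *
        ((∏ l ∈ range i, cc H G (h l)) * ((e (h i * f (n + (1 + m) + i) y) - cc H G (h i)) *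
          ∏ l ∈ Ico (i + 1) r, e (h l * f (n + (1 + m) + l) y)))‖ ≤ (q - p) * (ε / (r + 1)) := by
    intro i hi
    rw [mem_range] at hi
    have h1 := coreJ hg hf hB hx hr hH hw hG hη hη1 (h i)
      (fun l => if l + (i + 1) < r then h (l + (i + 1)) else 0) (t - i) (ε / (r + 1)) (by positivity)
    have h2 := (tendsto_add_atTop_nat i).eventually h1
    filter_upwards [h2] with m hm
    filter_upwards [hm] with n hn p q hc
    have h3 := hn p q hc
    have e1 : n + (1 + (m + i)) + 1 + (t - i) = n + (1 + m) + 1 + t := by omega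
    have e2 : n + (1 + (m + i)) = n + (1 + m) + i := by ring
    have e3 : ∀ y, e (jph f (fun l => if l + (i + 1) < r then h (l + (i + 1)) else 0) (t - i)
        (n + (1 + (m + i) + 1)) y) = ∏ l ∈ Ico (i + 1) r, e (h l * f (n + (1 + m) + l) y) := by
      intro y
      rw [← e_sum]
      congr 1
      unfold jph
      have h4 : ∑ l ∈ Ico (i + 1) r, (h l : ℝ) * f (n + (1 + m) + l) y =
          ∑ l ∈ range (r - (i + 1)), (h (l + (i + 1)) : ℝ) * f (n + (1 + m) + (l + (i + 1))) y := by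
        rw [sum_Ico_eq_sum_range]
        exact sum_congr rfl fun l _ => by rw [add_comm (i + 1) l]
      rw [h4]
      have h5 : range (r - (i + 1)) ⊆ range (t - i) := range_subset_range.2 (by omega)
      rw [← sum_subset h5]
      · refine sum_congr rfl fun l hl => ?_
        rw [mem_range] at hl
        have h6 : l + (i + 1) < r := by omega
        simp only [h6, if_true]
        rw [show n + (1 + (m + i) + 1) + l = n + (1 + m) + (l + (i + 1)) by ring]
      · intro l _ hl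
        rw [mem_range] at hl
        have h6 : ¬ l + (i + 1) < r := by omega
        simp only [h6, if_false]
        push_cast
        ring
    rw [e1] at h3
    simp only [e3] at h3
    rw [e2] at h3
    have e4 : (∫ y in p..q, (Rp g f (n + 1) (n + (1 + m) + 1 + t) y : ℂ) *
        ((∏ l ∈ range i, cc H G (h l)) * ((e (h i * f (n + (1 + m) + i) y) - cc H G (h i)) *
          ∏ l ∈ Ico (i + 1) r, e (h l * f (n + (1 + m) + l) y)))) =
        (∏ l ∈ range i, cc H G (h l)) * ∫ y in p..q, (Rp g f (n + 1) (n + (1 + m) + 1 + t) y : ℂ) *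
        ((e (h i * f (n + (1 + m) + i) y) - cc H G (h i)) *
          ∏ l ∈ Ico (i + 1) r, e (h l * f (n + (1 + m) + l) y)) := by
      rw [← intervalIntegral.integral_const_mul]
      refine intervalIntegral.integral_congr fun y _ => ?_
      ring
    rw [e4, norm_mul]
    refine (mul_le_mul (prod_cc_le hg h _) h3 (norm_nonneg _) zero_le_one).trans ?_
    rw [one_mul]
  have hall : ∀ᶠ m : ℕ in atTop, ∀ i ∈ range r, ∀ᶠ n : ℕ in atTop, ∀ p q : ℝ,
      Cell f1 a b η x n p q →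
      ‖∫ y in p..q, (Rp g f (n + 1) (n + (1 + m) + 1 + t) y : ℂ) *
        ((∏ l ∈ range i, cc H G (h l)) * ((e (h i * f (n + (1 + m) + i) y) - cc H G (h i)) *
          ∏ l ∈ Ico (i + 1) r, e (h l * f (n + (1 + m) + l) y)))‖ ≤ (q - p) * (ε / (r + 1)) := by
    rw [eventually_all_finset]
    exact hterm
  filter_upwards [hall] with m hm
  rw [← eventually_all_finset] at hm
  filter_upwards [hm] with n hn p q hc
  have hpq : p ≤ q := hc.px.trans hc.xq
  have e1 : ∀ y, (Rp g f (n + 1) (n + (1 + m) + 1 + t) y : ℂ) *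
      (e (jph f h r (n + (1 + m)) y) - ∏ l ∈ range r, cc H G (h l)) =
      ∑ i ∈ range r, (Rp g f (n + 1) (n + (1 + m) + 1 + t) y : ℂ) *
        ((∏ l ∈ range i, cc H G (h l)) * ((e (h i * f (n + (1 + m) + i) y) - cc H G (h i)) *
          ∏ l ∈ Ico (i + 1) r, e (h l * f (n + (1 + m) + l) y))) := by
    intro y
    rw [← mul_sum]
    congr 1
    rw [← tele (fun l => cc H G (h l)) (fun l => e (h l * f (n + (1 + m) + l) y)) r, ← e_sum]
    rfl
  simp only [e1]
  have hRc : Continuous (fun y => (Rp g f (n + 1) (n + (1 + m) + 1 + t) y : ℂ)) :=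
    Complex.continuous_ofReal.comp (Rp_cont hg hf _ _)
  have hec : ∀ l, Continuous (fun y => e (h l * f (n + (1 + m) + l) y)) := fun l =>
    continuous_e.comp (continuous_const.mul (hf.cf _))
  rw [intervalIntegral.integral_finsetSum]
  · refine (norm_sum_le _ _).trans ((sum_le_sum fun i hi => hn i hi p q hc).trans ?_)
    rw [sum_const, card_range, nsmul_eq_mul]
    have h1 : (r : ℝ) * (ε / (r + 1)) ≤ ε := by
      rw [mul_div_assoc', div_le_iff₀ (by positivity)]
      nlinarith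
    have h2 := mul_le_mul_of_nonneg_left h1 (show 0 ≤ q - p by linarith)
    linarith
  · intro i _
    apply Continuous.intervalIntegrable
    exact hRc.mul (continuous_const.mul (((hec i).sub continuous_const).mul
      (continuous_finsetProd _ fun l _ => hec l)))

end Pool.Agent.Helper59.MF
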