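import Pool.Agent.Helper59.MF.Local
import Pool.Agent.Helper59.MF.LocE

/-!
# MF-D: the local averages for joint frequencies (the proof of Local.lean with `core_joint`, `tailJ`)
-/

set_option autoImplicit false

namespace Pool.Agent.Helper59.MF

open Finset MeasureTheory Filter Topology
open Pool.Agent.Helper59.RE (e norm_e e_add conj_e continuous_e e_zero)

variable {H : ℕ} {G : ℤ → ℂ} {g : ℝ → ℝ} {a b θ₀ B C : ℝ} {f f1 f2 : ℕ → ℝ → ℝ}

theorem local_avgJ (hg : Dens H G g) (hf : Fam a b θ₀ B C f f1 f2) (hH : H + 1 < θ₀) (hw : 1 + ww H G < θ₀)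
    (hB : B < θ₀ ^ 2) (ε : ℝ) (hε : 0 < ε) :
    ∃ η : ℝ, 0 < η ∧ η ≤ 1 ∧ ∀ (h : ℕ → ℤ) (r : ℕ), ∀ x ∈ Set.Ioo a b, ∀ θ : ℝ,
      Tendsto (fun n : ℕ => f1 (n + 1) x / f1 n x) atTop (𝓝 θ) → Good H (fun k => ‖G k‖) θ →
      ∃ m : ℕ, ∀ᶠ n : ℕ in atTop, ∀ p q : ℝ, a ≤ p → p ≤ x → x ≤ q → q ≤ b →
      η / 4 ≤ (q - p) * f1 n p → (q - p) * f1 n q ≤ η → ∀ᶠ N : ℕ in atTop,
        ‖∫ y in p..q, (Rp g f 0 N y : ℂ) * (e (jph f h r (n + m) y) - ∏ l ∈ range r, cc H G (h l))‖ ≤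
          ε * ∫ y in p..q, Rp g f 0 N y := by
  have hθ0 := hf.hθ
  have hw0 : 0 ≤ ww H G := sum_nonneg fun _ _ => norm_nonneg _
  obtain ⟨M, L, hM, hL, hMb, hLip⟩ := hg.bounds
  set K0 : ℝ := θ₀ / (θ₀ - 1) with hK0
  have hK0p : 0 < K0 := div_pos (by linarith) (by linarith)
  -- the choice of η
  obtain ⟨η, hη, hη1, hηE⟩ : ∃ η : ℝ, 0 < η ∧ η ≤ 1 ∧ 2 * (Real.exp (L * (K0 * η)) - 1) ≤ ε / 2 := by
    have h1 : Tendsto (fun η : ℝ => 2 * (Real.exp (L * (K0 * η)) - 1)) (𝓝 0)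
        (𝓝 (2 * (Real.exp (L * (K0 * 0)) - 1))) := by
      apply Continuous.tendsto
      fun_prop
    rw [mul_zero, mul_zero, Real.exp_zero, sub_self, mul_zero] at h1
    have h2 : ∀ᶠ η : ℝ in 𝓝 0, 2 * (Real.exp (L * (K0 * η)) - 1) < ε / 2 :=
      h1.eventually (gt_mem_nhds (by linarith))
    obtain ⟨δ, hδ, hδ2⟩ := Metric.eventually_nhds_iff.1 h2
    refine ⟨min 1 (δ / 2), by positivity, min_le_left _ _, (hδ2 ?_).le⟩
    rw [Real.dist_eq, sub_zero, abs_of_pos (by positivity)]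
    exact lt_of_le_of_lt (min_le_right _ _) (by linarith)
  set E : ℝ := Real.exp (L * (K0 * η)) with hE
  have hE1 : 1 ≤ E := Real.one_le_exp (by positivity)
  obtain ⟨c, hc0, hmass⟩ := mass hg hf hH hw (η / 4) (by linarith) (by linarith)
  refine ⟨η, hη, hη1, fun h r x hx θ hr hG => ?_⟩
  have hxI : x ∈ Set.Icc a b := ⟨hx.1.le, hx.2.le⟩
  have hθ : θ₀ ≤ θ := by
    refine ge_of_tendsto' hr fun n => ?_
    rw [le_div_iff₀ (hf.f1_pos hxI n)]
    exact hf.g1 n x hxI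
  obtain ⟨K1, t', hK1, htail1⟩ := tailJ hg hf hH hw h r
  set t : ℕ := t' + r with htd
  obtain ⟨K2, t2, hK2, htail2⟩ := tail hg hf hH hw 0
  set ε₁ : ℝ := ε * c / (4 * M) with hε₁
  have hε₁0 : 0 < ε₁ := by positivity
  -- the choice of m
  have hq0 : 0 ≤ (1 + ww H G) / θ₀ := div_nonneg (by linarith) (by linarith)
  have hq1 : (1 + ww H G) / θ₀ < 1 := (div_lt_one (by linarith)).2 hw
  have hm1 : ∀ᶠ m : ℕ in atTop,
      (K1 + K2) * (4 / η) * ((1 + ww H G) / θ₀) ^ (1 + m + t) < ε₁ := by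
    have h1 := ((tendsto_pow_atTop_nhds_zero_of_lt_one hq0 hq1).comp
      (tendsto_add_atTop_nat (1 + t))).const_mul ((K1 + K2) * (4 / η))
    rw [mul_zero] at h1
    filter_upwards [h1.eventually (gt_mem_nhds hε₁0)] with m hm
    simp only [Function.comp] at hm
    rwa [show m + (1 + t) = 1 + m + t by ring] at hm
  have hm2 := core_joint hg hf hB hxI hr (by linarith) (by linarith) hG hη hη1 h r t (by omega) ε₁ hε₁0
  obtain ⟨m, hm1, hm2⟩ := (hm1.and hm2).exists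
  refine ⟨1 + m, ?_⟩
  filter_upwards [hm2] with n hn p q hap hpx hxq hqb hlo hhi
  have hcell : Cell f1 a b η x n p q := ⟨hap, hpx, hxq, hqb, hlo, hhi⟩
  have hpq : p ≤ q := hpx.trans hxq
  have hxm : x ∈ Set.Icc p q := ⟨hpx, hxq⟩
  have hpI : p ∈ Set.Icc a b := ⟨hap, hpq.trans hqb⟩
  have hcore := hn p q hcell
  filter_upwards [eventually_ge_atTop (n + (1 + m) + 1 + t)] with N hN
  -- tails
  have ht1 := (htail1 p q hap hpq hqb (n + 1) (n + (1 + m)) (n + (1 + m) + 1 + t) N (by omega) hN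
    (by omega)).trans (tail_cell hg hf hη hcell hK1 m t)
  have ht2 := (htail2 p q hap hpq hqb (n + 1) (n + (1 + m)) (n + (1 + m) + 1 + t) N (by omega) hN
    (fun h => absurd rfl h)).trans (tail_cell hg hf hη hcell hK2 m t)
  have hz : ∀ y : ℝ, e (((0 : ℤ) : ℝ) * y) = 1 := by
    intro y
    push_cast
    rw [zero_mul, e_zero]
  simp only [hz, mul_one] at ht2
  have hcont : ∀ j N, Continuous (Rp g f j N) := Rp_ctn hg.cont hf
  have hcontC : ∀ j N, Continuous (fun y => (Rp g f j N y : ℂ)) := fun j N =>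
    Complex.continuous_ofReal.comp (hcont j N)
  have hφc : Continuous (fun y => e (jph f h r (n + (1 + m)) y)) :=
    continuous_e.comp (jph_cont hf h r _)
  have hsplit : ∀ j N, (∫ y in p..q, (Rp g f j N y : ℂ) * (e (jph f h r (n + (1 + m)) y) - ∏ l ∈ range r, cc H G (h l))) =
      (∫ y in p..q, (Rp g f j N y : ℂ) * e (jph f h r (n + (1 + m)) y)) -
        (∏ l ∈ range r, cc H G (h l)) * ∫ y in p..q, (Rp g f j N y : ℂ) := by
    intro j N
    rw [← intervalIntegral.integral_const_mul, ← intervalIntegral.integral_sub]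
    · refine intervalIntegral.integral_congr fun y _ => ?_
      ring
    · exact ((hcontC j N).mul hφc).intervalIntegrable _ _
    · exact (continuous_const.mul (hcontC j N)).intervalIntegrable _ _
  have hcc := prod_cc_le hg h (range r)
  have hPQ : ‖∫ y in p..q, (Rp g f (n + 1) N y : ℂ) * (e (jph f h r (n + (1 + m)) y) - ∏ l ∈ range r, cc H G (h l))‖ ≤
      (q - p) * (2 * ε₁) := by
    have h1 : (∫ y in p..q, (Rp g f (n + 1) N y : ℂ) * (e (jph f h r (n + (1 + m)) y) - ∏ l ∈ range r, cc H G (h l))) =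
        ((∫ y in p..q, (Rp g f (n + 1) N y : ℂ) * e (jph f h r (n + (1 + m)) y)) -
          ∫ y in p..q, (Rp g f (n + 1) (n + (1 + m) + 1 + t) y : ℂ) * e (jph f h r (n + (1 + m)) y)) -
        (∏ l ∈ range r, cc H G (h l)) * ((∫ y in p..q, (Rp g f (n + 1) N y : ℂ)) -
          ∫ y in p..q, (Rp g f (n + 1) (n + (1 + m) + 1 + t) y : ℂ)) +
        ∫ y in p..q, (Rp g f (n + 1) (n + (1 + m) + 1 + t) y : ℂ) *
          (e (jph f h r (n + (1 + m)) y) - ∏ l ∈ range r, cc H G (h l)) := by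
      rw [hsplit, hsplit]
      ring
    rw [h1]
    refine (norm_add_le _ _).trans ?_
    have h2 := norm_sub_le ((∫ y in p..q, (Rp g f (n + 1) N y : ℂ) * e (jph f h r (n + (1 + m)) y)) -
          ∫ y in p..q, (Rp g f (n + 1) (n + (1 + m) + 1 + t) y : ℂ) * e (jph f h r (n + (1 + m)) y))
      ((∏ l ∈ range r, cc H G (h l)) * ((∫ y in p..q, (Rp g f (n + 1) N y : ℂ)) -
          ∫ y in p..q, (Rp g f (n + 1) (n + (1 + m) + 1 + t) y : ℂ)))
    rw [norm_mul] at h2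
    have h3 : ‖∏ l ∈ range r, cc H G (h l)‖ * ‖(∫ y in p..q, (Rp g f (n + 1) N y : ℂ)) -
          ∫ y in p..q, (Rp g f (n + 1) (n + (1 + m) + 1 + t) y : ℂ)‖ ≤
        1 * ((q - p) * (K2 * (4 / η) * ((1 + ww H G) / θ₀) ^ (1 + m + t))) :=
      mul_le_mul hcc ht2 (norm_nonneg _) zero_le_one
    have h4 : (q - p) * ((K1 + K2) * (4 / η) * ((1 + ww H G) / θ₀) ^ (1 + m + t)) ≤ (q - p) * ε₁ :=
      mul_le_mul_of_nonneg_left hm1.le (by linarith)
    linarith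
  -- freezing
  have hfac : ∀ y, Rp g f 0 N y = Rp g f 0 (n + 1) y * Rp g f (n + 1) N y := by
    intro y
    unfold Rp
    rw [prod_Ico_consecutive _ (by omega) (by omega)]
  have hφ2 : ∀ y, ‖e (jph f h r (n + (1 + m)) y) - ∏ l ∈ range r, cc H G (h l)‖ ≤ 2 := by
    intro y
    refine (norm_sub_le _ _).trans ?_
    rw [norm_e]
    linarith
  have hexp : ∀ y ∈ Set.Icc p q, ∀ z ∈ Set.Icc p q,
      Rp g f 0 (n + 1) y ≤ E * Rp g f 0 (n + 1) z := by
    intro y hy z hz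
    refine (Rp_var hg.pos hLip f (n + 1) y z).trans ?_
    refine mul_le_mul_of_nonneg_right ?_ (Rp_ps hg.pos _ _ _ _).le
    refine Real.exp_le_exp.2 (mul_le_mul_of_nonneg_left ?_ hL)
    exact hf.sum_lip hap hqb hy hz n hhi
  have hφc2 : Continuous (fun y => e (jph f h r (n + (1 + m)) y) - ∏ l ∈ range r, cc H G (h l)) := hφc.sub continuous_const
  have hfr := freeze (φ := fun y => e (jph f h r (n + (1 + m)) y) - ∏ l ∈ range r, cc H G (h l)) hE1 hpq
    (hcont 0 (n + 1)) (hcont (n + 1) N) hφc2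
    (fun y => Rp_ps hg.pos f 0 (n + 1) y) (fun y => (Rp_ps hg.pos f (n + 1) N y).le)
    (Rp_ps hg.pos f 0 (n + 1) x) (fun y hy => hexp y hy x hxm) (fun y hy => hexp x hxm y hy) hφ2
  have hI : ∀ y, (Rp g f 0 N y : ℂ) = ((Rp g f 0 (n + 1) y * Rp g f (n + 1) N y : ℝ) : ℂ) := by
    intro y
    rw [hfac]
  have e1 : (∫ y in p..q, (Rp g f 0 N y : ℂ) * (e (jph f h r (n + (1 + m)) y) - ∏ l ∈ range r, cc H G (h l))) =
      ∫ y in p..q, ((Rp g f 0 (n + 1) y * Rp g f (n + 1) N y : ℝ) : ℂ) *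
        (e (jph f h r (n + (1 + m)) y) - ∏ l ∈ range r, cc H G (h l)) := by
    refine intervalIntegral.integral_congr fun y _ => ?_
    simp only [hI]
  have e2 : (∫ y in p..q, Rp g f 0 N y) = ∫ y in p..q, Rp g f 0 (n + 1) y * Rp g f (n + 1) N y :=
    intervalIntegral.integral_congr fun y _ => hfac y
  rw [e1]
  refine hfr.trans ?_
  rw [← e2]
  -- the mass
  have hms := (hmass p q hap hpq hqb n N (by omega) (hhi.trans hη1) hlo x hxm).1
  have hIpos : 0 ≤ ∫ y in p..q, Rp g f 0 N y :=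
    intervalIntegral.integral_nonneg hpq fun y _ => (Rp_ps hg.pos _ _ _ _).le
  have hS : Rp g f 0 (n + 1) x ≤ M * Rp g f 0 n x := by
    have h1 : Rp g f 0 (n + 1) x = Rp g f 0 n x * g (f n x) := by
      unfold Rp
      rw [prod_Ico_succ_top (by omega)]
    rw [h1, mul_comm]
    exact mul_le_mul_of_nonneg_right (hMb _).2 (Rp_ps hg.pos _ _ _ _).le
  have h1 : Rp g f 0 (n + 1) x * ‖∫ y in p..q, (Rp g f (n + 1) N y : ℂ) *
      (e (jph f h r (n + (1 + m)) y) - ∏ l ∈ range r, cc H G (h l))‖ ≤ (M * Rp g f 0 n x) * ((q - p) * (2 * ε₁)) :=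
    mul_le_mul hS hPQ (norm_nonneg _) (mul_nonneg (by linarith) (Rp_ps hg.pos _ _ _ _).le)
  have h2 : (M * Rp g f 0 n x) * ((q - p) * (2 * ε₁)) = ε / 2 * (c * Rp g f 0 n x * (q - p)) := by
    rw [hε₁]
    field_simp
    ring
  have h3 : ε / 2 * (c * Rp g f 0 n x * (q - p)) ≤ ε / 2 * ∫ y in p..q, Rp g f 0 N y :=
    mul_le_mul_of_nonneg_left hms (by linarith)
  have h4 : 2 * (E - 1) * (∫ y in p..q, Rp g f 0 N y) ≤ ε / 2 * ∫ y in p..q, Rp g f 0 N y :=
    mul_le_mul_of_nonneg_right hηE hIpos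
  linarith

end Pool.Agent.Helper59.MF
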