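import Pool.Agent.Helper59.MF.TreeD

/-!
# MF-A: weights dominated by the hat function

If `W k ≤ 1 - |k|/N`, `N = H+1`, `θ > N`, then `La Lam y ≤ Lam (θ y / N)` for `Lam y = max 0 (1 - |y|)`
(linear interpolation).  So `U m = La^m Lam` is supported on `|y| ≤ N/θ < 1` and decays by a factor `< 1`
at points which are not close to zero; near zero only the digit 0 survives and the point moves away.
-/

set_option autoImplicit false

namespace Pool.Agent.Helper59.MF

open Finset MeasureTheory Filter Topology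

/-- the hat function -/
noncomputable def Lam (y : ℝ) : ℝ := max 0 (1 - |y|)

theorem Lam_nonneg (y : ℝ) : 0 ≤ Lam y := le_max_left _ _

theorem Lam_le_one (y : ℝ) : Lam y ≤ 1 := max_le zero_le_one (by linarith [abs_nonneg y])

theorem Lam_zero {y : ℝ} (h : 1 ≤ |y|) : Lam y = 0 := max_eq_left (by linarith)

theorem Lam_eq {y : ℝ} (h : |y| ≤ 1) : Lam y = 1 - |y| := max_eq_right (by linarith)

theorem Lam_anti {y z : ℝ} (h : |y| ≤ |z|) : Lam z ≤ Lam y := max_le_max_left 0 (by linarith)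

/-- interpolation -/
theorem interp (N : ℕ) (hN : 1 ≤ N) (S : Finset ℤ) (z : ℝ) :
    ∑ k ∈ S, Lam (k / N) * Lam (z + k) ≤ Lam (z / N) := by
  have hNp : (0 : ℝ) < N := by exact_mod_cast hN
  set n : ℤ := ⌊z⌋ with hn
  have hz0 : (n : ℝ) ≤ z := Int.floor_le z
  have hz1 : z < n + 1 := Int.lt_floor_add_one z
  have hnn : ∀ k : ℤ, 0 ≤ Lam ((k : ℝ) / N) * Lam (z + k) := fun k => mul_nonneg (Lam_nonneg _) (Lam_nonneg _)
  -- only two terms
  have h1 : ∑ k ∈ S, Lam ((k : ℝ) / N) * Lam (z + k) ≤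
      ∑ k ∈ ({-n, -n - 1} : Finset ℤ), Lam ((k : ℝ) / N) * Lam (z + k) := by
    have h2 : ∑ k ∈ S, Lam ((k : ℝ) / N) * Lam (z + k) ≤
        ∑ k ∈ S ∪ {-n, -n - 1}, Lam ((k : ℝ) / N) * Lam (z + k) :=
      sum_le_sum_of_subset_of_nonneg subset_union_left fun k _ _ => hnn k
    refine h2.trans (le_of_eq (sum_subset subset_union_right fun k _ hk => ?_).symm)
    rw [mem_insert, mem_singleton, not_or] at hk
    rw [Lam_zero (y := z + k), mul_zero]
    rcases lt_or_gt_of_ne hk.1 with h3 | h3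
    · have h4 : k ≤ -n - 2 := by omega
      have h5 : (k : ℝ) ≤ -n - 2 := by exact_mod_cast h4
      rw [abs_of_neg (by linarith)]
      linarith
    · have h4 : -n + 1 ≤ k := by omega
      have h5 : (-n + 1 : ℝ) ≤ k := by exact_mod_cast h4
      rw [abs_of_nonneg (by linarith)]
      linarith
  refine h1.trans ?_
  rw [sum_insert (by rw [mem_singleton]; omega), sum_singleton]
  push_cast
  have e1 : Lam (z + -(n : ℝ)) = 1 - (z - n) := by
    rw [Lam_eq (by rw [abs_of_nonneg (by linarith)]; linarith), abs_of_nonneg (by linarith)]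
    ring
  have e2 : Lam (z + (-(n : ℝ) - 1)) = z - n := by
    rw [Lam_eq (by rw [abs_of_neg (by linarith)]; linarith), abs_of_neg (by linarith)]
    ring
  rw [e1, e2]
  rcases le_or_gt (N : ℤ) n with h3 | h3
  · -- N ≤ n
    have h4 : (N : ℝ) ≤ n := by exact_mod_cast h3
    have e3 : Lam (-(n : ℝ) / N) = 0 := by
      apply Lam_zero
      rw [abs_div, abs_neg, abs_of_nonneg (by linarith), abs_of_pos hNp, le_div_iff₀ hNp]
      linarith
    have e4 : Lam ((-(n : ℝ) - 1) / N) = 0 := by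
      apply Lam_zero
      rw [abs_div, abs_of_pos hNp, le_div_iff₀ hNp, abs_of_neg (by linarith)]
      linarith
    rw [e3, e4, zero_mul, zero_mul, add_zero]
    exact Lam_nonneg _
  · rcases le_or_gt 0 n with h5 | h5
    · -- 0 ≤ n < N
      have h4 : (n : ℝ) + 1 ≤ N := by exact_mod_cast h3
      have h6 : (0 : ℝ) ≤ n := by exact_mod_cast h5
      have e3 : Lam (-(n : ℝ) / N) = 1 - n / N := by
        have : |-(n : ℝ) / N| = n / N := by
          rw [abs_div, abs_neg, abs_of_nonneg h6, abs_of_pos hNp]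
        rw [Lam_eq (by rw [this, div_le_one hNp]; linarith), this]
      have e4 : Lam ((-(n : ℝ) - 1) / N) = 1 - (n + 1) / N := by
        have : |(-(n : ℝ) - 1) / N| = (n + 1) / N := by
          rw [abs_div, abs_of_pos hNp, abs_of_neg (by linarith)]
          ring
        rw [Lam_eq (by rw [this, div_le_one hNp]; linarith), this]
      have e5 : Lam (z / N) = 1 - z / N := by
        have : |z / N| = z / N := abs_of_nonneg (div_nonneg (by linarith) hNp.le)
        rw [Lam_eq (by rw [this, div_le_one hNp]; linarith), this]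
      rw [e3, e4, e5]
      apply le_of_eq
      field_simp
      ring
    · rcases le_or_gt (-(N : ℤ)) n with h7 | h7
      · -- -N ≤ n < 0
        have h4 : -(N : ℝ) ≤ n := by exact_mod_cast h7
        have h6 : (n : ℝ) + 1 ≤ 0 := by exact_mod_cast h5
        have e3 : Lam (-(n : ℝ) / N) = 1 + n / N := by
          have : |-(n : ℝ) / N| = -n / N := by
            rw [abs_div, abs_of_pos hNp, abs_of_nonneg (by linarith)]
          rw [Lam_eq (by rw [this, div_le_one hNp]; linarith), this]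
          ring
        have e4 : Lam ((-(n : ℝ) - 1) / N) = 1 + (n + 1) / N := by
          have : |(-(n : ℝ) - 1) / N| = -(n + 1) / N := by
            rw [abs_div, abs_of_pos hNp, abs_of_nonneg (by linarith)]
            ring
          rw [Lam_eq (by rw [this, div_le_one hNp]; linarith), this]
          ring
        have e5 : Lam (z / N) = 1 + z / N := by
          have : |z / N| = -z / N := by
            rw [abs_div, abs_of_pos hNp, abs_of_nonpos (by linarith)]
          rw [Lam_eq (by rw [this, div_le_one hNp]; linarith), this]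
          ring
        rw [e3, e4, e5]
        apply le_of_eq
        field_simp
        ring
      · -- n < -N
        have h4 : (n : ℝ) + 1 ≤ -N := by exact_mod_cast h7
        have e3 : Lam (-(n : ℝ) / N) = 0 := by
          apply Lam_zero
          rw [abs_div, abs_of_pos hNp, le_div_iff₀ hNp, abs_of_nonneg (by linarith)]
          linarith
        have e4 : Lam ((-(n : ℝ) - 1) / N) = 0 := by
          apply Lam_zero
          rw [abs_div, abs_of_pos hNp, le_div_iff₀ hNp, abs_of_nonneg (by linarith)]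
          linarith
        rw [e3, e4, zero_mul, zero_mul, add_zero]
        exact Lam_nonneg _

variable {H : ℕ} {W : ℤ → ℝ} {θ : ℝ}

/-- parameters -/
structure Ph0 (H : ℕ) (W : ℤ → ℝ) (θ : ℝ) : Prop where
  hθ : H + 1 < θ
  hn : ∀ k, 0 ≤ W k
  h0 : W 0 = 1
  h1 : ∀ k ∈ (Icc (-(H : ℤ)) H).erase 0, W k ≤ 1 - |(k : ℝ)| / (H + 1)

theorem Ph0.le (hP : Ph0 H W θ) {k : ℤ} (hk : k ∈ Icc (-(H : ℤ)) H) :
    W k ≤ Lam ((k : ℝ) / ((H + 1 : ℕ) : ℝ)) := by
  have hNp : (0 : ℝ) < ((H + 1 : ℕ) : ℝ) := by positivity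
  by_cases h : k = 0
  · rw [h, hP.h0]
    simp [Lam]
  · refine (hP.h1 k (mem_erase.2 ⟨h, hk⟩)).trans ?_
    unfold Lam
    refine le_trans (le_of_eq ?_) (le_max_right _ _)
    rw [abs_div, abs_of_pos hNp]
    push_cast
    rfl

/-- the basic inequality -/
theorem La_Lam (hP : Ph0 H W θ) (y : ℝ) : La H W θ Lam y ≤ Lam (θ * y / (H + 1)) := by
  unfold La
  have h1 : ∑ k ∈ Icc (-(H : ℤ)) H, W k * Lam (θ * y + k) ≤
      ∑ k ∈ Icc (-(H : ℤ)) H, Lam ((k : ℝ) / ((H + 1 : ℕ) : ℝ)) * Lam (θ * y + k) :=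
    sum_le_sum fun k hk => mul_le_mul_of_nonneg_right (hP.le hk) (Lam_nonneg _)
  have h2 := interp (H + 1) (by omega) (Icc (-(H : ℤ)) H) (θ * y)
  refine h1.trans (h2.trans (le_of_eq ?_))
  push_cast
  ring_nf

/-- the iterates -/
noncomputable def UL (H : ℕ) (W : ℤ → ℝ) (θ : ℝ) (m : ℕ) (y : ℝ) : ℝ := (La H W θ)^[m] Lam y

theorem UL_succ (m : ℕ) (y : ℝ) : UL H W θ (m + 1) y = La H W θ (UL H W θ m) y := by
  unfold UL
  rw [Function.iterate_succ_apply']

theorem UL_nonneg (hP : Ph0 H W θ) (m : ℕ) (y : ℝ) : 0 ≤ UL H W θ m y :=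
  La_it_nonneg hP.hn Lam_nonneg m y

theorem abs_scale (hP : Ph0 H W θ) (y : ℝ) : |θ * y / (H + 1)| = θ / (H + 1) * |y| := by
  have h1 := hP.hθ
  have h2 : (0 : ℝ) ≤ H := Nat.cast_nonneg H
  rw [abs_div, abs_mul, abs_of_pos (by linarith), abs_of_pos (by linarith : (0 : ℝ) < H + 1)]
  ring

theorem scale_gt (hP : Ph0 H W θ) : 1 < θ / (H + 1) := by
  have h1 := hP.hθ
  have h2 : (0 : ℝ) ≤ H := Nat.cast_nonneg H
  rw [lt_div_iff₀ (by linarith)]
  linarith

theorem Lam_scale_le (hP : Ph0 H W θ) (y : ℝ) : Lam (θ * y / (H + 1)) ≤ Lam y := by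
  apply Lam_anti
  rw [abs_scale hP]
  have h1 := scale_gt hP
  have h2 := abs_nonneg y
  nlinarith

theorem UL_le (hP : Ph0 H W θ) (m : ℕ) (y : ℝ) : UL H W θ m y ≤ Lam y := by
  induction m generalizing y with
  | zero => exact le_refl _
  | succ m ih =>
    rw [UL_succ]
    exact (La_mono hP.hn ih y).trans ((La_Lam hP y).trans (Lam_scale_le hP y))

theorem UL_le' (hP : Ph0 H W θ) (m : ℕ) (hm : 1 ≤ m) (y : ℝ) :
    UL H W θ m y ≤ Lam (θ * y / (H + 1)) := by
  obtain ⟨m, rfl⟩ : ∃ m', m = m' + 1 := ⟨m - 1, by omega⟩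
  rw [UL_succ]
  exact (La_mono hP.hn (UL_le hP m) y).trans (La_Lam hP y)

theorem UL_zero (hP : Ph0 H W θ) (m : ℕ) (hm : 1 ≤ m) (y : ℝ) (hy : 1 ≤ θ / (H + 1) * |y|) :
    UL H W θ m y = 0 := by
  apply le_antisymm _ (UL_nonneg hP m y)
  refine (UL_le' hP m hm y).trans (le_of_eq (Lam_zero ?_))
  rw [abs_scale hP]
  exact hy

/-- near zero only the digit zero survives -/
theorem UL_near (hP : Ph0 H W θ) (m : ℕ) (hm : 1 ≤ m) (y : ℝ)
    (hy : θ * |y| ≤ 1 - (H + 1) / θ) : UL H W θ (m + 1) y = UL H W θ m (θ * y) := by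
  have hθ := hP.hθ
  have hH : (0 : ℝ) ≤ H := Nat.cast_nonneg H
  rw [UL_succ]
  unfold La
  rw [sum_eq_single (0 : ℤ)]
  · rw [hP.h0, one_mul]
    push_cast
    rw [add_zero]
  · intro k _ hk
    rw [UL_zero hP m hm, mul_zero]
    have h1 : (1 : ℝ) ≤ |(k : ℝ)| := by
      have : 1 ≤ |k| := Int.one_le_abs hk
      exact_mod_cast this
    have h2 : |(k : ℝ)| - θ * |y| ≤ |θ * y + k| := by
      have h3 := abs_sub_abs_le_abs_sub (k : ℝ) (-(θ * y))
      rw [sub_neg_eq_add, abs_neg, abs_mul, abs_of_pos (by linarith : 0 < θ), add_comm (k : ℝ)] at h3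
      exact h3
    have h4 : (H + 1) / θ ≤ |θ * y + k| := by linarith
    have h5 : 0 < θ / (H + 1) := div_pos (by linarith) (by linarith)
    have h6 := mul_le_mul_of_nonneg_left h4 h5.le
    have h7 : θ / (H + 1) * ((H + 1) / θ) = 1 := by
      have : θ ≠ 0 := by linarith
      have : (H + 1 : ℝ) ≠ 0 := by linarith
      field_simp
    linarith
  · intro h
    exact absurd (by rw [mem_Icc]; omega) h

theorem dec_hat (hP : Ph0 H W θ) (ht : Transcendental ℤ θ) {q y₁ : ℝ} (hq0 : 0 ≤ q)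
    (_hy₁ : 0 < y₁) (hy₁' : θ * y₁ ≤ 1 - (H + 1) / θ)
    (hq : ∀ y : ℝ, y₁ ≤ |y| → Lam (θ * y / (H + 1)) ≤ q * Lam y) (l : ℕ) :
    ∀ p : Polynomial ℤ, p ≠ 0 → ∃ M : ℕ, ∀ m, M ≤ m →
      UL H W θ m (Polynomial.aeval θ p) ≤ q ^ l * Lam (Polynomial.aeval θ p) := by
  have hθ := hP.hθ
  have hH : (0 : ℝ) ≤ H := Nat.cast_nonneg H
  have hθ0 : 0 < θ := by linarith
  induction l with
  | zero =>
    intro p _
    exact ⟨0, fun m _ => by rw [pow_zero, one_mul]; exact UL_le hP m _⟩
  | succ l ih =>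
    -- far from zero
    have hfar : ∀ p : Polynomial ℤ, p ≠ 0 → y₁ ≤ |Polynomial.aeval θ p| → ∃ M : ℕ, ∀ m, M ≤ m →
        UL H W θ m (Polynomial.aeval θ p) ≤ q ^ (l + 1) * Lam (Polynomial.aeval θ p) := by
      intro p hp hy
      have h1 : ∀ k : ℤ, ∃ M : ℕ, ∀ m, M ≤ m →
          UL H W θ m (θ * Polynomial.aeval θ p + k) ≤ q ^ l * Lam (θ * Polynomial.aeval θ p + k) := by
        intro k
        obtain ⟨M, hM⟩ := ih (Polynomial.X * p + Polynomial.C k) (step_ne (Or.inl hp))
        rw [aeval_step] at hM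
        exact ⟨M, hM⟩
      choose M hM using h1
      refine ⟨(Icc (-(H : ℤ)) H).sup M + 1, fun m hm => ?_⟩
      obtain ⟨m, rfl⟩ : ∃ m', m = m' + 1 := ⟨m - 1, by omega⟩
      rw [UL_succ]
      have h2 : La H W θ (UL H W θ m) (Polynomial.aeval θ p) ≤
          q ^ l * La H W θ Lam (Polynomial.aeval θ p) := by
        unfold La
        rw [mul_sum]
        refine sum_le_sum fun k hk => ?_
        have h3 := hM k m (by
          have : M k ≤ (Icc (-(H : ℤ)) H).sup M := le_sup (f := M) hk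
          omega)
        have h4 := mul_le_mul_of_nonneg_left h3 (hP.hn k)
        linarith
      have h5 : La H W θ Lam (Polynomial.aeval θ p) ≤ q * Lam (Polynomial.aeval θ p) :=
        (La_Lam hP _).trans (hq _ hy)
      have h6 := mul_le_mul_of_nonneg_left h5 (pow_nonneg hq0 l)
      rw [pow_succ]
      linarith
    -- general
    have key : ∀ n : ℕ, ∀ p : Polynomial ℤ, p ≠ 0 → y₁ ≤ θ ^ n * |Polynomial.aeval θ p| →
        ∃ M : ℕ, ∀ m, M ≤ m →
          UL H W θ m (Polynomial.aeval θ p) ≤ q ^ (l + 1) * Lam (Polynomial.aeval θ p) := by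
      intro n
      induction n with
      | zero => intro p hp h; rw [pow_zero, one_mul] at h; exact hfar p hp h
      | succ n ihn =>
        intro p hp h
        by_cases hy : y₁ ≤ |Polynomial.aeval θ p|
        · exact hfar p hp hy
        · push Not at hy
          have hc : Polynomial.aeval θ (Polynomial.X * p + Polynomial.C 0) =
              θ * Polynomial.aeval θ p := by
            rw [aeval_step]; push_cast; ring
          have ha : |θ * Polynomial.aeval θ p| = θ * |Polynomial.aeval θ p| := by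
            rw [abs_mul, abs_of_pos hθ0]
          obtain ⟨M, hM⟩ := ihn (Polynomial.X * p + Polynomial.C 0) (step_ne (Or.inl hp)) (by
            rw [hc, ha]; rw [pow_succ] at h; linarith)
          rw [hc] at hM
          refine ⟨M + 2, fun m hm => ?_⟩
          obtain ⟨m, rfl⟩ : ∃ m', m = m' + 1 := ⟨m - 1, by omega⟩
          have h1 : θ * |Polynomial.aeval θ p| ≤ θ * y₁ := mul_le_mul_of_nonneg_left hy.le hθ0.le
          rw [UL_near hP m (by omega) _ (h1.trans hy₁')]
          refine (hM m (by omega)).trans (mul_le_mul_of_nonneg_left (Lam_anti ?_) (pow_nonneg hq0 _))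
          rw [ha]
          have := abs_nonneg (Polynomial.aeval θ p)
          nlinarith
    intro p hp
    have h0 : 0 < |Polynomial.aeval θ p| := abs_pos.2 (aeval_ne ht hp)
    obtain ⟨n, hn⟩ := pow_unbounded_of_one_lt (y₁ / |Polynomial.aeval θ p|)
      (by linarith : (1 : ℝ) < θ)
    exact key n p hp ((div_lt_iff₀ h0).1 hn).le

/-- weights dominated by the hat function -/
theorem good_hat (hθ : H + 1 < θ) (ht : Transcendental ℤ θ)
    (hn : ∀ k, 0 ≤ W k) (h0 : W 0 = 1)
    (h1 : ∀ k ∈ (Icc (-(H : ℤ)) H).erase 0, W k ≤ 1 - |(k : ℝ)| / (H + 1)) :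
    Good H W θ := by
  have hP : Ph0 H W θ := ⟨hθ, hn, h0, h1⟩
  have hH : (0 : ℝ) ≤ H := Nat.cast_nonneg H
  have hθ0 : 0 < θ := by linarith
  have hκ := scale_gt hP
  set κ : ℝ := θ / (H + 1) with hκd
  have hd : 0 < 1 - (H + 1) / θ := by
    have : (H + 1) / θ < 1 := (div_lt_one hθ0).2 hθ
    linarith
  set y₁ : ℝ := (1 - (H + 1) / θ) / θ with hy₁
  have hy₁0 : 0 < y₁ := div_pos hd hθ0
  have hy₁' : θ * y₁ ≤ 1 - (H + 1) / θ := by
    rw [hy₁, mul_div_cancel₀ _ hθ0.ne']
  have hy₁1 : y₁ < 1 := by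
    rw [hy₁, div_lt_one hθ0]
    have : 0 < (H + 1) / θ := div_pos (by linarith) hθ0
    linarith
  -- the contraction factor
  set q : ℝ := max 0 (1 - (κ - 1) * y₁) with hq
  have hq0 : 0 ≤ q := le_max_left _ _
  have hq1 : q < 1 := by
    rw [hq]
    refine max_lt one_pos ?_
    have : 0 < (κ - 1) * y₁ := mul_pos (by linarith) hy₁0
    linarith
  have hqq : ∀ y : ℝ, y₁ ≤ |y| → Lam (θ * y / (H + 1)) ≤ q * Lam y := by
    intro y hy
    unfold Lam
    rw [abs_scale hP, ← hκd]
    refine max_le (mul_nonneg hq0 (le_max_left _ _)) ?_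
    rcases le_or_gt (1 - κ * |y|) 0 with h2 | h2
    · exact h2.trans (mul_nonneg hq0 (le_max_left _ _))
    · have h3 : 0 < 1 - |y| := by
        have := abs_nonneg y
        nlinarith
      rw [max_eq_right h3.le]
      have h4 : (1 - (κ - 1) * y₁) * (1 - |y|) ≤ q * (1 - |y|) :=
        mul_le_mul_of_nonneg_right (le_max_right _ _) h3.le
      refine le_trans ?_ h4
      -- 1 - κ u ≤ (1 - (κ-1) y₁)(1 - u), u ≥ y₁
      have h5 : 0 ≤ (κ - 1) * (|y| - y₁) := mul_nonneg (by linarith) (by linarith)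
      have h6 : 0 ≤ (κ - 1) * y₁ * |y| := mul_nonneg (mul_nonneg (by linarith) hy₁0.le) (abs_nonneg y)
      nlinarith
  -- r
  have hR : (H : ℝ) / (θ - 1) < 1 := by
    rw [div_lt_one (by linarith)]
    linarith
  set r : ℝ := ((H : ℝ) / (θ - 1) + 1) / 2 with hr
  have hr1 : r < 1 := by rw [hr]; linarith
  refine ⟨r, by rw [hr]; linarith, fun p hp hy => ?_⟩
  -- sv ≤ UL / (1 - r)
  have hsv : ∀ m : ℕ, ∀ y : ℝ, |y| ≤ r → sv H W θ r m y ≤ (1 / (1 - r)) * UL H W θ m y := by
    intro m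
    induction m with
    | zero =>
      intro y hy
      simp only [sv]
      have h2 : UL H W θ 0 y = 1 - |y| := Lam_eq (by linarith)
      rw [h2, one_div, ← div_eq_inv_mul, le_div_iff₀ (by linarith)]
      linarith
    | succ m ih =>
      intro y _
      simp only [sv]
      rw [UL_succ, ← La_smul]
      refine La_mono hn (fun z => ?_) y
      split_ifs with h2
      · exact ih z h2
      · exact mul_nonneg (by rw [one_div]; exact inv_nonneg.2 (by linarith)) (UL_nonneg hP m z)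
  rw [Metric.tendsto_atTop]
  intro ε hε
  obtain ⟨l, hl⟩ := exists_pow_lt_of_lt_one (show (0 : ℝ) < (1 - r) * ε by
    apply mul_pos _ hε; linarith) hq1
  obtain ⟨M, hM⟩ := dec_hat hP ht hq0 hy₁0 hy₁' hqq l p hp
  refine ⟨M, fun m hm => ?_⟩
  rw [Real.dist_eq, sub_zero, abs_of_nonneg (sv_nonneg hn _ _)]
  have h2 := hsv m _ hy
  have h3 := hM m hm
  have h4 : q ^ l * Lam (Polynomial.aeval θ p) ≤ q ^ l * 1 :=
    mul_le_mul_of_nonneg_left (Lam_le_one _) (pow_nonneg hq0 l)
  have h5 : UL H W θ m (Polynomial.aeval θ p) < (1 - r) * ε := by linarith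
  have h6 : 0 < 1 / (1 - r) := by
    apply div_pos one_pos; linarith
  have h7 := mul_lt_mul_of_pos_left h5 h6
  have h8 : 1 / (1 - r) * ((1 - r) * ε) = ε := by
    have : 1 - r ≠ 0 := by linarith
    field_simp
  linarith

end Pool.Agent.Helper59.MF
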