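import Pool.Agent.Helper59.MF.FinA
import Pool.Agent.Helper59.MF.LocalJ
import Pool.Agent.Helper59.MF.LlnJ
import Pool.Agent.Helper59.MF.TreeE

/-!
# MF-G: the lower bound for joint laws
-/

set_option autoImplicit false

namespace Pool.Agent.Helper59.MF

open Finset MeasureTheory Filter Topology
open Pool.Agent.Helper59.RE (e norm_e e_add conj_e continuous_e e_zero)

variable {H : ℕ} {G : ℤ → ℂ} {g : ℝ → ℝ} {a b θ₀ B C : ℝ} {f f1 f2 : ℕ → ℝ → ℝ}

/-- the sequence `u` modulo one behaves like independent random variables with the law `g(t) dt`: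
the joint law of `(u n, ..., u (n + r - 1))` is the product law for every `r`, in the form of Weyl sums -/
def HasJoint (u : ℕ → ℝ) (g : ℝ → ℝ) : Prop :=
  ∀ (h : ℕ → ℤ) (r : ℕ),
    Tendsto (fun N : ℕ => (∑ n ∈ range N, e (∑ l ∈ range r, (h l : ℝ) * u (n + l))) / (N : ℂ)) atTop
      (𝓝 (∏ l ∈ range r, ∫ t in (0 : ℝ)..1, e (h l * t) * g t))

theorem HasJoint.law (hg : Dens H G g) {u : ℕ → ℝ} (hu : HasJoint u g) : HasLaw u g := by
  refine law_of_weyl hg u fun h _ => ?_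
  have h1 := hu (fun _ => h) 1
  simp only [range_one, sum_singleton, prod_singleton, add_zero] at h1
  rw [hg.coeff] at h1
  exact h1

theorem lowerJ (hg : Dens H G g) (hf : Fam a b θ₀ B C f f1 f2) (hH : H + 1 < θ₀) (hw : 1 + ww H G < θ₀)
    (hB : B < θ₀ ^ 2) (Z : Set ℝ) (hZ : Z.Countable)
    (hgood : ∀ x ∈ Set.Ioo a b, x ∉ Z → ∃ θ : ℝ,
      Tendsto (fun n : ℕ => f1 (n + 1) x / f1 n x) atTop (𝓝 θ) ∧ Good H (fun k => ‖G k‖) θ) :
    ENNReal.ofReal (1 - DD g / Real.log θ₀) ≤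
      dimH {x | x ∈ Set.Ioo a b ∧ HasJoint (fun n => f n x) g} := by
  obtain ⟨μ, hμ⟩ := exists_mu hg hf hH hw
  have _i1 := hμ.prob
  have _i3 : NullSingletonClass μ := ⟨fun x => hμ.noAtoms hg hf hH hw x⟩
  have hk : ∀ k : ℕ, (0 : ℝ) < 1 / (k + 1) := fun k => by positivity
  choose η hη using fun k : ℕ => local_avgJ hg hf hH hw hB (1 / (k + 1)) (hk k)
  have hsupp : μ (Set.Icc a b)ᶜ = 0 :=
    measure_mono_null (Set.compl_subset_compl.2 Set.Ico_subset_Icc_self) hμ.supp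
  have hIoo : ∀ᵐ x ∂μ, x ∈ Set.Ioo a b := by
    have h1 : ∀ᵐ x ∂μ, x ∈ Set.Ico a b := hμ.supp
    have h2 : ∀ᵐ x ∂μ, x ≠ a := by
      rw [ae_iff]
      have : {x : ℝ | ¬ x ≠ a} = {a} := by
        ext x
        simp
      rw [this]
      exact hμ.noAtoms hg hf hH hw a
    filter_upwards [h1, h2] with x h1 h2
    exact ⟨lt_of_le_of_ne h1.1 (Ne.symm h2), h1.2⟩
  have hZ' : ∀ᵐ x ∂μ, x ∉ Z := by
    rw [ae_iff]
    have : {x : ℝ | ¬ x ∉ Z} = Z := by
      ext x
      simp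
    rw [this]
    exact hZ.measure_zero μ
  -- finitely supported frequencies form a countable set: lists
  have hlln : ∀ᵐ x ∂μ, ∀ k : ℕ, ∀ m : ℕ, ∀ L : List ℤ, x ∈ Set.Ioo a b → ∀ ε : ℝ, 0 < ε →
      (∀ᶠ n : ℕ in atTop, ∀ p q : ℝ, a ≤ p → p ≤ x → x < q → q ≤ b →
        η k / 4 ≤ (q - p) * f1 n p → (q - p) * f1 n q ≤ η k →
          ‖∫ y in Set.Ico p q, (e (jph f (fun l => L.getD l 0) L.length (n + m) y) -
            ∏ l ∈ range L.length, cc H G (L.getD l 0)) ∂μ‖ ≤ ε * μ.real (Set.Ico p q)) →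
      ∀ᶠ N : ℕ in atTop, ‖∑ n ∈ range N, (e (jph f (fun l => L.getD l 0) L.length n x) -
        ∏ l ∈ range L.length, cc H G (L.getD l 0))‖ ≤ 2 * ε * N := by
    rw [ae_all_iff]
    intro k
    rw [ae_all_iff]
    intro m
    rw [ae_all_iff]
    intro L
    exact llnJ hf hB μ hsupp (η k) (hη k).1 (hη k).2.1 m (fun l => L.getD l 0) L.length _
  have hmem : ∀ᵐ x ∂μ, x ∈ {x | x ∈ Set.Ioo a b ∧ HasJoint (fun n => f n x) g} := by
    filter_upwards [hIoo, hZ', hlln] with x hx hxZ hl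
    refine ⟨hx, fun h r => ?_⟩
    obtain ⟨θ, hr, hG⟩ := hgood x hx hxZ
    set L : List ℤ := (List.range r).map h with hL
    have hlen : L.length = r := by rw [hL]; simp
    have hget : ∀ l ∈ range r, L.getD l 0 = h l := by
      intro l hl
      rw [mem_range] at hl
      rw [hL]
      simp [List.getD, hl]
    have hphase : ∀ (n : ℕ) (y : ℝ), jph f (fun l => L.getD l 0) L.length n y = jph f h r n y := by
      intro n y
      unfold jph
      rw [hlen]
      exact sum_congr rfl fun l hl => by simp only [hget l hl]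
    have hprod : ∏ l ∈ range L.length, cc H G (L.getD l 0) = ∏ l ∈ range r, cc H G (h l) := by
      rw [hlen]
      exact prod_congr rfl fun l hl => by rw [hget l hl]
    have key : ∀ k : ℕ, ∀ᶠ N : ℕ in atTop,
        ‖∑ n ∈ range N, (e (jph f h r n x) - ∏ l ∈ range r, cc H G (h l))‖ ≤ 2 * (1 / (k + 1)) * N := by
      intro k
      obtain ⟨m, hm⟩ := (hη k).2.2 h r x hx θ hr hG
      have h1 := hl k m L hx _ (hk k)
      simp only [hphase, hprod] at h1
      refine h1 ?_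
      filter_upwards [hm] with n hn p q hap hpx hxq hqb hlo hhi
      refine hμ.avg hap (hpx.trans hxq.le) hqb (fun N y => (Rp_pos hg f 0 N y).le) _ ?_
        (hn p q hap hpx hxq.le hqb hlo hhi)
      exact (continuous_e.comp (jph_cont hf h r _)).sub continuous_const
    have hc : ∏ l ∈ range r, ∫ t in (0 : ℝ)..1, e (h l * t) * g t = ∏ l ∈ range r, cc H G (h l) :=
      prod_congr rfl fun l _ => hg.coeff (h l)
    rw [hc, Metric.tendsto_atTop]
    intro ε hε
    obtain ⟨k, hk2⟩ := exists_nat_one_div_lt (show (0 : ℝ) < ε / 2 by linarith)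
    obtain ⟨N0, hN0⟩ := eventually_atTop.1 (key k)
    refine ⟨max N0 1, fun N hN => ?_⟩
    have hN1 : 1 ≤ N := (le_max_right _ _).trans hN
    have hNp : (0 : ℝ) < N := by exact_mod_cast hN1
    have h1 := hN0 N ((le_max_left _ _).trans hN)
    have e1 : (∑ n ∈ range N, e (∑ l ∈ range r, (h l : ℝ) * f (n + l) x)) / (N : ℂ) -
        ∏ l ∈ range r, cc H G (h l) =
        (∑ n ∈ range N, (e (jph f h r n x) - ∏ l ∈ range r, cc H G (h l))) / (N : ℂ) := by
      rw [sum_sub_distrib, sum_const, card_range, nsmul_eq_mul]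
      have : (N : ℂ) ≠ 0 := by exact_mod_cast hNp.ne'
      field_simp
      rfl
    rw [dist_eq_norm, e1, norm_div, Complex.norm_natCast, div_lt_iff₀ hNp]
    nlinarith
  exact dim_lower hg hf hH hw hB hμ _ hmem (DD g) (DD_nonneg hg) fun x hx =>
    log_of_law hg _ (hx.2.law hg)

end Pool.Agent.Helper59.MF
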