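import Pool.Agent.Helper59.MF.Osc
import Pool.Agent.Helper82.FK.Lim

/-!
# MF-B5: the limit measure

`Z N = ∫_a^b Rp 0 N`; `ν N = Rp 0 N dx / Z N`; `exists_lim` (Helper82/FK/Lim.lean).  Short intervals have small
`ν N` mass uniformly in `N` (`mass`, `Rp 0 j ≤ (1+w)^j`, `1 + w < θ₀`), so the limit has no atoms and
trapezoidal cut-offs give the convergence on intervals.
-/

set_option autoImplicit false

namespace Pool.Agent.Helper59.MF

open Finset MeasureTheory Filter Topology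
open Pool.Agent.Helper59.RE (e norm_e e_add conj_e continuous_e e_zero)
open Pool.Agent.Helper82.FK (exists_lim lim_integral lim_open dn dn_apply dn_support dn_prob integral_dn)

variable {H : ℕ} {G : ℤ → ℂ} {g : ℝ → ℝ} {a b θ₀ B C : ℝ} {f f1 f2 : ℕ → ℝ → ℝ}

private lemma f1_ge32 (hf : Fam a b θ₀ B C f f1 f2) (n : ℕ) {x : ℝ} (hx : x ∈ Set.Icc a b) :
    θ₀ ^ n ≤ f1 n x := by
  have hθ : 0 ≤ θ₀ := by linarith [hf.hθ]
  induction n with
  | zero => simpa using hf.p0 x hx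
  | succ n ih =>
    calc θ₀ ^ (n + 1) = θ₀ * θ₀ ^ n := by ring
      _ ≤ θ₀ * f1 n x := mul_le_mul_of_nonneg_left ih hθ
      _ ≤ _ := hf.g1 n x hx

private lemma rp_cont32 (hg : Dens H G g) (hf : Fam a b θ₀ B C f f1 f2) (j N : ℕ) :
    Continuous (Rp g f j N) := by
  unfold Rp
  exact continuous_finsetProd _ fun n _ => hg.cont.comp (hf.cf n)

private lemma rp_pos32 (hg : Dens H G g) (f : ℕ → ℝ → ℝ) (j N : ℕ) (x : ℝ) : 0 < Rp g f j N x :=
  Finset.prod_pos fun _n _ => hg.pos _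

private lemma ww_nn32 : 0 ≤ ww H G := Finset.sum_nonneg fun k _ => norm_nonneg _

private lemma rp_le32 (hg : Dens H G g) (f : ℕ → ℝ → ℝ) (N : ℕ) (x : ℝ) :
    Rp g f 0 N x ≤ (1 + ww H G) ^ N := by
  unfold Rp
  calc ∏ n ∈ Ico 0 N, g (f n x) ≤ ∏ _n ∈ Ico 0 N, (1 + ww H G) :=
        Finset.prod_le_prod (fun n _ => (hg.pos _).le) (fun n _ => hg.le_ww _)
    _ = _ := by simp

private lemma int_le32 (hg : Dens H G g) (hf : Fam a b θ₀ B C f f1 f2) (N : ℕ) {u v : ℝ} (huv : u ≤ v) :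
    ∫ y in u..v, Rp g f 0 N y ≤ (1 + ww H G) ^ N * (v - u) := by
  calc ∫ y in u..v, Rp g f 0 N y ≤ ∫ _y in u..v, (1 + ww H G) ^ N :=
        intervalIntegral.integral_mono_on huv ((rp_cont32 hg hf 0 N).intervalIntegrable _ _)
          (continuous_const.intervalIntegrable _ _) fun x _ => rp_le32 hg f N x
    _ = _ := by
        rw [intervalIntegral.integral_const, smul_eq_mul, mul_comm]

private lemma tail32 (hg : Dens H G g) (hf : Fam a b θ₀ B C f f1 f2) (hH : H + 1 < θ₀)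
    (hw : 1 + ww H G < θ₀) : ∃ K : ℝ, 0 < K ∧ ∀ (p q : ℝ), a ≤ p → p ≤ q → q ≤ b → ∀ (n N : ℕ), n ≤ N →
      ∫ x in p..q, Rp g f 0 N x ≤ (∫ x in p..q, Rp g f 0 n x) + K * ((1 + ww H G) / θ₀) ^ n := by
  obtain ⟨K, t, hK, ht⟩ := tail hg hf hH hw 0
  have hθ : 0 < θ₀ := by linarith [hf.hθ]
  have hwn : 0 ≤ ww H G := ww_nn32
  refine ⟨K, hK, fun p q hp hpq hq n N hn => ?_⟩
  have h1 := ht p q hp hpq hq 0 0 n N (Nat.zero_le _) hn (fun h => absurd rfl h)
  have h2 : ∀ M : ℕ, ∫ x in p..q, (Rp g f 0 M x : ℂ) * e (((0 : ℤ) : ℝ) * f 0 x) =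
      ((∫ x in p..q, Rp g f 0 M x : ℝ) : ℂ) := by
    intro M
    rw [← intervalIntegral.integral_ofReal]
    refine intervalIntegral.integral_congr fun x _ => ?_
    simp [e_zero]
  rw [h2, h2, ← Complex.ofReal_sub, Complex.norm_real, Real.norm_eq_abs, Nat.sub_zero] at h1
  have h3 : K * (1 + ww H G) ^ n / f1 n p ≤ K * ((1 + ww H G) / θ₀) ^ n := by
    rw [div_pow, ← mul_div_assoc]
    exact div_le_div_of_nonneg_left (by positivity) (by positivity) (f1_ge32 hf n ⟨hp, hpq.trans hq⟩)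
  have h4 := (abs_le.1 (h1.trans h3)).2
  linarith

private lemma small32 (hg : Dens H G g) (hf : Fam a b θ₀ B C f f1 f2) (hH : H + 1 < θ₀)
    (hw : 1 + ww H G < θ₀) {ε : ℝ} (hε : 0 < ε) : ∃ δ : ℝ, 0 < δ ∧ ∀ (N : ℕ) (u v : ℝ), a ≤ u → u ≤ v →
      v ≤ b → v - u ≤ δ → ∫ y in u..v, Rp g f 0 N y ≤ ε := by
  obtain ⟨K, hK, ht⟩ := tail32 hg hf hH hw
  have hθ : 0 < θ₀ := by linarith [hf.hθ]
  have hwn : 0 ≤ ww H G := ww_nn32
  have hr : (1 + ww H G) / θ₀ < 1 := by rwa [div_lt_one hθ]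
  have hlim := (tendsto_pow_atTop_nhds_zero_of_lt_one (div_nonneg (by linarith) hθ.le) hr).const_mul K
  rw [mul_zero] at hlim
  obtain ⟨n, hn⟩ := ((tendsto_order.1 hlim).2 (ε / 2) (by positivity)).exists
  have hp : (0 : ℝ) < (1 + ww H G) ^ n := by positivity
  refine ⟨ε / 2 / (1 + ww H G) ^ n, by positivity, fun N u v hu huv hv hd => ?_⟩
  have h1 : (1 + ww H G) ^ n * (v - u) ≤ ε / 2 := by
    calc _ ≤ (1 + ww H G) ^ n * (ε / 2 / (1 + ww H G) ^ n) := by gcongr
      _ = ε / 2 := by field_simp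
  rcases le_total N n with h | h
  · have h2 := int_le32 hg hf N huv
    have h3 : (1 + ww H G) ^ N * (v - u) ≤ (1 + ww H G) ^ n * (v - u) :=
      mul_le_mul_of_nonneg_right (pow_le_pow_right₀ (by linarith) h) (by linarith)
    linarith
  · have h2 := ht u v hu huv hv n N h
    have h3 := int_le32 hg hf n huv
    linarith

private lemma zb32 (hg : Dens H G g) (hf : Fam a b θ₀ B C f f1 f2) (hH : H + 1 < θ₀)
    (hw : 1 + ww H G < θ₀) : ∃ c : ℝ, 0 < c ∧ ∀ N : ℕ, c ≤ ∫ y in a..b, Rp g f 0 N y ∧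
      ∫ y in a..b, Rp g f 0 N y ≤ c⁻¹ := by
  have hab := hf.hab
  have haI : a ∈ Set.Icc a b := ⟨le_rfl, hab.le⟩
  have hC : 1 ≤ C := by
    have h1 := hf.p0 a haI
    have h2 := hf.u1 0 a haI
    simp only [Nat.cast_zero, zero_add, mul_one, pow_zero] at h2
    linarith
  set δ := min (1 / C) (b - a) with hδ
  have hδ0 : 0 < δ := lt_min (by positivity) (by linarith)
  have hδC : δ ≤ 1 / C := min_le_left _ _
  have hδb : a + δ ≤ b := by linarith [min_le_right (1 / C) (b - a)]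
  have hδ1 : δ ≤ 1 := hδC.trans (by rw [div_le_one (by linarith)]; exact hC)
  obtain ⟨c, hc, hm⟩ := mass hg hf hH hw δ hδ0 hδ1
  obtain ⟨K, hK, ht⟩ := tail32 hg hf hH hw
  have hU : 0 < (b - a) + K := by linarith
  refine ⟨min (c * δ) ((b - a) + K)⁻¹, lt_min (by positivity) (by positivity), fun N => ⟨?_, ?_⟩⟩
  · refine (min_le_left _ _).trans ?_
    have hq : a + δ ∈ Set.Icc a b := ⟨by linarith, hδb⟩
    have h1 := (hm a (a + δ) le_rfl (by linarith) hδb 0 N (Nat.zero_le _) (by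
      have h2 := hf.u1 0 (a + δ) hq
      simp only [Nat.cast_zero, zero_add, mul_one, pow_zero] at h2
      calc (a + δ - a) * f1 0 (a + δ) = δ * f1 0 (a + δ) := by ring
        _ ≤ 1 / C * C := mul_le_mul hδC h2 (by linarith [hf.p0 _ hq]) (by positivity)
        _ = 1 := by field_simp) (by
      calc δ = δ * 1 := by ring
        _ ≤ δ * f1 0 a := by
          have := hf.p0 a haI
          gcongr
        _ = (a + δ - a) * f1 0 a := by ring) a ⟨le_rfl, by linarith⟩).1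
    have h2 : Rp g f 0 0 a = 1 := by simp [Rp]
    rw [h2, mul_one] at h1
    have h3 : c * (a + δ - a) = c * δ := by ring
    rw [h3] at h1
    refine h1.trans ?_
    have hi := fun u v : ℝ => (rp_cont32 hg hf 0 N).intervalIntegrable (μ := volume) u v
    rw [← intervalIntegral.integral_add_adjacent_intervals (hi a (a + δ)) (hi (a + δ) b)]
    have h4 : 0 ≤ ∫ y in (a + δ)..b, Rp g f 0 N y :=
      intervalIntegral.integral_nonneg hδb fun x _ => (rp_pos32 hg f 0 N x).le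
    linarith
  · have h1 := ht a b le_rfl hab.le le_rfl 0 N (Nat.zero_le _)
    have h2 : ∫ x in a..b, Rp g f 0 0 x = b - a := by simp [Rp]
    rw [h2, pow_zero, mul_one] at h1
    refine h1.trans ?_
    rw [le_inv_comm₀ hU (lt_min (by positivity) (by positivity))]
    exact min_le_right _ _

/-- the trapezoid -/
private noncomputable def chi32 (p q δ x : ℝ) : ℝ := max 0 (min 1 (min ((x - p) / δ + 1) ((q - x) / δ + 1)))

private lemma chi_cont32 (p q δ : ℝ) : Continuous (chi32 p q δ) := by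
  unfold chi32
  fun_prop

private lemma chi_nn32 (p q δ x : ℝ) : 0 ≤ chi32 p q δ x := le_max_left _ _

private lemma chi_le32 (p q δ x : ℝ) : chi32 p q δ x ≤ 1 := max_le zero_le_one (min_le_left _ _)

private lemma chi_in32 {p q δ x : ℝ} (hδ : 0 < δ) (h1 : p ≤ x) (h2 : x ≤ q) : chi32 p q δ x = 1 := by
  have h3 : 0 ≤ (x - p) / δ := div_nonneg (by linarith) hδ.le
  have h4 : 0 ≤ (q - x) / δ := div_nonneg (by linarith) hδ.le
  have h5 : min 1 (min ((x - p) / δ + 1) ((q - x) / δ + 1)) = 1 :=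
    min_eq_left (le_min (by linarith) (by linarith))
  rw [chi32, h5]
  exact max_eq_right zero_le_one

private lemma chi_out32 {p q δ x : ℝ} (hδ : 0 < δ) (h : x ≤ p - δ ∨ q + δ ≤ x) : chi32 p q δ x = 0 := by
  rw [chi32]
  refine max_eq_left ?_
  rcases h with h | h
  · refine (min_le_right _ _).trans ((min_le_left _ _).trans ?_)
    have : (x - p) / δ ≤ -1 := by rw [div_le_iff₀ hδ]; linarith
    linarith
  · refine (min_le_right _ _).trans ((min_le_right _ _).trans ?_)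
    have : (q - x) / δ ≤ -1 := by rw [div_le_iff₀ hδ]; linarith
    linarith

private lemma cut32 (ν : Measure ℝ) [IsProbabilityMeasure ν] {φ : ℝ → ℂ} (hφ : Continuous φ) {p q δ M ε : ℝ}
    (hδ : 0 < δ) (hM : ∀ x ∈ Set.Icc (p - δ) (q + δ), ‖φ x‖ ≤ M) (hM0 : 0 ≤ M)
    (h1 : ν.real (Set.Icc (p - δ) p) ≤ ε) (h2 : ν.real (Set.Icc q (q + δ)) ≤ ε) {A : Set ℝ}
    (hA : MeasurableSet A) (hA1 : Set.Ioo p q ⊆ A) (hA2 : A ⊆ Set.Icc p q) :
    ‖(∫ y in A, φ y ∂ν) - ∫ y, φ y * (chi32 p q δ y : ℂ) ∂ν‖ ≤ 2 * M * ε := by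
  set E : Set ℝ := Set.Icc (p - δ) p ∪ Set.Icc q (q + δ) with hE
  have hEm : MeasurableSet E := measurableSet_Icc.union measurableSet_Icc
  have hb1 : ∀ y, ‖φ y * (chi32 p q δ y : ℂ)‖ ≤ M := by
    intro y
    rw [norm_mul, Complex.norm_real, Real.norm_eq_abs, abs_of_nonneg (chi_nn32 _ _ _ _)]
    by_cases hy : y ∈ Set.Icc (p - δ) (q + δ)
    · calc ‖φ y‖ * chi32 p q δ y ≤ M * 1 := mul_le_mul (hM y hy) (chi_le32 _ _ _ _) (chi_nn32 _ _ _ _) hM0
        _ = M := mul_one M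
    · have h0 : chi32 p q δ y = 0 := by
        apply chi_out32 hδ
        rw [Set.mem_Icc, not_and_or, not_le, not_le] at hy
        exact hy.imp le_of_lt le_of_lt
      rw [h0, mul_zero]
      exact hM0
  have hA3 : A ⊆ Set.Icc (p - δ) (q + δ) :=
    hA2.trans (Set.Icc_subset_Icc (by linarith) (by linarith))
  have hb2 : ∀ y, ‖A.indicator φ y‖ ≤ M := by
    intro y
    by_cases hy : y ∈ A
    · rw [Set.indicator_of_mem hy]
      exact hM y (hA3 hy)
    · rw [Set.indicator_of_notMem hy, norm_zero]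
      exact hM0
  have hi1 : Integrable (fun y => φ y * (chi32 p q δ y : ℂ)) ν :=
    Integrable.of_bound (hφ.mul (Complex.continuous_ofReal.comp (chi_cont32 p q δ))).aestronglyMeasurable M
      (Eventually.of_forall hb1)
  have hi2 : Integrable (A.indicator φ) ν :=
    Integrable.of_bound (hφ.aestronglyMeasurable.indicator hA) M (Eventually.of_forall hb2)
  rw [← integral_indicator hA, ← integral_sub hi2 hi1]
  have hpt : ∀ y, ‖A.indicator φ y - φ y * (chi32 p q δ y : ℂ)‖ ≤ E.indicator (fun _ => M) y := by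
    intro y
    by_cases hyE : y ∈ E
    · rw [Set.indicator_of_mem hyE]
      by_cases hy : y ∈ A
      · rw [Set.indicator_of_mem hy]
        have h3 : φ y - φ y * (chi32 p q δ y : ℂ) = φ y * ((1 - chi32 p q δ y : ℝ) : ℂ) := by
          push_cast
          ring
        have h4 : 0 ≤ 1 - chi32 p q δ y := by linarith [chi_le32 p q δ y]
        rw [h3, norm_mul, Complex.norm_real, Real.norm_eq_abs, abs_of_nonneg h4]
        calc ‖φ y‖ * (1 - chi32 p q δ y) ≤ M * 1 :=
              mul_le_mul (hM y (hA3 hy)) (by linarith [chi_nn32 p q δ y]) h4 hM0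
          _ = M := mul_one M
      · rw [Set.indicator_of_notMem hy, zero_sub, norm_neg]
        exact hb1 y
    · rw [Set.indicator_of_notMem hyE]
      rw [hE, Set.mem_union, not_or, Set.mem_Icc, Set.mem_Icc, not_and_or, not_and_or, not_le, not_le,
        not_le, not_le] at hyE
      have hz : A.indicator φ y - φ y * (chi32 p q δ y : ℂ) = 0 := by
        by_cases h3 : y < p - δ
        · have hyA : y ∉ A := fun h => by
            have := (hA3 h).1
            linarith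
          rw [Set.indicator_of_notMem hyA, chi_out32 hδ (Or.inl h3.le)]
          simp
        · by_cases h4 : q + δ < y
          · have hyA : y ∉ A := fun h => by
              have := (hA3 h).2
              linarith
            rw [Set.indicator_of_notMem hyA, chi_out32 hδ (Or.inr h4.le)]
            simp
          · have h5 : p < y := hyE.1.resolve_left h3
            have h6 : y < q := hyE.2.resolve_right h4
            rw [Set.indicator_of_mem (hA1 ⟨h5, h6⟩), chi_in32 hδ h5.le h6.le]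
            simp
      rw [hz, norm_zero]
  calc ‖∫ y, (A.indicator φ y - φ y * (chi32 p q δ y : ℂ)) ∂ν‖ ≤ ∫ y, E.indicator (fun _ => M) y ∂ν :=
        norm_integral_le_of_norm_le ((integrable_const M).indicator hEm) (Eventually.of_forall hpt)
    _ = M * ν.real E := by
        rw [integral_indicator_const _ hEm, smul_eq_mul, mul_comm]
    _ ≤ M * (ε + ε) := by
        refine mul_le_mul_of_nonneg_left ?_ hM0
        exact (measureReal_union_le _ _).trans (add_le_add h1 h2)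
    _ = 2 * M * ε := by ring

theorem exists_mu (hg : Dens H G g) (hf : Fam a b θ₀ B C f f1 f2) (hH : H + 1 < θ₀) (hw : 1 + ww H G < θ₀) :
    ∃ μ : Measure ℝ, Mu a b g f μ := by
  have hab := hf.hab
  have hc := fun N => rp_cont32 hg hf 0 N
  have hp := fun N => rp_pos32 hg f 0 N
  obtain ⟨c, hc0, hZ⟩ := zb32 hg hf hH hw
  let ν : ℕ → ProbabilityMeasure ℝ := fun N => ⟨dn a b (Rp g f 0 N), dn_prob (hc N) (hp N) hab⟩
  obtain ⟨μ, l, hne, hl, hlim⟩ := exists_lim ν (fun N => dn_support (a := a) (b := b) (hc N) (hp N))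
  -- short intervals have small mass
  have hsm : ∀ ε : ℝ, 0 < ε → ∃ δ : ℝ, 0 < δ ∧ ∀ (N : ℕ) (u v : ℝ), v - u ≤ δ →
      (ν N : Measure ℝ) (Set.Icc u v) ≤ ENNReal.ofReal ε := by
    intro ε hε
    obtain ⟨δ, hδ, hs⟩ := small32 hg hf hH hw (ε := ε * c) (by positivity)
    refine ⟨δ, hδ, fun N u v huv => ?_⟩
    change dn a b (Rp g f 0 N) (Set.Icc u v) ≤ _
    rw [dn_apply (hc N) (hp N) measurableSet_Icc, Set.Icc_inter_Icc]
    rcases le_or_gt (u ⊔ a) (v ⊓ b) with h | h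
    · rw [integral_Icc_eq_integral_Ioc, ← intervalIntegral.integral_of_le h]
      have h1 := hs N (u ⊔ a) (v ⊓ b) le_sup_right h inf_le_right (by
        have := le_sup_left (a := u) (b := a)
        have := inf_le_left (a := v) (b := b)
        linarith)
      have hZp : 0 < ∫ x in a..b, Rp g f 0 N x := hc0.trans_le (hZ N).1
      rw [← ENNReal.ofReal_mul (by positivity)]
      refine ENNReal.ofReal_le_ofReal ?_
      calc (∫ x in a..b, Rp g f 0 N x)⁻¹ * ∫ x in (u ⊔ a)..(v ⊓ b), Rp g f 0 N x ≤ c⁻¹ * (ε * c) := by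
            refine mul_le_mul (inv_anti₀ hc0 (hZ N).1) h1 ?_ (by positivity)
            exact intervalIntegral.integral_nonneg h fun x _ => (hp N x).le
        _ = ε := by field_simp
    · rw [Set.Icc_eq_empty (not_le.2 h)]
      simp
  have hsmμ : ∀ ε : ℝ, 0 < ε → ∃ δ : ℝ, 0 < δ ∧ ∀ (u v : ℝ), v - u ≤ δ →
      (μ : Measure ℝ) (Set.Icc u v) ≤ ENNReal.ofReal ε := by
    intro ε hε
    obtain ⟨δ, hδ, hs⟩ := hsm ε hε
    refine ⟨δ / 2, by positivity, fun u v huv => ?_⟩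
    have h1 : Set.Icc u v ⊆ Set.Ioo (u - δ / 4) (v + δ / 4) := fun x hx => ⟨by linarith [hx.1], by linarith [hx.2]⟩
    refine (measure_mono h1).trans (lim_open hlim hl isOpen_Ioo (Eventually.of_forall fun N => ?_))
    exact (measure_mono Set.Ioo_subset_Icc_self).trans (hs N _ _ (by linarith))
  have hat : ∀ x : ℝ, (μ : Measure ℝ) {x} = 0 := by
    intro x
    refine le_antisymm (ENNReal.le_of_forall_pos_le_add fun ε hε _ => ?_) zero_le
    obtain ⟨δ, hδ, hs⟩ := hsmμ ε (by exact_mod_cast hε)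
    have h1 := hs x x (by linarith)
    rw [Set.Icc_self] at h1
    rw [zero_add]
    exact h1.trans (by simp)
  have hsupp : (μ : Measure ℝ) (Set.Icc a b)ᶜ = 0 :=
    Pool.Agent.Helper82.FK.lim_support hlim hl (fun N => dn_support (a := a) (b := b) (hc N) (hp N))
  refine ⟨μ, inferInstance, ?_, l, hne, hl, fun N => ∫ x in a..b, Rp g f 0 N x, c, hc0, hZ, ?_⟩
  · have h1 : (Set.Ico a b)ᶜ ⊆ (Set.Icc a b)ᶜ ∪ {b} := by
      intro x hx
      by_cases h : x = b
      · exact Or.inr h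
      · left
        intro h2
        exact hx ⟨h2.1, lt_of_le_of_ne h2.2 h⟩
    exact measure_mono_null h1 (measure_union_null hsupp (hat b))
  · intro φ hφ p q hap hpq hqb
    obtain ⟨M, hM⟩ := (isCompact_Icc (a := p - 1) (b := q + 1)).exists_bound_of_continuousOn hφ.continuousOn
    have hM0 : 0 ≤ M := (norm_nonneg _).trans (hM p ⟨by linarith, by linarith⟩)
    have hF : ∀ N, (∫ y in p..q, (Rp g f 0 N y : ℂ) * φ y) / ((∫ x in a..b, Rp g f 0 N x : ℝ) : ℂ) =
        ∫ y in Set.Icc p q, φ y ∂(ν N : Measure ℝ) := by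
      intro N
      rw [← integral_indicator measurableSet_Icc]
      change _ = ∫ y, (Set.Icc p q).indicator φ y ∂(dn a b (Rp g f 0 N))
      rw [integral_dn (hc N) (hp N) hab]
      have h1 : ∫ x in a..b, (Rp g f 0 N x : ℂ) * (Set.Icc p q).indicator φ x =
          ∫ x in p..q, (Rp g f 0 N x : ℂ) * φ x := by
        have h2 : ∀ x, (Rp g f 0 N x : ℂ) * (Set.Icc p q).indicator φ x =
            (Set.Icc p q).indicator (fun x => (Rp g f 0 N x : ℂ) * φ x) x := by
          intro x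
          by_cases hx : x ∈ Set.Icc p q
          · rw [Set.indicator_of_mem hx, Set.indicator_of_mem hx]
          · rw [Set.indicator_of_notMem hx, Set.indicator_of_notMem hx, mul_zero]
        simp_rw [h2]
        rw [intervalIntegral.integral_of_le hab.le, ← integral_Icc_eq_integral_Ioc,
          setIntegral_indicator measurableSet_Icc, Set.inter_eq_right.2 (Set.Icc_subset_Icc hap hqb),
          integral_Icc_eq_integral_Ioc, ← intervalIntegral.integral_of_le hpq]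
      rw [h1]
      push_cast
      rw [div_eq_mul_inv, mul_comm]
    simp_rw [hF]
    rw [Metric.tendsto_nhds]
    intro ε' hε'
    set ε := ε' / (4 * M + 4) / 2 with hε
    have hε0 : 0 < ε := by positivity
    obtain ⟨δ₁, hδ₁, hs1⟩ := hsm ε hε0
    obtain ⟨δ₂, hδ₂, hs2⟩ := hsmμ ε hε0
    set δ := min 1 (min δ₁ δ₂) with hδd
    have hδ : 0 < δ := lt_min one_pos (lt_min hδ₁ hδ₂)
    have hd1 : δ ≤ 1 := min_le_left _ _
    have hd2 : δ ≤ δ₁ := (min_le_right _ _).trans (min_le_left _ _)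
    have hd3 : δ ≤ δ₂ := (min_le_right _ _).trans (min_le_right _ _)
    have hM' : ∀ x ∈ Set.Icc (p - δ) (q + δ), ‖φ x‖ ≤ M := fun x hx =>
      hM x ⟨by linarith [hx.1], by linarith [hx.2]⟩
    have hreal : ∀ (ρ : Measure ℝ) [IsProbabilityMeasure ρ] (A : Set ℝ), ρ A ≤ ENNReal.ofReal ε → ρ.real A ≤ ε := by
      intro ρ _ A h
      have := ENNReal.toReal_mono ENNReal.ofReal_ne_top h
      rwa [ENNReal.toReal_ofReal hε0.le] at this
    have hA : ∀ N, ‖(∫ y in Set.Icc p q, φ y ∂(ν N : Measure ℝ)) -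
        ∫ y, φ y * (chi32 p q δ y : ℂ) ∂(ν N : Measure ℝ)‖ ≤ 2 * M * ε := fun N =>
      cut32 _ hφ hδ hM' hM0 (hreal _ _ (hs1 N _ _ (by linarith))) (hreal _ _ (hs1 N _ _ (by linarith)))
        measurableSet_Icc Set.Ioo_subset_Icc_self subset_rfl
    have hB : ‖(∫ y in Set.Ico p q, φ y ∂(μ : Measure ℝ)) -
        ∫ y, φ y * (chi32 p q δ y : ℂ) ∂(μ : Measure ℝ)‖ ≤ 2 * M * ε :=
      cut32 _ hφ hδ hM' hM0 (hreal _ _ (hs2 _ _ (by linarith))) (hreal _ _ (hs2 _ _ (by linarith)))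
        measurableSet_Ico Set.Ioo_subset_Ico_self Set.Ico_subset_Icc_self
    have hcc : Continuous fun y => φ y * (chi32 p q δ y : ℂ) :=
      hφ.mul (Complex.continuous_ofReal.comp (chi_cont32 p q δ))
    have hbd : ∀ y, ‖φ y * (chi32 p q δ y : ℂ)‖ ≤ M := by
      intro y
      rw [norm_mul, Complex.norm_real, Real.norm_eq_abs, abs_of_nonneg (chi_nn32 _ _ _ _)]
      by_cases hy : y ∈ Set.Icc (p - δ) (q + δ)
      · calc ‖φ y‖ * chi32 p q δ y ≤ M * 1 := mul_le_mul (hM' y hy) (chi_le32 _ _ _ _) (chi_nn32 _ _ _ _) hM0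
          _ = M := mul_one M
      · have h0 : chi32 p q δ y = 0 := by
          apply chi_out32 hδ
          rw [Set.mem_Icc, not_and_or, not_le, not_le] at hy
          exact hy.imp le_of_lt le_of_lt
        rw [h0, mul_zero]
        exact hM0
    have hC := lim_integral hlim hcc hbd
    rw [Metric.tendsto_nhds] at hC
    filter_upwards [hC (ε' / 2) (by positivity)] with N hN
    rw [dist_eq_norm] at hN ⊢
    have h1 : (∫ y in Set.Icc p q, φ y ∂(ν N : Measure ℝ)) - ∫ y in Set.Ico p q, φ y ∂(μ : Measure ℝ) =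
        ((∫ y in Set.Icc p q, φ y ∂(ν N : Measure ℝ)) - ∫ y, φ y * (chi32 p q δ y : ℂ) ∂(ν N : Measure ℝ)) +
        ((∫ y, φ y * (chi32 p q δ y : ℂ) ∂(ν N : Measure ℝ)) - ∫ y, φ y * (chi32 p q δ y : ℂ) ∂(μ : Measure ℝ)) -
        ((∫ y in Set.Ico p q, φ y ∂(μ : Measure ℝ)) - ∫ y, φ y * (chi32 p q δ y : ℂ) ∂(μ : Measure ℝ)) := by
      ring
    rw [h1]
    have h2 : 4 * M * ε < ε' / 2 := by
      rw [hε]
      have h3 : 4 * M * (ε' / (4 * M + 4) / 2) = ε' / 2 * (4 * M / (4 * M + 4)) := by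
        field_simp
      rw [h3]
      have h4 : 4 * M / (4 * M + 4) < 1 := by
        rw [div_lt_one (by linarith)]
        linarith
      calc ε' / 2 * (4 * M / (4 * M + 4)) < ε' / 2 * 1 := by gcongr
        _ = ε' / 2 := mul_one _
    calc _ ≤ _ := norm_sub_le _ _
      _ ≤ (2 * M * ε + ε' / 2) + 2 * M * ε :=
        add_le_add ((norm_add_le _ _).trans (add_le_add (hA N) hN.le)) hB
      _ < ε' := by linarith

/-- the mass of an interval -/
private lemma real_lim32 {μ : Measure ℝ} (hμ : Mu a b g f μ) : ∃ l : Filter ℕ, l.NeBot ∧ l ≤ atTop ∧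
    ∃ Z : ℕ → ℝ, ∃ c : ℝ, 0 < c ∧ (∀ N, c ≤ Z N ∧ Z N ≤ c⁻¹) ∧ ∀ p q : ℝ, a ≤ p → p ≤ q → q ≤ b →
      Tendsto (fun N => (∫ y in p..q, Rp g f 0 N y) / Z N) l (𝓝 (μ.real (Set.Ico p q))) := by
  obtain ⟨l, hne, hl, Z, c, hc, hZ, hlim⟩ := hμ.lim
  refine ⟨l, hne, hl, Z, c, hc, hZ, fun p q hp hpq hq => ?_⟩
  have h1 := hlim (fun _ => 1) continuous_const p q hp hpq hq
  simp only [mul_one] at h1
  have h2 : ∫ _y in Set.Ico p q, (1 : ℂ) ∂μ = ((μ.real (Set.Ico p q) : ℝ) : ℂ) := by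
    rw [setIntegral_const]
    simp
  rw [h2] at h1
  have h3 : (fun N => (∫ y in p..q, (Rp g f 0 N y : ℂ)) / (Z N : ℂ)) =
      fun N => (((∫ y in p..q, Rp g f 0 N y) / Z N : ℝ) : ℂ) := by
    funext N
    rw [intervalIntegral.integral_ofReal]
    push_cast
    rfl
  rw [h3] at h1
  exact (Complex.continuous_re.tendsto _).comp h1

/-- the mass of a cell -/
theorem Mu.mass (hg : Dens H G g) (hf : Fam a b θ₀ B C f f1 f2) (hH : H + 1 < θ₀) (hw : 1 + ww H G < θ₀)
    {μ : Measure ℝ} (hμ : Mu a b g f μ) (η : ℝ) (hη : 0 < η) (hη1 : η ≤ 1) :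
    ∃ c : ℝ, 0 < c ∧ ∀ (p q : ℝ), a ≤ p → p ≤ q → q ≤ b →
      ∀ j : ℕ, (q - p) * f1 j q ≤ 1 → η ≤ (q - p) * f1 j p → ∀ x ∈ Set.Icc p q,
        c * Rp g f 0 j x * (q - p) ≤ μ.real (Set.Ico p q) ∧
        μ.real (Set.Ico p q) ≤ c⁻¹ * Rp g f 0 j x * (q - p) := by
  obtain ⟨c, hc, hm⟩ := Pool.Agent.Helper59.MF.mass hg hf hH hw η hη hη1
  obtain ⟨l, hne, hl, Z, c', hc', hZ, hlim⟩ := real_lim32 hμ
  refine ⟨c * c', by positivity, fun p q hp hpq hq j h1 h2 x hx => ?_⟩
  have h3 := hlim p q hp hpq hq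
  have hR : 0 < Rp g f 0 j x := rp_pos32 hg f 0 j x
  have hev : ∀ᶠ N in l, j ≤ N := hl (eventually_ge_atTop j)
  have hqp : 0 ≤ q - p := by linarith
  constructor
  · refine ge_of_tendsto h3 (hev.mono fun N hN => ?_)
    have h4 := (hm p q hp hpq hq j N hN h1 h2 x hx).1
    have hZ0 : 0 < Z N := hc'.trans_le (hZ N).1
    rw [le_div_iff₀ hZ0]
    calc c * c' * Rp g f 0 j x * (q - p) * Z N = (c * Rp g f 0 j x * (q - p)) * (c' * Z N) := by ring
      _ ≤ (c * Rp g f 0 j x * (q - p)) * 1 := by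
        refine mul_le_mul_of_nonneg_left ?_ (by positivity)
        calc c' * Z N ≤ c' * c'⁻¹ := mul_le_mul_of_nonneg_left (hZ N).2 hc'.le
          _ = 1 := mul_inv_cancel₀ hc'.ne'
      _ ≤ _ := by rw [mul_one]; exact h4
  · refine le_of_tendsto h3 (hev.mono fun N hN => ?_)
    have h4 := (hm p q hp hpq hq j N hN h1 h2 x hx).2
    have hZ0 : 0 < Z N := hc'.trans_le (hZ N).1
    rw [div_le_iff₀ hZ0]
    refine h4.trans ?_
    calc c⁻¹ * Rp g f 0 j x * (q - p) = (c * c')⁻¹ * Rp g f 0 j x * (q - p) * c' := by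
          field_simp
      _ ≤ (c * c')⁻¹ * Rp g f 0 j x * (q - p) * Z N :=
        mul_le_mul_of_nonneg_left (hZ N).1 (by positivity)

theorem Mu.noAtoms (hg : Dens H G g) (hf : Fam a b θ₀ B C f f1 f2) (hH : H + 1 < θ₀)
    (hw : 1 + ww H G < θ₀) {μ : Measure ℝ} (hμ : Mu a b g f μ) (x : ℝ) : μ {x} = 0 := by
  by_cases hx : x ∈ Set.Ico a b
  swap
  · exact measure_mono_null (Set.singleton_subset_iff.2 hx) hμ.supp
  have hpr := hμ.prob
  obtain ⟨l, hne, hl, Z, c, hc, hZ, hlim⟩ := real_lim32 hμ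
  have key : ∀ ε : ℝ, 0 < ε → μ.real {x} ≤ ε := by
    intro ε hε
    obtain ⟨δ, hδ, hs⟩ := small32 hg hf hH hw (ε := ε * c) (by positivity)
    set q := min (x + δ) b with hq
    have hxq : x < q := lt_min (by linarith) hx.2
    have h1 := hlim x q hx.1 hxq.le (min_le_right _ _)
    have h2 : μ.real (Set.Ico x q) ≤ ε := by
      refine le_of_tendsto h1 (Eventually.of_forall fun N => ?_)
      have h3 := hs N x q hx.1 hxq.le (min_le_right _ _) (by
        have := min_le_left (x + δ) b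
        linarith)
      have hZ0 : 0 < Z N := hc.trans_le (hZ N).1
      rw [div_le_iff₀ hZ0]
      exact h3.trans (mul_le_mul_of_nonneg_left (hZ N).1 hε.le)
    exact (measureReal_mono (Set.singleton_subset_iff.2 (Set.left_mem_Ico.2 hxq))).trans h2
  have h0 : μ.real {x} = 0 := le_antisymm (le_of_forall_pos_le_add fun ε hε => by
    rw [zero_add]
    exact key ε hε) measureReal_nonneg
  rwa [measureReal_eq_zero_iff] at h0

end Pool.Agent.Helper59.MF
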