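import Pool.Agent.Helper59.MF.TreeA
import Pool.Agent.Helper59.RE.Exp
import Pool.Agent.Helper82.FK.VC2

/-!
# MF-D: phases
-/

set_option autoImplicit false

namespace Pool.Agent.Helper59.MF

open Finset MeasureTheory Filter Topology
open Pool.Agent.Helper59.RE (e norm_e e_add conj_e continuous_e e_zero norm_e_sub)

theorem e_eq (x : ℝ) : Pool.Agent.Helper82.FK.e x = e x := by
  unfold Pool.Agent.Helper82.FK.e e
  congr 1
  push_cast
  ring

theorem int_le {p q : ℝ} (hpq : p ≤ q) (G : ℝ → ℝ) : ‖∫ y in p..q, e (G y)‖ ≤ q - p := by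
  have h := intervalIntegral.norm_integral_le_of_norm_le_const (a := p) (b := q) (C := 1)
    (f := fun y => e (G y)) (fun y _ => (norm_e _).le)
  rwa [one_mul, abs_of_nonneg (by linarith)] at h

theorem int_lin {p q : ℝ} (hpq : p ≤ q) (α β x : ℝ) (hβ : β ≠ 0) :
    ‖∫ y in p..q, e (α + β * (y - x))‖ ≤ 1 / |β| := by
  have hb : 0 < |β| := abs_pos.2 hβ
  have hd : ∀ y ∈ Set.Icc p q, HasDerivAt (fun y => α + β * (y - x)) β y := by
    intro y _
    have h := (((hasDerivAt_id y).sub_const x).const_mul β).const_add α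
    simpa using h
  have h := Pool.Agent.Helper82.FK.vc1m hpq (G := fun y => α + β * (y - x)) (G' := fun _ => β)
    (G'' := fun _ => 0) hd (fun y _ => hasDerivAt_const y β) continuousOn_const hb
    (fun y _ => le_refl _) (fun y _ => le_refl _)
  simp only [e_eq] at h
  refine h.trans ?_
  have hpi : 2 < Real.pi := by linarith [Real.pi_gt_three]
  rw [div_div]
  rw [div_le_div_iff₀ (by positivity) hb]
  nlinarith

variable {a b θ₀ B C : ℝ} {f f1 f2 : ℕ → ℝ → ℝ}

theorem Fam.th_pos (hf : Fam a b θ₀ B C f f1 f2) : 0 < θ₀ := by linarith [hf.hθ]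

theorem Fam.f1_ge (hf : Fam a b θ₀ B C f f1 f2) {x : ℝ} (hx : x ∈ Set.Icc a b) (n : ℕ) :
    θ₀ ^ n ≤ f1 n x := by
  induction n with
  | zero => rw [pow_zero]; exact hf.p0 x hx
  | succ n ih =>
    refine le_trans ?_ (hf.g1 n x hx)
    rw [pow_succ, mul_comm]
    exact mul_le_mul_of_nonneg_left ih hf.th_pos.le

theorem Fam.f1_pos (hf : Fam a b θ₀ B C f f1 f2) {x : ℝ} (hx : x ∈ Set.Icc a b) (n : ℕ) :
    0 < f1 n x := lt_of_lt_of_le (pow_pos hf.th_pos n) (hf.f1_ge hx n)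

theorem Fam.f1_up (hf : Fam a b θ₀ B C f f1 f2) {x : ℝ} (hx : x ∈ Set.Icc a b) (n j : ℕ) :
    θ₀ ^ j * f1 n x ≤ f1 (n + j) x := by
  induction j with
  | zero => rw [pow_zero, one_mul, add_zero]
  | succ j ih =>
    refine le_trans ?_ (hf.g1 (n + j) x hx)
    have := mul_le_mul_of_nonneg_left ih hf.th_pos.le
    rw [pow_succ]
    linarith

theorem Fam.f1_mono (hf : Fam a b θ₀ B C f f1 f2) (n : ℕ) : MonotoneOn (f1 n) (Set.Icc a b) := by
  refine monotoneOn_of_hasDerivWithinAt_nonneg (convex_Icc a b)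
    (fun x hx => (hf.d2 n x hx).continuousAt.continuousWithinAt)
    (f' := f2 n) (fun x hx => (hf.d2 n x (interior_subset hx)).hasDerivWithinAt)
    (fun x hx => hf.p2 n x (interior_subset hx))

theorem Fam.lip (hf : Fam a b θ₀ B C f f1 f2) (n : ℕ) {p q x y : ℝ} (hp : a ≤ p) (hq : q ≤ b)
    (hx : x ∈ Set.Icc p q) (hy : y ∈ Set.Icc p q) : |f n y - f n x| ≤ f1 n q * |y - x| := by
  have hpq : p ≤ q := hx.1.trans hx.2
  have hsub : Set.Icc p q ⊆ Set.Icc a b := Set.Icc_subset_Icc hp hq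
  have h := Convex.norm_image_sub_le_of_norm_hasDerivWithin_le (f := f n) (f' := f1 n)
    (C := f1 n q) (s := Set.Icc p q) (fun z hz => (hf.d1 n z (hsub hz)).hasDerivWithinAt)
    (fun z hz => by
      rw [Real.norm_eq_abs, abs_of_pos (hf.f1_pos (hsub hz) n)]
      exact hf.f1_mono n (hsub hz) (hsub ⟨hpq, le_refl _⟩) hz.2) (convex_Icc p q) hx hy
  simpa [Real.norm_eq_abs] using h

theorem Fam.taylor (hf : Fam a b θ₀ B C f f1 f2) (n : ℕ) {p q x y K : ℝ} (hp : a ≤ p) (hq : q ≤ b)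
    (hK : ∀ z ∈ Set.Icc p q, f2 n z ≤ K)
    (hx : x ∈ Set.Icc p q) (hy : y ∈ Set.Icc p q) :
    |f n y - f n x - f1 n x * (y - x)| ≤ K * (q - p) ^ 2 := by
  have hsub : Set.Icc p q ⊆ Set.Icc a b := Set.Icc_subset_Icc hp hq
  have hpq : p ≤ q := hx.1.trans hx.2
  have hK0 : 0 ≤ K := (hf.p2 n x (hsub hx)).trans (hK x hx)
  have h1 : ∀ z ∈ Set.Icc p q, |f1 n z - f1 n x| ≤ K * (q - p) := by
    intro z hz
    have h := Convex.norm_image_sub_le_of_norm_hasDerivWithin_le (f := f1 n) (f' := f2 n)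
      (C := K) (s := Set.Icc p q) (fun z hz => (hf.d2 n z (hsub hz)).hasDerivWithinAt)
      (fun z hz => by
        rw [Real.norm_eq_abs, abs_of_nonneg (hf.p2 n z (hsub hz))]
        exact hK z hz) (convex_Icc p q) hx hz
    rw [Real.norm_eq_abs, Real.norm_eq_abs] at h
    refine h.trans (mul_le_mul_of_nonneg_left ?_ hK0)
    rw [abs_le]; constructor <;> linarith [hx.1, hx.2, hz.1, hz.2]
  have h2 := Convex.norm_image_sub_le_of_norm_hasDerivWithin_le
    (f := fun z => f n z - f1 n x * (z - x)) (f' := fun z => f1 n z - f1 n x)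
    (C := K * (q - p)) (s := Set.Icc p q)
    (fun z hz => by
      have h3 : HasDerivAt (fun z => f n z - f1 n x * (z - x)) (f1 n z - f1 n x * 1) z :=
        (hf.d1 n z (hsub hz)).sub ((((hasDerivAt_id z).sub_const x)).const_mul (f1 n x))
      rw [mul_one] at h3
      exact h3.hasDerivWithinAt)
    (fun z hz => by rw [Real.norm_eq_abs]; exact h1 z hz) (convex_Icc p q) hx hy
  simp only [sub_self, mul_zero, sub_zero, Real.norm_eq_abs] at h2
  have h4 : f n y - f1 n x * (y - x) - f n x = f n y - f n x - f1 n x * (y - x) := by ring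
  rw [h4] at h2
  refine h2.trans ?_
  rw [sq, ← mul_assoc]
  refine mul_le_mul_of_nonneg_left ?_ (mul_nonneg hK0 (by linarith))
  rw [abs_le]; constructor <;> linarith [hx.1, hx.2, hy.1, hy.2]

theorem Fam.C_ge (hf : Fam a b θ₀ B C f f1 f2) : 1 ≤ C := by
  have hx : a ∈ Set.Icc a b := ⟨le_refl _, hf.hab.le⟩
  have h1 := hf.p0 a hx
  have h2 := hf.u1 0 a hx
  rw [pow_zero, mul_one] at h2
  push_cast at h2
  linarith

theorem Fam.B_pos (hf : Fam a b θ₀ B C f f1 f2) : 0 < B := by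
  have hx : a ∈ Set.Icc a b := ⟨le_refl _, hf.hab.le⟩
  have h1 := hf.f1_pos hx 1
  have h2 := hf.u1 1 a hx
  rw [pow_one] at h2
  have h3 : 0 < C * ((1 : ℕ) + 1) * B := h1.trans_le h2
  have h4 := hf.C_ge
  push_cast at h3
  by_contra h5
  push Not at h5
  nlinarith

/-- a cell of level `n` containing `x` -/
structure Cell (f1 : ℕ → ℝ → ℝ) (a b η x : ℝ) (n : ℕ) (p q : ℝ) : Prop where
  ap : a ≤ p
  px : p ≤ x
  xq : x ≤ q
  qb : q ≤ b
  lo : η / 4 ≤ (q - p) * f1 n p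
  hi : (q - p) * f1 n q ≤ η

/-- the phase with coefficients `Q` at the levels `l, l+1, ...` -/
noncomputable def ph (f : ℕ → ℝ → ℝ) (l : ℕ) (Q : Polynomial ℤ) (y : ℝ) : ℝ :=
  ∑ j ∈ range (Q.natDegree + 1), (Q.coeff j : ℝ) * f (l + j) y

theorem ph_eq (f : ℕ → ℝ → ℝ) (l : ℕ) (Q : Polynomial ℤ) (y : ℝ) {N : ℕ} (hN : Q.natDegree < N) :
    ph f l Q y = ∑ j ∈ range N, (Q.coeff j : ℝ) * f (l + j) y := by
  unfold ph
  refine sum_subset (fun j hj => ?_) (fun j _ hj => ?_)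
  · rw [mem_range] at hj ⊢; omega
  · rw [mem_range, not_lt] at hj
    rw [Polynomial.coeff_eq_zero_of_natDegree_lt (by omega)]
    simp

theorem ph_step (f : ℕ → ℝ → ℝ) (l : ℕ) (Q : Polynomial ℤ) (k : ℤ) (y : ℝ) :
    ph f l (Polynomial.X * Q + Polynomial.C k) y = k * f l y + ph f (l + 1) Q y := by
  have h1 : (Polynomial.X * Q + Polynomial.C k).natDegree < Q.natDegree + 2 := by
    have h2 := Polynomial.natDegree_add_le (Polynomial.X * Q) (Polynomial.C k)
    have h3 := Polynomial.natDegree_mul_le (p := Polynomial.X) (q := Q)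
    have h4 : (Polynomial.X : Polynomial ℤ).natDegree ≤ 1 := Polynomial.natDegree_X_le
    have h5 : (Polynomial.C k : Polynomial ℤ).natDegree = 0 := Polynomial.natDegree_C k
    rw [h5] at h2
    have h6 : max (Polynomial.X * Q).natDegree 0 ≤ Q.natDegree + 1 := max_le (by omega) (by omega)
    omega
  rw [ph_eq f l _ y h1, sum_range_succ']
  rw [ph_eq f (l + 1) Q y (Nat.lt_succ_self _)]
  rw [add_comm]
  congr 1
  · simp
  · refine sum_congr rfl fun j _ => ?_
    rw [Polynomial.coeff_add, Polynomial.coeff_X_mul, Polynomial.coeff_C,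
      if_neg (Nat.succ_ne_zero j), add_zero, show l + 1 + j = l + (j + 1) by ring]

theorem ph_zero (f : ℕ → ℝ → ℝ) (l : ℕ) (y : ℝ) : ph f l 0 y = 0 := by
  simp [ph]

theorem ph_cont (hf : Fam a b θ₀ B C f f1 f2) (l : ℕ) (Q : Polynomial ℤ) : Continuous (ph f l Q) := by
  unfold ph
  exact continuous_finsetSum _ fun j _ => continuous_const.mul (hf.cf _)

theorem aeval_sum (θ : ℝ) (Q : Polynomial ℤ) :
    Polynomial.aeval θ Q = ∑ j ∈ range (Q.natDegree + 1), (Q.coeff j : ℝ) * θ ^ j := by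
  rw [Polynomial.aeval_eq_sum_range]
  exact sum_congr rfl fun j _ => by rw [zsmul_eq_mul]

/-- the ratios -/
theorem ratio (hf : Fam a b θ₀ B C f f1 f2) {x : ℝ} (hx : x ∈ Set.Icc a b) {θ : ℝ}
    (hr : Tendsto (fun n : ℕ => f1 (n + 1) x / f1 n x) atTop (𝓝 θ)) (j : ℕ) :
    Tendsto (fun n : ℕ => f1 (n + 1 + j) x / f1 (n + 1) x) atTop (𝓝 (θ ^ j)) := by
  induction j with
  | zero =>
    rw [pow_zero]
    refine tendsto_const_nhds.congr fun n => ?_
    rw [add_zero, div_self (hf.f1_pos hx _).ne']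
  | succ j ih =>
    have h1 : Tendsto (fun n : ℕ => f1 (n + 1 + j + 1) x / f1 (n + 1 + j) x) atTop (𝓝 θ) :=
      (hr.comp (tendsto_add_atTop_nat (1 + j))).congr fun n => by
        simp only [Function.comp]
        rw [show n + (1 + j) = n + 1 + j by ring]
    rw [pow_succ]
    refine (ih.mul h1).congr fun n => ?_
    have := (hf.f1_pos hx (n + 1 + j)).ne'
    have := (hf.f1_pos hx (n + 1)).ne'
    rw [show n + 1 + (j + 1) = n + 1 + j + 1 by ring]
    field_simp

theorem poly_geom {B θ₀ : ℝ} (hB0 : 0 < B) (hθ : 0 < θ₀) (hB : B < θ₀ ^ 2) (C : ℝ) (j : ℕ) :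
    Tendsto (fun n : ℕ => C * ((n + 1 + j : ℕ) + 1 : ℝ) ^ 2 * B ^ (n + 1 + j) * (1 / θ₀ ^ n) ^ 2)
      atTop (𝓝 0) := by
  set r : ℝ := B / θ₀ ^ 2 with hr
  have hr0 : 0 < r := by positivity
  have hr1 : r < 1 := (div_lt_one (by positivity)).2 hB
  have h1 := tendsto_pow_const_mul_const_pow_of_lt_one 2 hr0.le hr1
  have h2 := (h1.comp (tendsto_add_atTop_nat (j + 2))).const_mul (C * B ^ (1 + j) / r ^ (j + 2))
  rw [mul_zero] at h2
  refine h2.congr fun n => ?_
  simp only [Function.comp]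
  have h3 : r ^ (n + (j + 2)) = r ^ n * r ^ (j + 2) := pow_add _ _ _
  have h4 : r ^ n = B ^ n * (1 / θ₀ ^ n) ^ 2 := by
    rw [hr, div_pow, ← pow_mul]
    rw [one_div, inv_pow, ← pow_mul, mul_comm n 2]
    rfl
  rw [h3, h4]
  have h5 : r ^ (j + 2) ≠ 0 := by positivity
  push_cast
  field_simp
  ring

end Pool.Agent.Helper59.MF
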