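import Pool.Agent.Helper59.MF.LocA

/-!
# MF-D: the base estimate
-/

set_option autoImplicit false

namespace Pool.Agent.Helper59.MF

open Finset MeasureTheory Filter Topology
open Pool.Agent.Helper59.RE (e norm_e e_add conj_e continuous_e e_zero norm_e_sub)

variable {a b θ₀ B C : ℝ} {f f1 f2 : ℕ → ℝ → ℝ}

/-- the error of the linearisation -/
noncomputable def er (f1 : ℕ → ℝ → ℝ) (θ₀ B C θ x : ℝ) (Q : Polynomial ℤ) (n : ℕ) : ℝ :=
  ∑ j ∈ range (Q.natDegree + 1), |(Q.coeff j : ℝ)| *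
    (C * ((n + 1 + j : ℕ) + 1 : ℝ) ^ 2 * B ^ (n + 1 + j) * (1 / θ₀ ^ n) ^ 2 +
      (θ + 1) * |f1 (n + 1 + j) x / f1 (n + 1) x - θ ^ j|)

theorem er_tendsto (hf : Fam a b θ₀ B C f f1 f2) (hB : B < θ₀ ^ 2) {x : ℝ} (hx : x ∈ Set.Icc a b)
    {θ : ℝ} (hr : Tendsto (fun n : ℕ => f1 (n + 1) x / f1 n x) atTop (𝓝 θ)) (Q : Polynomial ℤ) :
    Tendsto (er f1 θ₀ B C θ x Q) atTop (𝓝 0) := by
  have h : Tendsto (er f1 θ₀ B C θ x Q) atTop (𝓝 (∑ j ∈ range (Q.natDegree + 1),
      |(Q.coeff j : ℝ)| * (0 + (θ + 1) * |θ ^ j - θ ^ j|))) := by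
    refine tendsto_finsetSum _ fun j _ => ?_
    refine Tendsto.const_mul _ ?_
    refine (poly_geom hf.B_pos hf.th_pos hB C j).add ?_
    exact (((ratio hf hx hr j).sub_const _).abs).const_mul _
  simpa using h

theorem cell_len (hf : Fam a b θ₀ B C f f1 f2) {η x p q : ℝ} (hη1 : η ≤ 1) {n : ℕ}
    (hc : Cell f1 a b η x n p q) : q - p ≤ 1 / θ₀ ^ n := by
  have hpq : p ≤ q := hc.px.trans hc.xq
  have hq : q ∈ Set.Icc a b := ⟨hc.ap.trans hpq, hc.qb⟩
  have h1 := hf.f1_ge hq n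
  have h2 := hc.hi
  rw [le_div_iff₀ (pow_pos hf.th_pos n)]
  have h3 : (q - p) * θ₀ ^ n ≤ (q - p) * f1 n q := mul_le_mul_of_nonneg_left h1 (by linarith)
  linarith

theorem base (hf : Fam a b θ₀ B C f f1 f2) (hB : B < θ₀ ^ 2) {x : ℝ} (hx : x ∈ Set.Icc a b)
    {θ : ℝ} (hr : Tendsto (fun n : ℕ => f1 (n + 1) x / f1 n x) atTop (𝓝 θ)) (hθ : 0 < θ) {η : ℝ}
    (hη : 0 < η) (hη1 : η ≤ 1)
    (Q : Polynomial ℤ) (δ : ℝ) (hδ : 0 < δ) : ∀ᶠ n : ℕ in atTop, ∀ p q : ℝ, Cell f1 a b η x n p q →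
      ‖∫ y in p..q, e (ph f (n + 1) Q y)‖ ≤ (q - p) * (cap (4 / η) (Polynomial.aeval θ Q) + δ) := by
  have hpi := Real.pi_pos
  have h1 : ∀ᶠ n : ℕ in atTop, er f1 θ₀ B C θ x Q n < δ / (2 * Real.pi) :=
    (er_tendsto hf hB hx hr Q).eventually (gt_mem_nhds (by positivity))
  have h2 : ∀ᶠ n : ℕ in atTop, f1 (n + 1) x / f1 n x < θ + 1 := hr.eventually (gt_mem_nhds (by linarith))
  filter_upwards [h1, h2] with n h1 h2 p q hc
  have hpq : p ≤ q := hc.px.trans hc.xq
  have hxm : x ∈ Set.Icc p q := ⟨hc.px, hc.xq⟩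
  set v : ℝ := Polynomial.aeval θ Q with hv
  set β : ℝ := f1 (n + 1) x * v with hβ
  set α : ℝ := ph f (n + 1) Q x with hα
  have hpos1 := hf.f1_pos hx (n + 1)
  have hpos := hf.f1_pos hx n
  have hlen := cell_len hf hη1 hc
  have hpI : p ∈ Set.Icc a b := ⟨hc.ap, hpq.trans hc.qb⟩
  have hqI : q ∈ Set.Icc a b := ⟨hc.ap.trans hpq, hc.qb⟩
  -- the size of the cell
  have hup : (q - p) * f1 n x ≤ η :=
    (mul_le_mul_of_nonneg_left (hf.f1_mono n hx hqI hc.xq) (by linarith)).trans hc.hi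
  have hup1 : (q - p) * f1 (n + 1) x ≤ θ + 1 := by
    rw [div_lt_iff₀ hpos] at h2
    have h3 : (q - p) * f1 (n + 1) x ≤ (q - p) * ((θ + 1) * f1 n x) :=
      mul_le_mul_of_nonneg_left h2.le (by linarith)
    have h4 : (q - p) * ((θ + 1) * f1 n x) = (θ + 1) * ((q - p) * f1 n x) := by ring
    have h5 : (θ + 1) * ((q - p) * f1 n x) ≤ (θ + 1) * 1 :=
      mul_le_mul_of_nonneg_left (hup.trans hη1) (by linarith)
    linarith
  have hlow1 : η / 4 ≤ (q - p) * f1 (n + 1) x := by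
    refine hc.lo.trans (mul_le_mul_of_nonneg_left ?_ (by linarith))
    have h3 := hf.f1_mono n hpI hx hc.px
    have h4 := hf.g1 n x hx
    have h5 := hf.hθ
    nlinarith
  -- the phase
  have hphase : ∀ y ∈ Set.Icc p q, |ph f (n + 1) Q y - (α + β * (y - x))| ≤
      er f1 θ₀ B C θ x Q n := by
    intro y hy
    have e1 : ph f (n + 1) Q y - (α + β * (y - x)) = ∑ j ∈ range (Q.natDegree + 1),
        (Q.coeff j : ℝ) * ((f (n + 1 + j) y - f (n + 1 + j) x - f1 (n + 1 + j) x * (y - x)) +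
          (f1 (n + 1 + j) x - f1 (n + 1) x * θ ^ j) * (y - x)) := by
      rw [hβ, hv, aeval_sum, hα]
      unfold ph
      rw [mul_sum, sum_mul, ← sum_add_distrib, ← sum_sub_distrib]
      refine sum_congr rfl fun j _ => ?_
      ring
    rw [e1]
    refine (abs_sum_le_sum_abs _ _).trans (sum_le_sum fun j _ => ?_)
    rw [abs_mul]
    refine mul_le_mul_of_nonneg_left ?_ (abs_nonneg _)
    refine (abs_add_le _ _).trans (add_le_add ?_ ?_)
    · have h3 := hf.taylor (n + 1 + j) (K := C * ((n + 1 + j : ℕ) + 1 : ℝ) ^ 2 * B ^ (n + 1 + j))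
        hc.ap hc.qb (fun z hz => hf.u2 _ z ⟨hc.ap.trans hz.1, hz.2.trans hc.qb⟩) hxm hy
      refine h3.trans (mul_le_mul_of_nonneg_left ?_ ?_)
      · exact pow_le_pow_left₀ (by linarith) hlen 2
      · have := hf.C_ge
        have := hf.B_pos
        positivity
    · rw [abs_mul]
      have h3 : |y - x| ≤ q - p := by
        rw [abs_le]; constructor <;> linarith [hc.px, hc.xq, hy.1, hy.2]
      have h4 : f1 (n + 1 + j) x - f1 (n + 1) x * θ ^ j =
          f1 (n + 1) x * (f1 (n + 1 + j) x / f1 (n + 1) x - θ ^ j) := by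
        rw [mul_sub, mul_div_cancel₀ _ hpos1.ne']
      rw [h4, abs_mul, abs_of_pos hpos1]
      have h5 : f1 (n + 1) x * |f1 (n + 1 + j) x / f1 (n + 1) x - θ ^ j| * |y - x| ≤
          f1 (n + 1) x * |f1 (n + 1 + j) x / f1 (n + 1) x - θ ^ j| * (q - p) :=
        mul_le_mul_of_nonneg_left h3 (by positivity)
      refine h5.trans ?_
      have h6 := mul_le_mul_of_nonneg_right hup1
        (abs_nonneg (f1 (n + 1 + j) x / f1 (n + 1) x - θ ^ j))
      linarith
  -- the linear phase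
  have hlin : ‖∫ y in p..q, e (α + β * (y - x))‖ ≤ (q - p) * cap (4 / η) v := by
    by_cases h3 : |v| ≤ 4 / η
    · have h4 : cap (4 / η) v = 1 := by
        unfold cap
        rw [max_eq_left h3, div_self (by positivity)]
      rw [h4, mul_one]
      exact int_le hpq _
    · push Not at h3
      have hv0 : 0 < |v| := lt_trans (by positivity) h3
      have h4 : cap (4 / η) v = 4 / η / |v| := by
        unfold cap
        rw [max_eq_right h3.le]
      have hβ0 : β ≠ 0 := mul_ne_zero hpos1.ne' (abs_pos.1 hv0)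
      refine (int_lin hpq α β x hβ0).trans ?_
      rw [h4, hβ, abs_mul, abs_of_pos hpos1, div_le_iff₀ (by positivity)]
      have h5 : (q - p) * (4 / η / |v|) * (f1 (n + 1) x * |v|) = 4 / η * ((q - p) * f1 (n + 1) x) := by
        field_simp
      rw [h5]
      have h6 : 4 / η * (η / 4) ≤ 4 / η * ((q - p) * f1 (n + 1) x) :=
        mul_le_mul_of_nonneg_left hlow1 (by positivity)
      have h7 : 4 / η * (η / 4) = 1 := by field_simp
      linarith
  have hi1 : IntervalIntegrable (fun y => e (ph f (n + 1) Q y)) volume p q :=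
    (continuous_e.comp (ph_cont hf _ _)).intervalIntegrable _ _
  have hi2 : IntervalIntegrable (fun y => e (α + β * (y - x))) volume p q := by
    apply Continuous.intervalIntegrable
    exact continuous_e.comp (by fun_prop)
  have hdiff : ‖(∫ y in p..q, e (ph f (n + 1) Q y)) - ∫ y in p..q, e (α + β * (y - x))‖ ≤
      δ * (q - p) := by
    rw [← intervalIntegral.integral_sub hi1 hi2]
    have h3 := intervalIntegral.norm_integral_le_of_norm_le_const (a := p) (b := q) (C := δ)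
      (f := fun y => e (ph f (n + 1) Q y) - e (α + β * (y - x))) (fun y hy => by
        rw [Set.uIoc_of_le hpq] at hy
        refine (norm_e_sub _ _).trans ?_
        have h4 := hphase y ⟨hy.1.le, hy.2⟩
        have h5 : 2 * Real.pi * |ph f (n + 1) Q y - (α + β * (y - x))| ≤
            2 * Real.pi * (δ / (2 * Real.pi)) :=
          mul_le_mul_of_nonneg_left (h4.trans h1.le) (by positivity)
        refine h5.trans (le_of_eq ?_)
        field_simp)
    rwa [abs_of_nonneg (by linarith : 0 ≤ q - p)] at h3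
  have h3 : ‖∫ y in p..q, e (ph f (n + 1) Q y)‖ ≤
      ‖(∫ y in p..q, e (ph f (n + 1) Q y)) - ∫ y in p..q, e (α + β * (y - x))‖ +
        ‖∫ y in p..q, e (α + β * (y - x))‖ := by
    have := norm_add_le ((∫ y in p..q, e (ph f (n + 1) Q y)) - ∫ y in p..q, e (α + β * (y - x)))
      (∫ y in p..q, e (α + β * (y - x)))
    rwa [sub_add_cancel] at this
  linarith

end Pool.Agent.Helper59.MF
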