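import Pool.Agent.Helper59.MF.TreeA

/-!
# MF-A: large bases
-/

set_option autoImplicit false

namespace Pool.Agent.Helper59.MF

open Finset MeasureTheory Filter Topology

variable {H : ℕ} {W : ℤ → ℝ} {θ r ρ : ℝ}

theorem La_single (hr : r < 1 / 2) {F : ℝ → ℝ} {y : ℝ} {k0 : ℤ} (hk : k0 ∈ Icc (-(H : ℤ)) H)
    (h : |θ * y + k0| ≤ r) :
    La H W θ (fun z => if |z| ≤ r then F z else 0) y = W k0 * F (θ * y + k0) := by
  unfold La
  rw [sum_eq_single k0 _ (fun hn => absurd hk hn)]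
  · simp only [if_pos h]
  · intro k _ hne
    have h1 : ¬ |θ * y + k| ≤ r := by
      intro h2
      have h3 : |((k - k0 : ℤ) : ℝ)| < 1 := by
        push_cast
        have := abs_sub (θ * y + k) (θ * y + k0)
        have h4 : (θ * y + k) - (θ * y + k0) = (k : ℝ) - k0 := by ring
        rw [h4] at this
        linarith
      have h5 : |k - k0| < 1 := by exact_mod_cast h3
      have h6 := Int.abs_lt_one_iff.1 h5
      apply hne; omega
    simp only [if_neg h1, mul_zero]

theorem La_none {F : ℝ → ℝ} {y : ℝ} (h : ∀ k ∈ Icc (-(H : ℤ)) H, ¬ |θ * y + k| ≤ r) :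
    La H W θ (fun z => if |z| ≤ r then F z else 0) y = 0 := by
  unfold La
  exact sum_eq_zero fun k hk => by simp only [if_neg (h k hk), mul_zero]

/-- parameters -/
structure Pb (H : ℕ) (W : ℤ → ℝ) (θ r ρ : ℝ) : Prop where
  hθ : 1 < θ
  r0 : 0 < r
  r1 : r < 1 / 2
  hn : ∀ k, 0 ≤ W k
  h0 : W 0 = 1
  ρ0 : 0 ≤ ρ
  ρ1 : ρ < 1
  h1 : ∀ k ∈ Icc (-(H : ℤ)) H, k ≠ 0 → W k ≤ ρ

theorem sv_le_one (hP : Pb H W θ r ρ) (m : ℕ) (y : ℝ) : sv H W θ r m y ≤ 1 := by
  induction m generalizing y with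
  | zero => exact le_refl _
  | succ m ih =>
    simp only [sv]
    by_cases h : ∃ k ∈ Icc (-(H : ℤ)) H, |θ * y + k| ≤ r
    · obtain ⟨k, hk, hy⟩ := h
      rw [La_single hP.r1 hk hy]
      have h1 : W k ≤ 1 := by
        by_cases h2 : k = 0
        · rw [h2, hP.h0]
        · exact (hP.h1 k hk h2).trans hP.ρ1.le
      exact mul_le_one₀ h1 (sv_nonneg hP.hn _ _) (ih _)
    · push Not at h
      rw [La_none (fun k hk => not_le.2 (h k hk))]
      exact zero_le_one

theorem dec_big (hP : Pb H W θ r ρ) (ht : Transcendental ℤ θ) (l : ℕ) :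
    ∀ p : Polynomial ℤ, p ≠ 0 → |Polynomial.aeval θ p| ≤ r →
      ∃ M : ℕ, ∀ m, M ≤ m → sv H W θ r m (Polynomial.aeval θ p) ≤ ρ ^ l := by
  have hθ := hP.hθ
  induction l with
  | zero =>
    intro p _ _
    exact ⟨0, fun m _ => by rw [pow_zero]; exact sv_le_one hP m _⟩
  | succ l ih =>
    have key : ∀ n : ℕ, ∀ p : Polynomial ℤ, p ≠ 0 → |Polynomial.aeval θ p| ≤ r →
        r < θ ^ n * |Polynomial.aeval θ p| →
        ∃ M : ℕ, ∀ m, M ≤ m → sv H W θ r m (Polynomial.aeval θ p) ≤ ρ ^ (l + 1) := by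
      intro n
      induction n with
      | zero => intro p _ h hn; rw [pow_zero, one_mul] at hn; exact absurd h (not_le.2 hn)
      | succ n ihn =>
        intro p hp h hn
        set y := Polynomial.aeval θ p with hy
        by_cases h1 : ∃ k ∈ Icc (-(H : ℤ)) H, |θ * y + k| ≤ r
        · obtain ⟨k, hk, hk1⟩ := h1
          have hc : Polynomial.aeval θ (Polynomial.X * p + Polynomial.C k) = θ * y + k :=
            aeval_step θ p _
          have hp2 : Polynomial.X * p + Polynomial.C k ≠ 0 := step_ne (Or.inl hp)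
          by_cases h2 : k = 0
          · obtain ⟨M, hM⟩ := ihn _ hp2 (by rw [hc]; exact hk1) (by
              rw [hc, h2]; push_cast
              rw [add_zero, abs_mul, abs_of_pos (by linarith : 0 < θ)]
              rw [pow_succ] at hn; linarith)
            rw [hc] at hM
            refine ⟨M + 1, fun m hm => ?_⟩
            obtain ⟨m, rfl⟩ : ∃ m', m = m' + 1 := ⟨m - 1, by omega⟩
            simp only [sv]
            rw [La_single hP.r1 hk hk1]
            have h3 : W k = 1 := by rw [h2, hP.h0]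
            rw [h3, one_mul]
            exact hM m (by omega)
          · obtain ⟨M, hM⟩ := ih _ hp2 (by rw [hc]; exact hk1)
            rw [hc] at hM
            refine ⟨M + 1, fun m hm => ?_⟩
            obtain ⟨m, rfl⟩ : ∃ m', m = m' + 1 := ⟨m - 1, by omega⟩
            simp only [sv]
            rw [La_single hP.r1 hk hk1, pow_succ, mul_comm (ρ ^ l)]
            exact mul_le_mul (hP.h1 k hk h2) (hM m (by omega)) (sv_nonneg hP.hn _ _) hP.ρ0
        · push Not at h1
          refine ⟨1, fun m hm => ?_⟩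
          obtain ⟨m, rfl⟩ : ∃ m', m = m' + 1 := ⟨m - 1, by omega⟩
          simp only [sv]
          rw [La_none (fun k hk => not_le.2 (h1 k hk))]
          exact pow_nonneg hP.ρ0 _
    intro p hp h
    have h0 : 0 < |Polynomial.aeval θ p| := abs_pos.2 (aeval_ne ht hp)
    obtain ⟨n, hn⟩ := pow_unbounded_of_one_lt (r / |Polynomial.aeval θ p|) hθ
    exact key n p hp h ((div_lt_iff₀ h0).1 hn)

theorem good_big {H : ℕ} {W : ℤ → ℝ} {θ ρ : ℝ} (hθ : 2 * H + 1 < θ) (ht : Transcendental ℤ θ)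
    (hn : ∀ k, 0 ≤ W k) (h0 : W 0 = 1) (hρ : ρ < 1) (h1 : ∀ k ∈ (Icc (-(H : ℤ)) H).erase 0, W k ≤ ρ) :
    Good H W θ := by
  have hH : (0 : ℝ) ≤ H := Nat.cast_nonneg H
  have hlt : (H : ℝ) / (θ - 1) < 1 / 2 := by
    rw [div_lt_iff₀ (by linarith)]; linarith
  have hR0 : 0 ≤ (H : ℝ) / (θ - 1) := div_nonneg hH (by linarith)
  set r : ℝ := ((H : ℝ) / (θ - 1) + 1 / 2) / 2 with hr
  set ρ' : ℝ := max ρ 0 with hρ'
  have hP : Pb H W θ r ρ' := by
    refine ⟨by linarith, by linarith, by linarith, hn, h0, le_max_right _ _,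
      max_lt hρ one_pos, fun k hk hk0 => (h1 k (mem_erase.2 ⟨hk0, hk⟩)).trans (le_max_left _ _)⟩
  refine ⟨r, by linarith, fun p hp h => ?_⟩
  rw [Metric.tendsto_atTop]
  intro ε hε
  obtain ⟨l, hl⟩ := exists_pow_lt_of_lt_one hε hP.ρ1
  obtain ⟨M, hM⟩ := dec_big hP ht l p hp h
  refine ⟨M, fun m hm => ?_⟩
  rw [Real.dist_eq, sub_zero, abs_of_nonneg (sv_nonneg hP.hn _ _)]
  exact (hM m hm).trans_lt hl

end Pool.Agent.Helper59.MF
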