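import Pool.Agent.Helper59.MF.TreeB
import Pool.Agent.Helper59.MF.TreeC
import Pool.Agent.Helper59.MF.TreeD

/-!
# MF-A: resonances

`good_one` (H = 1, θ > 1 + √2): let `R = 1/(θ-1)`, `r` slightly larger with `r (1 + 1/θ) < 1`.
`A = {|y| ≤ r/θ}`, `B = {r/θ < |y| ≤ r}`, `V = 1` on `A`, `1/2` on `B`.  From `B` only one digit survives
(weight ≤ 1/2).  From `A` either only the digit 0, or (if `|θ y| ≥ 1 - r > r/θ`) the digits 0 and `∓1`
with both children in `B`.  So `U_m y = ∑ (weights) V(end)` is nonincreasing and for `y = p(θ) ≠ 0` it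
is `≤ (3/4)^l V y` for `m ≥ m(y,l)`: induction on `l`, run until the first loss (the zero digits stop
since `|y|` grows by `θ`), the children are again `q(θ)`, `q ≠ 0`, since `θ` is transcendental.

`good_big` (θ > 2H+1): `r < 1/2`, at most one digit survives, weights `≤ ρ < 1` unless the digit is 0.

`la_tendsto`: exit decomposition.  `La^m cap ≤ sv_m + ∑_(j<m) sv_j (1+w) C q^(m-j)`, `q = (1+w)/θ`: outside of
`[-r,r]` one has `|θ z + k| - R ≥ θ (|z| - R)`, `R = H/(θ-1)`.
-/
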