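import Pool.Agent.Helper59.MF.LocB
import Pool.Agent.Helper59.MF.Tree

/-!
# MF-D: expansion of the product
-/

set_option autoImplicit false

namespace Pool.Agent.Helper59.MF

open Finset MeasureTheory Filter Topology
open Pool.Agent.Helper59.RE (e norm_e e_add conj_e continuous_e e_zero norm_e_sub)

variable {H : ℕ} {G : ℤ → ℂ} {g : ℝ → ℝ} {a b θ₀ B C : ℝ} {f f1 f2 : ℕ → ℝ → ℝ}

/-- `F` bounds the averages of `Ψ n` times the phases of the levels `≥ n + s` -/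
structure BD (f f1 : ℕ → ℝ → ℝ) (a b η x θ : ℝ) (s : ℕ) (Ψ : ℕ → ℝ → ℂ) (F : ℝ → ℝ) : Prop where
  ct : ∀ n, Continuous (Ψ n)
  bd : ∀ Q : Polynomial ℤ, ∀ δ : ℝ, 0 < δ → ∀ᶠ n : ℕ in atTop, ∀ p q : ℝ, Cell f1 a b η x n p q →
    ‖∫ y in p..q, Ψ n y * e (ph f (n + s) Q y)‖ ≤ (q - p) * (F (Polynomial.aeval θ Q) + δ)

theorem BD.step (hf : Fam a b θ₀ B C f f1 f2) {η x θ : ℝ} {s : ℕ} {Ψ : ℕ → ℝ → ℂ} {F : ℝ → ℝ}
    (h : BD f f1 a b η x θ s Ψ F) {ι : Type*} (S : Finset ι) (κ : ι → ℤ) (c : ι → ℂ) :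
    BD f f1 a b η x θ (s + 1) (fun n y => Ψ n y * ∑ i ∈ S, c i * e (κ i * f (n + s) y))
      (fun y => ∑ i ∈ S, ‖c i‖ * F (θ * y + κ i)) := by
  have hce : ∀ n, ∀ i, Continuous (fun y => e (κ i * f (n + s) y)) := fun n i =>
    continuous_e.comp (continuous_const.mul (hf.cf _))
  refine ⟨fun n => (h.ct n).mul (continuous_finsetSum _ fun i _ => continuous_const.mul (hce n i)),
    fun Q δ hδ => ?_⟩
  set T : ℝ := 1 + ∑ i ∈ S, ‖c i‖ with hT
  have hT0 : 0 < T := by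
    have : 0 ≤ ∑ i ∈ S, ‖c i‖ := sum_nonneg fun i _ => norm_nonneg _
    linarith
  have h1 : ∀ᶠ n : ℕ in atTop, ∀ i ∈ S, ∀ p q : ℝ, Cell f1 a b η x n p q →
      ‖∫ y in p..q, Ψ n y * e (ph f (n + s) (Polynomial.X * Q + Polynomial.C (κ i)) y)‖ ≤
        (q - p) * (F (Polynomial.aeval θ (Polynomial.X * Q + Polynomial.C (κ i))) + δ / T) := by
    rw [eventually_all_finset]
    intro i _
    exact h.bd _ _ (div_pos hδ hT0)
  filter_upwards [h1] with n h1 p q hc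
  have hpq : p ≤ q := hc.px.trans hc.xq
  have e1 : ∀ y, Ψ n y * (∑ i ∈ S, c i * e (κ i * f (n + s) y)) * e (ph f (n + (s + 1)) Q y) =
      ∑ i ∈ S, c i * (Ψ n y * e (ph f (n + s) (Polynomial.X * Q + Polynomial.C (κ i)) y)) := by
    intro y
    rw [mul_sum, sum_mul]
    refine sum_congr rfl fun i _ => ?_
    rw [ph_step, e_add, show n + (s + 1) = n + s + 1 by ring]
    ring
  have e2 : (∫ y in p..q, Ψ n y * (∑ i ∈ S, c i * e (κ i * f (n + s) y)) *
      e (ph f (n + (s + 1)) Q y)) = ∑ i ∈ S, c i * ∫ y in p..q, Ψ n y *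
        e (ph f (n + s) (Polynomial.X * Q + Polynomial.C (κ i)) y) := by
    simp only [e1]
    rw [intervalIntegral.integral_finsetSum]
    · exact sum_congr rfl fun i _ => intervalIntegral.integral_const_mul _ _
    · intro i _
      exact (continuous_const.mul ((h.ct n).mul
        (continuous_e.comp (ph_cont hf _ _)))).intervalIntegrable _ _
  rw [e2]
  have e3 : ∀ i ∈ S, ‖c i * ∫ y in p..q, Ψ n y *
      e (ph f (n + s) (Polynomial.X * Q + Polynomial.C (κ i)) y)‖ ≤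
      (q - p) * (‖c i‖ * F (θ * Polynomial.aeval θ Q + κ i)) + (q - p) * (δ / T) * ‖c i‖ := by
    intro i hi
    rw [norm_mul]
    have h2 := mul_le_mul_of_nonneg_left (h1 i hi p q hc) (norm_nonneg (c i))
    rw [aeval_step] at h2
    linarith
  refine (norm_sum_le _ _).trans ((sum_le_sum e3).trans ?_)
  rw [sum_add_distrib, ← mul_sum, ← mul_sum]
  have h3 : δ / T * ∑ i ∈ S, ‖c i‖ ≤ δ := by
    rw [div_mul_eq_mul_div, div_le_iff₀ hT0]
    refine mul_le_mul_of_nonneg_left ?_ hδ.le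
    linarith
  have h4 : (q - p) * (δ / T) * ∑ i ∈ S, ‖c i‖ ≤ (q - p) * δ := by
    rw [mul_assoc]
    exact mul_le_mul_of_nonneg_left h3 (by linarith)
  linarith

theorem BD.iter (hg : Dens H G g) (hf : Fam a b θ₀ B C f f1 f2) {η x θ : ℝ} {s : ℕ} {Ψ : ℕ → ℝ → ℂ}
    {F : ℝ → ℝ} (h : BD f f1 a b η x θ s Ψ F) (t : ℕ) :
    BD f f1 a b η x θ (s + t) (fun n y => Ψ n y * (Rp g f (n + s) (n + s + t) y : ℂ))
      ((La H (fun k => ‖G k‖) θ)^[t] F) := by
  induction t with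
  | zero =>
    have e1 : (fun (n : ℕ) (y : ℝ) => Ψ n y * (Rp g f (n + s) (n + s + 0) y : ℂ)) = Ψ := by
      funext n y
      simp [Rp]
    rw [e1]
    exact h
  | succ t ih =>
    have h1 := ih.step hf (Icc (-(H : ℤ)) H) id G
    have e1 : (fun (n : ℕ) (y : ℝ) => Ψ n y * (Rp g f (n + s) (n + s + t) y : ℂ) *
        ∑ i ∈ Icc (-(H : ℤ)) H, G i * e ((id i : ℤ) * f (n + (s + t)) y)) =
        (fun (n : ℕ) (y : ℝ) => Ψ n y * (Rp g f (n + s) (n + s + (t + 1)) y : ℂ)) := by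
      funext n y
      have e2 : Rp g f (n + s) (n + s + (t + 1)) y =
          Rp g f (n + s) (n + s + t) y * g (f (n + (s + t)) y) := by
        unfold Rp
        rw [← add_assoc, prod_Ico_succ_top (by omega), add_assoc n s t]
      rw [e2]
      push_cast
      rw [hg.eq]
      simp only [id]
      ring
    rw [e1] at h1
    rw [Function.iterate_succ_apply']
    exact h1

theorem la_it_tendsto {W : ℤ → ℝ} {θ : ℝ} (Φ : ℕ → ℝ → ℝ)
    (hΦ : ∀ Q : Polynomial ℤ, Tendsto (fun m => Φ m (Polynomial.aeval θ Q)) atTop (𝓝 0)) (t : ℕ) :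
    ∀ Q : Polynomial ℤ,
      Tendsto (fun m => (La H W θ)^[t] (Φ m) (Polynomial.aeval θ Q)) atTop (𝓝 0) := by
  induction t with
  | zero => exact hΦ
  | succ t ih =>
    intro Q
    have h1 : ∀ m, (La H W θ)^[t + 1] (Φ m) (Polynomial.aeval θ Q) =
        ∑ k ∈ Icc (-(H : ℤ)) H, W k * (La H W θ)^[t] (Φ m)
          (Polynomial.aeval θ (Polynomial.X * Q + Polynomial.C k)) := by
      intro m
      rw [Function.iterate_succ_apply']
      unfold La
      exact sum_congr rfl fun k _ => by rw [aeval_step]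
    simp only [h1]
    have h2 : Tendsto (fun m => ∑ k ∈ Icc (-(H : ℤ)) H, W k * (La H W θ)^[t] (Φ m)
        (Polynomial.aeval θ (Polynomial.X * Q + Polynomial.C k))) atTop
        (𝓝 (∑ k ∈ Icc (-(H : ℤ)) H, W k * 0)) :=
      tendsto_finsetSum _ fun k _ => (ih _).const_mul _
    simpa using h2

/-- the frequencies of `(e(h u) - c) g(u)` -/
noncomputable def SS (H : ℕ) (h : ℤ) : Finset (ℤ ⊕ ℤ) :=
  ((Icc (-(H : ℤ)) H).erase (-h)).disjSum ((Icc (-(H : ℤ)) H).erase 0)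

/-- the digit -/
def kk (h : ℤ) : ℤ ⊕ ℤ → ℤ := Sum.elim (fun k => k + h) id

/-- the coefficient -/
noncomputable def co (G : ℤ → ℂ) (c : ℂ) : ℤ ⊕ ℤ → ℂ := Sum.elim G (fun k => -c * G k)

theorem kk_ne {H : ℕ} {h : ℤ} {i : ℤ ⊕ ℤ} (hi : i ∈ SS H h) : kk h i ≠ 0 := by
  unfold SS at hi
  rw [mem_disjSum] at hi
  rcases hi with ⟨k, hk, rfl⟩ | ⟨k, hk, rfl⟩
  · have := (mem_erase.1 hk).1
    unfold kk
    simp only [Sum.elim_inl]
    omega
  · exact (mem_erase.1 hk).1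

theorem mid_eq (hg : Dens H G g) (h : ℤ) (u : ℝ) :
    (g u : ℂ) * (e (h * u) - cc H G h) =
      ∑ i ∈ SS H h, co G (cc H G h) i * e (kk h i * u) := by
  unfold SS
  rw [sum_disjSum]
  simp only [co, kk, Sum.elim_inl, Sum.elim_inr, id]
  have h1 : (g u : ℂ) * cc H G h = cc H G h + ∑ k ∈ (Icc (-(H : ℤ)) H).erase 0, cc H G h * G k * e (k * u) := by
    rw [hg.eq, ← add_sum_erase _ _ (show (0 : ℤ) ∈ Icc (-(H : ℤ)) H by rw [mem_Icc]; omega), hg.zero,
      add_mul, sum_mul]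
    push_cast
    rw [zero_mul, e_zero, one_mul, one_mul]
    congr 1
    refine sum_congr rfl fun k _ => ?_
    ring
  have h2 : (g u : ℂ) * e (h * u) = cc H G h +
      ∑ k ∈ (Icc (-(H : ℤ)) H).erase (-h), G k * e ((k + h : ℤ) * u) := by
    have h3 : (g u : ℂ) * e (h * u) = ∑ k ∈ Icc (-(H : ℤ)) H, G k * e ((k + h : ℤ) * u) := by
      rw [hg.eq, sum_mul]
      refine sum_congr rfl fun k _ => ?_
      push_cast
      rw [add_mul, e_add]
      ring
    rw [h3]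
    unfold cc
    by_cases h4 : -h ∈ Icc (-(H : ℤ)) H
    · rw [if_pos h4, ← add_sum_erase _ _ h4]
      congr 1
      rw [neg_add_cancel]
      push_cast
      rw [zero_mul, e_zero, mul_one]
    · rw [if_neg h4, erase_eq_of_notMem h4, zero_add]
  rw [mul_sub, h1, h2]
  have h5 : ∑ k ∈ (Icc (-(H : ℤ)) H).erase 0, -cc H G h * G k * e (k * u) =
      -∑ k ∈ (Icc (-(H : ℤ)) H).erase 0, cc H G h * G k * e (k * u) := by
    rw [← sum_neg_distrib]
    exact sum_congr rfl fun k _ => by ring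
  rw [h5]
  ring

/-- the bound for the middle level -/
noncomputable def Ph (H : ℕ) (G : ℤ → ℂ) (θ c : ℝ) (h : ℤ) (m : ℕ) (y : ℝ) : ℝ :=
  ∑ i ∈ SS H h, ‖co G (cc H G h) i‖ * (La H (fun k => ‖G k‖) θ)^[m] (cap c) (θ * y + kk h i)

theorem Ph_tendsto {θ c : ℝ} (hH : H + 1 < θ) (h0 : G 0 = 1)
    (hw : 1 + ww H G < θ) (hG : Good H (fun k => ‖G k‖) θ) (hc : 0 < c) (h : ℤ) (Q : Polynomial ℤ) :
    Tendsto (fun m => Ph H G θ c h m (Polynomial.aeval θ Q)) atTop (𝓝 0) := by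
  have h1 : ∀ m, Ph H G θ c h m (Polynomial.aeval θ Q) = ∑ i ∈ SS H h, ‖co G (cc H G h) i‖ *
      (La H (fun k => ‖G k‖) θ)^[m] (cap c)
        (Polynomial.aeval θ (Polynomial.X * Q + Polynomial.C (kk h i))) := by
    intro m
    unfold Ph
    exact sum_congr rfl fun i _ => by rw [aeval_step]
  simp only [h1]
  have h2 : Tendsto (fun m => ∑ i ∈ SS H h, ‖co G (cc H G h) i‖ *
      (La H (fun k => ‖G k‖) θ)^[m] (cap c)
        (Polynomial.aeval θ (Polynomial.X * Q + Polynomial.C (kk h i)))) atTop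
      (𝓝 (∑ i ∈ SS H h, ‖co G (cc H G h) i‖ * 0)) := by
    refine tendsto_finsetSum _ fun i hi => Tendsto.const_mul _ ?_
    exact la_tendsto hH (fun k => norm_nonneg _) (by simp [h0]) hw hG hc _
      (step_ne (Or.inr (kk_ne hi)))
  simpa using h2

/-- the averages of the product of finitely many factors -/
theorem core (hg : Dens H G g) (hf : Fam a b θ₀ B C f f1 f2) (hB : B < θ₀ ^ 2) {x : ℝ}
    (hx : x ∈ Set.Icc a b) {θ : ℝ} (hr : Tendsto (fun n : ℕ => f1 (n + 1) x / f1 n x) atTop (𝓝 θ))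
    (hH : H + 1 < θ) (hw : 1 + ww H G < θ) (hG : Good H (fun k => ‖G k‖) θ) {η : ℝ}
    (hη : 0 < η) (hη1 : η ≤ 1) (h : ℤ) (t : ℕ) (ε : ℝ) (hε : 0 < ε) : ∀ᶠ m : ℕ in atTop,
      ∀ᶠ n : ℕ in atTop, ∀ p q : ℝ, Cell f1 a b η x n p q →
        ‖∫ y in p..q, (Rp g f (n + 1) (n + (1 + m) + 1 + t) y : ℂ) *
          (e (h * f (n + (1 + m)) y) - cc H G h)‖ ≤ (q - p) * ε := by
  have hθ : 0 < θ := by
    have : (0 : ℝ) ≤ H := Nat.cast_nonneg H
    linarith
  have hcap : (0 : ℝ) < 4 / η := by positivity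
  have h1 := la_it_tendsto (H := H) (W := fun k => ‖G k‖) (θ := θ) (Ph H G θ (4 / η) h)
    (Ph_tendsto hH hg.zero hw hG hcap h) t 0
  filter_upwards [h1.eventually (gt_mem_nhds (show (0 : ℝ) < ε / 2 by linarith))] with m hm
  -- the chain of estimates
  have b0 : BD f f1 a b η x θ 1 (fun _ _ => 1) (cap (4 / η)) := by
    refine ⟨fun n => continuous_const, fun Q δ hδ => ?_⟩
    filter_upwards [base hf hB hx hr hθ hη hη1 Q δ hδ] with n hn p q hc
    simp only [one_mul]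
    exact hn p q hc
  have b1 := b0.iter hg hf m
  have b2 := b1.step hf (SS H h) (kk h) (co G (cc H G h))
  have b3 := b2.iter hg hf t
  filter_upwards [b3.bd 0 (ε / 2) (by linarith)] with n hn p q hc
  have hpq : p ≤ q := hc.px.trans hc.xq
  have h2 := hn p q hc
  have e1 : ∀ y, 1 * (Rp g f (n + 1) (n + 1 + m) y : ℂ) *
      (∑ i ∈ SS H h, co G (cc H G h) i * e (kk h i * f (n + (1 + m)) y)) *
      (Rp g f (n + (1 + m + 1)) (n + (1 + m + 1) + t) y : ℂ) *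
        e (ph f (n + (1 + m + 1 + t)) 0 y) =
      (Rp g f (n + 1) (n + (1 + m) + 1 + t) y : ℂ) * (e (h * f (n + (1 + m)) y) - cc H G h) := by
    intro y
    rw [ph_zero, e_zero, ← mid_eq hg]
    have e2 : Rp g f (n + 1) (n + (1 + m) + 1 + t) y = Rp g f (n + 1) (n + 1 + m) y *
        (g (f (n + (1 + m)) y) * Rp g f (n + (1 + m + 1)) (n + (1 + m + 1) + t) y) := by
      unfold Rp
      rw [← prod_Ico_consecutive (fun i => g (f i y)) (show n + 1 ≤ n + 1 + m by omega)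
        (show n + 1 + m ≤ n + (1 + m) + 1 + t by omega)]
      congr 1
      rw [prod_eq_prod_Ico_succ_bot (by omega)]
      rw [show n + 1 + m = n + (1 + m) by ring, show n + (1 + m) + 1 = n + (1 + m + 1) by ring]
    rw [e2]
    push_cast
    ring
  simp only [e1] at h2
  refine h2.trans (mul_le_mul_of_nonneg_left ?_ (by linarith))
  have h3 : (La H (fun k => ‖G k‖) θ)^[t] (fun y => ∑ i ∈ SS H h, ‖co G (cc H G h) i‖ *
      (La H (fun k => ‖G k‖) θ)^[m] (cap (4 / η)) (θ * y + kk h i)) (Polynomial.aeval θ 0) < ε / 2 := hm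
  linarith

end Pool.Agent.Helper59.MF
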