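import Pool.Agent.Helper59.MF.LocA

/-!
# MF-D: the factors of low level are nearly constant
-/

set_option autoImplicit false

namespace Pool.Agent.Helper59.MF

open Finset MeasureTheory Filter Topology
open Pool.Agent.Helper59.RE (e norm_e e_add conj_e continuous_e e_zero norm_e_sub)

variable {g : ℝ → ℝ} {a b θ₀ B C : ℝ} {f f1 f2 : ℕ → ℝ → ℝ}

theorem Rp_var {L : ℝ} (hpos : ∀ t, 0 < g t)
    (hL : ∀ s t, g s ≤ Real.exp (L * |s - t|) * g t) (f : ℕ → ℝ → ℝ) (N : ℕ) (y z : ℝ) :
    Rp g f 0 N y ≤ Real.exp (L * ∑ i ∈ range N, |f i y - f i z|) * Rp g f 0 N z := by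
  unfold Rp
  simp only [Nat.Ico_zero_eq_range]
  induction N with
  | zero => simp
  | succ N ih =>
    rw [prod_range_succ, prod_range_succ, sum_range_succ, mul_add, Real.exp_add]
    have h1 := mul_le_mul ih (hL (f N y) (f N z)) (hpos _).le
      (mul_nonneg (Real.exp_pos _).le (prod_nonneg fun i _ => (hpos _).le))
    refine h1.trans (le_of_eq ?_)
    ring

theorem Fam.sum_f1 (hf : Fam a b θ₀ B C f f1 f2) {x : ℝ} (hx : x ∈ Set.Icc a b) (n : ℕ) :
    ∑ i ∈ range (n + 1), f1 i x ≤ θ₀ / (θ₀ - 1) * f1 n x := by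
  have hθ := hf.hθ
  have h0 : 0 < θ₀ - 1 := by linarith
  induction n with
  | zero =>
    rw [zero_add, sum_range_one]
    have h1 : 1 ≤ θ₀ / (θ₀ - 1) := by rw [le_div_iff₀ h0]; linarith
    have h2 := hf.f1_pos hx 0
    nlinarith
  | succ n ih =>
    rw [sum_range_succ]
    have h1 := hf.g1 n x hx
    have h2 : θ₀ / (θ₀ - 1) * f1 n x ≤ 1 / (θ₀ - 1) * f1 (n + 1) x := by
      rw [div_mul_eq_mul_div, div_mul_eq_mul_div, one_mul]
      exact div_le_div_of_nonneg_right h1 h0.le
    have h3 : θ₀ / (θ₀ - 1) * f1 (n + 1) x = 1 / (θ₀ - 1) * f1 (n + 1) x + f1 (n + 1) x := by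
      field_simp
      ring
    linarith

theorem Fam.sum_lip (hf : Fam a b θ₀ B C f f1 f2) {p q y z η : ℝ} (hp : a ≤ p) (hq : q ≤ b)
    (hy : y ∈ Set.Icc p q) (hz : z ∈ Set.Icc p q) (n : ℕ) (h : (q - p) * f1 n q ≤ η) :
    ∑ i ∈ range (n + 1), |f i y - f i z| ≤ θ₀ / (θ₀ - 1) * η := by
  have hθ := hf.hθ
  have hpq : p ≤ q := hy.1.trans hy.2
  have hqI : q ∈ Set.Icc a b := ⟨hp.trans hpq, hq⟩
  have h1 : ∀ i ∈ range (n + 1), |f i y - f i z| ≤ (q - p) * f1 i q := by
    intro i _
    have h2 := hf.lip i hp hq hz hy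
    have h3 : |y - z| ≤ q - p := by
      rw [abs_le]; constructor <;> linarith [hy.1, hy.2, hz.1, hz.2]
    have h4 := mul_le_mul_of_nonneg_left h3 (hf.f1_pos hqI i).le
    linarith
  refine (sum_le_sum h1).trans ?_
  rw [← mul_sum]
  have h2 := mul_le_mul_of_nonneg_left (hf.sum_f1 hqI n) (show 0 ≤ q - p by linarith)
  refine h2.trans ?_
  have h3 : 0 ≤ θ₀ / (θ₀ - 1) := div_nonneg (by linarith) (by linarith)
  have h4 := mul_le_mul_of_nonneg_left h h3
  linarith

theorem Rp_ps (hpos : ∀ t, 0 < g t) (f : ℕ → ℝ → ℝ) (j N : ℕ) (y : ℝ) : 0 < Rp g f j N y :=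
  prod_pos fun _ _ => hpos _

theorem Rp_ctn (hc : Continuous g) (hf : Fam a b θ₀ B C f f1 f2) (j N : ℕ) :
    Continuous (Rp g f j N) := by
  unfold Rp
  exact continuous_finsetProd _ fun i _ => hc.comp (hf.cf i)

/-- replacing the low factor by its value at `x` -/
theorem freeze {E : ℝ} (hE : 1 ≤ E) {p q : ℝ} (hpq : p ≤ q) {S R : ℝ → ℝ} {φ : ℝ → ℂ} {s : ℝ}
    (hS : Continuous S) (hR : Continuous R) (hφ : Continuous φ) (hS0 : ∀ y, 0 < S y)
    (hR0 : ∀ y, 0 ≤ R y) (hs : 0 < s) (h1 : ∀ y ∈ Set.Icc p q, S y ≤ E * s)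
    (h2 : ∀ y ∈ Set.Icc p q, s ≤ E * S y) (hφ2 : ∀ y, ‖φ y‖ ≤ 2) :
    ‖∫ y in p..q, ((S y * R y : ℝ) : ℂ) * φ y‖ ≤
      2 * (E - 1) * (∫ y in p..q, S y * R y) + s * ‖∫ y in p..q, (R y : ℂ) * φ y‖ := by
  have hRc : Continuous (fun y => (R y : ℂ)) := Complex.continuous_ofReal.comp hR
  have hSc : Continuous (fun y => (S y : ℂ)) := Complex.continuous_ofReal.comp hS
  have e1 : (∫ y in p..q, ((S y * R y : ℝ) : ℂ) * φ y) =
      (∫ y in p..q, (((S y - s) * R y : ℝ) : ℂ) * φ y) + s * ∫ y in p..q, (R y : ℂ) * φ y := by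
    rw [← intervalIntegral.integral_const_mul, ← intervalIntegral.integral_add]
    · refine intervalIntegral.integral_congr fun y _ => ?_
      push_cast
      ring
    · apply Continuous.intervalIntegrable
      exact (Complex.continuous_ofReal.comp ((hS.sub continuous_const).mul hR)).mul hφ
    · apply Continuous.intervalIntegrable
      exact continuous_const.mul (hRc.mul hφ)
  rw [e1]
  refine (norm_add_le _ _).trans (add_le_add ?_ (le_of_eq ?_))
  · refine (intervalIntegral.norm_integral_le_integral_norm hpq).trans ?_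
    rw [← intervalIntegral.integral_const_mul]
    refine intervalIntegral.integral_mono_on hpq ?_ ?_ fun y hy => ?_
    · apply Continuous.intervalIntegrable
      exact ((Complex.continuous_ofReal.comp ((hS.sub continuous_const).mul hR)).mul hφ).norm
    · apply Continuous.intervalIntegrable
      exact continuous_const.mul (hS.mul hR)
    · rw [norm_mul, Complex.norm_real, Real.norm_eq_abs, abs_mul, abs_of_nonneg (hR0 y)]
      have h3 : |S y - s| ≤ (E - 1) * S y := by
        rw [abs_le]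
        have h4 := h1 y hy
        have h5 := h2 y hy
        have h6 := hS0 y
        constructor
        · linarith
        · -- S y - s ≤ (1 - 1/E) S y ≤ (E-1) S y
          have h7 : S y ≤ E * s := h4
          have h8 : E * (S y - s) ≤ (E - 1) * S y := by linarith
          rcases le_or_gt (S y - s) 0 with h9 | h9
          · have : 0 ≤ (E - 1) * S y := mul_nonneg (by linarith) h6.le
            linarith
          · nlinarith
      have h4 : |S y - s| * R y * ‖φ y‖ ≤ ((E - 1) * S y) * R y * 2 := by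
        refine mul_le_mul (mul_le_mul_of_nonneg_right h3 (hR0 y)) (hφ2 y) (norm_nonneg _) ?_
        exact mul_nonneg (mul_nonneg (by linarith) (hS0 y).le) (hR0 y)
      linarith
  · rw [norm_mul, Complex.norm_real, Real.norm_eq_abs, abs_of_pos hs]

end Pool.Agent.Helper59.MF
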