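import Pool.Agent.Helper59.MF.Defs
import Pool.Agent.Helper82.FK.VC2

/-!
# MF-B: oscillation and mass of the Riesz products

`osc`: induction on `N` as in Helper59/BE/Mass.lean, first derivative test `vc1m` (Helper82/FK/VC2.lean).
`tail`: telescoping over `n₁ ≤ i < N`, `g(f i) - 1 = ∑_(k≠0) G k e(k f i)`, conjugation for `k < 0`, `osc` with
`Γ = |k| f i + h f n`, `Γ' ≥ κ f1 i + H ∑_(j≤l<i) f1 l`.
-/

set_option autoImplicit false

namespace Pool.Agent.Helper59.MF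

open Finset MeasureTheory Filter Topology
open Pool.Agent.Helper59.RE (e norm_e e_add conj_e continuous_e e_zero)

variable {H : ℕ} {G : ℤ → ℂ} {g : ℝ → ℝ} {a b θ₀ B C : ℝ} {f f1 f2 : ℕ → ℝ → ℝ}

theorem Dens.eqre (hg : Dens H G g) (t : ℝ) : g t = (∑ k ∈ Icc (-(H : ℤ)) H, G k * e (k * t)).re := by
  rw [← hg.eq, Complex.ofReal_re]

theorem Dens.cont (hg : Dens H G g) : Continuous g := by
  have h1 : g = fun t => (∑ k ∈ Icc (-(H : ℤ)) H, G k * e (k * t)).re := funext hg.eqre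
  rw [h1]
  refine Complex.continuous_re.comp (continuous_finsetSum _ fun k _ => ?_)
  exact continuous_const.mul (continuous_e.comp (continuous_const.mul continuous_id))

theorem Dens.per (hg : Dens H G g) (t : ℝ) : g (t + 1) = g t := by
  rw [hg.eqre, hg.eqre]
  congr 1
  refine Finset.sum_congr rfl fun k _ => ?_
  rw [mul_add, mul_one, e_add, Pool.Agent.Helper59.RE.e_int, mul_one]

theorem mem_Icc0 (H : ℕ) : (0 : ℤ) ∈ Icc (-(H : ℤ)) H := by
  rw [Finset.mem_Icc]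
  constructor <;> omega

/-- splitting off the constant term -/
theorem Dens.split (hg : Dens H G g) (t : ℝ) :
    (g t : ℂ) = 1 + ∑ k ∈ (Icc (-(H : ℤ)) H).erase 0, G k * e (k * t) := by
  rw [hg.eq, ← Finset.add_sum_erase _ _ (mem_Icc0 H), hg.zero]
  simp [e_zero]

theorem ww_nonneg (H : ℕ) (G : ℤ → ℂ) : 0 ≤ ww H G := Finset.sum_nonneg fun _ _ => norm_nonneg _

theorem Dens.le_ww (hg : Dens H G g) (t : ℝ) : g t ≤ 1 + ww H G := by
  have h1 : g t = ‖(g t : ℂ)‖ := by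
    rw [Complex.norm_real, Real.norm_eq_abs, abs_of_pos (hg.pos t)]
  rw [h1, hg.split]
  refine (norm_add_le _ _).trans ?_
  rw [norm_one]
  refine add_le_add le_rfl ((norm_sum_le _ _).trans (Finset.sum_le_sum fun k _ => ?_))
  rw [norm_mul, norm_e, mul_one]

theorem norm_e_sub_le (x y : ℝ) : ‖e x - e y‖ ≤ 2 * Real.pi * |x - y| := by
  have h1 : e x - e y = e y * (Complex.exp (Complex.I * (2 * Real.pi * (x - y) : ℝ)) - 1) := by
    have h2 : e x = e y * e (x - y) := by rw [← e_add]; congr 1; ring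
    rw [h2, mul_sub, mul_one]
    congr 2
    unfold e
    congr 1
    push_cast
    ring
  rw [h1, norm_mul, norm_e, one_mul]
  refine (Real.norm_exp_I_mul_ofReal_sub_one_le).trans (le_of_eq ?_)
  rw [Real.norm_eq_abs, abs_mul, abs_of_pos (by positivity : (0 : ℝ) < 2 * Real.pi)]

/-- `g` is bounded and bounded below, `log g` is Lipschitz -/
theorem Dens.bounds (hg : Dens H G g) : ∃ M L : ℝ, 1 ≤ M ∧ 0 ≤ L ∧ (∀ t, M⁻¹ ≤ g t ∧ g t ≤ M) ∧
    ∀ s t, g s ≤ Real.exp (L * |s - t|) * g t := by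
  obtain ⟨t0, _, ht0⟩ := isCompact_Icc.exists_isMinOn (Set.nonempty_Icc.2 (zero_le_one' ℝ))
    hg.cont.continuousOn
  have hper : Function.Periodic g 1 := hg.per
  have hmin : ∀ t, g t0 ≤ g t := by
    intro t
    have h1 : g (Int.fract t) = g t := by
      have := hper.sub_int_mul_eq (x := t) ⌊t⌋
      rw [mul_one] at this
      exact this
    rw [← h1]
    exact ht0 ⟨Int.fract_nonneg t, (Int.fract_lt_one t).le⟩
  have h0 : 0 < g t0 := hg.pos t0
  set M : ℝ := max (max 1 (1 + ww H G)) (g t0)⁻¹ with hM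
  have hM1 : 1 ≤ M := (le_max_left _ _).trans (le_max_left _ _)
  have hMi : M⁻¹ ≤ g t0 := by
    rw [inv_le_comm₀ (by linarith) h0]
    exact le_max_right _ _
  set L0 : ℝ := ∑ k ∈ Icc (-(H : ℤ)) H, ‖G k‖ * (2 * Real.pi * |(k : ℝ)|) with hL0
  have hL0n : 0 ≤ L0 := Finset.sum_nonneg fun k _ => by positivity
  have hlip : ∀ s t, |g s - g t| ≤ L0 * |s - t| := by
    intro s t
    have h1 : |g s - g t| = ‖(g s : ℂ) - g t‖ := by
      rw [← Complex.ofReal_sub, Complex.norm_real, Real.norm_eq_abs]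
    rw [h1, hg.eq, hg.eq, ← Finset.sum_sub_distrib, hL0, Finset.sum_mul]
    refine (norm_sum_le _ _).trans (Finset.sum_le_sum fun k _ => ?_)
    rw [← mul_sub, norm_mul, mul_assoc]
    refine mul_le_mul_of_nonneg_left ?_ (norm_nonneg _)
    refine (norm_e_sub_le _ _).trans (le_of_eq ?_)
    rw [← mul_sub, abs_mul]
    ring
  refine ⟨M, L0 * M, hM1, by positivity, fun t => ⟨hMi.trans (hmin t), (hg.le_ww t).trans
    ((le_max_right _ _).trans (le_max_left _ _))⟩, fun s t => ?_⟩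
  have h1 := (abs_le.1 (hlip s t)).2
  have h2 : 1 ≤ M * g t := by
    have h3 : M⁻¹ ≤ g t := hMi.trans (hmin t)
    calc (1 : ℝ) = M * M⁻¹ := (mul_inv_cancel₀ (by linarith)).symm
      _ ≤ M * g t := by gcongr
  have h3 : L0 * |s - t| ≤ L0 * |s - t| * (M * g t) := le_mul_of_one_le_right (by positivity) h2
  have h4 : L0 * M * |s - t| + 1 ≤ Real.exp (L0 * M * |s - t|) := Real.add_one_le_exp _
  have h5 : (L0 * M * |s - t| + 1) * g t ≤ Real.exp (L0 * M * |s - t|) * g t :=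
    mul_le_mul_of_nonneg_right h4 (hg.pos t).le
  nlinarith

theorem integral_e_int (k : ℤ) : ∫ t in (0 : ℝ)..1, e (k * t) = if k = 0 then 1 else 0 := by
  by_cases hk : k = 0
  · simp [hk, e_zero]
  · rw [if_neg hk]
    have hk' : (k : ℝ) ≠ 0 := by exact_mod_cast hk
    have h1 : (2 * Real.pi * Complex.I * k : ℂ) ≠ 0 := by
      have := Real.pi_ne_zero
      simp [hk, this]
    have h2 : ∀ t : ℝ, e (k * t) = Complex.exp (2 * Real.pi * Complex.I * k * t) := by
      intro t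
      unfold e
      congr 1
      push_cast
      ring
    simp_rw [h2]
    rw [integral_exp_mul_complex h1]
    have h3 : Complex.exp (2 * Real.pi * Complex.I * k * (1 : ℝ)) = 1 := by
      have := Pool.Agent.Helper59.RE.e_int k
      unfold e at this
      rw [← this]
      congr 1
      push_cast
      ring
    rw [h3]
    simp

/-- the Fourier coefficients -/
theorem Dens.coeff (hg : Dens H G g) (k : ℤ) :
    ∫ t in (0 : ℝ)..1, e (k * t) * g t = cc H G k := by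
  have h1 : ∀ t : ℝ, e (k * t) * (g t : ℂ) = ∑ l ∈ Icc (-(H : ℤ)) H, G l * e (((k + l : ℤ) : ℝ) * t) := by
    intro t
    rw [hg.eq, Finset.mul_sum]
    refine Finset.sum_congr rfl fun l _ => ?_
    have h2 : (((k + l : ℤ) : ℝ) * t) = k * t + l * t := by push_cast; ring
    rw [h2, e_add]
    ring
  simp_rw [h1]
  rw [intervalIntegral.integral_finsetSum fun l _ => ?_]
  · simp_rw [intervalIntegral.integral_const_mul, integral_e_int]
    unfold cc
    have h3 : ∀ l : ℤ, (k + l = 0) ↔ (-k = l) := fun l => by constructor <;> intro h <;> omega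
    simp_rw [mul_ite, mul_one, mul_zero, h3]
    rw [Finset.sum_ite_eq]
  · exact (continuous_const.mul (continuous_e.comp
      (continuous_const.mul continuous_id))).intervalIntegrable _ _

theorem Dens.norm_lt (hg : Dens H G g) {k : ℤ} (hk : k ∈ (Icc (-(H : ℤ)) H).erase 0) : ‖G k‖ < 1 := by
  obtain ⟨M, L, hM, _, hb, _⟩ := hg.bounds
  have hk0 : k ≠ 0 := (Finset.mem_erase.1 hk).1
  have hkI := (Finset.mem_erase.1 hk).2
  have hM0 : 0 < M⁻¹ := by positivity
  have h1 := hg.coeff (-k)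
  have h2 : cc H G (-k) = G k := by
    unfold cc
    rw [neg_neg, if_pos hkI]
  rw [h2] at h1
  have hce : Continuous fun t : ℝ => e (((-k : ℤ) : ℝ) * t) :=
    continuous_e.comp (continuous_const.mul continuous_id)
  have h3 : ∫ t in (0 : ℝ)..1, e (((-k : ℤ) : ℝ) * t) * (((g t - M⁻¹ : ℝ)) : ℂ) = G k := by
    have h4 : ∀ t : ℝ, e (((-k : ℤ) : ℝ) * t) * (((g t - M⁻¹ : ℝ)) : ℂ) =
        e (((-k : ℤ) : ℝ) * t) * g t - e (((-k : ℤ) : ℝ) * t) * ((M⁻¹ : ℝ) : ℂ) := by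
      intro t
      push_cast
      ring
    simp_rw [h4]
    rw [intervalIntegral.integral_sub, h1, intervalIntegral.integral_mul_const, integral_e_int,
      if_neg (by simpa using hk0), zero_mul, sub_zero]
    · exact (hce.mul (Complex.continuous_ofReal.comp hg.cont)).intervalIntegrable _ _
    · exact (hce.mul continuous_const).intervalIntegrable _ _
  have h5 : ∫ t in (0 : ℝ)..1, (g t - M⁻¹) = 1 - M⁻¹ := by
    rw [intervalIntegral.integral_sub (hg.cont.intervalIntegrable _ _) (by simp)]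
    have h6 := hg.coeff 0
    have h7 : cc H G 0 = 1 := by
      unfold cc
      rw [neg_zero, if_pos (mem_Icc0 H), hg.zero]
    rw [h7] at h6
    simp only [Int.cast_zero, zero_mul, e_zero, one_mul] at h6
    rw [intervalIntegral.integral_ofReal] at h6
    have h8 : ∫ t in (0 : ℝ)..1, g t = 1 := by exact_mod_cast h6
    rw [h8]
    simp
  rw [← h3]
  have h9 : ‖∫ t in (0 : ℝ)..1, e (((-k : ℤ) : ℝ) * t) * (((g t - M⁻¹ : ℝ)) : ℂ)‖ ≤
      ∫ t in (0 : ℝ)..1, (g t - M⁻¹) := by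
    refine intervalIntegral.norm_integral_le_of_norm_le zero_le_one ?_
      ((hg.cont.sub continuous_const).intervalIntegrable _ _)
    filter_upwards with t _
    rw [norm_mul, norm_e, one_mul, Complex.norm_real, Real.norm_eq_abs,
      abs_of_nonneg (by linarith [(hb t).1])]
  rw [h5] at h9
  linarith

theorem Fam.growth (hf : Fam a b θ₀ B C f f1 f2) {x : ℝ} (hx : x ∈ Set.Icc a b) (l k : ℕ) :
    θ₀ ^ k * f1 l x ≤ f1 (l + k) x := by
  induction k with
  | zero => simp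
  | succ k ih =>
    have h1 := hf.g1 (l + k) x hx
    have h2 := mul_le_mul_of_nonneg_left ih (zero_le_one.trans hf.hθ.le)
    rw [pow_succ]
    calc θ₀ ^ k * θ₀ * f1 l x = θ₀ * (θ₀ ^ k * f1 l x) := by ring
      _ ≤ θ₀ * f1 (l + k) x := h2
      _ ≤ _ := h1

theorem Fam.growth2 (hf : Fam a b θ₀ B C f f1 f2) {x : ℝ} (hx : x ∈ Set.Icc a b) (l k : ℕ) :
    θ₀ ^ k * f2 l x ≤ f2 (l + k) x := by
  induction k with
  | zero => simp
  | succ k ih =>
    have h1 := hf.g2 (l + k) x hx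
    have h2 := mul_le_mul_of_nonneg_left ih (zero_le_one.trans hf.hθ.le)
    rw [pow_succ]
    calc θ₀ ^ k * θ₀ * f2 l x = θ₀ * (θ₀ ^ k * f2 l x) := by ring
      _ ≤ θ₀ * f2 (l + k) x := h2
      _ ≤ _ := h1

theorem Fam.one_le (hf : Fam a b θ₀ B C f f1 f2) {x : ℝ} (hx : x ∈ Set.Icc a b) (n : ℕ) :
    θ₀ ^ n ≤ f1 n x := by
  have h1 := hf.growth hx 0 n
  rw [zero_add] at h1
  have h2 : θ₀ ^ n * 1 ≤ θ₀ ^ n * f1 0 x :=
    mul_le_mul_of_nonneg_left (hf.p0 x hx) (pow_nonneg (zero_le_one.trans hf.hθ.le) n)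
  linarith

theorem Fam.pos (hf : Fam a b θ₀ B C f f1 f2) {x : ℝ} (hx : x ∈ Set.Icc a b) (n : ℕ) :
    0 < f1 n x :=
  lt_of_lt_of_le (pow_pos (zero_lt_one.trans hf.hθ) n) (hf.one_le hx n)

theorem Fam.mono (hf : Fam a b θ₀ B C f f1 f2) (n : ℕ) {x y : ℝ} (hx : x ∈ Set.Icc a b)
    (hy : y ∈ Set.Icc a b) (hxy : x ≤ y) : f1 n x ≤ f1 n y := by
  have h1 : MonotoneOn (f1 n) (Set.Icc a b) := by
    refine monotoneOn_of_deriv_nonneg (convex_Icc a b)
      (fun z hz => (hf.d2 n z hz).continuousAt.continuousWithinAt) (fun z hz => ?_) fun z hz => ?_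
    · exact (hf.d2 n z (interior_subset hz)).differentiableAt.differentiableWithinAt
    · rw [(hf.d2 n z (interior_subset hz)).deriv]
      exact hf.p2 n z (interior_subset hz)
  exact h1 hx hy hxy

theorem Fam.sum1 (hf : Fam a b θ₀ B C f f1 f2) {x : ℝ} (hx : x ∈ Set.Icc a b) (j i : ℕ) :
    (θ₀ - 1) * ∑ l ∈ Ico j i, f1 l x ≤ f1 i x := by
  rcases le_or_gt i j with h | h
  · rw [Finset.Ico_eq_empty_of_le h, Finset.sum_empty, mul_zero]
    exact (hf.pos hx i).le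
  · induction i, h.le using Nat.le_induction with
    | base => rw [Finset.Ico_self, Finset.sum_empty, mul_zero]; exact (hf.pos hx _).le
    | succ i hi ih =>
      rw [Finset.sum_Ico_succ_top hi, mul_add]
      have h1 : (θ₀ - 1) * ∑ l ∈ Ico j i, f1 l x ≤ f1 i x := by
        rcases hi.eq_or_lt with h2 | h2
        · rw [h2, Finset.Ico_self, Finset.sum_empty, mul_zero]
          exact (hf.pos hx _).le
        · exact ih h2
      have h2 := hf.g1 i x hx
      linarith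

theorem Fam.sum2 (hf : Fam a b θ₀ B C f f1 f2) {x : ℝ} (hx : x ∈ Set.Icc a b) (j i : ℕ) :
    (θ₀ - 1) * ∑ l ∈ Ico j i, f2 l x ≤ f2 i x := by
  rcases le_or_gt i j with h | h
  · rw [Finset.Ico_eq_empty_of_le h, Finset.sum_empty, mul_zero]
    exact hf.p2 i x hx
  · induction i, h.le using Nat.le_induction with
    | base => rw [Finset.Ico_self, Finset.sum_empty, mul_zero]; exact hf.p2 _ x hx
    | succ i hi ih =>
      rw [Finset.sum_Ico_succ_top hi, mul_add]
      have h1 : (θ₀ - 1) * ∑ l ∈ Ico j i, f2 l x ≤ f2 i x := by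
        rcases hi.eq_or_lt with h2 | h2
        · rw [h2, Finset.Ico_self, Finset.sum_empty, mul_zero]
          exact hf.p2 _ x hx
        · exact ih h2
      have h2 := hf.g2 i x hx
      linarith

theorem Fam.dist (hf : Fam a b θ₀ B C f f1 f2) (n : ℕ) {p q x y : ℝ} (hp : a ≤ p) (hq : q ≤ b)
    (hx : x ∈ Set.Icc p q) (hy : y ∈ Set.Icc p q) : |f n x - f n y| ≤ f1 n q * |x - y| := by
  have hpq : p ≤ q := hx.1.trans hx.2
  have hqI : q ∈ Set.Icc a b := ⟨hp.trans hpq, hq⟩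
  have h1 := Convex.norm_image_sub_le_of_norm_hasDerivWithin_le (f := f n) (f' := f1 n)
    (C := f1 n q) (s := Set.Icc p q) (x := y) (y := x)
    (fun z hz => (hf.d1 n z ⟨hp.trans hz.1, hz.2.trans hq⟩).hasDerivWithinAt) (fun z hz => by
      have hzI : z ∈ Set.Icc a b := ⟨hp.trans hz.1, hz.2.trans hq⟩
      rw [Real.norm_eq_abs, abs_of_pos (hf.pos hzI n)]
      exact hf.mono n hzI hqI hz.2) (convex_Icc p q) hy hx
  rwa [Real.norm_eq_abs, Real.norm_eq_abs] at h1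

theorem Rp_succ (g : ℝ → ℝ) (f : ℕ → ℝ → ℝ) {j N : ℕ} (h : j ≤ N) (x : ℝ) :
    Rp g f j (N + 1) x = Rp g f j N x * g (f N x) := by
  unfold Rp
  rw [Finset.prod_Ico_succ_top h]

theorem Rp_mul (g : ℝ → ℝ) (f : ℕ → ℝ → ℝ) {j k N : ℕ} (h : j ≤ k) (h' : k ≤ N) (x : ℝ) :
    Rp g f j k x * Rp g f k N x = Rp g f j N x := by
  unfold Rp
  rw [Finset.prod_Ico_consecutive _ h h']

theorem Rp_pos (hg : Dens H G g) (f : ℕ → ℝ → ℝ) (j N : ℕ) (x : ℝ) : 0 < Rp g f j N x :=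
  Finset.prod_pos fun _ _ => hg.pos _

theorem Rp_cont (hg : Dens H G g) (hf : Fam a b θ₀ B C f f1 f2) (j N : ℕ) :
    Continuous (Rp g f j N) := by
  unfold Rp
  exact continuous_finsetProd _ fun n _ => hg.cont.comp (hf.cf n)

theorem e_eq82 (x : ℝ) : e x = Pool.Agent.Helper82.FK.e x := by
  unfold e Pool.Agent.Helper82.FK.e
  congr 1
  push_cast
  ring

theorem osc (hg : Dens H G g) (hf : Fam a b θ₀ B C f f1 f2) {p q : ℝ} (hp : a ≤ p) (hpq : p ≤ q)
    (hq : q ≤ b) (j N : ℕ) (Γ Γ1 Γ2 : ℝ → ℝ) (h1 : ∀ x ∈ Set.Icc p q, HasDerivAt Γ (Γ1 x) x)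
    (h2 : ∀ x ∈ Set.Icc p q, HasDerivAt Γ1 (Γ2 x) x) (hc : ContinuousOn Γ2 (Set.Icc p q)) (D : ℝ)
    (hD : 0 < D) (h3 : ∀ x ∈ Set.Icc p q, D + H * ∑ n ∈ Ico j N, f1 n x ≤ Γ1 x)
    (h4 : ∀ x ∈ Set.Icc p q, H * ∑ n ∈ Ico j N, f2 n x ≤ Γ2 x) :
    ‖∫ x in p..q, (Rp g f j N x : ℂ) * e (Γ x)‖ ≤ (1 + ww H G) ^ (N - j) / D := by
  have hI : ∀ x ∈ Set.Icc p q, x ∈ Set.Icc a b := fun x hx => ⟨hp.trans hx.1, hx.2.trans hq⟩
  have base : ∀ (N : ℕ), N ≤ j → ∀ (Γ Γ1 Γ2 : ℝ → ℝ), (∀ x ∈ Set.Icc p q, HasDerivAt Γ (Γ1 x) x) →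
      (∀ x ∈ Set.Icc p q, HasDerivAt Γ1 (Γ2 x) x) → ContinuousOn Γ2 (Set.Icc p q) →
      (∀ x ∈ Set.Icc p q, D + H * ∑ n ∈ Ico j N, f1 n x ≤ Γ1 x) →
      (∀ x ∈ Set.Icc p q, H * ∑ n ∈ Ico j N, f2 n x ≤ Γ2 x) →
      ‖∫ x in p..q, (Rp g f j N x : ℂ) * e (Γ x)‖ ≤ (1 + ww H G) ^ (N - j) / D := by
    intro N hN Γ Γ1 Γ2 h1 h2 hc h3 h4
    have hR : ∀ x, Rp g f j N x = 1 := fun x => by
      unfold Rp
      rw [Finset.Ico_eq_empty_of_le hN, Finset.prod_empty]
    simp only [hR, Complex.ofReal_one, one_mul, e_eq82]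
    simp only [Finset.Ico_eq_empty_of_le hN, Finset.sum_empty, mul_zero, add_zero] at h3 h4
    rw [Nat.sub_eq_zero_of_le hN, pow_zero]
    have h5 := Pool.Agent.Helper82.FK.vc1m hpq h1 h2 hc hD
      (fun x hx => (h3 x hx).trans (le_abs_self _)) h4
    refine h5.trans ?_
    rw [div_div, div_le_div_iff₀ (by positivity) hD]
    have := Real.pi_gt_three
    nlinarith
  rcases le_total N j with hN | hN
  · exact base N hN Γ Γ1 Γ2 h1 h2 hc h3 h4
  · induction N, hN using Nat.le_induction generalizing Γ Γ1 Γ2 with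
    | base => exact base j le_rfl Γ Γ1 Γ2 h1 h2 hc h3 h4
    | succ N hN ih =>
      have hsplit : ∀ x : ℝ, (Rp g f j (N + 1) x : ℂ) * e (Γ x) =
          ∑ k ∈ Icc (-(H : ℤ)) H, G k * ((Rp g f j N x : ℂ) * e (Γ x + k * f N x)) := by
        intro x
        rw [Rp_succ g f hN, Complex.ofReal_mul, hg.eq, Finset.mul_sum, Finset.sum_mul]
        refine Finset.sum_congr rfl fun k _ => ?_
        rw [e_add]
        ring
      have hΓc : ContinuousOn Γ (Set.Icc p q) := fun x hx => (h1 x hx).continuousAt.continuousWithinAt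
      have hint : ∀ k : ℤ, IntervalIntegrable
          (fun x => G k * ((Rp g f j N x : ℂ) * e (Γ x + k * f N x))) volume p q := by
        intro k
        apply ContinuousOn.intervalIntegrable
        rw [Set.uIcc_of_le hpq]
        refine ContinuousOn.mul continuousOn_const (ContinuousOn.mul ?_ ?_)
        · exact (Complex.continuous_ofReal.comp (Rp_cont hg hf j N)).continuousOn
        · exact continuous_e.comp_continuousOn
            (hΓc.add (continuous_const.mul (hf.cf N)).continuousOn)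
      simp_rw [hsplit]
      rw [intervalIntegral.integral_finsetSum fun k _ => hint k]
      have hterm : ∀ k ∈ Icc (-(H : ℤ)) H,
          ‖∫ x in p..q, G k * ((Rp g f j N x : ℂ) * e (Γ x + k * f N x))‖ ≤
            ‖G k‖ * ((1 + ww H G) ^ (N - j) / D) := by
        intro k hk
        have hkH : -(H : ℝ) ≤ k := by exact_mod_cast (Finset.mem_Icc.1 hk).1
        rw [intervalIntegral.integral_const_mul, norm_mul]
        refine mul_le_mul_of_nonneg_left ?_ (norm_nonneg _)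
        refine ih (fun x => Γ x + k * f N x) (fun x => Γ1 x + k * f1 N x) (fun x => Γ2 x + k * f2 N x)
          (fun x hx => (h1 x hx).add ((hf.d1 N x (hI x hx)).const_mul _))
          (fun x hx => (h2 x hx).add ((hf.d2 N x (hI x hx)).const_mul _))
          (hc.add (continuousOn_const.mul ((hf.c2 N).mono (fun x hx => hI x hx))))
          (fun x hx => ?_) (fun x hx => ?_)
        · have h5 := h3 x hx
          rw [Finset.sum_Ico_succ_top hN] at h5
          have h6 := (hf.pos (hI x hx) N).le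
          nlinarith
        · have h5 := h4 x hx
          rw [Finset.sum_Ico_succ_top hN] at h5
          have h6 := hf.p2 N x (hI x hx)
          nlinarith
      refine (norm_sum_le _ _).trans ((Finset.sum_le_sum hterm).trans (le_of_eq ?_))
      rw [← Finset.sum_mul, ← Finset.add_sum_erase _ _ (mem_Icc0 H), hg.zero, norm_one,
        Nat.succ_sub hN, pow_succ]
      unfold ww
      ring

theorem norm_conj_int (R F : ℝ → ℝ) (p q : ℝ) :
    ‖∫ x in p..q, (R x : ℂ) * e (F x)‖ = ‖∫ x in p..q, (R x : ℂ) * e (-F x)‖ := by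
  have h : ∫ x in p..q, (R x : ℂ) * e (-F x) = (starRingEnd ℂ) (∫ x in p..q, (R x : ℂ) * e (F x)) := by
    have h1 : ∀ x, (R x : ℂ) * e (-F x) = (starRingEnd ℂ) ((R x : ℂ) * e (F x)) := fun x => by
      rw [map_mul, Complex.conj_ofReal, conj_e]
    simp_rw [h1, intervalIntegral.intervalIntegral_eq_integral_uIoc]
    rw [integral_conj]
    split_ifs <;> simp
  rw [h]
  exact (Complex.norm_conj _).symm

/-- a resonance-free frequency -/
theorem osc_far (hg : Dens H G g) (hf : Fam a b θ₀ B C f f1 f2) {κ : ℝ} (hκ : 0 < κ)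
    (hκ2 : 2 * κ + H / (θ₀ - 1) ≤ 1) {p q : ℝ} (hp : a ≤ p) (hpq : p ≤ q) (hq : q ≤ b) (j i n t : ℕ)
    (h k : ℤ) (hk : 1 ≤ k) (ht : |(h : ℝ)| ≤ κ * θ₀ ^ t) (hn : h ≠ 0 → n + t ≤ i) :
    ‖∫ x in p..q, (Rp g f j i x : ℂ) * e (k * f i x + h * f n x)‖ ≤
      (1 + ww H G) ^ (i - j) / (κ * f1 i p) := by
  have hI : ∀ x ∈ Set.Icc p q, x ∈ Set.Icc a b := fun x hx => ⟨hp.trans hx.1, hx.2.trans hq⟩
  have hpI : p ∈ Set.Icc a b := hI p ⟨le_rfl, hpq⟩
  have hθ1 : 0 < θ₀ - 1 := sub_pos.2 hf.hθ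
  have hθ0 : 0 < θ₀ := by linarith
  have hk' : (1 : ℝ) ≤ k := by exact_mod_cast hk
  have key : ∀ (F : ℕ → ℝ), (0 ≤ F i) → (∀ l m : ℕ, θ₀ ^ m * F l ≤ F (l + m)) → 0 ≤ F n →
      (θ₀ - 1) * ∑ l ∈ Ico j i, F l ≤ F i →
      κ * F i + H * ∑ l ∈ Ico j i, F l ≤ k * F i + h * F n := by
    intro F hFi hgr hFn hs
    have e1 : H * ∑ l ∈ Ico j i, F l ≤ H / (θ₀ - 1) * F i := by
      rw [div_mul_eq_mul_div, le_div_iff₀ hθ1]
      have := mul_le_mul_of_nonneg_left hs (Nat.cast_nonneg H : (0 : ℝ) ≤ H)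
      linarith
    have e2 : |(h : ℝ)| * F n ≤ κ * F i := by
      by_cases h0 : h = 0
      · rw [h0, Int.cast_zero, abs_zero, zero_mul]
        positivity
      · have h1 := hn h0
        have h2 := hgr n (i - n)
        rw [Nat.add_sub_cancel' (by omega)] at h2
        have h3 : θ₀ ^ t ≤ θ₀ ^ (i - n) := pow_le_pow_right₀ hf.hθ.le (by omega)
        calc |(h : ℝ)| * F n ≤ κ * θ₀ ^ t * F n := mul_le_mul_of_nonneg_right ht hFn
          _ ≤ κ * θ₀ ^ (i - n) * F n := by gcongr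
          _ = κ * (θ₀ ^ (i - n) * F n) := by ring
          _ ≤ κ * F i := mul_le_mul_of_nonneg_left h2 hκ.le
    have e3 : -(|(h : ℝ)| * F n) ≤ h * F n := by
      have := mul_le_mul_of_nonneg_right (neg_abs_le (h : ℝ)) hFn
      linarith
    have e4 : (2 * κ + H / (θ₀ - 1)) * F i ≤ 1 * F i := mul_le_mul_of_nonneg_right hκ2 hFi
    have e5 : 1 * F i ≤ k * F i := mul_le_mul_of_nonneg_right hk' hFi
    nlinarith
  refine osc hg hf hp hpq hq j i (fun x => k * f i x + h * f n x)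
    (fun x => k * f1 i x + h * f1 n x) (fun x => k * f2 i x + h * f2 n x)
    (fun x hx => ((hf.d1 i x (hI x hx)).const_mul _).add ((hf.d1 n x (hI x hx)).const_mul _))
    (fun x hx => ((hf.d2 i x (hI x hx)).const_mul _).add ((hf.d2 n x (hI x hx)).const_mul _))
    ?_ (κ * f1 i p) (mul_pos hκ (hf.pos hpI i)) (fun x hx => ?_) (fun x hx => ?_)
  · exact (continuousOn_const.mul ((hf.c2 i).mono (fun x hx => hI x hx))).add
      (continuousOn_const.mul ((hf.c2 n).mono (fun x hx => hI x hx)))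
  · have h1 := key (fun l => f1 l x) (hf.pos (hI x hx) i).le (fun l m => hf.growth (hI x hx) l m)
      (hf.pos (hI x hx) n).le (hf.sum1 (hI x hx) j i)
    have h2 := mul_le_mul_of_nonneg_left (hf.mono i hpI (hI x hx) hx.1) hκ.le
    linarith
  · have h1 := key (fun l => f2 l x) (hf.p2 i x (hI x hx)) (fun l m => hf.growth2 (hI x hx) l m)
      (hf.p2 n x (hI x hx)) (hf.sum2 (hI x hx) j i)
    have h2 := mul_nonneg hκ.le (hf.p2 i x (hI x hx))
    linarith

/-- one factor -/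
theorem tail_one (hg : Dens H G g) (hf : Fam a b θ₀ B C f f1 f2) {κ : ℝ} (hκ : 0 < κ)
    (hκ2 : 2 * κ + H / (θ₀ - 1) ≤ 1) {p q : ℝ} (hp : a ≤ p) (hpq : p ≤ q) (hq : q ≤ b) (j i n t : ℕ)
    (hji : j ≤ i) (h : ℤ) (ht : |(h : ℝ)| ≤ κ * θ₀ ^ t) (hn : h ≠ 0 → n + t ≤ i) :
    ‖(∫ x in p..q, (Rp g f j (i + 1) x : ℂ) * e (h * f n x)) -
      ∫ x in p..q, (Rp g f j i x : ℂ) * e (h * f n x)‖ ≤
      ww H G * ((1 + ww H G) ^ (i - j) / (κ * f1 i p)) := by
  have hce : ∀ (u : ℝ → ℝ), Continuous u → IntervalIntegrable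
      (fun x => (Rp g f j i x : ℂ) * e (u x)) volume p q := fun u hu =>
    ((Complex.continuous_ofReal.comp (Rp_cont hg hf j i)).mul
      (continuous_e.comp hu)).intervalIntegrable _ _
  have hce' : IntervalIntegrable
      (fun x => (Rp g f j (i + 1) x : ℂ) * e (h * f n x)) volume p q :=
    ((Complex.continuous_ofReal.comp (Rp_cont hg hf j (i + 1))).mul
      (continuous_e.comp (continuous_const.mul (hf.cf n)))).intervalIntegrable _ _
  rw [← intervalIntegral.integral_sub hce' (hce (fun x => h * f n x)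
    (continuous_const.mul (hf.cf n)))]
  have hsplit : ∀ x : ℝ, (Rp g f j (i + 1) x : ℂ) * e (h * f n x) -
      (Rp g f j i x : ℂ) * e (h * f n x) = ∑ k ∈ (Icc (-(H : ℤ)) H).erase 0,
        G k * ((Rp g f j i x : ℂ) * e (k * f i x + h * f n x)) := by
    intro x
    rw [Rp_succ g f hji, Complex.ofReal_mul, hg.split, mul_add, mul_one, add_mul, add_sub_cancel_left,
      Finset.mul_sum, Finset.sum_mul]
    refine Finset.sum_congr rfl fun k _ => ?_
    rw [e_add]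
    ring
  simp_rw [hsplit]
  have hint : ∀ k : ℤ, IntervalIntegrable
      (fun x => G k * ((Rp g f j i x : ℂ) * e (k * f i x + h * f n x))) volume p q := fun k =>
    (hce (fun x => k * f i x + h * f n x)
      ((continuous_const.mul (hf.cf i)).add (continuous_const.mul (hf.cf n)))).const_mul _
  rw [intervalIntegral.integral_finsetSum fun k _ => hint k]
  unfold ww
  rw [Finset.sum_mul]
  refine (norm_sum_le _ _).trans (Finset.sum_le_sum fun k hk => ?_)
  rw [intervalIntegral.integral_const_mul, norm_mul]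
  refine mul_le_mul_of_nonneg_left ?_ (norm_nonneg _)
  have hk0 : k ≠ 0 := (Finset.mem_erase.1 hk).1
  rcases lt_or_gt_of_ne hk0 with hk1 | hk1
  · rw [norm_conj_int]
    have h1 := osc_far hg hf hκ hκ2 hp hpq hq j i n t (-h) (-k) (by omega)
      (by rwa [Int.cast_neg, abs_neg]) (fun h0 => hn (by omega))
    have h2 : ∀ x, -((k : ℝ) * f i x + h * f n x) = ((-k : ℤ) : ℝ) * f i x + ((-h : ℤ) : ℝ) * f n x := by
      intro x
      push_cast
      ring
    simp_rw [h2]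
    exact h1
  · exact osc_far hg hf hκ hκ2 hp hpq hq j i n t h k (by omega) ht hn

/-- the factors from `n₁` on do not matter -/
theorem tail (hg : Dens H G g) (hf : Fam a b θ₀ B C f f1 f2) (hH : H + 1 < θ₀) (hw : 1 + ww H G < θ₀)
    (h : ℤ) : ∃ (K : ℝ) (t : ℕ), 0 < K ∧ ∀ (p q : ℝ), a ≤ p → p ≤ q → q ≤ b →
      ∀ (j n n₁ N : ℕ), j ≤ n₁ → n₁ ≤ N → (h ≠ 0 → n + t ≤ n₁) →
      ‖(∫ x in p..q, (Rp g f j N x : ℂ) * e (h * f n x)) -
        ∫ x in p..q, (Rp g f j n₁ x : ℂ) * e (h * f n x)‖ ≤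
      K * (1 + ww H G) ^ (n₁ - j) / f1 n₁ p := by
  have hθ1 : 0 < θ₀ - 1 := sub_pos.2 hf.hθ
  have hθ0 : 0 < θ₀ := by linarith
  have hw0 : 0 ≤ ww H G := ww_nonneg H G
  have hHd : (H : ℝ) / (θ₀ - 1) < 1 := by
    rw [div_lt_one hθ1]
    linarith
  set κ : ℝ := (1 - H / (θ₀ - 1)) / 2 with hκd
  have hκ : 0 < κ := by
    rw [hκd]
    linarith
  have hκ2 : 2 * κ + H / (θ₀ - 1) ≤ 1 := by
    rw [hκd]
    linarith
  obtain ⟨t, ht⟩ := pow_unbounded_of_one_lt (|(h : ℝ)| / κ) hf.hθ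
  have ht' : |(h : ℝ)| ≤ κ * θ₀ ^ t := by
    rw [div_lt_iff₀ hκ] at ht
    linarith
  set ρ : ℝ := (1 + ww H G) / θ₀ with hρ
  have hρ0 : 0 ≤ ρ := by positivity
  have hρ1 : ρ < 1 := by
    rw [hρ, div_lt_one hθ0]
    exact hw
  have hρ2 : 0 < 1 - ρ := by linarith
  refine ⟨ww H G / (κ * (1 - ρ)) + 1, t, by positivity, ?_⟩
  intro p q hp hpq hq j n n₁ N hj hN hn
  have hpI : p ∈ Set.Icc a b := ⟨hp, hpq.trans hq⟩
  have hf1 := hf.pos hpI n₁
  set A : ℝ := (1 + ww H G) ^ (n₁ - j) / f1 n₁ p with hA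
  have hA0 : 0 ≤ A := by positivity
  have main : ∀ s : ℕ, ‖(∫ x in p..q, (Rp g f j (n₁ + s) x : ℂ) * e (h * f n x)) -
      ∫ x in p..q, (Rp g f j n₁ x : ℂ) * e (h * f n x)‖ ≤
      ww H G / κ * A * ∑ r ∈ range s, ρ ^ r := by
    intro s
    induction s with
    | zero => simp
    | succ s ih =>
      have h1 := tail_one hg hf hκ hκ2 hp hpq hq j (n₁ + s) n t (by omega) h ht'
        (fun h0 => (hn h0).trans (by omega))
      have h2 : (1 + ww H G) ^ (n₁ + s - j) / (κ * f1 (n₁ + s) p) ≤ A * ρ ^ s / κ := by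
        have h3 := hf.growth hpI n₁ s
        have h4 : n₁ + s - j = (n₁ - j) + s := by omega
        rw [h4, pow_add, hA, hρ, div_pow]
        have h5 : 0 < θ₀ ^ s * f1 n₁ p := by positivity
        calc (1 + ww H G) ^ (n₁ - j) * (1 + ww H G) ^ s / (κ * f1 (n₁ + s) p)
            ≤ (1 + ww H G) ^ (n₁ - j) * (1 + ww H G) ^ s / (κ * (θ₀ ^ s * f1 n₁ p)) := by
              gcongr
          _ = _ := by field_simp
      rw [Finset.sum_range_succ, mul_add]
      have h3 := norm_sub_le_norm_sub_add_norm_sub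
        (∫ x in p..q, (Rp g f j (n₁ + s + 1) x : ℂ) * e (h * f n x))
        (∫ x in p..q, (Rp g f j (n₁ + s) x : ℂ) * e (h * f n x))
        (∫ x in p..q, (Rp g f j n₁ x : ℂ) * e (h * f n x))
      rw [← add_assoc]
      refine h3.trans ?_
      have h4 := mul_le_mul_of_nonneg_left h2 hw0
      have h5 : ww H G * (A * ρ ^ s / κ) = ww H G / κ * A * ρ ^ s := by ring
      linarith
  obtain ⟨s, rfl⟩ := Nat.exists_eq_add_of_le hN
  refine (main s).trans ?_
  have hgeo : ∑ r ∈ range s, ρ ^ r ≤ (1 - ρ)⁻¹ := by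
    rw [← tsum_geometric_of_lt_one hρ0 hρ1]
    exact (summable_geometric_of_lt_one hρ0 hρ1).sum_le_tsum _ (fun n _ => by positivity)
  calc ww H G / κ * A * ∑ r ∈ range s, ρ ^ r ≤ ww H G / κ * A * (1 - ρ)⁻¹ := by gcongr
    _ = ww H G / (κ * (1 - ρ)) * A := by
      field_simp
    _ ≤ (ww H G / (κ * (1 - ρ)) + 1) * A := by
      apply mul_le_mul_of_nonneg_right _ hA0
      linarith
    _ = _ := by rw [hA]; ring

theorem tail0 (hg : Dens H G g) (hf : Fam a b θ₀ B C f f1 f2) (hH : H + 1 < θ₀) (hw : 1 + ww H G < θ₀) :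
    ∃ K : ℝ, 0 < K ∧ ∀ (p q : ℝ), a ≤ p → p ≤ q → q ≤ b → ∀ (i N : ℕ), i ≤ N →
      |(∫ x in p..q, Rp g f i N x) - (q - p)| ≤ K / f1 i p := by
  obtain ⟨K, t, hK, h1⟩ := tail hg hf hH hw 0
  refine ⟨K, hK, fun p q hp hpq hq i N hN => ?_⟩
  have h2 := h1 p q hp hpq hq i 0 i N le_rfl hN (fun h => absurd rfl h)
  simp only [Int.cast_zero, zero_mul, e_zero, mul_one, Nat.sub_self, pow_zero] at h2
  rw [intervalIntegral.integral_ofReal, intervalIntegral.integral_ofReal, ← Complex.ofReal_sub,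
    Complex.norm_real, Real.norm_eq_abs] at h2
  have h3 : ∫ x in p..q, Rp g f i i x = q - p := by
    unfold Rp
    simp
  rwa [h3] at h2

theorem Rp_near (hf : Fam a b θ₀ B C f f1 f2) {L : ℝ} (hL : 0 ≤ L)
    (hg0 : ∀ t, 0 < g t) (hlip : ∀ s t, g s ≤ Real.exp (L * |s - t|) * g t) {p q : ℝ} (hp : a ≤ p)
    (hq : q ≤ b) (j : ℕ) (h1 : (q - p) * f1 j q ≤ 1) {x y : ℝ} (hx : x ∈ Set.Icc p q)
    (hy : y ∈ Set.Icc p q) : Rp g f 0 j y ≤ Real.exp (L / (θ₀ - 1)) * Rp g f 0 j x := by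
  have hθ1 : 0 < θ₀ - 1 := sub_pos.2 hf.hθ
  have hpq : p ≤ q := hx.1.trans hx.2
  have hqI : q ∈ Set.Icc a b := ⟨hp.trans hpq, hq⟩
  have h2 : Rp g f 0 j y ≤ ∏ l ∈ Ico 0 j, (Real.exp (L * |f l y - f l x|) * g (f l x)) :=
    Finset.prod_le_prod (fun l _ => (hg0 _).le) fun l _ => hlip _ _
  rw [Finset.prod_mul_distrib, ← Real.exp_sum, ← Finset.mul_sum] at h2
  refine h2.trans (mul_le_mul_of_nonneg_right ?_ (Finset.prod_nonneg fun l _ => (hg0 _).le))
  rw [Real.exp_le_exp, div_eq_mul_inv]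
  refine mul_le_mul_of_nonneg_left ?_ hL
  have h3 : ∑ l ∈ Ico 0 j, |f l y - f l x| ≤ (q - p) * ∑ l ∈ Ico 0 j, f1 l q := by
    rw [Finset.mul_sum]
    refine Finset.sum_le_sum fun l _ => ?_
    refine (hf.dist l hp hq hy hx).trans ?_
    rw [mul_comm]
    refine mul_le_mul_of_nonneg_right ?_ (hf.pos hqI l).le
    rw [abs_le]
    constructor <;> linarith [hx.1, hx.2, hy.1, hy.2]
  refine h3.trans ?_
  rw [← one_div, le_div_iff₀ hθ1]
  have h4 := mul_le_mul_of_nonneg_left (hf.sum1 hqI 0 j) (sub_nonneg.2 hpq)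
  calc ((q - p) * ∑ l ∈ Ico 0 j, f1 l q) * (θ₀ - 1)
      = (q - p) * ((θ₀ - 1) * ∑ l ∈ Ico 0 j, f1 l q) := by ring
    _ ≤ _ := h4.trans h1

/-- the mass of a cell -/
theorem mass (hg : Dens H G g) (hf : Fam a b θ₀ B C f f1 f2) (hH : H + 1 < θ₀) (hw : 1 + ww H G < θ₀)
    (η : ℝ) (hη : 0 < η) (hη1 : η ≤ 1) : ∃ c : ℝ, 0 < c ∧ ∀ (p q : ℝ), a ≤ p → p ≤ q → q ≤ b →
      ∀ (j N : ℕ), j ≤ N → (q - p) * f1 j q ≤ 1 → η ≤ (q - p) * f1 j p → ∀ x ∈ Set.Icc p q,
        c * Rp g f 0 j x * (q - p) ≤ ∫ y in p..q, Rp g f 0 N y ∧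
        ∫ y in p..q, Rp g f 0 N y ≤ c⁻¹ * Rp g f 0 j x * (q - p) := by
  obtain ⟨M, L, hM, hL, hb, hlip⟩ := hg.bounds
  obtain ⟨K, hK, htail⟩ := tail0 hg hf hH hw
  have hθ1 : 0 < θ₀ - 1 := sub_pos.2 hf.hθ
  have hθ0 : 0 < θ₀ := by linarith
  have hM0 : 0 < M := by linarith
  set E : ℝ := Real.exp (L / (θ₀ - 1)) with hE
  have hE0 : 0 < E := Real.exp_pos _
  obtain ⟨s, hs⟩ := pow_unbounded_of_one_lt (2 * K / η) hf.hθ
  rw [div_lt_iff₀ hη] at hs
  have hc1 : 1 ≤ 1 + K / η := by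
    have : 0 < K / η := by positivity
    linarith
  refine ⟨(M⁻¹) ^ s / 2 / (E * (1 + K / η)), by positivity, ?_⟩
  intro p q hp hpq hq j N hjN h1 h2 x hx
  have hpI : p ∈ Set.Icc a b := ⟨hp, hpq.trans hq⟩
  have hfj := hf.pos hpI j
  have hqp : 0 ≤ q - p := sub_nonneg.2 hpq
  have hRx : 0 < Rp g f 0 j x := Rp_pos hg f 0 j x
  have hRc : ∀ i k, IntervalIntegrable (Rp g f i k) volume p q := fun i k =>
    (Rp_cont hg hf i k).intervalIntegrable _ _
  have hRcc : ∀ i k, IntervalIntegrable (fun y => Rp g f i k y) volume p q := hRc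
  -- upper bound of the tail product
  have hup : ∫ y in p..q, Rp g f j N y ≤ (1 + K / η) * (q - p) := by
    have h3 := (abs_le.1 (htail p q hp hpq hq j N hjN)).2
    have h4 : K / f1 j p ≤ K / η * (q - p) := by
      rw [div_le_iff₀ hfj]
      have h5 : K / η * η ≤ K / η * ((q - p) * f1 j p) := by gcongr
      rw [div_mul_cancel₀ _ hη.ne'] at h5
      linarith
    linarith
  -- products over at most `s` factors
  have hshort : ∀ k : ℕ, k ≤ s → ∀ y, (M⁻¹) ^ s ≤ Rp g f j (j + k) y := by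
    intro k hk y
    have h3 : (M⁻¹) ^ k ≤ Rp g f j (j + k) y := by
      unfold Rp
      have h4 := Finset.prod_le_prod (s := Ico j (j + k)) (f := fun _ => M⁻¹)
        (g := fun n => g (f n y)) (fun _ _ => by positivity) (fun n _ => (hb _).1)
      rw [Finset.prod_const, Nat.card_Ico, Nat.add_sub_cancel_left] at h4
      exact h4
    exact (pow_le_pow_of_le_one (by positivity) (inv_le_one_of_one_le₀ hM) hk).trans h3
  have hlow : (M⁻¹) ^ s / 2 * (q - p) ≤ ∫ y in p..q, Rp g f j N y := by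
    rcases le_total N (j + s) with hN | hN
    · obtain ⟨k, rfl⟩ := Nat.exists_eq_add_of_le hjN
      have h3 : ∫ _ in p..q, (M⁻¹) ^ s ≤ ∫ y in p..q, Rp g f j (j + k) y :=
        intervalIntegral.integral_mono_on hpq (by simp) (hRcc _ _)
          fun y _ => hshort k (by omega) y
      rw [intervalIntegral.integral_const, smul_eq_mul] at h3
      have h4 : 0 ≤ (M⁻¹) ^ s * (q - p) := by positivity
      linarith
    · have h3 := (abs_le.1 (htail p q hp hpq hq (j + s) N hN)).1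
      have h4 : K / f1 (j + s) p ≤ (q - p) / 2 := by
        have h5 := hf.growth hpI j s
        have h6 : 0 < f1 (j + s) p := hf.pos hpI _
        rw [div_le_iff₀ h6]
        have h7 : (q - p) / 2 * (θ₀ ^ s * f1 j p) ≤ (q - p) / 2 * f1 (j + s) p := by gcongr
        have h8 : θ₀ ^ s * η ≤ θ₀ ^ s * ((q - p) * f1 j p) := by gcongr
        nlinarith
      have h5 : (q - p) / 2 ≤ ∫ y in p..q, Rp g f (j + s) N y := by linarith
      have h6 : ∫ y in p..q, (M⁻¹) ^ s * Rp g f (j + s) N y ≤ ∫ y in p..q, Rp g f j N y := by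
        refine intervalIntegral.integral_mono_on hpq ((hRcc _ _).const_mul _) (hRcc _ _) fun y _ => ?_
        rw [← Rp_mul g f (Nat.le_add_right j s) hN y]
        exact mul_le_mul_of_nonneg_right (hshort s le_rfl y) (Rp_pos hg f _ _ y).le
      rw [intervalIntegral.integral_const_mul] at h6
      have h7 : (M⁻¹) ^ s * ((q - p) / 2) ≤ (M⁻¹) ^ s * ∫ y in p..q, Rp g f (j + s) N y := by gcongr
      linarith
  -- the head product is nearly constant
  have hnear : ∀ y ∈ Set.Icc p q, Rp g f 0 j y ≤ E * Rp g f 0 j x := fun y hy =>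
    Rp_near hf hL hg.pos hlip hp hq j h1 hx hy
  have hnear' : ∀ y ∈ Set.Icc p q, Rp g f 0 j x ≤ E * Rp g f 0 j y := fun y hy =>
    Rp_near hf hL hg.pos hlip hp hq j h1 hy hx
  have hI1 : ∫ y in p..q, Rp g f 0 N y ≤ E * Rp g f 0 j x * ∫ y in p..q, Rp g f j N y := by
    rw [← intervalIntegral.integral_const_mul]
    refine intervalIntegral.integral_mono_on hpq (hRcc _ _) ((hRcc _ _).const_mul _) fun y hy => ?_
    rw [← Rp_mul g f (Nat.zero_le j) hjN y]
    exact mul_le_mul_of_nonneg_right (hnear y hy) (Rp_pos hg f _ _ y).le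
  have hI2 : Rp g f 0 j x / E * ∫ y in p..q, Rp g f j N y ≤ ∫ y in p..q, Rp g f 0 N y := by
    rw [← intervalIntegral.integral_const_mul]
    refine intervalIntegral.integral_mono_on hpq ((hRcc _ _).const_mul _) (hRcc _ _) fun y hy => ?_
    rw [← Rp_mul g f (Nat.zero_le j) hjN y]
    refine mul_le_mul_of_nonneg_right ?_ (Rp_pos hg f _ _ y).le
    rw [div_le_iff₀ hE0, mul_comm]
    exact hnear' y hy
  constructor
  · calc (M⁻¹) ^ s / 2 / (E * (1 + K / η)) * Rp g f 0 j x * (q - p)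
        = (Rp g f 0 j x / E * ((M⁻¹) ^ s / 2 * (q - p))) / (1 + K / η) := by
          field_simp
      _ ≤ Rp g f 0 j x / E * ((M⁻¹) ^ s / 2 * (q - p)) := div_le_self (by positivity) hc1
      _ ≤ Rp g f 0 j x / E * ∫ y in p..q, Rp g f j N y := by gcongr
      _ ≤ _ := hI2
  · have hMs : 1 ≤ M ^ s := one_le_pow₀ hM
    calc ∫ y in p..q, Rp g f 0 N y ≤ E * Rp g f 0 j x * ∫ y in p..q, Rp g f j N y := hI1
      _ ≤ E * Rp g f 0 j x * ((1 + K / η) * (q - p)) := by gcongr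
      _ = 1 * (E * (1 + K / η) * Rp g f 0 j x * (q - p)) := by ring
      _ ≤ (2 * M ^ s) * (E * (1 + K / η) * Rp g f 0 j x * (q - p)) := by
          apply mul_le_mul_of_nonneg_right _ (by positivity)
          linarith
      _ = _ := by
          rw [inv_pow]
          field_simp

end Pool.Agent.Helper59.MF
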