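import Mathlib
import Pool.Agent.Helper59.MF.FinK
import Pool.Agent.Helper59.MF.FinL

/-!
# The dimension of the points whose powers have a prescribed law modulo one

Let `g > 0` be a trigonometric polynomial of degree at most `H` and mean one, `D(g) = ∫_0^1 g log g`.
Let `ρ ≥ 0` and `β` be nondecreasing convex functions of class `C^2` on `(a,b)` with `ρ β` strictly
increasing, `β > H + 1`, `β x` transcendental for all but countably many `x`, `M = sup β < ∞`.

Then the set of the `x` in `(a,b)` for which the sequence `ρ(x) β(x)^n` has the law `g(t) dt` modulo one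
has the Hausdorff dimension `1 - D(g) / log M > 0`, and so has the subset of those `x` for which the terms of
the sequence behave like independent random variables with this law.

`ρ = 1`, `β x = x`: the powers `x^n` on every interval in `(H + 1, ∞)`.  `ρ x = x`, `β = e` or `π`: the
multiples `x e^n`, `x π^n`.
-/

set_option autoImplicit false

namespace Pool.Agent.Results.MP_9056e9_nt.PrescribedLaws

open Finset MeasureTheory Filter Topology

/-- The law of `u 0, u 1, ...` modulo one is `g(t) dt`. -/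
def HasLaw (u : ℕ → ℝ) (g : ℝ → ℝ) : Prop :=
  ∀ α β : ℝ, 0 ≤ α → α ≤ β → β ≤ 1 →
    Tendsto (fun N : ℕ => (((range N).filter
      (fun n => α ≤ Int.fract (u n) ∧ Int.fract (u n) < β)).card : ℝ) / N) atTop
      (𝓝 (∫ t in α..β, g t))

open scoped Classical in
/-- Modulo one, the terms of `u` behave like independent random variables with the law `g(t) dt`:
the joint law of `r` consecutive terms is the product law, for every `r`. -/
def Independent (u : ℕ → ℝ) (g : ℝ → ℝ) : Prop :=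
  ∀ (r : ℕ) (α β : Fin r → ℝ), (∀ i, 0 ≤ α i ∧ α i ≤ β i ∧ β i ≤ 1) →
    Tendsto (fun N : ℕ => (((range N).filter
      (fun n => ∀ i : Fin r, α i ≤ Int.fract (u (n + i)) ∧ Int.fract (u (n + i)) < β i)).card : ℝ) / N)
      atTop (𝓝 (∏ i, ∫ t in (α i)..(β i), g t))

theorem Independent.law {u : ℕ → ℝ} {g : ℝ → ℝ} (h : Independent u g) : HasLaw u g := by
  intro α β hα hαβ hβ
  have h1 := h 1 (fun _ => α) (fun _ => β) (fun _ => ⟨hα, hαβ, hβ⟩)
  simp only [Finset.univ_unique, Fin.default_eq_zero, Fin.isValue, Finset.prod_const,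
    Finset.card_singleton, pow_one] at h1
  refine h1.congr fun N => ?_
  congr 3
  ext n
  simp only [mem_filter, and_congr_right_iff]
  intro _
  constructor
  · intro h2
    exact h2 0
  · intro h2 i
    have : i = 0 := Subsingleton.elim _ _
    rw [this]
    exact h2

theorem result (H : ℕ) (G : ℤ → ℂ) (g : ℝ → ℝ)
    (hg : ∀ t : ℝ, (g t : ℂ) =
      ∑ k ∈ Icc (-(H : ℤ)) H, G k * Complex.exp (2 * Real.pi * Complex.I * (k * t : ℝ)))
    (h0 : G 0 = 1) (hpos : ∀ t : ℝ, 0 < g t)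
    (a b M : ℝ) (hab : a < b) (ρ β : ℝ → ℝ)
    (hρ : ContDiffOn ℝ 2 ρ (Set.Ioo a b)) (hβ : ContDiffOn ℝ 2 β (Set.Ioo a b))
    (hρc : ConvexOn ℝ (Set.Ioo a b) ρ) (hβc : ConvexOn ℝ (Set.Ioo a b) β)
    (hρm : MonotoneOn ρ (Set.Ioo a b)) (hβm : MonotoneOn β (Set.Ioo a b))
    (hρ0 : ∀ x ∈ Set.Ioo a b, 0 ≤ ρ x) (hρβ : StrictMonoOn (fun x => ρ x * β x) (Set.Ioo a b))
    (hβt : {x : ℝ | x ∈ Set.Ioo a b ∧ IsAlgebraic ℤ (β x)}.Countable)
    (hbase : ∀ x ∈ Set.Ioo a b, H + 1 < β x)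
    (hM : IsLUB (β '' Set.Ioo a b) M) :
    (∫ t in (0 : ℝ)..1, g t * Real.log (g t)) < Real.log M ∧
      dimH {x | x ∈ Set.Ioo a b ∧ HasLaw (fun n => ρ x * β x ^ n) g} =
        ENNReal.ofReal (1 - (∫ t in (0 : ℝ)..1, g t * Real.log (g t)) / Real.log M) ∧
      dimH {x | x ∈ Set.Ioo a b ∧ Independent (fun n => ρ x * β x ^ n) g} =
        ENNReal.ofReal (1 - (∫ t in (0 : ℝ)..1, g t * Real.log (g t)) / Real.log M) := by
  have hd : Pool.Agent.Helper59.MF.Dens H G g := ⟨hg, h0, hpos⟩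
  have hcond : ∀ x ∈ Set.Ioo a b, Pool.Agent.Helper59.MF.Cond H G (β x) := hbase
  obtain ⟨h1, h2⟩ := Pool.Agent.Helper59.MF.exact hd hab
    ⟨hρ, hβ, hρc, hβc, hρm, hβm, hρ0, hρβ⟩ hβt hcond hM
  have i1 : {x | x ∈ Set.Ioo a b ∧ HasLaw (fun n => ρ x * β x ^ n) g} ⊆
      {x | x ∈ Set.Ioo a b ∧ Pool.Agent.Helper59.MF.HasLaw (fun n => ρ x * β x ^ n) g} :=
    fun x hx => ⟨hx.1, Pool.Agent.Helper59.MF.law_of_intervals hd hx.2⟩
  have i2 : {x | x ∈ Set.Ioo a b ∧ Pool.Agent.Helper59.MF.HasJoint (fun n => ρ x * β x ^ n) g} ⊆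
      {x | x ∈ Set.Ioo a b ∧ Independent (fun n => ρ x * β x ^ n) g} :=
    fun x hx => ⟨hx.1, fun r s t hst => Pool.Agent.Helper59.MF.joint_box hd hx.2 r s t
      (fun i => (hst i).1) (fun i => (hst i).2.1) (fun i => (hst i).2.2)⟩
  have i3 : {x | x ∈ Set.Ioo a b ∧ Independent (fun n => ρ x * β x ^ n) g} ⊆
      {x | x ∈ Set.Ioo a b ∧ HasLaw (fun n => ρ x * β x ^ n) g} :=
    fun x hx => ⟨hx.1, hx.2.law⟩
  have j1 := dimH_mono i1
  have j2 := dimH_mono i2
  have j3 := dimH_mono i3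
  unfold Pool.Agent.Helper59.MF.DD at h1 h2
  rw [h1] at j1
  rw [h2] at j2
  refine ⟨?_, le_antisymm j1 (j2.trans j3), le_antisymm (j3.trans j1) j2⟩
  obtain ⟨x, hx⟩ : (Set.Ioo a b).Nonempty := Set.nonempty_Ioo.2 hab
  have k1 : 1 + Pool.Agent.Helper59.MF.ww H G < M :=
    ((hcond x hx).base hd).2.trans_le (hM.1 (Set.mem_image_of_mem β hx))
  have k0 : 0 < 1 + Pool.Agent.Helper59.MF.ww H G := (hpos 0).trans_le (hd.le_ww 0)
  refine lt_of_le_of_lt ?_ (Real.log_lt_log k0 k1)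
  have hc : Continuous g := hd.cont
  have hc2 : Continuous fun t => g t * Real.log (g t) := hc.mul (hc.log fun t => (hpos t).ne')
  calc ∫ t in (0 : ℝ)..1, g t * Real.log (g t)
      ≤ ∫ t in (0 : ℝ)..1, g t * Real.log (1 + Pool.Agent.Helper59.MF.ww H G) := by
        refine intervalIntegral.integral_mono_on zero_le_one (hc2.intervalIntegrable _ _)
          ((hc.mul continuous_const).intervalIntegrable _ _) fun t _ => ?_
        exact mul_le_mul_of_nonneg_left (Real.log_le_log (hpos t) (hd.le_ww t)) (hpos t).le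
    _ = Real.log (1 + Pool.Agent.Helper59.MF.ww H G) := by
        rw [intervalIntegral.integral_mul_const, Pool.Agent.Helper59.MF.int_gr hd, one_mul]

end Pool.Agent.Results.MP_9056e9_nt.PrescribedLaws
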