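import Pool.Agent.Helper59.MF.Defs

/-!
# MF-A: resonances, auxiliary lemmas
-/

set_option autoImplicit false

namespace Pool.Agent.Helper59.MF

open Finset MeasureTheory Filter Topology

section general
variable {H : ℕ} {W : ℤ → ℝ} {θ r : ℝ}

theorem La_mono (hn : ∀ k, 0 ≤ W k) {F F' : ℝ → ℝ} (h : ∀ z, F z ≤ F' z) (y : ℝ) :
    La H W θ F y ≤ La H W θ F' y :=
  sum_le_sum fun k _ => mul_le_mul_of_nonneg_left (h _) (hn k)

theorem La_nonneg (hn : ∀ k, 0 ≤ W k) {F : ℝ → ℝ} (h : ∀ z, 0 ≤ F z) (y : ℝ) :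
    0 ≤ La H W θ F y :=
  sum_nonneg fun k _ => mul_nonneg (hn k) (h _)

theorem La_smul (c : ℝ) (F : ℝ → ℝ) (y : ℝ) :
    La H W θ (fun z => c * F z) y = c * La H W θ F y := by
  unfold La
  rw [mul_sum]
  exact sum_congr rfl fun k _ => by ring

theorem sv_nonneg (hn : ∀ k, 0 ≤ W k) (m : ℕ) (y : ℝ) : 0 ≤ sv H W θ r m y := by
  induction m generalizing y with
  | zero => simp [sv]
  | succ m ih =>
    simp only [sv]
    refine La_nonneg hn (fun z => ?_) y
    split_ifs
    · exact ih z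
    · exact le_refl _

/-- nonzero elements of `ℤ[θ]` -/
theorem aeval_ne {θ : ℝ} (ht : Transcendental ℤ θ) {p : Polynomial ℤ} (hp : p ≠ 0) :
    Polynomial.aeval θ p ≠ 0 := by
  intro h
  exact hp ((transcendental_iff.1 ht) p h)

theorem aeval_step (θ : ℝ) (p : Polynomial ℤ) (k : ℤ) :
    Polynomial.aeval θ (Polynomial.X * p + Polynomial.C k) = θ * Polynomial.aeval θ p + k := by
  simp

theorem step_ne {p : Polynomial ℤ} {k : ℤ} (h : p ≠ 0 ∨ k ≠ 0) :
    Polynomial.X * p + Polynomial.C k ≠ 0 := by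
  intro h0
  rcases h with h | h
  · apply h
    ext n
    have h1 : (Polynomial.X * p + Polynomial.C k).coeff (n + 1) = (0 : Polynomial ℤ).coeff (n + 1) := by
      rw [h0]
    rw [Polynomial.coeff_add, Polynomial.coeff_X_mul, Polynomial.coeff_C,
      if_neg (Nat.succ_ne_zero n), add_zero] at h1
    exact h1
  · apply h
    have h1 := congrArg (fun q => Polynomial.coeff q 0) h0
    simpa using h1

end general

section one
variable {W : ℤ → ℝ} {θ r : ℝ}

theorem La_one (F : ℝ → ℝ) (y : ℝ) :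
    La 1 W θ F y = W (-1) * F (θ * y + (-1)) + W 0 * F (θ * y) + W 1 * F (θ * y + 1) := by
  unfold La
  have h : Icc (-((1 : ℕ) : ℤ)) ((1 : ℕ) : ℤ) = {-1, 0, 1} := by decide
  rw [h, sum_insert (by decide), sum_insert (by decide), sum_singleton]
  push_cast
  rw [add_zero]
  ring

/-- parameters -/
structure Pm (W : ℤ → ℝ) (θ r : ℝ) : Prop where
  hθ : 2 < θ
  r0 : 0 < r
  r1 : r < 1
  r2 : r / θ < 1 - r
  hn : ∀ k, 0 ≤ W k
  h0 : W 0 = 1
  h1 : W 1 ≤ 1 / 2
  h2 : W (-1) ≤ 1 / 2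

/-- the potential -/
noncomputable def VV (θ r y : ℝ) : ℝ := if |y| ≤ r / θ then 1 else 1 / 2

/-- the evolution of the potential -/
noncomputable def UU (W : ℤ → ℝ) (θ r : ℝ) : ℕ → ℝ → ℝ
  | 0, y => VV θ r y
  | m + 1, y => La 1 W θ (fun z => if |z| ≤ r then UU W θ r m z else 0) y

theorem VV_pos (θ r y : ℝ) : 0 < VV θ r y := by
  unfold VV; split_ifs <;> norm_num

theorem VV_le (θ r y : ℝ) : VV θ r y ≤ 1 := by
  unfold VV; split_ifs <;> norm_num

theorem UU_nonneg (hP : Pm W θ r) (m : ℕ) (y : ℝ) : 0 ≤ UU W θ r m y := by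
  induction m generalizing y with
  | zero => exact (VV_pos _ _ _).le
  | succ m ih =>
    simp only [UU]
    refine La_nonneg hP.hn (fun z => ?_) y
    split_ifs
    · exact ih z
    · exact le_refl _

theorem sv_le_UU (hP : Pm W θ r) (m : ℕ) (y : ℝ) : sv 1 W θ r m y ≤ 2 * UU W θ r m y := by
  induction m generalizing y with
  | zero =>
    simp only [sv, UU, VV]
    split_ifs <;> norm_num
  | succ m ih =>
    simp only [sv, UU]
    rw [← La_smul]
    refine La_mono hP.hn (fun z => ?_) y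
    split_ifs
    · exact ih z
    · simp

/-- the relevant nonzero digit at `y` -/
noncomputable def dg (y : ℝ) : ℤ := if 0 ≤ y then -1 else 1

theorem dg_ne (y : ℝ) : dg y ≠ 0 := by unfold dg; split_ifs <;> norm_num

theorem W_dg (hP : Pm W θ r) (y : ℝ) : 0 ≤ W (dg y) ∧ W (dg y) ≤ 1 / 2 := by
  refine ⟨hP.hn _, ?_⟩
  unfold dg; split_ifs
  · exact hP.h2
  · exact hP.h1

theorem abs_dg (_hP : Pm W θ r) (y : ℝ) : |θ * y + dg y| = |θ * |y| - 1| := by
  unfold dg
  split_ifs with h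
  · rw [abs_of_nonneg h]; push_cast; congr 1
  · rw [abs_of_neg (not_le.1 h)]; push_cast
    rw [← abs_neg]; congr 1; ring

/-- one step -/
theorem step_one (hP : Pm W θ r) {F : ℝ → ℝ} (y : ℝ) :
    La 1 W θ (fun z => if |z| ≤ r then F z else 0) y =
      (if θ * |y| ≤ r then F (θ * y) else 0) +
      W (dg y) * (if |θ * |y| - 1| ≤ r then F (θ * y + dg y) else 0) := by
  have hθ := hP.hθ
  have hr1 := hP.r1
  rw [La_one, hP.h0, one_mul, ← abs_dg hP y]
  have ha : |θ * y| = θ * |y| := by rw [abs_mul, abs_of_pos (by linarith)]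
  rw [ha]
  rcases le_or_gt 0 y with hy | hy
  · have h1 : dg y = -1 := if_pos hy
    rw [h1]
    have h2 : ¬ |θ * y + 1| ≤ r := by
      have : 0 ≤ θ * y := by positivity
      rw [abs_of_nonneg (by linarith)]; linarith
    rw [if_neg h2]
    push_cast
    ring
  · have h1 : dg y = 1 := if_neg (not_le.2 hy)
    rw [h1]
    have h2 : ¬ |θ * y + (-1)| ≤ r := by
      have : θ * y < 0 := mul_neg_of_pos_of_neg (by linarith) hy
      rw [abs_of_neg (by linarith)]; linarith
    rw [if_neg h2]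
    push_cast
    ring

end one

end Pool.Agent.Helper59.MF
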