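import Pool.Agent.Helper59.MF.TreeA

/-!
# MF-A: the case of degree one
-/

set_option autoImplicit false

namespace Pool.Agent.Helper59.MF

open Finset MeasureTheory Filter Topology

variable {W : ℤ → ℝ} {θ r : ℝ}

/-- one step, types -/
theorem UU_succ (hP : Pm W θ r) (m : ℕ) (y : ℝ) :
    UU W θ r (m + 1) y = (if θ * |y| ≤ r then UU W θ r m (θ * y) else 0) +
      W (dg y) * (if |θ * |y| - 1| ≤ r then UU W θ r m (θ * y + dg y) else 0) := by
  simp only [UU]
  exact step_one hP y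

theorem abs_mul_th (hP : Pm W θ r) (y : ℝ) : |θ * y| = θ * |y| := by
  rw [abs_mul, abs_of_pos (by linarith [hP.hθ])]

theorem VV_A {y : ℝ} (h : |y| ≤ r / θ) : VV θ r y = 1 := if_pos h

theorem VV_B {y : ℝ} (h : ¬ |y| ≤ r / θ) : VV θ r y = 1 / 2 := if_neg h

theorem typeA_le (hP : Pm W θ r) {y : ℝ} (h : |y| ≤ r / θ) : θ * |y| ≤ r := by
  have hθ : 0 < θ := by linarith [hP.hθ]
  rw [le_div_iff₀ hθ] at h
  linarith

theorem typeB_lt (hP : Pm W θ r) {y : ℝ} (h : ¬ |y| ≤ r / θ) : ¬ θ * |y| ≤ r := by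
  have hθ : 0 < θ := by linarith [hP.hθ]
  rw [le_div_iff₀ hθ] at h
  intro h1; apply h; linarith

/-- both children of a splitting point are of type `B` -/
theorem split_B (hP : Pm W θ r) {y : ℝ} (h : |y| ≤ r / θ) (h1 : |θ * |y| - 1| ≤ r) :
    ¬ |θ * y| ≤ r / θ ∧ ¬ |θ * y + dg y| ≤ r / θ := by
  have h2 := typeA_le hP h
  have h3 := hP.r2
  have h4 := abs_le.1 h1
  constructor
  · rw [abs_mul_th hP]; intro h5; linarith [h4.1]
  · rw [abs_dg hP]; intro h5
    have h6 := (abs_le.1 h5).1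
    linarith [hP.r1]

theorem UU_le_VV (hP : Pm W θ r) (m : ℕ) (y : ℝ) : UU W θ r m y ≤ VV θ r y := by
  induction m generalizing y with
  | zero => exact le_refl _
  | succ m ih =>
    rw [UU_succ hP]
    have hw := W_dg hP y
    by_cases h : |y| ≤ r / θ
    · rw [VV_A h, if_pos (typeA_le hP h)]
      by_cases h1 : |θ * |y| - 1| ≤ r
      · rw [if_pos h1]
        have h2 := split_B hP h h1
        have h3 := ih (θ * y)
        have h4 := ih (θ * y + dg y)
        rw [VV_B h2.1] at h3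
        rw [VV_B h2.2] at h4
        have h5 : W (dg y) * UU W θ r m (θ * y + dg y) ≤ 1 / 2 * (1 / 2) :=
          mul_le_mul hw.2 h4 (UU_nonneg hP _ _) (by norm_num)
        linarith
      · rw [if_neg h1, mul_zero, add_zero]
        exact (ih _).trans (VV_le _ _ _)
    · rw [VV_B h, if_neg (typeB_lt hP h), zero_add]
      split_ifs
      · have h5 : W (dg y) * UU W θ r m (θ * y + dg y) ≤ 1 / 2 * 1 :=
          mul_le_mul hw.2 ((ih _).trans (VV_le _ _ _)) (UU_nonneg hP _ _) (by norm_num)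
        linarith
      · norm_num

/-- decay to the level `l` -/
def Dec (W : ℤ → ℝ) (θ r : ℝ) (l : ℕ) (y : ℝ) : Prop :=
  ∃ M : ℕ, ∀ m, M ≤ m → UU W θ r m y ≤ (3 / 4) ^ l * VV θ r y

theorem dec_A (hP : Pm W θ r) (ht : Transcendental ℤ θ) (l : ℕ)
    (ih : ∀ p : Polynomial ℤ, p ≠ 0 → |Polynomial.aeval θ p| ≤ r → Dec W θ r l (Polynomial.aeval θ p))
    (n : ℕ) (p : Polynomial ℤ) (hp : p ≠ 0) (h : |Polynomial.aeval θ p| ≤ r / θ)
    (hn : r / θ < θ ^ n * |Polynomial.aeval θ p|) : Dec W θ r (l + 1) (Polynomial.aeval θ p) := by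
  induction n generalizing p with
  | zero => rw [pow_zero, one_mul] at hn; exact absurd h (not_le.2 hn)
  | succ n ihn =>
    set y := Polynomial.aeval θ p with hy
    have hA := typeA_le hP h
    have hc1 : Polynomial.aeval θ (Polynomial.X * p + Polynomial.C 0) = θ * y := by
      rw [aeval_step, ← hy]; push_cast; ring
    have hp1 : Polynomial.X * p + Polynomial.C 0 ≠ 0 := step_ne (Or.inl hp)
    have hc2 : Polynomial.aeval θ (Polynomial.X * p + Polynomial.C (dg y)) = θ * y + dg y :=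
      aeval_step θ p _
    have hp2 : Polynomial.X * p + Polynomial.C (dg y) ≠ 0 := step_ne (Or.inl hp)
    have hr1 : |θ * y| ≤ r := by rw [abs_mul_th hP]; exact hA
    have hpos : (0 : ℝ) < (3 / 4) ^ l := by positivity
    by_cases h1 : |θ * |y| - 1| ≤ r
    · obtain ⟨M1, hM1⟩ := ih _ hp1 (by rw [hc1]; exact hr1)
      obtain ⟨M2, hM2⟩ := ih _ hp2 (by rw [hc2, abs_dg hP]; exact h1)
      rw [hc1] at hM1
      rw [hc2] at hM2
      have h2 := split_B hP h h1
      refine ⟨max M1 M2 + 1, fun m hm => ?_⟩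
      obtain ⟨m, rfl⟩ : ∃ m', m = m' + 1 := ⟨m - 1, by omega⟩
      have hm1 : max M1 M2 ≤ m := by omega
      rw [UU_succ hP, if_pos hA, if_pos h1, VV_A h]
      have h3 := hM1 m ((le_max_left _ _).trans hm1)
      have h4 := hM2 m ((le_max_right _ _).trans hm1)
      rw [VV_B h2.1] at h3
      rw [VV_B h2.2] at h4
      have h5 : W (dg y) * UU W θ r m (θ * y + dg y) ≤ 1 / 2 * ((3 / 4) ^ l * (1 / 2)) :=
        mul_le_mul (W_dg hP y).2 h4 (UU_nonneg hP _ _) (by norm_num)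
      rw [pow_succ]
      linarith
    · by_cases h2 : |θ * y| ≤ r / θ
      · obtain ⟨M1, hM1⟩ := ihn _ hp1 (by rw [hc1]; exact h2)
          (by rw [hc1, abs_mul_th hP]; rw [pow_succ] at hn; linarith [hn])
        rw [hc1] at hM1
        refine ⟨M1 + 1, fun m hm => ?_⟩
        obtain ⟨m, rfl⟩ : ∃ m', m = m' + 1 := ⟨m - 1, by omega⟩
        rw [UU_succ hP, if_pos hA, if_neg h1, mul_zero, add_zero, VV_A h]
        have h3 := hM1 m (by omega)
        rw [VV_A h2] at h3
        exact h3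
      · obtain ⟨M1, hM1⟩ := ih _ hp1 (by rw [hc1]; exact hr1)
        rw [hc1] at hM1
        refine ⟨M1 + 1, fun m hm => ?_⟩
        obtain ⟨m, rfl⟩ : ∃ m', m = m' + 1 := ⟨m - 1, by omega⟩
        rw [UU_succ hP, if_pos hA, if_neg h1, mul_zero, add_zero, VV_A h]
        have h3 := hM1 m (by omega)
        rw [VV_B h2] at h3
        rw [pow_succ]
        linarith

theorem dec_all (hP : Pm W θ r) (ht : Transcendental ℤ θ) (l : ℕ) :
    ∀ p : Polynomial ℤ, p ≠ 0 → |Polynomial.aeval θ p| ≤ r → Dec W θ r l (Polynomial.aeval θ p) := by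
  have hθ := hP.hθ
  induction l with
  | zero =>
    intro p _ _
    exact ⟨0, fun m _ => by rw [pow_zero, one_mul]; exact UU_le_VV hP m _⟩
  | succ l ih =>
    have hA : ∀ p : Polynomial ℤ, p ≠ 0 → |Polynomial.aeval θ p| ≤ r / θ →
        Dec W θ r (l + 1) (Polynomial.aeval θ p) := by
      intro p hp h
      have h0 : 0 < |Polynomial.aeval θ p| := abs_pos.2 (aeval_ne ht hp)
      obtain ⟨n, hn⟩ := pow_unbounded_of_one_lt (r / θ / |Polynomial.aeval θ p|)
        (by linarith : (1 : ℝ) < θ)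
      exact dec_A hP ht l ih n p hp h ((div_lt_iff₀ h0).1 hn)
    intro p hp h
    by_cases hy : |Polynomial.aeval θ p| ≤ r / θ
    · exact hA p hp hy
    · set y := Polynomial.aeval θ p with hyd
      have hc2 : Polynomial.aeval θ (Polynomial.X * p + Polynomial.C (dg y)) = θ * y + dg y :=
        aeval_step θ p _
      have hp2 : Polynomial.X * p + Polynomial.C (dg y) ≠ 0 := step_ne (Or.inl hp)
      have hpos : (0 : ℝ) < (3 / 4) ^ l := by positivity
      by_cases h1 : |θ * |y| - 1| ≤ r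
      · have h2 : ∃ M : ℕ, ∀ m, M ≤ m → UU W θ r m (θ * y + dg y) ≤ (3 / 4) ^ (l + 1) := by
          by_cases h3 : |θ * y + dg y| ≤ r / θ
          · obtain ⟨M, hM⟩ := hA _ hp2 (by rw [hc2]; exact h3)
            rw [hc2] at hM
            exact ⟨M, fun m hm => by have := hM m hm; rwa [VV_A h3, mul_one] at this⟩
          · obtain ⟨M, hM⟩ := ih _ hp2 (by rw [hc2, abs_dg hP]; exact h1)
            rw [hc2] at hM
            refine ⟨M, fun m hm => ?_⟩
            have h4 := hM m hm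
            rw [VV_B h3] at h4
            rw [pow_succ]; linarith
        obtain ⟨M, hM⟩ := h2
        refine ⟨M + 1, fun m hm => ?_⟩
        obtain ⟨m, rfl⟩ : ∃ m', m = m' + 1 := ⟨m - 1, by omega⟩
        rw [UU_succ hP, if_neg (typeB_lt hP hy), if_pos h1, zero_add, VV_B hy]
        have h5 : W (dg y) * UU W θ r m (θ * y + dg y) ≤ 1 / 2 * (3 / 4) ^ (l + 1) :=
          mul_le_mul (W_dg hP y).2 (hM m (by omega)) (UU_nonneg hP _ _) (by norm_num)
        linarith
      · refine ⟨1, fun m hm => ?_⟩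
        obtain ⟨m, rfl⟩ : ∃ m', m = m' + 1 := ⟨m - 1, by omega⟩
        rw [UU_succ hP, if_neg (typeB_lt hP hy), if_neg h1, zero_add, mul_zero, VV_B hy]
        positivity

theorem sv_tendsto_one (hP : Pm W θ r) (ht : Transcendental ℤ θ) (p : Polynomial ℤ) (hp : p ≠ 0)
    (h : |Polynomial.aeval θ p| ≤ r) :
    Tendsto (fun m => sv 1 W θ r m (Polynomial.aeval θ p)) atTop (𝓝 0) := by
  rw [Metric.tendsto_atTop]
  intro ε hε
  obtain ⟨l, hl⟩ := exists_pow_lt_of_lt_one (show (0 : ℝ) < ε / 2 by linarith)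
    (show (3 / 4 : ℝ) < 1 by norm_num)
  obtain ⟨M, hM⟩ := dec_all hP ht l p hp h
  refine ⟨M, fun m hm => ?_⟩
  rw [Real.dist_eq, sub_zero, abs_of_nonneg (sv_nonneg hP.hn _ _)]
  have h1 := sv_le_UU hP m (Polynomial.aeval θ p)
  have h2 := hM m hm
  have h3 := VV_le θ r (Polynomial.aeval θ p)
  have h4 : (3 / 4 : ℝ) ^ l * VV θ r (Polynomial.aeval θ p) ≤ (3 / 4) ^ l * 1 :=
    mul_le_mul_of_nonneg_left h3 (by positivity)
  linarith

theorem good_one {W : ℤ → ℝ} {θ : ℝ} (hθ : 1 + Real.sqrt 2 < θ) (ht : Transcendental ℤ θ)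
    (hn : ∀ k, 0 ≤ W k) (h0 : W 0 = 1) (h1 : W 1 ≤ 1 / 2) (h2 : W (-1) ≤ 1 / 2) : Good 1 W θ := by
  have hs : (1 : ℝ) ≤ Real.sqrt 2 := by
    rw [show (1 : ℝ) = Real.sqrt 1 by simp]
    exact Real.sqrt_le_sqrt (by norm_num)
  have hs2 : Real.sqrt 2 ^ 2 = 2 := Real.sq_sqrt (by norm_num)
  have hθ2 : 2 < θ := by linarith
  have hq : 0 < θ ^ 2 - 2 * θ - 1 := by nlinarith
  have hlt : 1 / (θ - 1) < θ / (θ + 1) := by
    rw [div_lt_div_iff₀ (by linarith) (by linarith)]
    nlinarith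
  set r : ℝ := (1 / (θ - 1) + θ / (θ + 1)) / 2 with hr
  have hR : 1 / (θ - 1) < r := by rw [hr]; linarith
  have hr2 : r < θ / (θ + 1) := by rw [hr]; linarith
  have hpos : 0 < 1 / (θ - 1) := by apply div_pos one_pos; linarith
  have hP : Pm W θ r := by
    refine ⟨hθ2, by linarith, ?_, ?_, hn, h0, h1, h2⟩
    · refine hr2.trans ?_
      rw [div_lt_one (by linarith)]; linarith
    · rw [lt_div_iff₀ (by linarith)] at hr2
      rw [div_lt_iff₀ (by linarith)]
      nlinarith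
  refine ⟨r, by push_cast; exact hR, fun p hp h => sv_tendsto_one hP ht p hp h⟩

end Pool.Agent.Helper59.MF
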